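import Mathlib

/-!
Two-eigenvalue matrices: general linear algebra used for the complements of double brooms.
-/

set_option autoImplicit false

namespace Pool.Agent.R3.Broom

open Finset Matrix Module

variable {V : Type*} [Fintype V] [DecidableEq V]

/-- `A` is a real symmetric matrix whose off-diagonal nonzero entries are exactly at the edges of
`G`; the diagonal is unrestricted. This is membership in the set `S(G)`. -/
def InS (G : SimpleGraph V) (A : Matrix V V ℝ) : Prop :=
  A.IsSymm ∧ ∀ i j : V, i ≠ j → (A i j ≠ 0 ↔ G.Adj i j)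

/-- `q(G)`: the minimum number of distinct eigenvalues of a matrix in `S(G)`. -/
noncomputable def q (G : SimpleGraph V) : ℕ :=
  sInf {k : ℕ | ∃ A : Matrix V V ℝ, InS G A ∧ (spectrum ℝ A).ncard = k}

/-- `G` achieves the multiplicity bipartition `[N - k, k]`: some matrix in `S(G)` has exactly two
distinct eigenvalues `a`, `b`, of multiplicities `N - k` and `k`, where `N` is the number of
vertices. -/
def Achieves (G : SimpleGraph V) (k : ℕ) : Prop :=
  ∃ A : Matrix V V ℝ, InS G A ∧ ∃ a b : ℝ, a ≠ b ∧ spectrum ℝ A = {a, b} ∧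
    finrank ℝ (Module.End.eigenspace (Matrix.toLin' A) a) = Fintype.card V - k ∧
    finrank ℝ (Module.End.eigenspace (Matrix.toLin' A) b) = k

/-- `MB(G)`: the least `k` with `1 ≤ k ≤ N / 2` such that `G` achieves `[N - k, k]`. -/
noncomputable def MB (G : SimpleGraph V) : ℕ :=
  sInf {k : ℕ | 1 ≤ k ∧ 2 * k ≤ Fintype.card V ∧ Achieves G k}

/-- a graph with an edge has no matrix with fewer than two distinct eigenvalues -/
lemma two_le_ncard (G : SimpleGraph V) (u v : V) (h : G.Adj u v) (A : Matrix V V ℝ)
    (hA : InS G A) : 2 ≤ (spectrum ℝ A).ncard := by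
  by_contra hlt
  push Not at hlt
  have hH : A.IsHermitian := by
    rw [Matrix.IsHermitian, Matrix.conjTranspose_eq_transpose_of_trivial]
    exact hA.1
  have hfin : (spectrum ℝ A).Finite := by
    rw [hH.spectrum_real_eq_range_eigenvalues]
    exact Set.finite_range _
  set a := hH.eigenvalues u with ha
  have ha' : a ∈ spectrum ℝ A := hH.eigenvalues_mem_spectrum_real u
  have hsub : ∀ b ∈ spectrum ℝ A, b = a := by
    intro b hb
    have h1 : (spectrum ℝ A).ncard ≤ 1 := by omega
    exact (Set.ncard_le_one hfin).mp h1 b hb a ha'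
  have hBH : (A - a • (1 : Matrix V V ℝ)).IsHermitian := by
    rw [Matrix.IsHermitian, Matrix.conjTranspose_eq_transpose_of_trivial, Matrix.transpose_sub,
      Matrix.transpose_smul, Matrix.transpose_one, hA.1]
  have hz : hBH.eigenvalues = 0 := by
    funext i
    have h1 := hBH.eigenvalues_mem_spectrum_real i
    obtain ⟨t, ht⟩ : ∃ t, t = hBH.eigenvalues i := ⟨_, rfl⟩
    rw [← ht] at h1
    have h2 : t + a ∈ spectrum ℝ A := by
      have h3 : A = algebraMap ℝ (Matrix V V ℝ) a + (A - a • (1 : Matrix V V ℝ)) := by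
        rw [Algebra.algebraMap_eq_smul_one]
        abel
      have h4 : t + a ∈ spectrum ℝ (algebraMap ℝ (Matrix V V ℝ) a +
          (A - a • (1 : Matrix V V ℝ))) := by
        rw [← spectrum.singleton_add_eq]
        exact ⟨a, rfl, t, h1, by ring⟩
      rw [← h3] at h4
      exact h4
    have := hsub _ h2
    simp only [Pi.zero_apply]
    linarith
  have hB0 := hBH.eigenvalues_eq_zero_iff.mp hz
  have h4 : A u v = 0 := by
    have h5 : A = a • (1 : Matrix V V ℝ) := sub_eq_zero.mp hB0
    rw [h5, Matrix.smul_apply, Matrix.one_apply_ne h.ne, smul_zero]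
  exact (hA.2 u v h.ne).mpr h h4

/-- no bipartition `[N - k, k]` with `k ≤ 2` when the complement contains an induced path on four
vertices -/
lemma not_achieves (G : SimpleGraph V) (l a c d : V) (hla : ¬ G.Adj l a) (hac : ¬ G.Adj a c)
    (hcd : ¬ G.Adj c d) (hlc : G.Adj l c) (hld : G.Adj l d) (had : G.Adj a d) (hla' : l ≠ a)
    (hac' : a ≠ c) (hcd' : c ≠ d) (k : ℕ) (hk : k ≤ 2) (hkN : k ≤ Fintype.card V) :
    ¬ Achieves G k := by
  rintro ⟨A, ⟨hsym, hpat⟩, lam, mu, hne, -, h1, h2⟩
  set f := Matrix.toLin' A with hf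
  set E := Module.End.eigenspace f lam with hE
  set F := Module.End.eigenspace f mu with hF
  have hinf : E ⊓ F = ⊥ := by
    rw [Submodule.eq_bot_iff]
    intro v hv
    have e1 : f v = lam • v := Module.End.mem_eigenspace_iff.mp hv.1
    have e2 : f v = mu • v := Module.End.mem_eigenspace_iff.mp hv.2
    have e3 : (lam - mu) • v = 0 := by rw [sub_smul, ← e1, ← e2, sub_self]
    rcases smul_eq_zero.mp e3 with h | h
    · exact absurd (sub_eq_zero.mp h) hne
    · exact h
  have hsup : E ⊔ F = ⊤ := by
    apply Submodule.eq_top_of_finrank_eq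
    have h3 := Submodule.finrank_sup_add_finrank_inf_eq E F
    rw [hinf, finrank_bot, add_zero, h1, h2] at h3
    rw [h3, Module.finrank_fintype_fun_eq_card]
    omega
  set B : Matrix V V ℝ := A - lam • (1 : Matrix V V ℝ) with hB
  set nu : ℝ := mu - lam with hnu
  have hnu0 : nu ≠ 0 := sub_ne_zero.mpr (Ne.symm hne)
  have hBE : ∀ v ∈ E, B.mulVec v = 0 := by
    intro v hv
    have e1 : f v = lam • v := Module.End.mem_eigenspace_iff.mp hv
    rw [hf, Matrix.toLin'_apply] at e1
    rw [hB, Matrix.sub_mulVec, e1, Matrix.smul_mulVec, Matrix.one_mulVec, sub_self]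
  have hBF : ∀ v ∈ F, B.mulVec v = nu • v := by
    intro v hv
    have e1 : f v = mu • v := Module.End.mem_eigenspace_iff.mp hv
    rw [hf, Matrix.toLin'_apply] at e1
    rw [hB, Matrix.sub_mulVec, e1, Matrix.smul_mulVec, Matrix.one_mulVec, ← sub_smul]
  have hBB : B * B = nu • B := by
    have key : ∀ w : V → ℝ, (B * B).mulVec w = (nu • B).mulVec w := by
      intro w
      have hw : w ∈ E ⊔ F := by rw [hsup]; trivial
      obtain ⟨x, hx, y, hy, rfl⟩ := Submodule.mem_sup.mp hw
      rw [← Matrix.mulVec_mulVec, Matrix.mulVec_add, hBE x hx, hBF y hy, zero_add,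
        Matrix.mulVec_smul, hBF y hy, Matrix.smul_mulVec, Matrix.mulVec_add, hBE x hx, hBF y hy,
        zero_add]
    apply Matrix.toLin'.injective
    refine LinearMap.ext fun v => ?_
    rw [Matrix.toLin'_apply, Matrix.toLin'_apply]
    exact key v
  have hBsym : ∀ i j, B i j = B j i := by
    intro i j
    have e1 : A i j = A j i := by
      have := congrFun (congrFun hsym j) i
      simpa [Matrix.transpose_apply] using this
    rw [hB, Matrix.sub_apply, Matrix.sub_apply, e1, Matrix.smul_apply, Matrix.smul_apply]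
    by_cases hij : i = j
    · rw [hij]
    · rw [Matrix.one_apply_ne hij, Matrix.one_apply_ne (Ne.symm hij)]
  have hoff : ∀ i j, i ≠ j → B i j = A i j := by
    intro i j hij
    rw [hB, Matrix.sub_apply, Matrix.smul_apply, Matrix.one_apply_ne hij, smul_zero, sub_zero]
  have hzero : ∀ i j, i ≠ j → ¬ G.Adj i j → B i j = 0 := by
    intro i j hij h
    rw [hoff i j hij]
    by_contra h'
    exact h ((hpat i j hij).mp h')
  have hnz : ∀ i j, G.Adj i j → B i j ≠ 0 := by
    intro i j h
    rw [hoff i j h.ne]
    exact (hpat i j h.ne).mpr h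
  -- rank of B
  have hrank : B.rank ≤ 2 := by
    have hker : LinearMap.ker (Matrix.toLin' B) = E := by
      ext v
      rw [LinearMap.mem_ker, Matrix.toLin'_apply, hE, Module.End.mem_eigenspace_iff, hf,
        Matrix.toLin'_apply, hB, Matrix.sub_mulVec, Matrix.smul_mulVec, Matrix.one_mulVec,
        sub_eq_zero]
    have h5 := LinearMap.finrank_range_add_finrank_ker (Matrix.toLin' B)
    rw [hker, h1, Module.finrank_fintype_fun_eq_card] at h5
    have h6 : B.rank = finrank ℝ (LinearMap.range (Matrix.toLin' B)) := by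
      rw [Matrix.rank, Matrix.toLin'_apply']
    rw [h6]
    omega
  -- diagonal entries
  have hdiag : ∀ i j, G.Adj i j → B i i ≠ 0 := by
    intro i j hij h0
    have e1 : (B * B) i i = 0 := by rw [hBB, Matrix.smul_apply, h0, smul_zero]
    rw [Matrix.mul_apply] at e1
    have e2 : ∑ x, B i x * B x i = ∑ x, B i x ^ 2 := by
      refine sum_congr rfl fun x _ => ?_
      rw [hBsym x i]; ring
    rw [e2, sum_eq_zero_iff_of_nonneg (fun x _ => sq_nonneg _)] at e1
    exact hnz i j hij (pow_eq_zero_iff (two_ne_zero)|>.mp (e1 j (mem_univ j)))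
  have hdet : B l l * B c c = B l c ^ 2 := by
    by_contra hcon
    set S : Matrix (Fin 3) (Fin 3) ℝ := B.submatrix ![l, a, c] ![l, a, c] with hS
    have hSdet : S.det = B a a * (B l l * B c c - B l c ^ 2) := by
      rw [Matrix.det_fin_three]
      simp only [hS, Matrix.submatrix_apply, Matrix.cons_val_zero, Matrix.cons_val_one,
        Matrix.cons_val]
      rw [hzero l a hla' hla, hzero a c hac' hac, hBsym a l, hzero l a hla' hla, hBsym c a,
        hzero a c hac' hac, hBsym c l]
      ring
    have hSne : S.det ≠ 0 := by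
      rw [hSdet]
      exact mul_ne_zero (hdiag a d had) (sub_ne_zero.mpr hcon)
    have hSr : S.rank = 3 := by
      have := Matrix.rank_of_isUnit S ((Matrix.isUnit_iff_isUnit_det S).mpr hSne.isUnit)
      simpa using this
    have hle : S.rank ≤ B.rank := Matrix.rank_submatrix_le B _ _
    omega
  have hcc : B c c ≠ 0 := hdiag c l hlc.symm
  -- the kernel vector
  set v : V → ℝ := fun x => if x = l then B c c else if x = c then - B l c else 0 with hv
  have hlcne : l ≠ c := hlc.ne
  have hBv : ∀ x, B.mulVec v x = B x l * B c c - B x c * B l c := by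
    intro x
    rw [Matrix.mulVec, dotProduct]
    have e1 : ∀ y, B x y * v y = (if y = l then B x l * B c c else 0)
        + (if y = c then - (B x c * B l c) else 0) := by
      intro y
      simp only [hv]
      by_cases h1 : y = l
      · subst h1
        simp [hlcne]
      · by_cases h2 : y = c
        · subst h2
          simp [h1]
        · simp [h1, h2]
    simp_rw [e1]
    rw [sum_add_distrib, sum_ite_eq' univ l, sum_ite_eq' univ c]
    simp
    ring
  have hquad : dotProduct v (B.mulVec v) = 0 := by
    rw [dotProduct]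
    have e1 : ∀ y, v y * B.mulVec v y = (if y = l then B c c * (B.mulVec v l) else 0)
        + (if y = c then - (B l c * (B.mulVec v c)) else 0) := by
      intro y
      by_cases h1 : y = l
      · subst h1
        simp [hlcne, hv]
      · by_cases h2 : y = c
        · subst h2
          simp [h1, hv]
        · simp [h1, h2, hv]
    simp_rw [e1]
    rw [sum_add_distrib, sum_ite_eq' univ l, sum_ite_eq' univ c]
    simp only [mem_univ, if_true]
    rw [hBv, hBv, hBsym c l]
    have : B c c * (B l l * B c c - B l c * B l c) + -(B l c * (B l c * B c c - B c c * B l c))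
        = B c c * (B l l * B c c - B l c ^ 2) := by ring
    rw [this, hdet, sub_self, mul_zero]
  have hnorm : dotProduct (B.mulVec v) (B.mulVec v) = 0 := by
    have e1 : dotProduct (B.mulVec v) (B.mulVec v) = dotProduct v ((B * B).mulVec v) := by
      rw [← Matrix.mulVec_mulVec, Matrix.dotProduct_mulVec v B (B.mulVec v)]
      congr 1
      have : Bᵀ = B := by
        ext i j
        exact hBsym j i
      rw [← Matrix.mulVec_transpose, this]
    rw [e1, hBB, Matrix.smul_mulVec, dotProduct_smul, hquad, smul_zero]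
  have hBv0 : B.mulVec v d = 0 := by
    have := congrFun (dotProduct_self_eq_zero.mp hnorm) d
    simpa using this
  rw [hBv, hBsym d c, hzero c d hcd' hcd, zero_mul, sub_zero] at hBv0
  rcases mul_eq_zero.mp hBv0 with h | h
  · exact hnz l d hld (by rw [hBsym]; exact h)
  · exact hcc h

/-- a frame of vectors in `ℝ³` with orthonormal columns gives a projection of rank three -/
lemma achieves_three (G : SimpleGraph V) (Q : Matrix V (Fin 3) ℝ) (hQ : Qᵀ * Q = 1)
    (hpat : ∀ i j : V, i ≠ j → (dotProduct (Q i) (Q j) ≠ 0 ↔ G.Adj i j))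
    (hN : 3 < Fintype.card V) : Achieves G 3 := by
  set A : Matrix V V ℝ := Q * Qᵀ with hA
  have hAij : ∀ i j, A i j = dotProduct (Q i) (Q j) := by
    intro i j
    rw [hA, Matrix.mul_apply]
    rfl
  have hAA : A * A = A := by
    rw [hA, Matrix.mul_assoc, ← Matrix.mul_assoc Qᵀ, hQ, Matrix.one_mul]
  have hrank : A.rank = 3 := by
    rw [hA, Matrix.rank_self_mul_transpose, ← Matrix.rank_transpose_mul_self, hQ, Matrix.rank_one]
    simp
  have hE1 : Module.End.eigenspace (Matrix.toLin' A) 1 = LinearMap.range (Matrix.toLin' A) := by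
    ext v
    rw [Module.End.mem_eigenspace_iff, one_smul, LinearMap.mem_range]
    constructor
    · intro h
      exact ⟨v, h⟩
    · rintro ⟨w, rfl⟩
      rw [Matrix.toLin'_apply, Matrix.toLin'_apply, Matrix.mulVec_mulVec, hAA]
  have hE0 : Module.End.eigenspace (Matrix.toLin' A) 0 = LinearMap.ker (Matrix.toLin' A) := by
    ext v
    rw [Module.End.mem_eigenspace_iff, zero_smul, LinearMap.mem_ker]
  have hfr : finrank ℝ (LinearMap.range (Matrix.toLin' A)) = 3 := by
    rw [← hrank, Matrix.rank, Matrix.toLin'_apply']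
  have hfk : finrank ℝ (LinearMap.ker (Matrix.toLin' A)) = Fintype.card V - 3 := by
    have h5 := LinearMap.finrank_range_add_finrank_ker (Matrix.toLin' A)
    rw [hfr, Module.finrank_fintype_fun_eq_card] at h5
    omega
  refine ⟨A, ⟨?_, ?_⟩, 0, 1, zero_ne_one, ?_, ?_, ?_⟩
  · rw [Matrix.IsSymm, hA, Matrix.transpose_mul, Matrix.transpose_transpose]
  · intro i j hij
    rw [hAij]
    exact hpat i j hij
  · ext x
    rw [← Matrix.spectrum_toLin', ← Module.End.hasEigenvalue_iff_mem_spectrum,
      Set.mem_insert_iff, Set.mem_singleton_iff]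
    constructor
    · intro h
      obtain ⟨v, hv⟩ := h.exists_hasEigenvector
      have e1 : A.mulVec v = x • v := by
        have := hv.apply_eq_smul
        rwa [Matrix.toLin'_apply] at this
      have e2 : A.mulVec (A.mulVec v) = A.mulVec v := by
        rw [Matrix.mulVec_mulVec, hAA]
      rw [e1, Matrix.mulVec_smul, e1, smul_smul] at e2
      have e3 : (x * x - x) • v = 0 := by rw [sub_smul, e2, sub_self]
      rcases smul_eq_zero.mp e3 with h6 | h6
      · have : x * (x - 1) = 0 := by linarith
        rcases mul_eq_zero.mp this with h7 | h7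
        · exact Or.inl h7
        · exact Or.inr (by linarith)
      · exact absurd h6 hv.2
    · rintro (rfl | rfl)
      · rw [Module.End.hasEigenvalue_iff, hE0]
        intro h
        rw [h, finrank_bot] at hfk
        omega
      · rw [Module.End.hasEigenvalue_iff, hE1]
        intro h
        rw [h, finrank_bot] at hfr
        omega
  · rw [hE0, hfk]
  · rw [hE1, hfr]

theorem q_and_MB (G : SimpleGraph V) (Q : Matrix V (Fin 3) ℝ) (hQ : Qᵀ * Q = 1)
    (hpat : ∀ i j : V, i ≠ j → (dotProduct (Q i) (Q j) ≠ 0 ↔ G.Adj i j))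
    (hN : 6 ≤ Fintype.card V) (l a c d : V) (hla : ¬ G.Adj l a) (hac : ¬ G.Adj a c)
    (hcd : ¬ G.Adj c d) (hlc : G.Adj l c) (hld : G.Adj l d) (had : G.Adj a d) (hla' : l ≠ a)
    (hac' : a ≠ c) (hcd' : c ≠ d) : q G = 2 ∧ MB G = 3 := by
  have h3 := achieves_three G Q hQ hpat (by omega)
  constructor
  · apply le_antisymm
    · obtain ⟨A, hA, a', b', hne, hspec, -, -⟩ := h3
      refine Nat.sInf_le ⟨A, hA, ?_⟩
      rw [hspec, Set.ncard_pair hne]
    · refine le_csInf ?_ ?_
      · obtain ⟨A, hA, -⟩ := h3
        exact ⟨_, A, hA, rfl⟩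
      · rintro k ⟨A, hA, rfl⟩
        exact two_le_ncard G l c hlc A hA
  · apply le_antisymm
    · exact Nat.sInf_le ⟨by norm_num, by omega, h3⟩
    · refine le_csInf ⟨3, by norm_num, by omega, h3⟩ ?_
      rintro k ⟨hk1, hk2, hk⟩
      by_contra hlt
      exact not_achieves G l a c d hla hac hcd hlc hld had hla' hac' hcd' k (by omega) (by omega) hk

end Pool.Agent.R3.Broom
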