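import Pool.Agent.R3.Broom1

set_option autoImplicit false

namespace Pool.Agent.R3.Broom

open Finset Matrix Module

/-- one direction of the adjacency of the double broom: the spine is the path
`0, 1, ..., r - 1`, the `m` leaves `inr (inl _)` hang at `0`, the `n` leaves `inr (inr _)` hang at
`r - 1` -/
def broomRel (r m n : ℕ) : Fin r ⊕ (Fin m ⊕ Fin n) → Fin r ⊕ (Fin m ⊕ Fin n) → Prop
  | Sum.inl i, Sum.inl j => i.val + 1 = j.val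
  | Sum.inl i, Sum.inr (Sum.inl _) => i.val = 0
  | Sum.inl i, Sum.inr (Sum.inr _) => i.val + 1 = r
  | _, _ => False

/-- the tree `S^r_{m,n}` -/
def doubleBroom (r m n : ℕ) : SimpleGraph (Fin r ⊕ (Fin m ⊕ Fin n)) :=
  SimpleGraph.fromRel (broomRel r m n)

lemma compl_adj_iff (r m n : ℕ) (u v : Fin r ⊕ (Fin m ⊕ Fin n)) :
    (doubleBroom r m n)ᶜ.Adj u v ↔ u ≠ v ∧ ¬ broomRel r m n u v ∧ ¬ broomRel r m n v u := by
  rw [SimpleGraph.compl_adj, doubleBroom, SimpleGraph.fromRel_adj]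
  tauto

/-- the leaf vectors: leaf `0` gets `P1`, each of the others gets `P2 / √(m - 1)` -/
noncomputable def leaf (m : ℕ) (P1 P2 : Fin 3 → ℝ) (j : Fin m) : Fin 3 → ℝ :=
  if j.val = 0 then P1 else (Real.sqrt ((m : ℝ) - 1))⁻¹ • P2

lemma scale_pos {m : ℕ} (hm : 2 ≤ m) : 0 < (Real.sqrt ((m : ℝ) - 1))⁻¹ := by
  have : (2 : ℝ) ≤ m := by exact_mod_cast hm
  exact inv_pos.mpr (Real.sqrt_pos.mpr (by linarith))

lemma scale_sq {m : ℕ} (hm : 2 ≤ m) :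
    ((m : ℝ) - 1) * ((Real.sqrt ((m : ℝ) - 1))⁻¹ * (Real.sqrt ((m : ℝ) - 1))⁻¹) = 1 := by
  have : (2 : ℝ) ≤ m := by exact_mod_cast hm
  have h1 : (0 : ℝ) < (m : ℝ) - 1 := by linarith
  rw [← mul_inv, Real.mul_self_sqrt h1.le, mul_inv_cancel₀ h1.ne']

lemma leaf_cases {m : ℕ} (hm : 2 ≤ m) (P1 P2 : Fin 3 → ℝ) (j : Fin m) :
    (∃ c : ℝ, c ≠ 0 ∧ leaf m P1 P2 j = c • P1 ∧ j.val = 0) ∨
      (∃ c : ℝ, c ≠ 0 ∧ leaf m P1 P2 j = c • P2 ∧ j.val ≠ 0) := by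
  by_cases h : j.val = 0
  · exact Or.inl ⟨1, one_ne_zero, by rw [leaf, if_pos h, one_smul], h⟩
  · exact Or.inr ⟨_, (scale_pos hm).ne', by rw [leaf, if_neg h], h⟩

lemma sum_leaf {m : ℕ} (hm : 2 ≤ m) (P1 P2 : Fin 3 → ℝ) (a b : Fin 3) :
    ∑ j : Fin m, leaf m P1 P2 j a * leaf m P1 P2 j b = P1 a * P1 b + P2 a * P2 b := by
  obtain ⟨k, rfl⟩ : ∃ k, m = k + 1 := ⟨m - 1, by omega⟩
  rw [Fin.sum_univ_succ]
  have h0 : leaf (k + 1) P1 P2 0 = P1 := by rw [leaf, if_pos (by simp)]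
  have h1 : ∀ i : Fin k, leaf (k + 1) P1 P2 i.succ
      = (Real.sqrt (((k + 1 : ℕ) : ℝ) - 1))⁻¹ • P2 := by
    intro i
    rw [leaf, if_neg (by simp)]
  rw [h0]
  simp_rw [h1]
  rw [sum_const, card_univ, Fintype.card_fin, nsmul_eq_mul]
  have h2 := scale_sq hm
  have h3 : (((k + 1 : ℕ) : ℝ) - 1) = (k : ℝ) := by push_cast; ring
  simp only [Pi.smul_apply, smul_eq_mul]
  congr 1
  have h4 : (k : ℝ) * ((Real.sqrt (((k + 1 : ℕ) : ℝ) - 1))⁻¹ *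
      (Real.sqrt (((k + 1 : ℕ) : ℝ) - 1))⁻¹) = 1 := by
    rw [← h3]
    simpa using h2
  calc (k : ℝ) * ((Real.sqrt (((k + 1 : ℕ) : ℝ) - 1))⁻¹ * P2 a *
      ((Real.sqrt (((k + 1 : ℕ) : ℝ) - 1))⁻¹ * P2 b))
      = ((k : ℝ) * ((Real.sqrt (((k + 1 : ℕ) : ℝ) - 1))⁻¹ *
      (Real.sqrt (((k + 1 : ℕ) : ℝ) - 1))⁻¹)) * (P2 a * P2 b) := by ring
    _ = P2 a * P2 b := by rw [h4, one_mul]

lemma dot_smul_ne {c d : ℝ} (hc : c ≠ 0) (hd : d ≠ 0) (P R : Fin 3 → ℝ) :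
    dotProduct (c • P) (d • R) ≠ 0 ↔ dotProduct P R ≠ 0 := by
  rw [smul_dotProduct, dotProduct_smul, smul_eq_mul, smul_eq_mul]
  constructor
  · intro h h'
    rw [h', mul_zero, mul_zero] at h
    exact h rfl
  · intro h
    exact mul_ne_zero hc (mul_ne_zero hd h)

/-- the data needed for a frame in `ℝ³` -/
lemma frame (r m n : ℕ) (hm : 2 ≤ m) (hn : 2 ≤ n) (s : Fin r → Fin 3 → ℝ) (W : Fin r → ℝ)
    (hW : ∀ i, 0 < W i) (P1 P2 R1 R2 : Fin 3 → ℝ)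
    (hsum : ∀ i j : Fin 3, ∑ k, W k * (s k i * s k j) + (P1 i * P1 j + P2 i * P2 j)
      + (R1 i * R1 j + R2 i * R2 j) = (1 : Matrix (Fin 3) (Fin 3) ℝ) i j)
    (hs : ∀ i j : Fin r, i ≠ j →
      (dotProduct (s i) (s j) ≠ 0 ↔ ¬ (i.val + 1 = j.val) ∧ ¬ (j.val + 1 = i.val)))
    (h1 : ∀ i, dotProduct (s i) P1 ≠ 0 ↔ i.val ≠ 0)
    (h2 : ∀ i, dotProduct (s i) P2 ≠ 0 ↔ i.val ≠ 0)
    (h1' : ∀ i, dotProduct (s i) R1 ≠ 0 ↔ i.val + 1 ≠ r)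
    (h2' : ∀ i, dotProduct (s i) R2 ≠ 0 ↔ i.val + 1 ≠ r)
    (hP : dotProduct P1 P2 ≠ 0) (hP2 : dotProduct P2 P2 ≠ 0)
    (hR : dotProduct R1 R2 ≠ 0) (hR2 : dotProduct R2 R2 ≠ 0)
    (h11 : dotProduct P1 R1 ≠ 0) (h12 : dotProduct P1 R2 ≠ 0)
    (h21 : dotProduct P2 R1 ≠ 0) (h22 : dotProduct P2 R2 ≠ 0) :
    ∃ Q : Matrix (Fin r ⊕ (Fin m ⊕ Fin n)) (Fin 3) ℝ, Qᵀ * Q = 1 ∧
      ∀ i j, i ≠ j → (dotProduct (Q i) (Q j) ≠ 0 ↔ (doubleBroom r m n)ᶜ.Adj i j) := by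
  set Q : Matrix (Fin r ⊕ (Fin m ⊕ Fin n)) (Fin 3) ℝ := fun v => match v with
    | Sum.inl i => Real.sqrt (W i) • s i
    | Sum.inr (Sum.inl j) => leaf m P1 P2 j
    | Sum.inr (Sum.inr j) => leaf n R1 R2 j with hQ
  have hsq : ∀ i, Real.sqrt (W i) ≠ 0 := fun i => (Real.sqrt_pos.mpr (hW i)).ne'
  -- spine against a left or right leaf
  have hL : ∀ (i : Fin r) (j : Fin m),
      (dotProduct (Real.sqrt (W i) • s i) (leaf m P1 P2 j) ≠ 0 ↔ i.val ≠ 0) := by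
    intro i j
    rcases leaf_cases hm P1 P2 j with ⟨c, hc, he, -⟩ | ⟨c, hc, he, -⟩
    · rw [he, dot_smul_ne (hsq i) hc]; exact h1 i
    · rw [he, dot_smul_ne (hsq i) hc]; exact h2 i
  have hRt : ∀ (i : Fin r) (j : Fin n),
      (dotProduct (Real.sqrt (W i) • s i) (leaf n R1 R2 j) ≠ 0 ↔ i.val + 1 ≠ r) := by
    intro i j
    rcases leaf_cases hn R1 R2 j with ⟨c, hc, he, -⟩ | ⟨c, hc, he, -⟩
    · rw [he, dot_smul_ne (hsq i) hc]; exact h1' i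
    · rw [he, dot_smul_ne (hsq i) hc]; exact h2' i
  have hLR : ∀ (i : Fin m) (j : Fin n), dotProduct (leaf m P1 P2 i) (leaf n R1 R2 j) ≠ 0 := by
    intro i j
    rcases leaf_cases hm P1 P2 i with ⟨c, hc, he, -⟩ | ⟨c, hc, he, -⟩ <;>
    rcases leaf_cases hn R1 R2 j with ⟨c', hc', he', -⟩ | ⟨c', hc', he', -⟩ <;>
    rw [he, he', dot_smul_ne hc hc'] <;> assumption
  have hLL : ∀ (k : ℕ) (hk : 2 ≤ k) (X1 X2 : Fin 3 → ℝ), dotProduct X1 X2 ≠ 0 →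
      dotProduct X2 X2 ≠ 0 → ∀ i j : Fin k, i ≠ j →
      dotProduct (leaf k X1 X2 i) (leaf k X1 X2 j) ≠ 0 := by
    intro k hk X1 X2 hX hX2 i j hij
    rcases leaf_cases hk X1 X2 i with ⟨c, hc, he, h0⟩ | ⟨c, hc, he, h0⟩ <;>
    rcases leaf_cases hk X1 X2 j with ⟨c', hc', he', h0'⟩ | ⟨c', hc', he', h0'⟩
    · exact absurd (Fin.ext (h0.trans h0'.symm)) hij
    · rw [he, he', dot_smul_ne hc hc']; exact hX
    · rw [he, he', dot_smul_ne hc hc', dotProduct_comm]; exact hX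
    · rw [he, he', dot_smul_ne hc hc']; exact hX2
  refine ⟨Q, ?_, ?_⟩
  · ext a b
    rw [Matrix.mul_apply]
    simp only [Matrix.transpose_apply]
    rw [Fintype.sum_sum_type, Fintype.sum_sum_type]
    have e1 : ∑ x : Fin r, Q (Sum.inl x) a * Q (Sum.inl x) b
        = ∑ k, W k * (s k a * s k b) := by
      refine sum_congr rfl fun k _ => ?_
      have : Real.sqrt (W k) * Real.sqrt (W k) = W k := Real.mul_self_sqrt (hW k).le
      simp only [hQ, Pi.smul_apply, smul_eq_mul]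
      calc Real.sqrt (W k) * s k a * (Real.sqrt (W k) * s k b)
          = (Real.sqrt (W k) * Real.sqrt (W k)) * (s k a * s k b) := by ring
        _ = W k * (s k a * s k b) := by rw [this]
    have e2 : ∑ x : Fin m, Q (Sum.inr (Sum.inl x)) a * Q (Sum.inr (Sum.inl x)) b
        = P1 a * P1 b + P2 a * P2 b := sum_leaf hm P1 P2 a b
    have e3 : ∑ x : Fin n, Q (Sum.inr (Sum.inr x)) a * Q (Sum.inr (Sum.inr x)) b
        = R1 a * R1 b + R2 a * R2 b := sum_leaf hn R1 R2 a b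
    rw [e1, e2, e3, ← add_assoc]
    exact hsum a b
  · intro u v huv
    rw [compl_adj_iff]
    rcases u with i | (i | i) <;> rcases v with j | (j | j)
    · have hij : i ≠ j := fun h => huv (by rw [h])
      show dotProduct (Real.sqrt (W i) • s i) (Real.sqrt (W j) • s j) ≠ 0 ↔ _
      rw [dot_smul_ne (hsq i) (hsq j), hs i j hij]
      exact ⟨fun h => ⟨huv, h⟩, fun h => h.2⟩
    · show dotProduct (Real.sqrt (W i) • s i) (leaf m P1 P2 j) ≠ 0 ↔ _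
      rw [hL]
      exact ⟨fun h => ⟨huv, h, fun h' => h'⟩, fun h => h.2.1⟩
    · show dotProduct (Real.sqrt (W i) • s i) (leaf n R1 R2 j) ≠ 0 ↔ _
      rw [hRt]
      exact ⟨fun h => ⟨huv, h, fun h' => h'⟩, fun h => h.2.1⟩
    · show dotProduct (leaf m P1 P2 i) (Real.sqrt (W j) • s j) ≠ 0 ↔ _
      rw [dotProduct_comm, hL]
      exact ⟨fun h => ⟨huv, fun h' => h', h⟩, fun h => h.2.2⟩
    · have hij : i ≠ j := fun h => huv (by rw [h])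
      show dotProduct (leaf m P1 P2 i) (leaf m P1 P2 j) ≠ 0 ↔ _
      exact ⟨fun h => ⟨huv, fun h' => h', fun h' => h'⟩, fun _ => hLL m hm P1 P2 hP hP2 i j hij⟩
    · show dotProduct (leaf m P1 P2 i) (leaf n R1 R2 j) ≠ 0 ↔ _
      exact ⟨fun h => ⟨huv, fun h' => h', fun h' => h'⟩, fun _ => hLR i j⟩
    · show dotProduct (leaf n R1 R2 i) (Real.sqrt (W j) • s j) ≠ 0 ↔ _
      rw [dotProduct_comm, hRt]
      exact ⟨fun h => ⟨huv, fun h' => h', h⟩, fun h => h.2.2⟩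
    · show dotProduct (leaf n R1 R2 i) (leaf m P1 P2 j) ≠ 0 ↔ _
      rw [dotProduct_comm]
      exact ⟨fun h => ⟨huv, fun h' => h', fun h' => h'⟩, fun _ => hLR j i⟩
    · have hij : i ≠ j := fun h => huv (by rw [h])
      show dotProduct (leaf n R1 R2 i) (leaf n R1 R2 j) ≠ 0 ↔ _
      exact ⟨fun h => ⟨huv, fun h' => h', fun h' => h'⟩, fun _ => hLL n hn R1 R2 hR hR2 i j hij⟩

end Pool.Agent.R3.Broom
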