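import Pool.Agent.R3.Broom2

set_option autoImplicit false

namespace Pool.Agent.R3.Broom

open Finset Matrix Module

lemma dot3 (a b c x y z : ℝ) : dotProduct ![a, b, c] ![x, y, z] = a * x + b * y + c * z := by
  simp [dotProduct, Fin.sum_univ_three]

lemma frame_two (m n : ℕ) (hm : 2 ≤ m) (hn : 2 ≤ n) :
    ∃ Q : Matrix (Fin 2 ⊕ (Fin m ⊕ Fin n)) (Fin 3) ℝ, Qᵀ * Q = 1 ∧
      ∀ i j, i ≠ j → (dotProduct (Q i) (Q j) ≠ 0 ↔ (doubleBroom 2 m n)ᶜ.Adj i j) := by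
  refine frame 2 m n hm hn ![![1, 0, 0], ![0, 1, 0]] ![1 / 9, 1 / 9] ?_
    ![0, 2 / 3, 1 / 2] ![0, 2 / 3, -1 / 2] ![2 / 3, 0, 1 / 2] ![2 / 3, 0, -1 / 2]
    ?_ ?_ ?_ ?_ ?_ ?_ ?_ ?_ ?_ ?_ ?_ ?_ ?_ ?_
  · intro i; fin_cases i <;> simp
  · intro i j
    fin_cases i <;> fin_cases j <;> (simp [Fin.sum_univ_two, Matrix.one_apply] <;> norm_num)
  · intro i j hij
    fin_cases i <;> fin_cases j <;> first | exact absurd rfl hij | (simp [dot3] <;> norm_num)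
  · intro i; fin_cases i <;> (simp [dot3] <;> norm_num)
  · intro i; fin_cases i <;> (simp [dot3] <;> norm_num)
  · intro i; fin_cases i <;> (simp [dot3] <;> norm_num)
  · intro i; fin_cases i <;> (simp [dot3] <;> norm_num)
  all_goals (simp [dot3] <;> norm_num)

lemma frame_three (m n : ℕ) (hm : 2 ≤ m) (hn : 2 ≤ n) :
    ∃ Q : Matrix (Fin 3 ⊕ (Fin m ⊕ Fin n)) (Fin 3) ℝ, Qᵀ * Q = 1 ∧
      ∀ i j, i ≠ j → (dotProduct (Q i) (Q j) ≠ 0 ↔ (doubleBroom 3 m n)ᶜ.Adj i j) := by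
  refine frame 3 m n hm hn ![![1, 0, 0], ![0, 0, 1], ![3 / 5, 4 / 5, 0]] ![1 / 2, 3 / 4, 1 / 2] ?_
    ![0, 1 / 2, 1 / 4] ![0, 1 / 2, -1 / 4] ![-2 / 5, 3 / 10, 1 / 4] ![-2 / 5, 3 / 10, -1 / 4]
    ?_ ?_ ?_ ?_ ?_ ?_ ?_ ?_ ?_ ?_ ?_ ?_ ?_ ?_
  · intro i; fin_cases i <;> simp
  · intro i j
    fin_cases i <;> fin_cases j <;> (simp [Fin.sum_univ_three, Matrix.one_apply] <;> norm_num)
  · intro i j hij
    fin_cases i <;> fin_cases j <;> first | exact absurd rfl hij | (simp [dot3] <;> norm_num)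
  · intro i; fin_cases i <;> (simp [dot3] <;> norm_num)
  · intro i; fin_cases i <;> (simp [dot3] <;> norm_num)
  · intro i; fin_cases i <;> (simp [dot3] <;> norm_num)
  · intro i; fin_cases i <;> (simp [dot3] <;> norm_num)
  all_goals (simp [dot3] <;> norm_num)

lemma frame_four (m n : ℕ) (hm : 2 ≤ m) (hn : 2 ≤ n) :
    ∃ Q : Matrix (Fin 4 ⊕ (Fin m ⊕ Fin n)) (Fin 3) ℝ, Qᵀ * Q = 1 ∧
      ∀ i j, i ≠ j → (dotProduct (Q i) (Q j) ≠ 0 ↔ (doubleBroom 4 m n)ᶜ.Adj i j) := by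
  refine frame 4 m n hm hn ![![0, 3 / 5, 4 / 5], ![1, 0, 0], ![0, 1, 0], ![3 / 5, 0, 4 / 5]]
    ![1 / 2, 3 / 8, 3 / 8, 1 / 2] ?_
    ![1 / 4, -2 / 5, 3 / 10] ![1 / 4, 2 / 5, -3 / 10] ![-2 / 5, 1 / 4, 3 / 10]
    ![2 / 5, 1 / 4, -3 / 10]
    ?_ ?_ ?_ ?_ ?_ ?_ ?_ ?_ ?_ ?_ ?_ ?_ ?_ ?_
  · intro i; fin_cases i <;> simp
  · intro i j
    fin_cases i <;> fin_cases j <;> (simp [Fin.sum_univ_four, Matrix.one_apply] <;> norm_num)
  · intro i j hij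
    fin_cases i <;> fin_cases j <;> first | exact absurd rfl hij | (simp [dot3] <;> norm_num)
  · intro i; fin_cases i <;> (simp [dot3] <;> norm_num)
  · intro i; fin_cases i <;> (simp [dot3] <;> norm_num)
  · intro i; fin_cases i <;> (simp [dot3] <;> norm_num)
  · intro i; fin_cases i <;> (simp [dot3] <;> norm_num)
  all_goals (simp [dot3] <;> norm_num)

end Pool.Agent.R3.Broom
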