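import Mathlib

/-!
Invariant means on abelian groups with finite approximation by windows
(helper3, for MP_cc4361_co).
-/

set_option linter.unusedSectionVars false

namespace Pool.Agent.R3.CB

open Filter Topology

variable {G : Type*} [AddCommGroup G]

/-- Expectation of `f` with respect to finitely supported weights `w`. -/
noncomputable def E (w : G →₀ ℝ) (f : G → ℝ) : ℝ := w.sum (fun x c => c * f x)

lemma E_eq (w : G →₀ ℝ) (f : G → ℝ) : E w f = ∑ x ∈ w.support, w x * f x := rfl

/-- probability weights -/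
def IsWin (w : G →₀ ℝ) : Prop := (∀ x, 0 ≤ w x) ∧ E w (fun _ => 1) = 1

/-- near invariance (dual form) -/
def Near (w : G →₀ ℝ) (s : G) (ε : ℝ) : Prop :=
  ∀ f : G → ℝ, (∀ x, |f x| ≤ 1) → |E w (fun x => f (x + s)) - E w f| ≤ ε

lemma E_add (w : G →₀ ℝ) (f g : G → ℝ) : E w (fun x => f x + g x) = E w f + E w g := by
  simp [E_eq, mul_add, Finset.sum_add_distrib]

lemma E_sub (w : G →₀ ℝ) (f g : G → ℝ) : E w (fun x => f x - g x) = E w f - E w g := by
  simp [E_eq, mul_sub, Finset.sum_sub_distrib]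

lemma E_smul (w : G →₀ ℝ) (c : ℝ) (f : G → ℝ) : E w (fun x => c * f x) = c * E w f := by
  simp only [E_eq, Finset.mul_sum]
  exact Finset.sum_congr rfl (fun x _ => by ring)

lemma E_sum {ι : Type*} (w : G →₀ ℝ) (s : Finset ι) (f : ι → G → ℝ) :
    E w (fun x => ∑ i ∈ s, f i x) = ∑ i ∈ s, E w (f i) := by
  simp only [E_eq, Finset.mul_sum]
  rw [Finset.sum_comm]

lemma E_mono {w : G →₀ ℝ} (hw : ∀ x, 0 ≤ w x) {f g : G → ℝ} (h : ∀ x, f x ≤ g x) :
    E w f ≤ E w g := by
  simp only [E_eq]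
  exact Finset.sum_le_sum (fun x _ => mul_le_mul_of_nonneg_left (h x) (hw x))

lemma E_const {w : G →₀ ℝ} (hw : IsWin w) (c : ℝ) : E w (fun _ => c) = c := by
  have h := hw.2
  have : E w (fun _ => c) = c * E w (fun _ => 1) := by
    rw [← E_smul]; simp
  rw [this, h, mul_one]

lemma E_le_one {w : G →₀ ℝ} (hw : IsWin w) {f : G → ℝ} {C : ℝ} (h : ∀ x, |f x| ≤ C) :
    |E w f| ≤ C := by
  rw [abs_le]
  constructor
  · rw [← E_const hw (-C)]
    exact E_mono hw.1 (fun x => (abs_le.1 (h x)).1)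
  · calc E w f ≤ E w (fun _ => C) := E_mono hw.1 (fun x => (abs_le.1 (h x)).2)
      _ = C := E_const hw C

lemma E_wadd (w v : G →₀ ℝ) (f : G → ℝ) : E (w + v) f = E w f + E v f := by
  classical
  unfold E
  rw [Finsupp.sum_add_index']
  · intro a; simp
  · intro a b c; ring

lemma E_wsmul (c : ℝ) (w : G →₀ ℝ) (f : G → ℝ) : E (c • w) f = c * E w f := by
  unfold E
  rw [Finsupp.sum_smul_index' (by simp)]
  simp only [Finsupp.sum, Finset.mul_sum, smul_eq_mul]
  exact Finset.sum_congr rfl (fun x _ => by ring)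

lemma E_zero (f : G → ℝ) : E (0 : G →₀ ℝ) f = 0 := by
  simp [E]

lemma E_wsum {ι : Type*} (s : Finset ι) (w : ι → G →₀ ℝ) (f : G → ℝ) :
    E (∑ i ∈ s, w i) f = ∑ i ∈ s, E (w i) f := by
  classical
  induction s using Finset.induction_on with
  | empty => simp [E_zero]
  | insert a s ha ih => rw [Finset.sum_insert ha, Finset.sum_insert ha, E_wadd, ih]

lemma E_map {H : Type*} [AddCommGroup H] (w : G →₀ ℝ) (p : G → H) (f : H → ℝ) :
    E (w.mapDomain p) f = E w (fun x => f (p x)) := by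
  unfold E
  rw [Finsupp.sum_mapDomain_index]
  · intro b; simp
  · intro b c d; ring

lemma nonneg_map {H : Type*} [AddCommGroup H] {w : G →₀ ℝ} (hw : ∀ x, 0 ≤ w x) (p : G → H) (y : H) :
    0 ≤ (w.mapDomain p) y := by
  classical
  rw [Finsupp.mapDomain, Finsupp.sum, Finsupp.finsetSum_apply]
  apply Finset.sum_nonneg
  intro x _
  rw [Finsupp.single_apply]
  split_ifs
  · exact hw x
  · exact le_rfl

lemma exists_win (S : Finset G) : ∀ ε : ℝ, 0 < ε → ∃ w : G →₀ ℝ, IsWin w ∧ ∀ s ∈ S, Near w s ε := by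
  classical
  induction S using Finset.induction_on with
  | empty =>
    intro ε _
    refine ⟨Finsupp.single 0 1, ⟨?_, ?_⟩, by simp⟩
    · intro x; rw [Finsupp.single_apply]; split_ifs <;> norm_num
    · simp [E]
  | insert a S ha ih =>
    intro ε hε
    obtain ⟨w, hw, hS⟩ := ih ε hε
    obtain ⟨N, hN⟩ := exists_nat_gt (2 / ε)
    have hNpos : (0:ℝ) < N := lt_of_le_of_lt (by positivity) hN
    set w' : G →₀ ℝ := ∑ j ∈ Finset.range N, (1 / (N:ℝ)) • w.mapDomain (fun x => x + j • a) with hw'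
    have hE : ∀ f : G → ℝ, E w' f = (1 / (N:ℝ)) * ∑ j ∈ Finset.range N, E w (fun x => f (x + j • a)) := by
      intro f
      rw [hw', E_wsum, Finset.mul_sum]
      refine Finset.sum_congr rfl (fun j _ => ?_)
      rw [E_wsmul, E_map]
    refine ⟨w', ⟨?_, ?_⟩, ?_⟩
    · intro x
      rw [hw', Finsupp.finsetSum_apply]
      apply Finset.sum_nonneg
      intro j _
      rw [Finsupp.smul_apply]
      exact mul_nonneg (by positivity) (nonneg_map hw.1 _ _)
    · rw [hE]
      have : ∀ j ∈ Finset.range N, E w (fun x => (1:ℝ)) = 1 := fun _ _ => hw.2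
      rw [Finset.sum_congr rfl this]
      simp
      field_simp
    · intro s hs f hf
      rw [hE, hE, ← mul_sub, ← Finset.sum_sub_distrib, abs_mul, abs_of_pos (by positivity : (0:ℝ) < 1 / N)]
      rcases Finset.mem_insert.1 hs with rfl | hs
      · have htel : ∑ j ∈ Finset.range N, (E w (fun x => f (x + j • s + s)) - E w (fun x => f (x + j • s)))
            = E w (fun x => f (x + N • s)) - E w (fun x => f (x + 0 • s)) := by
          rw [← Finset.sum_range_sub (fun j => E w (fun x => f (x + j • s)))]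
          refine Finset.sum_congr rfl (fun j _ => ?_)
          congr 2
          funext x
          rw [add_smul, one_smul, add_assoc]
        rw [htel]
        have h1 : |E w (fun x => f (x + N • s))| ≤ 1 := E_le_one hw (fun x => hf _)
        have h2 : |E w (fun x => f (x + 0 • s))| ≤ 1 := E_le_one hw (fun x => hf _)
        have h3 : |E w (fun x => f (x + N • s)) - E w (fun x => f (x + 0 • s))| ≤ 2 := by
          rw [abs_le] at *
          constructor <;> linarith [h1.1, h1.2, h2.1, h2.2]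
        have h4 : 2 / ε < N := hN
        rw [div_lt_iff₀ hε] at h4
        calc 1 / (N:ℝ) * |_| ≤ 1 / (N:ℝ) * 2 := by gcongr
          _ ≤ ε := by rw [one_div, inv_mul_le_iff₀ hNpos]; linarith
      · have hb : |∑ j ∈ Finset.range N, (E w (fun x => f (x + j • a + s)) - E w (fun x => f (x + j • a)))|
            ≤ ∑ j ∈ Finset.range N, ε := by
          refine (Finset.abs_sum_le_sum_abs _ _).trans (Finset.sum_le_sum (fun j _ => ?_))
          have := hS s hs (fun x => f (x + j • a)) (fun x => hf _)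
          have e : (fun x => f (x + j • a + s)) = (fun x => (fun x => f (x + j • a)) (x + s)) := by
            funext x
            congr 1
            abel
          rw [e]
          exact this
        simp only [Finset.sum_const, Finset.card_range, nsmul_eq_mul] at hb
        calc 1 / (N:ℝ) * |_| ≤ 1 / (N:ℝ) * (N * ε) := by gcongr
          _ = ε := by field_simp

/-- boundedness -/
def Bdd {α : Type*} (f : α → ℝ) : Prop := ∃ C, ∀ x, |f x| ≤ C

lemma Bdd.add {α : Type*} {f g : α → ℝ} (hf : Bdd f) (hg : Bdd g) : Bdd (fun x => f x + g x) := by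
  obtain ⟨C, hC⟩ := hf
  obtain ⟨D, hD⟩ := hg
  exact ⟨C + D, fun x => (abs_add_le _ _).trans (add_le_add (hC x) (hD x))⟩

lemma Bdd.mul {α : Type*} {f g : α → ℝ} (hf : Bdd f) (hg : Bdd g) : Bdd (fun x => f x * g x) := by
  obtain ⟨C, hC⟩ := hf
  obtain ⟨D, hD⟩ := hg
  refine ⟨C * D, fun x => ?_⟩
  rw [abs_mul]
  exact mul_le_mul (hC x) (hD x) (abs_nonneg _) ((abs_nonneg _).trans (hC x))

lemma Bdd.const {α : Type*} (c : ℝ) : Bdd (fun _ : α => c) := ⟨|c|, fun _ => le_rfl⟩

lemma Bdd.smul {α : Type*} {f : α → ℝ} (c : ℝ) (hf : Bdd f) : Bdd (fun x => c * f x) :=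
  (Bdd.const c).mul hf

lemma Bdd.neg {α : Type*} {f : α → ℝ} (hf : Bdd f) : Bdd (fun x => - f x) := by
  obtain ⟨C, hC⟩ := hf
  exact ⟨C, fun x => by rw [abs_neg]; exact hC x⟩

lemma Bdd.sub {α : Type*} {f g : α → ℝ} (hf : Bdd f) (hg : Bdd g) : Bdd (fun x => f x - g x) := by
  simpa [sub_eq_add_neg] using hf.add hg.neg

lemma Bdd.sum {α ι : Type*} (s : Finset ι) {f : ι → α → ℝ} (hf : ∀ i ∈ s, Bdd (f i)) :
    Bdd (fun x => ∑ i ∈ s, f i x) := by
  classical
  induction s using Finset.induction_on with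
  | empty => simpa using Bdd.const 0
  | insert a s ha ih =>
    simp only [Finset.sum_insert ha]
    exact (hf a (Finset.mem_insert_self _ _)).add (ih (fun i hi => hf i (Finset.mem_insert_of_mem hi)))

lemma Bdd.prod {α ι : Type*} (s : Finset ι) {f : ι → α → ℝ} (hf : ∀ i ∈ s, Bdd (f i)) :
    Bdd (fun x => ∏ i ∈ s, f i x) := by
  classical
  induction s using Finset.induction_on with
  | empty => simpa using Bdd.const 1
  | insert a s ha ih =>
    simp only [Finset.prod_insert ha]
    exact (hf a (Finset.mem_insert_self _ _)).mul (ih (fun i hi => hf i (Finset.mem_insert_of_mem hi)))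

lemma Bdd.comp {α β : Type*} {f : α → ℝ} (hf : Bdd f) (p : β → α) : Bdd (fun x => f (p x)) := by
  obtain ⟨C, hC⟩ := hf
  exact ⟨C, fun x => hC _⟩

/-- invariant mean with window approximation -/
structure InvMean (G : Type*) [AddCommGroup G] where
  m : (G → ℝ) → ℝ
  add : ∀ f g, Bdd f → Bdd g → m (fun x => f x + g x) = m f + m g
  smul : ∀ (c : ℝ) f, Bdd f → m (fun x => c * f x) = c * m f
  mono : ∀ f g, Bdd f → Bdd g → (∀ x, f x ≤ g x) → m f ≤ m g
  const : ∀ c : ℝ, m (fun _ => c) = c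
  shift : ∀ f, Bdd f → ∀ s, m (fun x => f (x + s)) = m f
  approx : ∀ (S : Finset G) (Φ : Finset (G → ℝ)) (ε : ℝ), 0 < ε → (∀ f ∈ Φ, Bdd f) →
    ∃ w : G →₀ ℝ, IsWin w ∧ (∀ s ∈ S, Near w s ε) ∧ ∀ f ∈ Φ, |E w f - m f| ≤ ε

theorem exists_invMean (G : Type*) [AddCommGroup G] : Nonempty (InvMean G) := by
  classical
  have hex : ∀ p : Finset G × ℕ, ∃ w : G →₀ ℝ, IsWin w ∧ ∀ s ∈ p.1, Near w s (1 / ((p.2:ℝ) + 1)) :=
    fun p => exists_win p.1 _ (by positivity)
  choose W hW hN using hex
  have : (atTop : Filter (Finset G × ℕ)).NeBot := inferInstance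
  let U : Ultrafilter (Finset G × ℕ) := Ultrafilter.of atTop
  have hU : (U : Filter (Finset G × ℕ)) ≤ atTop := Ultrafilter.of_le _
  have hlim : ∀ f : G → ℝ, Bdd f → ∃ a, Tendsto (fun p => E (W p) f) U (𝓝 a) := by
    intro f hf
    obtain ⟨C, hC⟩ := hf
    have hc : IsCompact (Set.Icc (-C) C) := isCompact_Icc
    have hmem : ∀ p, E (W p) f ∈ Set.Icc (-C) C := fun p => abs_le.1 (E_le_one (hW p) hC)
    have := hc.ultrafilter_le_nhds (U.map (fun p => E (W p) f)) (by
      rw [le_principal_iff]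
      change _ ∈ Filter.map _ _
      rw [mem_map]
      exact Filter.Eventually.of_forall hmem)
    obtain ⟨a, _, ha⟩ := this
    exact ⟨a, ha⟩
  let m : (G → ℝ) → ℝ := fun f => limUnder (U : Filter (Finset G × ℕ)) (fun p => E (W p) f)
  have hm : ∀ f, Bdd f → Tendsto (fun p => E (W p) f) U (𝓝 (m f)) := fun f hf =>
    tendsto_nhds_limUnder (hlim f hf)
  have hnear : ∀ (S : Finset G) (ε : ℝ), 0 < ε → ∀ᶠ p in (U : Filter (Finset G × ℕ)), ∀ s ∈ S, Near (W p) s ε := by
    intro S ε hε
    obtain ⟨n, hn⟩ := exists_nat_gt (1 / ε)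
    refine Filter.Eventually.filter_mono hU ?_
    filter_upwards [eventually_ge_atTop (S, n)] with p hp s hs f hf
    refine (hN p s (hp.1 hs) f hf).trans ?_
    have hnp : (n:ℝ) ≤ p.2 := by exact_mod_cast hp.2
    rw [div_le_iff₀ (by positivity)]
    rw [div_lt_iff₀ hε] at hn
    nlinarith
  refine ⟨⟨m, ?_, ?_, ?_, ?_, ?_, ?_⟩⟩
  · intro f g hf hg
    refine tendsto_nhds_unique (hm _ (hf.add hg)) ?_
    have := (hm f hf).add (hm g hg)
    refine this.congr (fun p => ?_)
    rw [E_add]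
  · intro c f hf
    refine tendsto_nhds_unique (hm _ (hf.smul c)) ?_
    have := (hm f hf).const_mul c
    refine this.congr (fun p => ?_)
    rw [E_smul]
  · intro f g hf hg h
    exact le_of_tendsto_of_tendsto (hm f hf) (hm g hg)
      (Filter.Eventually.of_forall (fun p => E_mono (hW p).1 h))
  · intro c
    refine tendsto_nhds_unique (hm _ (Bdd.const c)) ?_
    refine tendsto_const_nhds.congr (fun p => ?_)
    rw [E_const (hW p)]
  · intro f hf s
    refine tendsto_nhds_unique (hm _ (hf.comp (fun x => x + s))) ?_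
    obtain ⟨C, hC⟩ := hf
    have hf : Bdd f := ⟨C, hC⟩
    set D := |C| + 1 with hD
    have hDpos : 0 < D := by positivity
    have hCD : ∀ x, |f x| ≤ D := fun x => (hC x).trans (by rw [hD]; linarith [le_abs_self C])
    have key : Tendsto (fun p => E (W p) (fun x => f (x + s)) - E (W p) f) U (𝓝 0) := by
      rw [Metric.tendsto_nhds]
      intro ε hε
      filter_upwards [hnear {s} (ε / (2 * D)) (by positivity)] with p hp
      have h1 := hp s (Finset.mem_singleton_self s) (fun x => D⁻¹ * f x) (fun x => by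
        rw [abs_mul, abs_of_pos (inv_pos.2 hDpos)]
        rw [inv_mul_le_iff₀ hDpos]; linarith [hCD x])
      rw [E_smul, E_smul, ← mul_sub, abs_mul, abs_of_pos (inv_pos.2 hDpos),
        inv_mul_le_iff₀ hDpos] at h1
      rw [Real.dist_eq, sub_zero]
      calc _ ≤ D * (ε / (2 * D)) := h1
        _ = ε / 2 := by field_simp
        _ < ε := by linarith
    have := key.add (hm f hf)
    simpa using this
  · intro S Φ ε hε hΦ
    have h1 := hnear S ε hε
    have h2 : ∀ᶠ p in (U : Filter (Finset G × ℕ)), ∀ f ∈ Φ, |E (W p) f - m f| ≤ ε := by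
      rw [Filter.eventually_all_finset]
      intro f hf
      have := (Metric.tendsto_nhds.1 (hm f (hΦ f hf))) ε hε
      filter_upwards [this] with p hp
      rw [Real.dist_eq] at hp
      exact hp.le
    obtain ⟨p, hp1, hp2⟩ := (h1.and h2).exists
    exact ⟨W p, hW p, hp1, hp2⟩

namespace InvMean

variable (M : InvMean G)

lemma sub {f g : G → ℝ} (hf : Bdd f) (hg : Bdd g) : M.m (fun x => f x - g x) = M.m f - M.m g := by
  have h := M.add f (fun x => (-1) * g x) hf (hg.smul (-1))
  rw [M.smul (-1) g hg] at h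
  have e : (fun x => f x - g x) = (fun x => f x + (-1) * g x) := by funext x; ring
  rw [e, h]; ring

lemma sum {ι : Type*} (s : Finset ι) (f : ι → G → ℝ) (hf : ∀ i ∈ s, Bdd (f i)) :
    M.m (fun x => ∑ i ∈ s, f i x) = ∑ i ∈ s, M.m (f i) := by
  classical
  induction s using Finset.induction_on with
  | empty => simpa using M.const 0
  | insert a s ha ih =>
    simp only [Finset.sum_insert ha]
    rw [M.add _ _ (hf a (Finset.mem_insert_self _ _))
      (Bdd.sum s (fun i hi => hf i (Finset.mem_insert_of_mem hi))),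
      ih (fun i hi => hf i (Finset.mem_insert_of_mem hi))]

lemma nonneg {f : G → ℝ} (hf : Bdd f) (h : ∀ x, 0 ≤ f x) : 0 ≤ M.m f := by
  rw [← M.const 0]
  exact M.mono _ _ (Bdd.const 0) hf h

lemma le_const {f : G → ℝ} (hf : Bdd f) {c : ℝ} (h : ∀ x, f x ≤ c) : M.m f ≤ c := by
  rw [← M.const c]
  exact M.mono _ _ hf (Bdd.const c) h

end InvMean

end Pool.Agent.R3.CB
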