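import Pool.Agent.R3.CB1

set_option linter.unusedSectionVars false
set_option linter.unusedVariables false

/-!
Positivity part (helper3, for MP_cc4361_co).
-/

namespace Pool.Agent.R3.CB

open Filter Topology

/-- real indicator -/
noncomputable def ind {α : Type*} (B : Set α) (x : α) : ℝ := by
  classical exact if x ∈ B then 1 else 0

lemma ind_of_mem {α : Type*} {B : Set α} {x : α} (h : x ∈ B) : ind B x = 1 := by
  simp [ind, h]

lemma ind_of_not_mem {α : Type*} {B : Set α} {x : α} (h : x ∉ B) : ind B x = 0 := by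
  simp [ind, h]

lemma ind_nonneg {α : Type*} (B : Set α) (x : α) : 0 ≤ ind B x := by
  unfold ind; split_ifs <;> norm_num

lemma ind_le_one {α : Type*} (B : Set α) (x : α) : ind B x ≤ 1 := by
  unfold ind; split_ifs <;> norm_num

lemma ind_bdd {α : Type*} (B : Set α) : Bdd (ind B) :=
  ⟨1, fun x => by rw [abs_of_nonneg (ind_nonneg B x)]; exact ind_le_one B x⟩

variable {G : Type*} [AddCommGroup G]

section
variable (M : InvMean G) (φ₁ φ₂ : G →+ G)

lemma InvMean.sq_le {f : G → ℝ} (hf : Bdd f) : (M.m f) ^ 2 ≤ M.m (fun x => (f x) ^ 2) := by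
  set a := M.m f with ha
  have h0 : 0 ≤ M.m (fun x => f x * f x + ((-2 * a) * f x + a * a)) := by
    refine M.nonneg ((hf.mul hf).add ((hf.smul _).add (Bdd.const _))) (fun x => ?_)
    nlinarith [sq_nonneg (f x - a)]
  rw [M.add _ _ (hf.mul hf) ((hf.smul _).add (Bdd.const _)),
    M.add _ _ (hf.smul _) (Bdd.const _), M.smul _ _ hf, M.const, ← ha] at h0
  have e : (fun x => (f x) ^ 2) = (fun x => f x * f x) := by funext x; ring
  rw [e]
  nlinarith

/-- correlation function -/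
noncomputable def Cf (B : Set G) (s : G) : ℝ :=
  M.m (fun x => ind B (φ₂ x) * ind B (φ₂ x + s))

lemma Cf_bdd_aux (B : Set G) (s t : G) : Bdd (fun x => ind B (φ₂ x + s) * ind B (φ₂ x + t)) :=
  ((ind_bdd B).comp (fun x => φ₂ x + s)).mul ((ind_bdd B).comp (fun x => φ₂ x + t))

lemma Cf_bdd_aux' (B : Set G) (t : G) : Bdd (fun x => ind B (φ₂ x) * ind B (φ₂ x + t)) :=
  ((ind_bdd B).comp (fun x => φ₂ x)).mul ((ind_bdd B).comp (fun x => φ₂ x + t))

lemma Cf_nonneg (B : Set G) (s : G) : 0 ≤ Cf M φ₂ B s :=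
  M.nonneg (Cf_bdd_aux' φ₂ B s) (fun x => mul_nonneg (ind_nonneg _ _) (ind_nonneg _ _))

lemma Cf_le_one (B : Set G) (s : G) : Cf M φ₂ B s ≤ 1 :=
  M.le_const (Cf_bdd_aux' φ₂ B s) (fun x => mul_le_one₀ (ind_le_one _ _) (ind_nonneg _ _) (ind_le_one _ _))

lemma Cf_shift (B : Set G) {s t : G} (hs : s ∈ φ₂.range) :
    M.m (fun x => ind B (φ₂ x + s) * ind B (φ₂ x + t)) = Cf M φ₂ B (t - s) := by
  obtain ⟨z, rfl⟩ := hs
  unfold Cf
  rw [← M.shift _ (Cf_bdd_aux' φ₂ B (t - φ₂ z)) z]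
  congr 1
  funext x
  rw [map_add]
  congr 2
  abel

lemma Cf_neg (B : Set G) {s : G} (hs : s ∈ φ₂.range) : Cf M φ₂ B (-s) = Cf M φ₂ B s := by
  have h := Cf_shift M φ₂ B (s := s) (t := 0) hs
  rw [zero_sub] at h
  rw [← h]
  unfold Cf
  congr 1
  funext x
  rw [add_zero, mul_comm]

/-- the density of `B` along `φ₂` -/
noncomputable def bet (B : Set G) : ℝ := M.m (fun x => ind B (φ₂ x))

lemma bet_nonneg (B : Set G) : 0 ≤ bet M φ₂ B :=
  M.nonneg ((ind_bdd B).comp _) (fun x => ind_nonneg _ _)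

lemma bet_le_one (B : Set G) : bet M φ₂ B ≤ 1 :=
  M.le_const ((ind_bdd B).comp _) (fun x => ind_le_one _ _)

lemma bet_shift (B : Set G) {s : G} (hs : s ∈ φ₂.range) :
    M.m (fun x => ind B (φ₂ x + s)) = bet M φ₂ B := by
  obtain ⟨z, rfl⟩ := hs
  unfold bet
  rw [← M.shift _ ((ind_bdd B).comp (fun x => φ₂ x)) z]
  congr 1
  funext x
  rw [map_add]

lemma psd {ι : Type*} (I : Finset ι) (B : ι → Set G) (n : ℕ) (s : ℕ → G)
    (hs : ∀ j < n, s j ∈ φ₂.range) : ∀ c : ℕ → ℝ,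
    (∏ i ∈ I, (bet M φ₂ (B i)) ^ 2) * (∑ j ∈ Finset.range n, c j) ^ 2 ≤
      ∑ j ∈ Finset.range n, ∑ k ∈ Finset.range n, c j * c k * ∏ i ∈ I, Cf M φ₂ (B i) (s k - s j) := by
  classical
  induction I using Finset.induction_on with
  | empty =>
    intro c
    simp only [Finset.prod_empty, one_mul, mul_one]
    rw [sq, Finset.sum_mul_sum]
  | insert a I ha ih =>
    intro c
    set P : ℕ → ℕ → ℝ := fun j k => ∏ i ∈ I, Cf M φ₂ (B i) (s k - s j) with hP
    set b : ℕ → G → ℝ := fun j x => ind (B a) (φ₂ x + s j) with hb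
    have hbb : ∀ j, Bdd (b j) := fun j => (ind_bdd (B a)).comp (fun x => φ₂ x + s j)
    set pr := ∏ i ∈ I, (bet M φ₂ (B i)) ^ 2 with hpr
    have hpr0 : 0 ≤ pr := Finset.prod_nonneg (fun i _ => sq_nonneg _)
    have h1 : ∑ j ∈ Finset.range n, ∑ k ∈ Finset.range n,
          c j * c k * ∏ i ∈ insert a I, Cf M φ₂ (B i) (s k - s j)
        = M.m (fun x => ∑ j ∈ Finset.range n, ∑ k ∈ Finset.range n,
            (c j * b j x) * (c k * b k x) * P j k) := by
      rw [M.sum]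
      · refine Finset.sum_congr rfl (fun j hj => ?_)
        rw [M.sum]
        · refine Finset.sum_congr rfl (fun k hk => ?_)
          have e : (fun x => (c j * b j x) * (c k * b k x) * P j k)
              = (fun x => (c j * c k * P j k) * (b j x * b k x)) := by
            funext x; ring
          rw [e, M.smul _ _ ((hbb j).mul (hbb k)), Finset.prod_insert ha]
          have := Cf_shift M φ₂ (B a) (s := s j) (t := s k) (hs j (Finset.mem_range.1 hj))
          rw [this]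
          ring
        · intro k _
          exact (((hbb j).smul _).mul ((hbb k).smul _)).mul (Bdd.const _)
      · intro j _
        exact Bdd.sum _ (fun k _ => (((hbb j).smul _).mul ((hbb k).smul _)).mul (Bdd.const _))
    rw [h1]
    have hS : Bdd (fun x => ∑ j ∈ Finset.range n, c j * b j x) :=
      Bdd.sum _ (fun j _ => (hbb j).smul _)
    have h2 : M.m (fun x => pr * (∑ j ∈ Finset.range n, c j * b j x) ^ 2) ≤
        M.m (fun x => ∑ j ∈ Finset.range n, ∑ k ∈ Finset.range n,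
            (c j * b j x) * (c k * b k x) * P j k) := by
      refine M.mono _ _ ?_ ?_ (fun x => ?_)
      · have := (hS.mul hS).smul pr
        convert this using 2
        ring
      · exact Bdd.sum _ (fun j _ => Bdd.sum _ (fun k _ =>
          (((hbb j).smul _).mul ((hbb k).smul _)).mul (Bdd.const _)))
      · exact ih (fun j => c j * b j x)
    refine le_trans ?_ h2
    have hS2 : Bdd (fun x => (∑ j ∈ Finset.range n, c j * b j x) ^ 2) := by
      convert hS.mul hS using 2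
      ring
    rw [M.smul _ _ hS2, Finset.prod_insert ha]
    have h3 := M.sq_le hS
    have h4 : M.m (fun x => ∑ j ∈ Finset.range n, c j * b j x)
        = (∑ j ∈ Finset.range n, c j) * bet M φ₂ (B a) := by
      rw [M.sum _ _ (fun j _ => (hbb j).smul _), Finset.sum_mul]
      refine Finset.sum_congr rfl (fun j hj => ?_)
      rw [M.smul _ _ (hbb j), bet_shift M φ₂ (B a) (hs j (Finset.mem_range.1 hj))]
    rw [h4] at h3
    calc bet M φ₂ (B a) ^ 2 * pr * (∑ j ∈ Finset.range n, c j) ^ 2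
        = pr * ((∑ j ∈ Finset.range n, c j) * bet M φ₂ (B a)) ^ 2 := by ring
      _ ≤ _ := mul_le_mul_of_nonneg_left h3 hpr0

/-- the subgroup of `y` with `φ₁ y ∈ φ₂ G` -/
def G0 : Set G := {y | φ₁ y ∈ φ₂.range}

noncomputable def qf {ι : Type*} (I : Finset ι) (B : ι → Set G) (y : G) : ℝ :=
  ∏ i ∈ I, Cf M φ₂ (B i) (φ₁ y)

lemma qf_nonneg {ι : Type*} (I : Finset ι) (B : ι → Set G) (y : G) : 0 ≤ qf M φ₁ φ₂ I B y :=
  Finset.prod_nonneg (fun i _ => Cf_nonneg M φ₂ _ _)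

lemma qf_le_one {ι : Type*} (I : Finset ι) (B : ι → Set G) (y : G) : qf M φ₁ φ₂ I B y ≤ 1 :=
  Finset.prod_le_one (fun i _ => Cf_nonneg M φ₂ _ _) (fun i _ => Cf_le_one M φ₂ _ _)

lemma qf_le {ι : Type*} (I : Finset ι) (B : ι → Set G) (y : G) {i : ι} (hi : i ∈ I) :
    qf M φ₁ φ₂ I B y ≤ Cf M φ₂ (B i) (φ₁ y) := by
  classical
  unfold qf
  rw [← Finset.mul_prod_erase _ _ hi]
  exact mul_le_of_le_one_right (Cf_nonneg M φ₂ _ _)
    (Finset.prod_le_one (fun i _ => Cf_nonneg M φ₂ _ _) (fun i _ => Cf_le_one M φ₂ _ _))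

lemma qf_bdd {ι : Type*} (I : Finset ι) (B : ι → Set G) : Bdd (qf M φ₁ φ₂ I B) :=
  ⟨1, fun y => by rw [abs_of_nonneg (qf_nonneg M φ₁ φ₂ I B y)]; exact qf_le_one M φ₁ φ₂ I B y⟩

lemma qf_neg {ι : Type*} (I : Finset ι) (B : ι → Set G) {y : G} (hy : y ∈ G0 φ₁ φ₂) :
    qf M φ₁ φ₂ I B (-y) = qf M φ₁ φ₂ I B y := by
  unfold qf
  refine Finset.prod_congr rfl (fun i _ => ?_)
  rw [map_neg]
  exact Cf_neg M φ₂ _ hy

lemma G0_sub {y z : G} (hy : y ∈ G0 φ₁ φ₂) (hz : z ∈ G0 φ₁ φ₂) : y - z ∈ G0 φ₁ φ₂ := by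
  change φ₁ (y - z) ∈ φ₂.range
  rw [map_sub]
  exact φ₂.range.sub_mem hy hz

lemma G0_sub_iff {y z : G} (hz : z ∈ G0 φ₁ φ₂) : y - z ∈ G0 φ₁ φ₂ ↔ y ∈ G0 φ₁ φ₂ := by
  change φ₁ (y - z) ∈ φ₂.range ↔ φ₁ y ∈ φ₂.range
  rw [map_sub]
  have hz' : φ₁ z ∈ φ₂.range := hz
  constructor
  · intro h
    have := φ₂.range.add_mem h hz'
    simpa using this
  · intro h
    exact φ₂.range.sub_mem h hz'

lemma ind_G0_sub {y z : G} (hz : z ∈ G0 φ₁ φ₂) : ind (G0 φ₁ φ₂) (y - z) = ind (G0 φ₁ φ₂) y := by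
  by_cases h : y ∈ G0 φ₁ φ₂
  · rw [ind_of_mem h, ind_of_mem ((G0_sub_iff φ₁ φ₂ hz).2 h)]
  · rw [ind_of_not_mem h, ind_of_not_mem (fun h' => h ((G0_sub_iff φ₁ φ₂ hz).1 h'))]

/-- main mean inequality -/
theorem mean_q {ι : Type*} (I : Finset ι) (B : ι → Set G) :
    (∏ i ∈ I, (bet M φ₂ (B i)) ^ 2) * M.m (ind (G0 φ₁ φ₂)) ≤
      M.m (fun y => ind (G0 φ₁ φ₂) y * qf M φ₁ φ₂ I B y) := by
  classical
  by_contra hcon
  rw [not_le] at hcon
  set pr := ∏ i ∈ I, (bet M φ₂ (B i)) ^ 2 with hpr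
  set κ := M.m (ind (G0 φ₁ φ₂)) with hκ
  set q := qf M φ₁ φ₂ I B with hq
  have hqb : Bdd q := qf_bdd M φ₁ φ₂ I B
  have hgb : Bdd (fun y => ind (G0 φ₁ φ₂) y * q y) := (ind_bdd _).mul hqb
  set L := M.m (fun y => ind (G0 φ₁ φ₂) y * q y) with hL
  have hL0 : 0 ≤ L := M.nonneg hgb (fun y => mul_nonneg (ind_nonneg _ _) (qf_nonneg M φ₁ φ₂ I B y))
  have hκ0 : 0 ≤ κ := M.nonneg (ind_bdd _) (fun y => ind_nonneg _ _)
  have hκpos : 0 < κ := by
    rcases hκ0.lt_or_eq with h | h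
    · exact h
    · rw [← h, mul_zero] at hcon; linarith
  have h1 : L / κ < pr := by rw [div_lt_iff₀ hκpos]; exact hcon
  obtain ⟨θ, hθ1, hθ2⟩ := exists_between h1
  have hθ0 : 0 < θ := lt_of_le_of_lt (by positivity) hθ1
  have hLθ : L < θ * κ := by rwa [div_lt_iff₀ hκpos] at hθ1
  -- selection
  have hsel : ∀ (n : ℕ) (y : ℕ → G), (∀ j < n, y j ∈ G0 φ₁ φ₂) →
      ∃ z ∈ G0 φ₁ φ₂, ∑ j ∈ Finset.range n, q (z - y j) ≤ n * θ := by
    intro n y hy
    by_contra hno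
    push Not at hno
    have hn : 0 < n := by
      rcases Nat.eq_zero_or_pos n with rfl | h
      · exfalso
        have h0 : (0:G) ∈ G0 φ₁ φ₂ := by
          change φ₁ 0 ∈ φ₂.range
          rw [map_zero]; exact φ₂.range.zero_mem
        have := hno 0 h0
        simp at this
      · exact h
    have e1 : M.m (fun z => ∑ j ∈ Finset.range n, ind (G0 φ₁ φ₂) z * q (z - y j)) = n * L := by
      rw [M.sum]
      · rw [Finset.sum_congr rfl (g := fun _ => L)]
        · simp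
        · intro j hj
          have hyj := hy j (Finset.mem_range.1 hj)
          rw [hL, ← M.shift _ hgb (-(y j))]
          congr 1
          funext z
          rw [← sub_eq_add_neg, ind_G0_sub φ₁ φ₂ hyj]
      · intro j _
        exact (ind_bdd _).mul (hqb.comp (fun z => z - y j))
    have e2 : M.m (fun z => (n * θ) * ind (G0 φ₁ φ₂) z) ≤
        M.m (fun z => ∑ j ∈ Finset.range n, ind (G0 φ₁ φ₂) z * q (z - y j)) := by
      refine M.mono _ _ ((ind_bdd _).smul _) (Bdd.sum _ (fun j _ => (ind_bdd _).mul (hqb.comp (fun z => z - y j)))) (fun z => ?_)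
      rw [← Finset.mul_sum]
      by_cases hz : z ∈ G0 φ₁ φ₂
      · rw [ind_of_mem hz, mul_one, one_mul]
        exact (hno z hz).le
      · rw [ind_of_not_mem hz, mul_zero, zero_mul]
    rw [M.smul _ _ (ind_bdd _), e1, ← hκ] at e2
    have hnpos : (0:ℝ) < n := by exact_mod_cast hn
    nlinarith
  -- build the sequence
  have hbuild : ∀ n : ℕ, ∃ y : ℕ → G, (∀ j < n, y j ∈ G0 φ₁ φ₂) ∧
      ∑ j ∈ Finset.range n, ∑ k ∈ Finset.range n, q (y k - y j) ≤ n + n ^ 2 * θ := by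
    intro n
    induction n with
    | zero => exact ⟨fun _ => 0, by simp, by simp⟩
    | succ n ih =>
      obtain ⟨y, hy, hsum⟩ := ih
      obtain ⟨z, hz, hzs⟩ := hsel n y hy
      refine ⟨Function.update y n z, ?_, ?_⟩
      · intro j hj
        by_cases h : j = n
        · subst h; simpa using hz
        · rw [Function.update_of_ne h]
          exact hy j (by omega)
      · have hu : ∀ j ∈ Finset.range n, Function.update y n z j = y j := fun j hj =>
          Function.update_of_ne (by have := Finset.mem_range.1 hj; omega) _ _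
        have hun : Function.update y n z n = z := by simp
        rw [Finset.sum_range_succ]
        have t1 : ∑ j ∈ Finset.range n, ∑ k ∈ Finset.range (n+1),
            q (Function.update y n z k - Function.update y n z j)
            = ∑ j ∈ Finset.range n, ∑ k ∈ Finset.range n, q (y k - y j)
              + ∑ j ∈ Finset.range n, q (z - y j) := by
          rw [← Finset.sum_add_distrib]
          refine Finset.sum_congr rfl (fun j hj => ?_)
          rw [Finset.sum_range_succ, hun, hu j hj]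
          congr 1
          exact Finset.sum_congr rfl (fun k hk => by rw [hu k hk])
        have t2 : ∑ k ∈ Finset.range (n+1),
            q (Function.update y n z k - Function.update y n z n)
            = ∑ j ∈ Finset.range n, q (z - y j) + q 0 := by
          rw [Finset.sum_range_succ, hun, sub_self]
          congr 1
          refine Finset.sum_congr rfl (fun k hk => ?_)
          rw [hu k hk, ← neg_sub, hq, qf_neg M φ₁ φ₂ I B (G0_sub φ₁ φ₂ hz (hy k (Finset.mem_range.1 hk)))]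
        rw [t1, t2]
        have hq0 : q 0 ≤ 1 := qf_le_one M φ₁ φ₂ I B 0
        push_cast
        nlinarith
  obtain ⟨n, hn⟩ := exists_nat_gt (1 / (pr - θ))
  have hd : 0 < pr - θ := by linarith
  rw [div_lt_iff₀ hd] at hn
  obtain ⟨y, hy, hsum⟩ := hbuild n
  have hpsd := psd M φ₂ I B n (fun j => φ₁ (y j)) (fun j hj => hy j hj) (fun _ => 1)
  simp only [Finset.sum_const, Finset.card_range, nsmul_eq_mul, mul_one, one_mul] at hpsd
  have e3 : ∑ j ∈ Finset.range n, ∑ k ∈ Finset.range n, ∏ i ∈ I, Cf M φ₂ (B i) (φ₁ (y k) - φ₁ (y j))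
      = ∑ j ∈ Finset.range n, ∑ k ∈ Finset.range n, q (y k - y j) := by
    refine Finset.sum_congr rfl (fun j _ => Finset.sum_congr rfl (fun k _ => ?_))
    rw [hq]
    unfold qf
    rw [map_sub]
  rw [e3] at hpsd
  have hnpos : (0:ℝ) < n := by
    by_contra h0
    have : (n:ℝ) = 0 := le_antisymm (not_lt.1 h0) (Nat.cast_nonneg n)
    rw [this] at hn; linarith
  nlinarith

/-- the density of `G0` -/
theorem kappa_ge (hfi : φ₂.range.index ≠ 0) : 1 ≤ (φ₂.range.index : ℝ) * M.m (ind (G0 φ₁ φ₂)) := by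
  classical
  have hfin : Finite (G ⧸ φ₂.range) := AddSubgroup.index_ne_zero_iff_finite.1 hfi
  have := Fintype.ofFinite (G ⧸ φ₂.range)
  have hrep : ∀ c : G ⧸ φ₂.range, ∃ y : G, (∃ z, (QuotientAddGroup.mk (φ₁ z) : G ⧸ φ₂.range) = c) →
      (QuotientAddGroup.mk (φ₁ y) : G ⧸ φ₂.range) = c := by
    intro c
    by_cases h : ∃ z, (QuotientAddGroup.mk (φ₁ z) : G ⧸ φ₂.range) = c
    · obtain ⟨z, hz⟩ := h
      exact ⟨z, fun _ => hz⟩
    · exact ⟨0, fun h' => absurd h' h⟩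
  choose y hy using hrep
  have h1 : M.m (fun _ => (1:ℝ)) ≤ M.m (fun x => ∑ c : G ⧸ φ₂.range, ind (G0 φ₁ φ₂) (x + - y c)) := by
    refine M.mono _ _ (Bdd.const 1) (Bdd.sum _ (fun c _ => (ind_bdd _).comp (fun x => x + - y c))) (fun x => ?_)
    have hx := hy (QuotientAddGroup.mk (φ₁ x)) ⟨x, rfl⟩
    have hmem : x + - y (QuotientAddGroup.mk (φ₁ x)) ∈ G0 φ₁ φ₂ := by
      change φ₁ (x + - _) ∈ φ₂.range
      rw [map_add, map_neg]
      rw [QuotientAddGroup.eq] at hx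
      rw [add_comm]; exact hx
    calc (1:ℝ) = ind (G0 φ₁ φ₂) (x + - y (QuotientAddGroup.mk (φ₁ x))) := (ind_of_mem hmem).symm
      _ ≤ _ := Finset.single_le_sum (f := fun c => ind (G0 φ₁ φ₂) (x + - y c))
          (fun c _ => ind_nonneg _ _) (Finset.mem_univ _)
  rw [M.const, M.sum _ _ (fun c _ => (ind_bdd _).comp (fun x => x + - y c))] at h1
  have h2 : ∀ c ∈ (Finset.univ : Finset (G ⧸ φ₂.range)),
      M.m (fun x => ind (G0 φ₁ φ₂) (x + - y c)) = M.m (ind (G0 φ₁ φ₂)) :=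
    fun c _ => M.shift _ (ind_bdd _) _
  rw [Finset.sum_congr rfl h2, Finset.sum_const, nsmul_eq_mul, Finset.card_univ] at h1
  have h3 : (Fintype.card (G ⧸ φ₂.range)) = φ₂.range.index := by
    rw [AddSubgroup.index, Nat.card_eq_fintype_card]
  rw [h3] at h1
  exact h1

/-- the value at `0` of the main function -/
noncomputable def Mz (A : Set G) : ℝ :=
  M.m (fun y => ind (G0 φ₁ φ₂ ∩ A) y * Cf M φ₂ (φ₂ '' A) (φ₁ y))

lemma Mz_bdd (A : Set G) : Bdd (fun y => ind (G0 φ₁ φ₂ ∩ A) y * Cf M φ₂ (φ₂ '' A) (φ₁ y)) :=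
  (ind_bdd _).mul ⟨1, fun y => by
    rw [abs_of_nonneg (Cf_nonneg M φ₂ _ _)]; exact Cf_le_one M φ₂ _ _⟩

lemma Mz_nonneg (A : Set G) : 0 ≤ Mz M φ₁ φ₂ A :=
  M.nonneg (Mz_bdd M φ₁ φ₂ A) (fun y => mul_nonneg (ind_nonneg _ _) (Cf_nonneg M φ₂ _ _))

/-- the system of inequalities -/
theorem ineq {ι : Type*} [Fintype ι] [DecidableEq ι] (A : ι → Set G) (hA : ∀ x, ∃ i, x ∈ A i)
    (K : ℕ) (hfi : φ₂.range.index ≠ 0) (hK : φ₂.range.index ≤ K) (I : Finset ι) :
    (∏ i ∈ I, (bet M φ₂ (φ₂ '' A i)) ^ 2) ≤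
      K * (∑ i ∈ I, Mz M φ₁ φ₂ (A i) + ∑ i ∈ Iᶜ, bet M φ₂ (φ₂ '' A i)) := by
  classical
  set pr := (∏ i ∈ I, (bet M φ₂ (φ₂ '' A i)) ^ 2) with hpr
  have hpr0 : 0 ≤ pr := Finset.prod_nonneg (fun i _ => sq_nonneg _)
  have h1 := mean_q M φ₁ φ₂ I (fun i => φ₂ '' A i)
  rw [← hpr] at h1
  have h2 : M.m (fun y => ind (G0 φ₁ φ₂) y * qf M φ₁ φ₂ I (fun i => φ₂ '' A i) y) ≤
      ∑ i ∈ I, Mz M φ₁ φ₂ (A i) + ∑ i ∈ Iᶜ, bet M φ₂ (φ₂ '' A i) := by
    have hb1 : Bdd (fun y => ∑ i ∈ I, ind (G0 φ₁ φ₂ ∩ A i) y * Cf M φ₂ (φ₂ '' A i) (φ₁ y)) :=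
      Bdd.sum _ (fun i _ => Mz_bdd M φ₁ φ₂ (A i))
    have hb2 : Bdd (fun y => ∑ i ∈ Iᶜ, ind (φ₂ '' A i) (φ₂ y)) :=
      Bdd.sum _ (fun i _ => (ind_bdd _).comp _)
    calc _ ≤ M.m (fun y => (∑ i ∈ I, ind (G0 φ₁ φ₂ ∩ A i) y * Cf M φ₂ (φ₂ '' A i) (φ₁ y))
          + ∑ i ∈ Iᶜ, ind (φ₂ '' A i) (φ₂ y)) := by
          refine M.mono _ _ ((ind_bdd _).mul (qf_bdd M φ₁ φ₂ I _)) (hb1.add hb2) (fun y => ?_)
          have n1 : 0 ≤ ∑ i ∈ I, ind (G0 φ₁ φ₂ ∩ A i) y * Cf M φ₂ (φ₂ '' A i) (φ₁ y) :=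
            Finset.sum_nonneg (fun i _ => mul_nonneg (ind_nonneg _ _) (Cf_nonneg M φ₂ _ _))
          have n2 : 0 ≤ ∑ i ∈ Iᶜ, ind (φ₂ '' A i) (φ₂ y) :=
            Finset.sum_nonneg (fun i _ => ind_nonneg _ _)
          by_cases hy : y ∈ G0 φ₁ φ₂
          · rw [ind_of_mem hy, one_mul]
            obtain ⟨i, hi⟩ := hA y
            by_cases hiI : i ∈ I
            · have s1 : ind (G0 φ₁ φ₂ ∩ A i) y * Cf M φ₂ (φ₂ '' A i) (φ₁ y) ≤
                  ∑ i ∈ I, ind (G0 φ₁ φ₂ ∩ A i) y * Cf M φ₂ (φ₂ '' A i) (φ₁ y) :=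
                Finset.single_le_sum (f := fun i => ind (G0 φ₁ φ₂ ∩ A i) y * Cf M φ₂ (φ₂ '' A i) (φ₁ y))
                  (fun i _ => mul_nonneg (ind_nonneg _ _) (Cf_nonneg M φ₂ _ _)) hiI
              rw [ind_of_mem (show y ∈ G0 φ₁ φ₂ ∩ A i from ⟨hy, hi⟩), one_mul] at s1
              have s2 := qf_le M φ₁ φ₂ I (fun i => φ₂ '' A i) y hiI
              linarith
            · have s1 : ind (φ₂ '' A i) (φ₂ y) ≤ ∑ i ∈ Iᶜ, ind (φ₂ '' A i) (φ₂ y) :=
                Finset.single_le_sum (f := fun i => ind (φ₂ '' A i) (φ₂ y))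
                  (fun i _ => ind_nonneg _ _) (Finset.mem_compl.2 hiI)
              rw [ind_of_mem (Set.mem_image_of_mem _ hi)] at s1
              have s2 := qf_le_one M φ₁ φ₂ I (fun i => φ₂ '' A i) y
              linarith
          · rw [ind_of_not_mem hy, zero_mul]
            linarith
      _ = _ := by
          rw [M.add _ _ hb1 hb2, M.sum _ _ (fun i _ => Mz_bdd M φ₁ φ₂ (A i)),
            M.sum _ _ (fun i _ => (ind_bdd _).comp _)]
          rfl
  have h3 := kappa_ge M φ₁ φ₂ hfi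
  have hκ0 : 0 ≤ M.m (ind (G0 φ₁ φ₂)) := M.nonneg (ind_bdd _) (fun y => ind_nonneg _ _)
  have hKr : (φ₂.range.index : ℝ) ≤ K := by exact_mod_cast hK
  have h4 : 1 ≤ (K:ℝ) * M.m (ind (G0 φ₁ φ₂)) := h3.trans (mul_le_mul_of_nonneg_right hKr hκ0)
  have hK0 : (0:ℝ) ≤ K := Nat.cast_nonneg K
  calc pr = pr * 1 := (mul_one _).symm
    _ ≤ pr * ((K:ℝ) * M.m (ind (G0 φ₁ φ₂))) := mul_le_mul_of_nonneg_left h4 hpr0
    _ = K * (pr * M.m (ind (G0 φ₁ φ₂))) := by ring
    _ ≤ _ := mul_le_mul_of_nonneg_left (h1.trans h2) hK0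

end

end Pool.Agent.R3.CB
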