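import Mathlib

/-!
The constant of the positivity part (helper3, for MP_cc4361_co).
-/

namespace Pool.Agent.R3.CB

open Filter Topology

theorem exists_const (r K : ℕ) : ∃ c : ℝ, 0 < c ∧ ∀ (β mz : Fin r → ℝ),
    (∀ i, 0 ≤ β i ∧ β i ≤ 1) →
    (∀ I : Finset (Fin r), (∏ i ∈ I, (β i) ^ 2) ≤ K * (∑ i ∈ I, mz i + ∑ i ∈ Iᶜ, β i)) →
    (∀ i, 0 ≤ mz i) → ∃ i, c ≤ mz i := by
  classical
  let F : Finset (Fin r) → (Fin r → ℝ) → ℝ := fun I β => (∏ i ∈ I, (β i) ^ 2) - K * ∑ i ∈ Iᶜ, β i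
  have hF : ∀ I, Continuous (F I) := by
    intro I
    have h1 : Continuous (fun β : Fin r → ℝ => ∏ i ∈ I, (β i) ^ 2) :=
      continuous_finset_prod _ (fun i _ => (continuous_apply i).pow 2)
    have h2 : Continuous (fun β : Fin r → ℝ => ∑ i ∈ Iᶜ, β i) :=
      continuous_finset_sum _ (fun i _ => continuous_apply i)
    exact h1.sub (continuous_const.mul h2)
  let Φ : (Fin r → ℝ) → ℝ := fun β => (Finset.univ : Finset (Finset (Fin r))).sup' ⟨∅, Finset.mem_univ _⟩ (fun I => F I β)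
  have hΦ : Continuous Φ := Continuous.finset_sup'_apply _ (fun I _ => hF I)
  have hcomp : IsCompact (Set.pi Set.univ (fun _ : Fin r => Set.Icc (0:ℝ) 1)) :=
    isCompact_univ_pi (fun _ => isCompact_Icc)
  have hne : (Set.pi Set.univ (fun _ : Fin r => Set.Icc (0:ℝ) 1)).Nonempty :=
    ⟨fun _ => 0, fun i _ => by simp⟩
  obtain ⟨β₀, hβ₀, hmin⟩ := hcomp.exists_isMinOn hne hΦ.continuousOn
  have hpos : 0 < Φ β₀ := by
    have hle : F (Finset.univ.filter (fun i => β₀ i ≠ 0)) β₀ ≤ Φ β₀ :=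
      Finset.le_sup' (fun I => F I β₀) (Finset.mem_univ _)
    refine lt_of_lt_of_le ?_ hle
    have h1 : ∑ i ∈ (Finset.univ.filter (fun i => β₀ i ≠ 0))ᶜ, β₀ i = 0 := by
      apply Finset.sum_eq_zero
      intro i hi
      simpa using hi
    have h2 : 0 < ∏ i ∈ Finset.univ.filter (fun i => β₀ i ≠ 0), (β₀ i) ^ 2 := by
      apply Finset.prod_pos
      intro i hi
      have := (Finset.mem_filter.1 hi).2
      positivity
    change 0 < (∏ i ∈ _, (β₀ i) ^ 2) - K * ∑ i ∈ _, β₀ i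
    rw [h1, mul_zero, sub_zero]
    exact h2
  refine ⟨Φ β₀ / (2 * (K * r + 1)), by positivity, ?_⟩
  intro β mz hβ hI hmz
  by_contra hno
  push Not at hno
  have h1 : Φ β₀ ≤ Φ β := hmin (fun i _ => ⟨(hβ i).1, (hβ i).2⟩)
  obtain ⟨I, _, hIeq⟩ := Finset.exists_mem_eq_sup' (⟨∅, Finset.mem_univ _⟩ : (Finset.univ : Finset (Finset (Fin r))).Nonempty) (fun I => F I β)
  have h2 : Φ β = F I β := hIeq
  have h3 := hI I
  have h4 : ∑ i ∈ I, mz i ≤ r * (Φ β₀ / (2 * (K * r + 1))) := by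
    calc ∑ i ∈ I, mz i ≤ ∑ i : Fin r, mz i :=
          Finset.sum_le_sum_of_subset_of_nonneg (Finset.subset_univ _) (fun i _ _ => hmz i)
      _ ≤ ∑ i : Fin r, (Φ β₀ / (2 * (K * r + 1))) := Finset.sum_le_sum (fun i _ => (hno i).le)
      _ = _ := by simp
  have h5 : F I β ≤ K * (r * (Φ β₀ / (2 * (K * r + 1)))) := by
    change (∏ i ∈ I, (β i) ^ 2) - K * ∑ i ∈ Iᶜ, β i ≤ _
    have hK : (0:ℝ) ≤ K := Nat.cast_nonneg K
    have := mul_le_mul_of_nonneg_left h4 hK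
    linarith
  rw [← h2] at h5
  have h6 : (K:ℝ) * (r * (Φ β₀ / (2 * (K * r + 1)))) < Φ β₀ := by
    have hd : (0:ℝ) < 2 * (K * r + 1) := by positivity
    have e : (K:ℝ) * (r * (Φ β₀ / (2 * (K * r + 1)))) = (K * r * Φ β₀) / (2 * (K * r + 1)) := by ring
    rw [e, div_lt_iff₀ hd]
    have : (0:ℝ) ≤ K * r := by positivity
    nlinarith
  linarith

end Pool.Agent.R3.CB
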