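import Pool.Agent.R3.CB1

set_option linter.unusedSectionVars false
set_option linter.unusedVariables false

/-!
Characters and the mean on the dual group (helper3, for MP_cc4361_co).
-/

namespace Pool.Agent.R3.CB

open Filter Topology

variable {G : Type*} [AddCommGroup G]

theorem exists_char_ne_one {x : G} (hx : x ≠ 0) : ∃ ψ : AddChar G Circle, ψ x ≠ 1 := by
  obtain ⟨c, hc⟩ := CharacterModule.exists_character_apply_ne_zero_of_ne_zero hx
  let f : ℚ →+ Additive Circle :=
    Circle.expHom.comp ((AddMonoidHom.mulLeft (2 * Real.pi)).comp (Rat.castHom ℝ).toAddMonoidHom)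
  have hf : ∀ q : ℚ, f q = Additive.ofMul (Circle.exp (2 * Real.pi * (q:ℝ))) := fun q => rfl
  have hker : AddSubgroup.zmultiples (1:ℚ) ≤ f.ker := by
    intro q hq
    obtain ⟨n, hn⟩ := AddSubgroup.mem_zmultiples_iff.1 hq
    rw [AddMonoidHom.mem_ker, hf]
    have : (q:ℝ) = (n:ℝ) := by rw [← hn]; simp
    rw [this]
    have h2 : Circle.exp (2 * Real.pi * (n:ℝ)) = 1 := Circle.exp_two_pi_mul_int n
    rw [h2]; rfl
  let κ : (ℚ ⧸ AddSubgroup.zmultiples (1:ℚ)) →+ Additive Circle := QuotientAddGroup.lift _ f hker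
  let c' : G →+ (ℚ ⧸ AddSubgroup.zmultiples (1:ℚ)) := c
  refine ⟨AddChar.toAddMonoidHomEquiv.symm (κ.comp c'), ?_⟩
  intro h
  apply hc
  have h1 : κ (c' x) = 0 := h
  obtain ⟨q, hq⟩ := QuotientAddGroup.mk_surjective (c' x)
  rw [← hq] at h1
  have h2 : f q = 0 := h1
  rw [hf] at h2
  have h3 : Circle.exp (2 * Real.pi * (q:ℝ)) = 1 := h2
  rw [Circle.exp_eq_one] at h3
  obtain ⟨n, hn⟩ := h3
  have h4 : (q:ℝ) = n := by
    have hpi : (2 * Real.pi) ≠ 0 := by positivity
    have : 2 * Real.pi * (q:ℝ) = 2 * Real.pi * (n:ℝ) := by rw [hn]; ring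
    exact mul_left_cancel₀ hpi this
  have h5 : q = n := by exact_mod_cast h4
  change c' x = 0
  rw [← hq]
  rw [QuotientAddGroup.eq_zero_iff, AddSubgroup.mem_zmultiples_iff]
  exact ⟨n, by rw [h5]; simp⟩

lemma re_bdd (x : G) : Bdd (fun χ : AddChar G Circle => ((χ x : Circle) : ℂ).re) :=
  ⟨1, fun χ => by
    have := Complex.abs_re_le_norm ((χ x : Circle) : ℂ)
    rwa [Circle.norm_coe] at this⟩

lemma im_bdd (x : G) : Bdd (fun χ : AddChar G Circle => ((χ x : Circle) : ℂ).im) :=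
  ⟨1, fun χ => by
    have := Complex.abs_im_le_norm ((χ x : Circle) : ℂ)
    rwa [Circle.norm_coe] at this⟩

theorem mean_char (D : InvMean (AddChar G Circle)) (x : G) [Decidable (x = 0)] :
    D.m (fun χ => ((χ x : Circle) : ℂ).re) = if x = 0 then 1 else 0 := by
  split_ifs with h
  · subst h
    simpa using D.const 1
  · obtain ⟨ψ, hψ⟩ := exists_char_ne_one h
    set a := D.m (fun χ => ((χ x : Circle) : ℂ).re) with ha
    set b := D.m (fun χ => ((χ x : Circle) : ℂ).im) with hb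
    set p := ((ψ x : Circle) : ℂ).re with hp
    set q := ((ψ x : Circle) : ℂ).im with hq
    have h1 : a = p * a - q * b := by
      conv_lhs => rw [ha, ← D.shift _ (re_bdd x) ψ]
      have e : (fun χ : AddChar G Circle => (((χ + ψ) x : Circle) : ℂ).re)
          = (fun χ => p * ((χ x : Circle) : ℂ).re - q * ((χ x : Circle) : ℂ).im) := by
        funext χ
        rw [AddChar.add_apply, Circle.coe_mul, Complex.mul_re]
        ring
      rw [e, D.sub ((re_bdd x).smul _) ((im_bdd x).smul _), D.smul _ _ (re_bdd x), D.smul _ _ (im_bdd x)]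
    have h2 : b = q * a + p * b := by
      conv_lhs => rw [hb, ← D.shift _ (im_bdd x) ψ]
      have e : (fun χ : AddChar G Circle => (((χ + ψ) x : Circle) : ℂ).im)
          = (fun χ => q * ((χ x : Circle) : ℂ).re + p * ((χ x : Circle) : ℂ).im) := by
        funext χ
        rw [AddChar.add_apply, Circle.coe_mul, Complex.mul_im]
        ring
      rw [e, D.add _ _ ((re_bdd x).smul _) ((im_bdd x).smul _), D.smul _ _ (re_bdd x), D.smul _ _ (im_bdd x)]
    have h3 : ((1 - p) ^ 2 + q ^ 2) * a = 0 := by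
      have e1 : (1 - p) * a = - (q * b) := by linarith
      have e2 : (1 - p) * b = q * a := by linarith
      calc ((1 - p) ^ 2 + q ^ 2) * a = (1 - p) * ((1 - p) * a) + q * (q * a) := by ring
        _ = (1 - p) * (-(q * b)) + q * ((1 - p) * b) := by rw [e1, e2]
        _ = 0 := by ring
    have h4 : (1 - p) ^ 2 + q ^ 2 ≠ 0 := by
      intro h0
      have hp1 : p = 1 := by nlinarith [sq_nonneg (1 - p), sq_nonneg q]
      have hq1 : q = 0 := by nlinarith [sq_nonneg (1 - p), sq_nonneg q]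
      apply hψ
      apply Circle.ext
      rw [Circle.coe_one]
      exact Complex.ext (by rw [← hp, hp1]; simp) (by rw [← hq, hq1]; simp)
    exact (mul_eq_zero.1 h3).resolve_left h4

/-- transfer inequality -/
theorem harm1 (U Y : Finset G) (g f : G → ℝ) (hg : ∀ u, u ∉ U → g u = 0) (p : G → G) (t : G)
    (κ : ℝ)
    (hκ : ∀ χ : AddChar G Circle,
      ‖(1:ℂ) - ((χ t : Circle) : ℂ)‖ * ‖∑ y ∈ Y, (f y : ℂ) * ((χ (p y) : Circle) : ℂ)‖ ≤ κ) :
    ∑ y ∈ Y, f y * ∑ u ∈ U, g u * g (u + p y) - ∑ y ∈ Y, f y * ∑ u ∈ U, g u * g (u + p y - t)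
      ≤ κ * ∑ u ∈ U, (g u) ^ 2 := by
  classical
  obtain ⟨D⟩ := exists_invMean (AddChar G Circle)
  -- generic term
  let T : G → AddChar G Circle → ℝ := fun s χ =>
    ∑ y ∈ Y, ∑ u ∈ U, ∑ v ∈ U, (f y * g u * g v) * ((χ (u + p y - s - v) : Circle) : ℂ).re
  have hTb : ∀ s, Bdd (T s) := fun s =>
    Bdd.sum _ (fun y _ => Bdd.sum _ (fun u _ => Bdd.sum _ (fun v _ => (re_bdd _).smul _)))
  have hT : ∀ s, D.m (T s) = ∑ y ∈ Y, f y * ∑ u ∈ U, g u * g (u + p y - s) := by
    intro s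
    change D.m (fun χ => ∑ y ∈ Y, ∑ u ∈ U, ∑ v ∈ U, (f y * g u * g v) * ((χ (u + p y - s - v) : Circle) : ℂ).re) = _
    rw [D.sum _ _ (fun y _ => Bdd.sum _ (fun u _ => Bdd.sum _ (fun v _ => (re_bdd _).smul _)))]
    refine Finset.sum_congr rfl (fun y _ => ?_)
    rw [D.sum _ _ (fun u _ => Bdd.sum _ (fun v _ => (re_bdd _).smul _)), Finset.mul_sum]
    refine Finset.sum_congr rfl (fun u _ => ?_)
    rw [D.sum _ _ (fun v _ => (re_bdd _).smul _)]
    have h1 : ∀ v ∈ U, D.m (fun χ => (f y * g u * g v) * ((χ (u + p y - s - v) : Circle) : ℂ).re)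
        = if v = u + p y - s then f y * g u * g v else 0 := by
      intro v _
      rw [D.smul _ _ (re_bdd _), mean_char]
      by_cases h : v = u + p y - s
      · rw [if_pos h, if_pos (by rw [h]; abel), mul_one]
      · rw [if_neg h, if_neg (fun h' => h (sub_eq_zero.1 h').symm), mul_zero]
    rw [Finset.sum_congr rfl h1, Finset.sum_ite_eq' U (u + p y - s) (fun v => f y * g u * g v)]
    split_ifs with h
    · ring
    · rw [hg _ h]; ring
  let S : AddChar G Circle → ℝ := fun χ => ∑ u ∈ U, ∑ v ∈ U, (g u * g v) * ((χ (u - v) : Circle) : ℂ).re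
  have hSb : Bdd S := Bdd.sum _ (fun u _ => Bdd.sum _ (fun v _ => (re_bdd _).smul _))
  have hS : D.m S = ∑ u ∈ U, (g u) ^ 2 := by
    change D.m (fun χ => ∑ u ∈ U, ∑ v ∈ U, (g u * g v) * ((χ (u - v) : Circle) : ℂ).re) = _
    rw [D.sum _ _ (fun u _ => Bdd.sum _ (fun v _ => (re_bdd _).smul _))]
    refine Finset.sum_congr rfl (fun u hu => ?_)
    rw [D.sum _ _ (fun v _ => (re_bdd _).smul _)]
    have h1 : ∀ v ∈ U, D.m (fun χ => (g u * g v) * ((χ (u - v) : Circle) : ℂ).re)
        = if v = u then g u * g v else 0 := by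
      intro v _
      rw [D.smul _ _ (re_bdd _), mean_char]
      by_cases h : v = u
      · rw [if_pos h, if_pos (by rw [h, sub_self]), mul_one]
      · rw [if_neg h, if_neg (fun h' => h (sub_eq_zero.1 h').symm), mul_zero]
    rw [Finset.sum_congr rfl h1, Finset.sum_ite_eq' U u (fun v => g u * g v), if_pos hu]
    ring
  -- pointwise
  have hpt : ∀ χ, T 0 χ - T t χ ≤ κ * S χ := by
    intro χ
    set gh : ℂ := ∑ u ∈ U, (g u : ℂ) * ((χ u : Circle) : ℂ) with hgh
    set fh : ℂ := ∑ y ∈ Y, (f y : ℂ) * ((χ (p y) : Circle) : ℂ) with hfh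
    have hconj : ∀ v : G, ((χ (-v) : Circle) : ℂ) = (starRingEnd ℂ) ((χ v : Circle) : ℂ) := by
      intro v
      rw [AddChar.map_neg_eq_inv, Circle.coe_inv_eq_conj]
    have hghc : (starRingEnd ℂ) gh = ∑ v ∈ U, (g v : ℂ) * ((χ (-v) : Circle) : ℂ) := by
      rw [hgh, map_sum]
      refine Finset.sum_congr rfl (fun v _ => ?_)
      rw [map_mul, Complex.conj_ofReal, hconj]
    have hTχ : ∀ s, T s χ = (fh * (gh * (starRingEnd ℂ) gh) * ((χ (-s) : Circle) : ℂ)).re := by
      intro s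
      rw [hghc, hfh, hgh, Finset.sum_mul_sum, Finset.sum_mul_sum]
      simp only [Finset.sum_mul, Finset.mul_sum, Complex.re_sum]
      refine Finset.sum_congr rfl (fun y _ => Finset.sum_congr rfl (fun u _ =>
        Finset.sum_congr rfl (fun v _ => ?_)))
      have e : u + p y - s - v = u + p y + (-s) + (-v) := by abel
      rw [e, AddChar.map_add_eq_mul, AddChar.map_add_eq_mul, AddChar.map_add_eq_mul]
      simp only [Circle.coe_mul]
      rw [← Complex.re_ofReal_mul]
      congr 1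
      push_cast
      ring
    have hSχ : S χ = ‖gh‖ ^ 2 := by
      have h1 : S χ = (gh * (starRingEnd ℂ) gh).re := by
        rw [hghc, hgh, Finset.sum_mul_sum]
        simp only [Complex.re_sum]
        refine Finset.sum_congr rfl (fun u _ => Finset.sum_congr rfl (fun v _ => ?_))
        rw [sub_eq_add_neg, AddChar.map_add_eq_mul]
        simp only [Circle.coe_mul]
        rw [← Complex.re_ofReal_mul]
        congr 1
        push_cast
        ring
      rw [h1, Complex.mul_conj, Complex.ofReal_re, Complex.normSq_eq_norm_sq]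
    rw [hTχ, hTχ, hSχ, ← Complex.sub_re]
    refine (Complex.re_le_norm _).trans ?_
    have e : fh * (gh * (starRingEnd ℂ) gh) * ((χ (-0) : Circle) : ℂ)
        - fh * (gh * (starRingEnd ℂ) gh) * ((χ (-t) : Circle) : ℂ)
        = (gh * (starRingEnd ℂ) gh) * ((starRingEnd ℂ) (1 - ((χ t : Circle) : ℂ)) * fh) := by
      rw [map_sub, map_one, hconj t, neg_zero, AddChar.map_zero_eq_one, Circle.coe_one]
      ring
    rw [e, norm_mul, norm_mul, norm_mul, RCLike.norm_conj, RCLike.norm_conj]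
    have := hκ χ
    have h0 : 0 ≤ ‖gh‖ * ‖gh‖ := by positivity
    calc ‖gh‖ * ‖gh‖ * (‖(1:ℂ) - ((χ t : Circle) : ℂ)‖ * ‖fh‖) ≤ ‖gh‖ * ‖gh‖ * κ :=
          mul_le_mul_of_nonneg_left this h0
      _ = κ * ‖gh‖ ^ 2 := by ring
  have hfin := D.mono _ _ ((hTb 0).sub (hTb t)) (hSb.smul κ) hpt
  rw [D.sub (hTb 0) (hTb t), D.smul _ _ hSb, hT, hT, hS] at hfin
  simpa using hfin

end Pool.Agent.R3.CB
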