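import Pool.Agent.R3.CB4

set_option linter.unusedSectionVars false
set_option linter.unusedVariables false

/-!
Large spectrum and separated characters (helper3, for MP_cc4361_co).
-/

namespace Pool.Agent.R3.CB

open Filter Topology

variable {G : Type*} [AddCommGroup G]

lemma E_sq_le {w : G →₀ ℝ} (hw : IsWin w) (h : G → ℝ) : (E w h) ^ 2 ≤ E w (fun x => h x ^ 2) := by
  set a := E w h with ha
  have h0 : E w (fun _ => (0:ℝ)) ≤ E w (fun x => (h x ^ 2 + (-2 * a) * h x) + a * a) :=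
    E_mono hw.1 (fun x => by nlinarith [sq_nonneg (h x - a)])
  rw [E_const hw, E_add, E_add, E_smul, E_const hw, ← ha] at h0
  nlinarith

/-- `a χ` -/
noncomputable def ac (w : G →₀ ℝ) (f : G → ℝ) (p : G → G) (χ : AddChar G Circle) : ℂ :=
  ∑ y ∈ w.support, (f y : ℂ) * ((χ (p y) : Circle) : ℂ)

/-- `m ψ` -/
noncomputable def mc (w : G →₀ ℝ) (p : G → G) (ψ : AddChar G Circle) : ℂ :=
  ∑ y ∈ w.support, (w y : ℂ) * ((ψ (p y) : Circle) : ℂ)

lemma mc_zero {w : G →₀ ℝ} (hw : IsWin w) (p : G → G) : mc w p 0 = 1 := by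
  unfold mc
  have h := hw.2
  rw [E_eq] at h
  simp only [AddChar.zero_apply, Circle.coe_one, mul_one] at h ⊢
  rw [← Complex.ofReal_sum, h]; simp

lemma mc_norm_le {w : G →₀ ℝ} (hw : IsWin w) (p : G → G) (ψ : AddChar G Circle) : ‖mc w p ψ‖ ≤ 1 := by
  unfold mc
  refine (norm_sum_le _ _).trans ?_
  have h := hw.2
  rw [E_eq] at h
  rw [← h]
  refine Finset.sum_le_sum (fun y _ => ?_)
  rw [norm_mul, Circle.norm_coe, mul_one, mul_one, Complex.norm_real, Real.norm_eq_abs,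
    abs_of_nonneg (hw.1 y)]

lemma coe_sub (χ χ' : AddChar G Circle) (x : G) :
    (((χ - χ') x : Circle) : ℂ) = ((χ x : Circle) : ℂ) * (starRingEnd ℂ) ((χ' x : Circle) : ℂ) := by
  rw [AddChar.sub_apply, Circle.coe_mul, AddChar.map_neg_eq_inv, Circle.coe_inv_eq_conj]

lemma mc_sub_comm (w : G →₀ ℝ) (p : G → G) (χ χ' : AddChar G Circle) :
    ‖mc w p (χ - χ')‖ = ‖mc w p (χ' - χ)‖ := by
  have : mc w p (χ - χ') = (starRingEnd ℂ) (mc w p (χ' - χ)) := by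
    unfold mc
    rw [map_sum]
    refine Finset.sum_congr rfl (fun y _ => ?_)
    rw [map_mul, Complex.conj_ofReal, coe_sub, coe_sub, map_mul, Complex.conj_conj]
    ring
  rw [this, RCLike.norm_conj]

theorem bessel {w : G →₀ ℝ} (hw : IsWin w) (f : G → ℝ) (hf : ∀ y, |f y| ≤ w y) (p : G → G)
    (ε : ℝ) (hε : 0 < ε) (T : Finset (AddChar G Circle))
    (h1 : ∀ χ ∈ T, ε ≤ ‖ac w f p χ‖)
    (h2 : ∀ χ ∈ T, ∀ χ' ∈ T, χ ≠ χ' → ‖mc w p (χ - χ')‖ ≤ ε ^ 2 / 2) :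
    (T.card : ℝ) * ε ^ 2 ≤ 2 := by
  classical
  let c : AddChar G Circle → ℂ := fun χ => (starRingEnd ℂ) (ac w f p χ) / (‖ac w f p χ‖ : ℂ)
  have hc1 : ∀ χ ∈ T, ‖c χ‖ ≤ 1 := by
    intro χ hχ
    have hpos : 0 < ‖ac w f p χ‖ := lt_of_lt_of_le hε (h1 χ hχ)
    change ‖(starRingEnd ℂ) (ac w f p χ) / (‖ac w f p χ‖ : ℂ)‖ ≤ 1
    rw [norm_div, RCLike.norm_conj, Complex.norm_real, norm_norm, div_self hpos.ne']
  have hc2 : ∀ χ ∈ T, c χ * ac w f p χ = (‖ac w f p χ‖ : ℂ) := by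
    intro χ hχ
    have hpos : 0 < ‖ac w f p χ‖ := lt_of_lt_of_le hε (h1 χ hχ)
    have hne : (‖ac w f p χ‖ : ℂ) ≠ 0 := by exact_mod_cast hpos.ne'
    change (starRingEnd ℂ) (ac w f p χ) / (‖ac w f p χ‖ : ℂ) * ac w f p χ = _
    rw [div_mul_eq_mul_div, div_eq_iff hne, mul_comm ((starRingEnd ℂ) _) _, Complex.mul_conj,
      Complex.normSq_eq_norm_sq]
    push_cast; ring
  let P : G → ℂ := fun y => ∑ χ ∈ T, c χ * ((χ (p y) : Circle) : ℂ)
  have s1 : (T.card : ℝ) * ε ≤ E w (fun y => ‖P y‖) := by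
    have e1 : ((∑ χ ∈ T, ‖ac w f p χ‖ : ℝ) : ℂ) = ∑ y ∈ w.support, (f y : ℂ) * P y := by
      push_cast
      rw [Finset.sum_congr rfl (fun χ hχ => (hc2 χ hχ).symm)]
      unfold ac
      simp only [Finset.mul_sum, P]
      rw [Finset.sum_comm]
      refine Finset.sum_congr rfl (fun y _ => Finset.sum_congr rfl (fun χ _ => by ring))
    have e2 : ∑ χ ∈ T, ‖ac w f p χ‖ ≤ E w (fun y => ‖P y‖) := by
      calc ∑ χ ∈ T, ‖ac w f p χ‖ = ‖((∑ χ ∈ T, ‖ac w f p χ‖ : ℝ) : ℂ)‖ := by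
            rw [Complex.norm_real, Real.norm_eq_abs, abs_of_nonneg]
            exact Finset.sum_nonneg (fun χ _ => norm_nonneg _)
        _ = ‖∑ y ∈ w.support, (f y : ℂ) * P y‖ := by rw [e1]
        _ ≤ ∑ y ∈ w.support, ‖(f y : ℂ) * P y‖ := norm_sum_le _ _
        _ ≤ E w (fun y => ‖P y‖) := by
            rw [E_eq]
            refine Finset.sum_le_sum (fun y _ => ?_)
            rw [norm_mul, Complex.norm_real, Real.norm_eq_abs]
            exact mul_le_mul_of_nonneg_right (hf y) (norm_nonneg _)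
    refine le_trans ?_ e2
    calc (T.card : ℝ) * ε = ∑ χ ∈ T, ε := by simp
      _ ≤ _ := Finset.sum_le_sum h1
  have s2 : E w (fun y => ‖P y‖ ^ 2) ≤ T.card + (T.card : ℝ) ^ 2 * (ε ^ 2 / 2) := by
    have e1 : E w (fun y => ‖P y‖ ^ 2) =
        ∑ χ ∈ T, ∑ χ' ∈ T, (c χ * (starRingEnd ℂ) (c χ') * mc w p (χ - χ')).re := by
      have e2 : ∀ y, ‖P y‖ ^ 2 = ∑ χ ∈ T, ∑ χ' ∈ T,
          (c χ * (starRingEnd ℂ) (c χ') * (((χ - χ') (p y) : Circle) : ℂ)).re := by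
        intro y
        have : ‖P y‖ ^ 2 = (P y * (starRingEnd ℂ) (P y)).re := by
          rw [Complex.mul_conj, Complex.ofReal_re, Complex.normSq_eq_norm_sq]
        rw [this]
        simp only [P]
        rw [map_sum, Finset.sum_mul_sum]
        simp only [Complex.re_sum]
        refine Finset.sum_congr rfl (fun χ _ => Finset.sum_congr rfl (fun χ' _ => ?_))
        rw [map_mul, coe_sub]
        congr 1
        ring
      rw [E_eq]
      simp only [e2, Finset.mul_sum]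
      rw [Finset.sum_comm]
      refine Finset.sum_congr rfl (fun χ _ => ?_)
      rw [Finset.sum_comm]
      refine Finset.sum_congr rfl (fun χ' _ => ?_)
      unfold mc
      rw [Finset.mul_sum, Complex.re_sum]
      refine Finset.sum_congr rfl (fun y _ => ?_)
      rw [← Complex.re_ofReal_mul]
      congr 1
      ring
    rw [e1]
    have e3 : ∀ χ ∈ T, ∑ χ' ∈ T, (c χ * (starRingEnd ℂ) (c χ') * mc w p (χ - χ')).re
        ≤ 1 + (T.card : ℝ) * (ε ^ 2 / 2) := by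
      intro χ hχ
      have e4 : ∀ χ' ∈ T, (c χ * (starRingEnd ℂ) (c χ') * mc w p (χ - χ')).re ≤
          (if χ' = χ then 1 else 0) + ε ^ 2 / 2 := by
        intro χ' hχ'
        refine (Complex.re_le_norm _).trans ?_
        rw [norm_mul, norm_mul, RCLike.norm_conj]
        have b1 : ‖c χ‖ * ‖c χ'‖ ≤ 1 := mul_le_one₀ (hc1 χ hχ) (norm_nonneg _) (hc1 χ' hχ')
        have b2 : ‖c χ‖ * ‖c χ'‖ * ‖mc w p (χ - χ')‖ ≤ ‖mc w p (χ - χ')‖ :=
          mul_le_of_le_one_left (norm_nonneg _) b1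
        by_cases h : χ' = χ
        · rw [if_pos h]
          have := mc_norm_le hw p (χ - χ')
          have h0 : 0 ≤ ε ^ 2 / 2 := by positivity
          linarith
        · rw [if_neg h]
          have := h2 χ hχ χ' hχ' (fun h' => h h'.symm)
          linarith
      refine (Finset.sum_le_sum e4).trans ?_
      rw [Finset.sum_add_distrib, Finset.sum_ite_eq' T χ (fun _ => (1:ℝ)), if_pos hχ]
      simp
    refine (Finset.sum_le_sum e3).trans ?_
    rw [Finset.sum_const, nsmul_eq_mul]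
    apply le_of_eq; ring
  have s3 := E_sq_le hw (fun y => ‖P y‖)
  have s4 : ((T.card : ℝ) * ε) ^ 2 ≤ (E w (fun y => ‖P y‖)) ^ 2 := by
    apply pow_le_pow_left₀ (by positivity) s1
  have s5 : ((T.card : ℝ) * ε) ^ 2 ≤ T.card + (T.card : ℝ) ^ 2 * (ε ^ 2 / 2) :=
    s4.trans (s3.trans s2)
  rcases Nat.eq_zero_or_pos T.card with h | h
  · rw [h]; simp
  · have hk : (0:ℝ) < T.card := by exact_mod_cast h
    by_contra hcon
    rw [not_le] at hcon
    nlinarith [mul_lt_mul_of_pos_left hcon hk]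

theorem select {w : G →₀ ℝ} (hw : IsWin w) (f : G → ℝ) (hf : ∀ y, |f y| ≤ w y) (p : G → G)
    (ε : ℝ) (hε : 0 < ε) (hε1 : ε ≤ 1) :
    ∃ T : Finset (AddChar G Circle), (T.card : ℝ) * ε ^ 2 ≤ 2 ∧
      ∀ χ, ε ≤ ‖ac w f p χ‖ → ∃ χ' ∈ T, ε ^ 2 / 2 < ‖mc w p (χ - χ')‖ := by
  classical
  let good : Finset (AddChar G Circle) → Prop := fun T =>
    (∀ χ ∈ T, ε ≤ ‖ac w f p χ‖) ∧
    (∀ χ ∈ T, ∀ χ' ∈ T, χ ≠ χ' → ‖mc w p (χ - χ')‖ ≤ ε ^ 2 / 2)
  obtain ⟨N, hN⟩ := exists_nat_gt (2 / ε ^ 2)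
  have hbound : ∀ T, good T → T.card ≤ N := by
    intro T hT
    have h := bessel hw f hf p ε hε T hT.1 hT.2
    have : (T.card : ℝ) ≤ 2 / ε ^ 2 := by rw [le_div_iff₀ (by positivity)]; exact h
    exact_mod_cast (this.trans hN.le)
  have hex : ∃ n, ∃ T, good T ∧ T.card = n := ⟨0, ∅, ⟨by simp, by simp⟩, rfl⟩
  let Pn : ℕ → Prop := fun n => ∃ T, good T ∧ T.card = n
  have hPbound : ∀ n, Pn n → n ≤ N := fun n ⟨T, hT, hc⟩ => hc ▸ hbound T hT
  have hP0 : Pn 0 := ⟨∅, ⟨by simp, by simp⟩, rfl⟩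
  have hspec : Pn (Nat.findGreatest Pn N) := Nat.findGreatest_spec (Nat.zero_le N) hP0
  obtain ⟨T, hT, hcard⟩ := hspec
  refine ⟨T, bessel hw f hf p ε hε T hT.1 hT.2, ?_⟩
  intro χ hχ
  by_contra hno
  push Not at hno
  have hχT : χ ∉ T := by
    intro hmem
    have := hno χ hmem
    rw [sub_self, mc_zero hw, norm_one] at this
    nlinarith
  have hgood : good (insert χ T) := by
    constructor
    · intro ψ hψ
      rcases Finset.mem_insert.1 hψ with rfl | h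
      · exact hχ
      · exact hT.1 ψ h
    · intro ψ hψ ψ' hψ' hne
      rcases Finset.mem_insert.1 hψ with rfl | h
      · rcases Finset.mem_insert.1 hψ' with rfl | h'
        · exact absurd rfl hne
        · exact hno ψ' h'
      · rcases Finset.mem_insert.1 hψ' with rfl | h'
        · rw [mc_sub_comm]; exact hno ψ h
        · exact hT.2 ψ h ψ' h' hne
  have hP : Pn (T.card + 1) := ⟨insert χ T, hgood, Finset.card_insert_of_notMem hχT⟩
  have h1 : T.card + 1 ≤ Nat.findGreatest Pn N := Nat.le_findGreatest (hPbound _ hP) hP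
  rw [← hcard] at h1
  omega

theorem near_char {w : G →₀ ℝ} (φ : G →+ G) (z : G) (ε' : ℝ)
    (hn : Near w z ε') (ψ : AddChar G Circle) :
    ‖mc w φ ψ‖ * ‖((ψ (φ z) : Circle) : ℂ) - 1‖ ≤ 2 * ε' := by
  have hre := hn (fun y => ((ψ (φ y) : Circle) : ℂ).re) (fun y => by
    have := Complex.abs_re_le_norm ((ψ (φ y) : Circle) : ℂ)
    rwa [Circle.norm_coe] at this)
  have him := hn (fun y => ((ψ (φ y) : Circle) : ℂ).im) (fun y => by
    have := Complex.abs_im_le_norm ((ψ (φ y) : Circle) : ℂ)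
    rwa [Circle.norm_coe] at this)
  set d : ℂ := mc w φ ψ * (((ψ (φ z) : Circle) : ℂ) - 1) with hd
  have e1 : d = ∑ y ∈ w.support, (w y : ℂ) * (((ψ (φ (y + z)) : Circle) : ℂ) - ((ψ (φ y) : Circle) : ℂ)) := by
    rw [hd]
    unfold mc
    rw [Finset.sum_mul]
    refine Finset.sum_congr rfl (fun y _ => ?_)
    rw [map_add, AddChar.map_add_eq_mul, Circle.coe_mul]
    ring
  have e2 : d.re = E w (fun y => ((ψ (φ (y + z)) : Circle) : ℂ).re) - E w (fun y => ((ψ (φ y) : Circle) : ℂ).re) := by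
    rw [← E_sub, E_eq, e1, Complex.re_sum]
    refine Finset.sum_congr rfl (fun y _ => ?_)
    rw [Complex.re_ofReal_mul, Complex.sub_re]
  have e3 : d.im = E w (fun y => ((ψ (φ (y + z)) : Circle) : ℂ).im) - E w (fun y => ((ψ (φ y) : Circle) : ℂ).im) := by
    rw [← E_sub, E_eq, e1, Complex.im_sum]
    refine Finset.sum_congr rfl (fun y _ => ?_)
    rw [Complex.im_ofReal_mul, Complex.sub_im]
  rw [← norm_mul, ← hd]
  refine (Complex.norm_le_abs_re_add_abs_im d).trans ?_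
  rw [e2, e3]
  linarith

/-- the harmonic step -/
theorem harm2 {w : G →₀ ℝ} (hw : IsWin w) (f : G → ℝ) (hf : ∀ y, |f y| ≤ w y) (φ : G →+ G)
    (U : Finset G) (g : G → ℝ) (hg : ∀ u, u ∉ U → g u = 0) (hg2 : ∑ u ∈ U, (g u) ^ 2 ≤ 1)
    (κ : ℝ) (hκ : 0 < κ) (hκ1 : κ ≤ 1)
    (h0 : κ ≤ ∑ y ∈ w.support, f y * ∑ u ∈ U, g u * g (u + φ y))
    (F : Finset G) (z : G → G) (hz : ∀ t ∈ F, φ (z t) = t)
    (hn : ∀ t ∈ F, Near w (z t) (κ ^ 3 / 256))
    (hF : ∀ t ∈ F, ∑ y ∈ w.support, f y * ∑ u ∈ U, g u * g (u + φ y - t) = 0) :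
    ∃ T : Finset (AddChar G Circle), (T.card : ℝ) * κ ^ 2 ≤ 32 ∧
      ∀ t ∈ F, ∃ χ ∈ T, κ / 4 ≤ ‖((χ t : Circle) : ℂ) - 1‖ := by
  classical
  obtain ⟨T, hT1, hT2⟩ := select hw f hf φ (κ / 4) (by positivity) (by linarith)
  refine ⟨T, by nlinarith, ?_⟩
  intro t ht
  -- find χ
  have hex : ∃ χ : AddChar G Circle, κ / 2 < ‖(1:ℂ) - ((χ t : Circle) : ℂ)‖ * ‖ac w f φ χ‖ := by
    by_contra hno
    push Not at hno
    have := harm1 U w.support g f hg φ t (κ / 2) hno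
    rw [hF t ht] at this
    have h3 : κ / 2 * ∑ u ∈ U, (g u) ^ 2 ≤ κ / 2 := by
      calc κ / 2 * ∑ u ∈ U, (g u) ^ 2 ≤ κ / 2 * 1 := by gcongr
        _ = κ / 2 := mul_one _
    linarith
  obtain ⟨χ, hχ⟩ := hex
  have hle2 : ‖(1:ℂ) - ((χ t : Circle) : ℂ)‖ ≤ 2 := by
    refine (norm_sub_le _ _).trans ?_
    rw [norm_one, Circle.norm_coe]; norm_num
  have hac1 : ‖ac w f φ χ‖ ≤ 1 := by
    unfold ac
    refine (norm_sum_le _ _).trans ?_
    have h := hw.2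
    rw [E_eq] at h
    rw [← h]
    refine Finset.sum_le_sum (fun y _ => ?_)
    rw [norm_mul, Circle.norm_coe, mul_one, mul_one, Complex.norm_real, Real.norm_eq_abs]
    exact hf y
  have ha : κ / 4 ≤ ‖ac w f φ χ‖ := by nlinarith [norm_nonneg (ac w f φ χ)]
  have hb : κ / 2 ≤ ‖(1:ℂ) - ((χ t : Circle) : ℂ)‖ := by
    nlinarith [norm_nonneg ((1:ℂ) - ((χ t : Circle) : ℂ))]
  obtain ⟨χ', hχ', hm⟩ := hT2 χ ha
  refine ⟨χ', hχ', ?_⟩
  have hnc := near_char φ (z t) _ (hn t ht) (χ - χ')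
  rw [hz t ht] at hnc
  have hc : ‖(((χ - χ') t : Circle) : ℂ) - 1‖ ≤ κ / 4 := by
    by_contra hcon
    rw [not_le] at hcon
    have hm' : κ ^ 2 / 32 < ‖mc w φ (χ - χ')‖ := by
      have : (κ / 4) ^ 2 / 2 = κ ^ 2 / 32 := by ring
      rw [← this]; exact hm
    have : κ ^ 2 / 32 * (κ / 4) < ‖mc w φ (χ - χ')‖ * ‖(((χ - χ') t : Circle) : ℂ) - 1‖ :=
      mul_lt_mul'' hm' hcon (by positivity) (by positivity)
    nlinarith
  have htri : ‖(1:ℂ) - ((χ t : Circle) : ℂ)‖ ≤ ‖(((χ - χ') t : Circle) : ℂ) - 1‖ + ‖((χ' t : Circle) : ℂ) - 1‖ := by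
    have e : ((χ t : Circle) : ℂ) = (((χ - χ') t : Circle) : ℂ) * ((χ' t : Circle) : ℂ) := by
      rw [← Circle.coe_mul, ← AddChar.add_apply, sub_add_cancel]
    have e2 : (1:ℂ) - ((χ t : Circle) : ℂ) =
        -((((χ - χ') t : Circle) : ℂ) - 1) * ((χ' t : Circle) : ℂ) - (((χ' t : Circle) : ℂ) - 1) := by
      rw [e]; ring
    rw [e2]
    refine (norm_sub_le _ _).trans ?_
    rw [norm_mul, norm_neg, Circle.norm_coe, mul_one]
  linarith

end Pool.Agent.R3.CB
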