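import Pool.Agent.R3.CB2
import Pool.Agent.R3.CB5

set_option linter.unusedSectionVars false
set_option linter.unusedVariables false

/-!
The finite step (helper3, for MP_cc4361_co).
-/

namespace Pool.Agent.R3.CB

open Filter Topology

variable {G : Type*} [AddCommGroup G]

lemma E_superset (w : G →₀ ℝ) (f : G → ℝ) {V : Finset G} (h : w.support ⊆ V) :
    E w f = ∑ x ∈ V, w x * f x := by
  rw [E_eq]
  apply Finset.sum_subset h
  intro x _ hx
  rw [Finsupp.notMem_support_iff.1 hx, zero_mul]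

lemma l1_near (ν ν' : G →₀ ℝ) (ε : ℝ) (h : ∀ f : G → ℝ, (∀ x, |f x| ≤ 1) → |E ν f - E ν' f| ≤ ε)
    (V : Finset G) : ∑ u ∈ V, |ν u - ν' u| ≤ ε := by
  classical
  let f : G → ℝ := fun u => if u ∈ V then (SignType.sign (ν u - ν' u) : ℝ) else 0
  have hf : ∀ x, |f x| ≤ 1 := by
    intro x
    change |if x ∈ V then (SignType.sign (ν x - ν' x) : ℝ) else 0| ≤ 1
    split_ifs with hx
    · rcases lt_trichotomy (ν x - ν' x) 0 with h | h | h
      · simp [h]
      · simp [h]
      · simp [h]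
    · simp
  have h1 := h f hf
  set W := V ∪ (ν.support ∪ ν'.support) with hW
  have e1 : E ν f = ∑ x ∈ W, ν x * f x := E_superset ν f (by
    intro x hx; rw [hW]; simp only [Finset.mem_union]; right; left; exact hx)
  have e2 : E ν' f = ∑ x ∈ W, ν' x * f x := E_superset ν' f (by
    intro x hx; rw [hW]; simp only [Finset.mem_union]; right; right; exact hx)
  rw [e1, e2, ← Finset.sum_sub_distrib] at h1
  have e3 : ∑ x ∈ W, (ν x * f x - ν' x * f x) = ∑ u ∈ V, |ν u - ν' u| := by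
    symm
    rw [← Finset.sum_subset (show V ⊆ W from Finset.subset_union_left)]
    · refine Finset.sum_congr rfl (fun x hx => ?_)
      change _ = ν x * (if x ∈ V then (SignType.sign (ν x - ν' x) : ℝ) else 0)
        - ν' x * (if x ∈ V then (SignType.sign (ν x - ν' x) : ℝ) else 0)
      rw [if_pos hx, ← sub_mul, mul_comm]
      exact (sign_mul_self (ν x - ν' x)).symm
    · intro x _ hx
      change ν x * (if x ∈ V then (SignType.sign (ν x - ν' x) : ℝ) else 0)
        - ν' x * (if x ∈ V then (SignType.sign (ν x - ν' x) : ℝ) else 0) = 0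
      rw [if_neg hx]; ring
  rw [e3] at h1
  exact (le_abs_self _).trans h1

/-- the sumset -/
def X (φ₁ φ₂ : G →+ G) (A : Set G) : Set G :=
  {x | ∃ a ∈ A, ∃ b ∈ A, ∃ d ∈ A, x = φ₁ a + φ₂ b - φ₂ d}

/-- second window: a function `g` of `l²` norm at most one supported on `B` with large correlations. -/
theorem second_window (M : InvMean G) (φ₂ : G →+ G) (B : Set G) (S : Finset G)
    (hS : ∀ s ∈ S, s ∈ φ₂.range) (ε : ℝ) (hε : 0 < ε) :
    ∃ (U : Finset G) (g : G → ℝ), (∀ u, u ∉ U → g u = 0) ∧ (∀ u, u ∉ B → g u = 0) ∧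
      (∀ u, 0 ≤ g u) ∧ ∑ u ∈ U, (g u) ^ 2 ≤ 1 ∧
      ∀ s ∈ S, Cf M φ₂ B s - 2 * ε ≤ ∑ u ∈ U, g u * g (u + s) := by
  classical
  have hx : ∀ s : G, ∃ x : G, s ∈ S → φ₂ x = s := by
    intro s
    by_cases h : s ∈ S
    · obtain ⟨x, hx⟩ := hS s h
      exact ⟨x, fun _ => hx⟩
    · exact ⟨0, fun h' => absurd h' h⟩
  choose x hx using hx
  obtain ⟨v, hv, hvn, hva⟩ := M.approx (S.image x)
    (S.image (fun s => (fun y => ind B (φ₂ y) * ind B (φ₂ y + s)))) ε hε (by
      intro f hf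
      obtain ⟨s, _, rfl⟩ := Finset.mem_image.1 hf
      exact Cf_bdd_aux' φ₂ B s)
  set ν : G →₀ ℝ := v.mapDomain φ₂ with hν
  have hν0 : ∀ u, 0 ≤ ν u := fun u => nonneg_map hv.1 φ₂ u
  have hν1 : ∑ u ∈ ν.support, ν u = 1 := by
    have : E ν (fun _ => 1) = 1 := by rw [hν, E_map]; exact hv.2
    rw [E_eq] at this
    simpa using this
  have hg0 : ∀ u, 0 ≤ Real.sqrt (ν u) * ind B u := fun u => mul_nonneg (Real.sqrt_nonneg _) (ind_nonneg _ _)
  refine ⟨ν.support, fun u => Real.sqrt (ν u) * ind B u, ?_, ?_, hg0, ?_, ?_⟩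
  · intro u hu
    change Real.sqrt (ν u) * ind B u = 0
    rw [Finsupp.notMem_support_iff.1 hu]; simp
  · intro u hu
    change Real.sqrt (ν u) * ind B u = 0
    rw [ind_of_not_mem hu, mul_zero]
  · rw [← hν1]
    refine Finset.sum_le_sum (fun u _ => ?_)
    rw [mul_pow, Real.sq_sqrt (hν0 u)]
    have h1 := ind_nonneg B u
    have h2 := ind_le_one B u
    have h3 := hν0 u
    have h4 : (ind B u) ^ 2 ≤ 1 := pow_le_one₀ h1 h2
    exact mul_le_of_le_one_right h3 h4
  · intro s hs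
    have hnear := hvn (x s) (Finset.mem_image_of_mem x hs)
    have happ := hva _ (Finset.mem_image_of_mem (fun s => (fun y => ind B (φ₂ y) * ind B (φ₂ y + s))) hs)
    -- translated window
    set ν' : G →₀ ℝ := ν.mapDomain (fun u => u - s) with hν'
    have hν'u : ∀ u, ν' u = ν (u + s) := by
      intro u
      have h := Finsupp.mapDomain_apply (f := fun u : G => u - s) (fun a b h => by simpa using h) ν (u + s)
      rw [add_sub_cancel_right] at h
      exact h
    have hl1 : ∑ u ∈ ν.support, |ν u - ν' u| ≤ ε := by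
      apply l1_near
      intro f hf
      rw [hν', E_map, hν, E_map, E_map]
      have := hnear (fun y => f (φ₂ y - s)) (fun y => hf _)
      have e : (fun y => f (φ₂ (y + x s) - s)) = (fun y => f (φ₂ y)) := by
        funext y
        rw [map_add, hx s hs, add_sub_cancel_right]
      rw [e] at this
      exact this
    have hE : Cf M φ₂ B s - ε ≤ ∑ u ∈ ν.support, ν u * (ind B u * ind B (u + s)) := by
      have e : ∑ u ∈ ν.support, ν u * (ind B u * ind B (u + s)) = E v (fun y => ind B (φ₂ y) * ind B (φ₂ y + s)) := by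
        rw [← E_map v φ₂ (fun u => ind B u * ind B (u + s)), E_eq]
      rw [e]
      have := (abs_le.1 happ).1
      unfold Cf
      linarith
    have hterm : ∀ u ∈ ν.support, ν u * (ind B u * ind B (u + s)) - |ν u - ν' u| ≤
        (Real.sqrt (ν u) * ind B u) * (Real.sqrt (ν (u + s)) * ind B (u + s)) := by
      intro u _
      rw [hν'u]
      have hmin : min (ν u) (ν (u + s)) ≤ Real.sqrt (ν u) * Real.sqrt (ν (u + s)) := by
        rw [← Real.sqrt_mul (hν0 u)]
        apply Real.le_sqrt_of_sq_le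
        rcases le_total (ν u) (ν (u + s)) with h | h
        · rw [min_eq_left h]; nlinarith [hν0 u]
        · rw [min_eq_right h]; nlinarith [hν0 (u + s)]
      have hmin2 : ν u - |ν u - ν (u + s)| ≤ min (ν u) (ν (u + s)) := by
        rcases le_total (ν u) (ν (u + s)) with h | h
        · rw [min_eq_left h]; linarith [abs_nonneg (ν u - ν (u + s))]
        · rw [min_eq_right h, abs_of_nonneg (by linarith)]; linarith
      have hh0 : 0 ≤ ind B u * ind B (u + s) := mul_nonneg (ind_nonneg _ _) (ind_nonneg _ _)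
      have hh1 : ind B u * ind B (u + s) ≤ 1 := mul_le_one₀ (ind_le_one _ _) (ind_nonneg _ _) (ind_le_one _ _)
      have hab := abs_nonneg (ν u - ν (u + s))
      calc ν u * (ind B u * ind B (u + s)) - |ν u - ν (u + s)|
          ≤ (ν u - |ν u - ν (u + s)|) * (ind B u * ind B (u + s)) := by nlinarith
        _ ≤ (Real.sqrt (ν u) * Real.sqrt (ν (u + s))) * (ind B u * ind B (u + s)) :=
            mul_le_mul_of_nonneg_right (hmin2.trans hmin) hh0
        _ = _ := by ring
    have hsum := Finset.sum_le_sum hterm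
    rw [Finset.sum_sub_distrib] at hsum
    change Cf M φ₂ B s - 2 * ε ≤ ∑ u ∈ ν.support, (Real.sqrt (ν u) * ind B u) * (Real.sqrt (ν (u + s)) * ind B (u + s))
    linarith

theorem finite_step (M : InvMean G) (φ₁ φ₂ : G →+ G) (A : Set G) (c : ℝ) (hc : 0 < c)
    (hM : c ≤ Mz M φ₁ φ₂ A) (F : Finset G) (hF1 : ∀ t ∈ F, t ∈ φ₁.range)
    (hF2 : ∀ t ∈ F, t ∉ X φ₁ φ₂ A) :
    ∃ T : Finset (AddChar G Circle), (T.card : ℝ) * (c / 2) ^ 2 ≤ 32 ∧
      ∀ t ∈ F, ∃ χ ∈ T, (c / 2) / 4 ≤ ‖((χ t : Circle) : ℂ) - 1‖ := by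
  classical
  have hz : ∀ t : G, ∃ z : G, t ∈ F → φ₁ z = t := by
    intro t
    by_cases h : t ∈ F
    · obtain ⟨z, hz⟩ := hF1 t h
      exact ⟨z, fun _ => hz⟩
    · exact ⟨0, fun h' => absurd h' h⟩
  choose z hz using hz
  set B : Set G := φ₂ '' A with hB
  set κ : ℝ := c / 2 with hκ
  have hκpos : 0 < κ := by positivity
  have hMz1 : Mz M φ₁ φ₂ A ≤ 1 := M.le_const (Mz_bdd M φ₁ φ₂ A) (fun y =>
    mul_le_one₀ (ind_le_one _ _) (Cf_nonneg M φ₂ _ _) (Cf_le_one M φ₂ _ _))
  have hc1 : c ≤ 1 := hM.trans hMz1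
  set h : G → ℝ := fun y => ind (G0 φ₁ φ₂ ∩ A) y * Cf M φ₂ B (φ₁ y) with hh
  have hε1 : 0 < min (c / 4) (κ ^ 3 / 256) := lt_min (by positivity) (by positivity)
  obtain ⟨w, hw, hwn, hwa⟩ := M.approx (F.image z) {h} (min (c / 4) (κ ^ 3 / 256)) hε1 (by
    intro f hf
    rw [Finset.mem_singleton] at hf
    rw [hf]
    exact Mz_bdd M φ₁ φ₂ A)
  have hEh : 3 * c / 4 ≤ E w h := by
    have h1 := hwa h (Finset.mem_singleton_self h)
    have h2 := (abs_le.1 (h1.trans (min_le_left _ _))).1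
    have h3 : M.m h = Mz M φ₁ φ₂ A := rfl
    rw [h3] at h2
    linarith
  -- second window
  obtain ⟨U, g, hgU, hgB, hg0, hg2, hgs⟩ := second_window M φ₂ B
    ((w.support.filter (fun y => y ∈ G0 φ₁ φ₂)).image φ₁) (by
      intro s hs
      obtain ⟨y, hy, rfl⟩ := Finset.mem_image.1 hs
      exact (Finset.mem_filter.1 hy).2) (c / 8) (by positivity)
  let f : G → ℝ := fun y => w y * ind (G0 φ₁ φ₂ ∩ A) y
  have hf0 : ∀ y, 0 ≤ f y := fun y => mul_nonneg (hw.1 y) (ind_nonneg _ _)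
  have hfw : ∀ y, |f y| ≤ w y := by
    intro y
    rw [abs_of_nonneg (hf0 y)]
    exact mul_le_of_le_one_right (hw.1 y) (ind_le_one _ _)
  refine harm2 hw f hfw φ₁ U g hgU hg2 κ hκpos (by rw [hκ]; linarith) ?_ F z hz ?_ ?_
  · -- lower bound at zero
    have hterm : ∀ y ∈ w.support, w y * h y - c / 4 * w y ≤ f y * ∑ u ∈ U, g u * g (u + φ₁ y) := by
      intro y hy
      by_cases hyA : y ∈ G0 φ₁ φ₂ ∩ A
      · have h1 := hgs (φ₁ y) (Finset.mem_image_of_mem φ₁ (Finset.mem_filter.2 ⟨hy, hyA.1⟩))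
        change w y * (ind (G0 φ₁ φ₂ ∩ A) y * Cf M φ₂ B (φ₁ y)) - c / 4 * w y ≤
          (w y * ind (G0 φ₁ φ₂ ∩ A) y) * _
        rw [ind_of_mem hyA, one_mul, mul_one]
        have hwy := hw.1 y
        nlinarith
      · change w y * (ind (G0 φ₁ φ₂ ∩ A) y * Cf M φ₂ B (φ₁ y)) - c / 4 * w y ≤
          (w y * ind (G0 φ₁ φ₂ ∩ A) y) * _
        rw [ind_of_not_mem hyA]
        have hwy := hw.1 y
        nlinarith
    have hsum := Finset.sum_le_sum hterm
    rw [Finset.sum_sub_distrib, ← Finset.mul_sum] at hsum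
    have e1 : ∑ y ∈ w.support, w y * h y = E w h := rfl
    have e2 : ∑ y ∈ w.support, w y = 1 := by
      have := hw.2
      rw [E_eq] at this
      simpa using this
    rw [e1, e2] at hsum
    rw [hκ]
    linarith
  · intro t ht f' hf'
    exact (hwn (z t) (Finset.mem_image_of_mem z ht) f' hf').trans (min_le_right _ _)
  · intro t ht
    apply Finset.sum_eq_zero
    intro y hy
    by_cases hyA : y ∈ G0 φ₁ φ₂ ∩ A
    · have : ∑ u ∈ U, g u * g (u + φ₁ y - t) = 0 := by
        apply Finset.sum_eq_zero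
        intro u hu
        by_cases hu1 : u ∈ B
        · by_cases hu2 : u + φ₁ y - t ∈ B
          · exfalso
            apply hF2 t ht
            obtain ⟨b, hb, hbu⟩ := hu1
            obtain ⟨d, hd, hdu⟩ := hu2
            refine ⟨y, hyA.2, b, hb, d, hd, ?_⟩
            rw [hdu, hbu]; abel
          · rw [hgB _ hu2, mul_zero]
        · rw [hgB _ hu1, zero_mul]
      rw [this, mul_zero]
    · change (w y * ind (G0 φ₁ φ₂ ∩ A) y) * _ = 0
      rw [ind_of_not_mem hyA]; ring

end Pool.Agent.R3.CB
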