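import Pool.Agent.R3.CB3
import Pool.Agent.R3.CB6

set_option linter.unusedSectionVars false
set_option linter.unusedVariables false

/-!
Final assembly (helper3, for MP_cc4361_co).
-/

namespace Pool.Agent.R3.CB

open Filter Topology

lemma fill {α : Type*} [Inhabited α] (T : Finset α) (k : ℕ) (h : T.card ≤ k) :
    ∃ χ : Fin k → α, ∀ ψ ∈ T, ∃ j, χ j = ψ := by
  classical
  let e := T.equivFin
  refine ⟨fun j => if h' : (j : ℕ) < T.card then ((e.symm ⟨j, h'⟩ : T) : α) else default, ?_⟩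
  intro ψ hψ
  let i := e ⟨ψ, hψ⟩
  refine ⟨⟨i, lt_of_lt_of_le i.2 h⟩, ?_⟩
  have : ((⟨i, lt_of_lt_of_le i.2 h⟩ : Fin k) : ℕ) < T.card := i.2
  simp only [this, dif_pos]
  have e1 : (⟨(i : ℕ), i.2⟩ : Fin T.card) = i := rfl
  change ((e.symm ⟨(i:ℕ), i.2⟩ : T) : α) = ψ
  rw [e1, Equiv.symm_apply_apply]

lemma exists_pos_le (S : Finset ℝ) (h : ∀ x ∈ S, 0 < x) : ∃ η : ℝ, 0 < η ∧ ∀ x ∈ S, η ≤ x := by
  classical
  induction S using Finset.induction_on with
  | empty => exact ⟨1, one_pos, by simp⟩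
  | insert a S ha ih =>
    obtain ⟨η, h1, h2⟩ := ih (fun x hx => h x (Finset.mem_insert_of_mem hx))
    refine ⟨min a η, lt_min (h a (Finset.mem_insert_self _ _)) h1, ?_⟩
    intro x hx
    rcases Finset.mem_insert.1 hx with rfl | hx
    · exact min_le_left _ _
    · exact (min_le_right _ _).trans (h2 x hx)

lemma root_gap (N : ℕ) (hN : 0 < N) : ∃ η : ℝ, 0 < η ∧ ∀ z : ℂ, z ^ N = 1 → z ≠ 1 → η ≤ ‖z - 1‖ := by
  classical
  obtain ⟨η, h1, h2⟩ := exists_pos_le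
    (((Polynomial.nthRoots N (1:ℂ)).toFinset.filter (fun z => z ≠ 1)).image (fun z => ‖z - 1‖)) (by
      intro x hx
      obtain ⟨z, hz, rfl⟩ := Finset.mem_image.1 hx
      have := (Finset.mem_filter.1 hz).2
      exact norm_pos_iff.2 (sub_ne_zero.2 this))
  refine ⟨η, h1, fun z hz hz1 => h2 _ ?_⟩
  apply Finset.mem_image_of_mem (fun z => ‖z - 1‖)
  rw [Finset.mem_filter, Multiset.mem_toFinset, Polynomial.mem_nthRoots hN]
  exact ⟨hz, hz1⟩

lemma static_chars (K : ℕ) : ∃ η : ℝ, 0 < η ∧ ∀ (G : Type*) [AddCommGroup G] (H : AddSubgroup G),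
    H.index ≠ 0 → H.index ≤ K → ∃ χ : Fin K → AddChar G Circle,
      ∀ g, (∀ j, ‖((χ j g : Circle) : ℂ) - 1‖ < η) → g ∈ H := by
  classical
  obtain ⟨η, h1, h2⟩ := root_gap K.factorial (Nat.factorial_pos K)
  refine ⟨η, h1, ?_⟩
  intro G _ H hH hK
  have hfin : Finite (G ⧸ H) := AddSubgroup.index_ne_zero_iff_finite.1 hH
  have := Fintype.ofFinite (G ⧸ H)
  have hq : ∀ q : G ⧸ H, ∃ ψ : AddChar (G ⧸ H) Circle, q ≠ 0 → ψ q ≠ 1 := by
    intro q
    by_cases h : q = 0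
    · exact ⟨0, fun h' => absurd h h'⟩
    · obtain ⟨ψ, hψ⟩ := exists_char_ne_one h
      exact ⟨ψ, fun _ => hψ⟩
  choose ψ hψ using hq
  let T : Finset (AddChar G Circle) := Finset.univ.image (fun q : G ⧸ H =>
    (ψ q).compAddMonoidHom (QuotientAddGroup.mk' H))
  have hT : T.card ≤ K := by
    refine Finset.card_image_le.trans ?_
    rw [Finset.card_univ, ← Nat.card_eq_fintype_card]
    exact hK
  have : Inhabited (AddChar G Circle) := ⟨0⟩
  obtain ⟨χ, hχ⟩ := fill T K hT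
  refine ⟨χ, fun g hg => ?_⟩
  by_contra hgH
  set q : G ⧸ H := QuotientAddGroup.mk g with hqdef
  have hq0 : q ≠ 0 := by
    intro h
    exact hgH ((QuotientAddGroup.eq_zero_iff g).1 h)
  obtain ⟨j, hj⟩ := hχ ((ψ q).compAddMonoidHom (QuotientAddGroup.mk' H))
    (Finset.mem_image_of_mem _ (Finset.mem_univ q))
  have h3 := hg j
  rw [hj] at h3
  have h4 : ((ψ q).compAddMonoidHom (QuotientAddGroup.mk' H)) g = ψ q q := rfl
  rw [h4] at h3
  have h5 : (ψ q q) ^ K.factorial = 1 := by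
    rw [← AddChar.map_nsmul_eq_pow]
    have hcard : K.factorial • q = 0 := by
      have hd : Fintype.card (G ⧸ H) ∣ K.factorial := by
        apply Nat.dvd_factorial Fintype.card_pos
        rw [← Nat.card_eq_fintype_card]; exact hK
      obtain ⟨m, hm⟩ := hd
      rw [hm, mul_comm, mul_smul, card_nsmul_eq_zero, smul_zero]
    rw [hcard, AddChar.map_zero_eq_one]
  have h6 : ((ψ q q : Circle) : ℂ) ^ K.factorial = 1 := by
    rw [← Circle.coe_pow, h5, Circle.coe_one]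
  have h7 : ((ψ q q : Circle) : ℂ) ≠ 1 := by
    intro h
    apply hψ q hq0
    apply Circle.ext
    rw [h, Circle.coe_one]
  linarith [h2 _ h6 h7]

lemma limit_chars {G : Type*} [AddCommGroup G] (k : ℕ) (η : ℝ) (P : Set G)
    (h : ∀ F : Finset G, (∀ t ∈ F, t ∈ P) → ∃ χ : Fin k → AddChar G Circle,
      ∀ t ∈ F, ∃ j, η ≤ ‖((χ j t : Circle) : ℂ) - 1‖) :
    ∃ χ : Fin k → AddChar G Circle, ∀ t ∈ P, ∃ j, η ≤ ‖((χ j t : Circle) : ℂ) - 1‖ := by
  classical
  have h' : ∀ F : Finset G, ∃ χ : Fin k → AddChar G Circle,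
      ∀ t ∈ F, t ∈ P → ∃ j, η ≤ ‖((χ j t : Circle) : ℂ) - 1‖ := by
    intro F
    obtain ⟨χ, hχ⟩ := h (F.filter (fun t => t ∈ P)) (fun t ht => (Finset.mem_filter.1 ht).2)
    exact ⟨χ, fun t ht htP => hχ t (Finset.mem_filter.2 ⟨ht, htP⟩)⟩
  choose χ hχ using h'
  let U : Ultrafilter (Finset G) := Ultrafilter.of atTop
  have hU : (U : Filter (Finset G)) ≤ atTop := Ultrafilter.of_le _
  have hlim : ∀ (j : Fin k) (x : G), ∃ a : Circle, Tendsto (fun F => χ F j x) U (𝓝 a) := by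
    intro j x
    obtain ⟨a, _, ha⟩ := (isCompact_univ : IsCompact (Set.univ : Set Circle)).ultrafilter_le_nhds
      (U.map (fun F => χ F j x)) (by simp)
    exact ⟨a, ha⟩
  choose L hL using hlim
  let Λ : Fin k → AddChar G Circle := fun j =>
    { toFun := L j
      map_zero_eq_one' := by
        refine tendsto_nhds_unique (hL j 0) ?_
        refine tendsto_const_nhds.congr (fun F => ?_)
        rw [AddChar.map_zero_eq_one]
      map_add_eq_mul' := by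
        intro x y
        refine tendsto_nhds_unique (hL j (x + y)) ?_
        refine ((hL j x).mul (hL j y)).congr (fun F => ?_)
        rw [AddChar.map_add_eq_mul] }
  refine ⟨Λ, ?_⟩
  intro t ht
  have hev : ∀ᶠ F in (U : Filter (Finset G)), ∃ j, η ≤ ‖((χ F j t : Circle) : ℂ) - 1‖ := by
    refine Filter.Eventually.filter_mono hU ?_
    filter_upwards [eventually_ge_atTop {t}] with F hF
    exact hχ F t (hF (Finset.mem_singleton_self t)) ht
  have hj : ∃ j, ∀ᶠ F in (U : Filter (Finset G)), η ≤ ‖((χ F j t : Circle) : ℂ) - 1‖ := by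
    by_contra hno
    push Not at hno
    have h1 : ∀ j, ∀ᶠ F in (U : Filter (Finset G)), ¬ (η ≤ ‖((χ F j t : Circle) : ℂ) - 1‖) := by
      intro j
      exact (hno j).mono (fun F h => not_le.2 h)
    have h2 := Filter.eventually_all.2 h1
    obtain ⟨F, hF1, hF2⟩ := (hev.and h2).exists
    obtain ⟨j, hj⟩ := hF1
    exact hF2 j hj
  obtain ⟨j, hj⟩ := hj
  refine ⟨j, ?_⟩
  have hc : Tendsto (fun F => ‖((χ F j t : Circle) : ℂ) - 1‖) U (𝓝 ‖((L j t : Circle) : ℂ) - 1‖) := by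
    have h1 : Tendsto (fun F => ((χ F j t : Circle) : ℂ)) U (𝓝 ((L j t : Circle) : ℂ)) :=
      ((continuous_subtype_val : Continuous (fun z : Circle => (z : ℂ))).tendsto _).comp (hL j t)
    exact (h1.sub_const 1).norm
  exact ge_of_tendsto hc hj

theorem main (r K : ℕ) : ∃ (k : ℕ) (η : ℝ), 0 < η ∧
    ∀ (G : Type*) [AddCommGroup G] (φ₁ φ₂ : G →+ G),
      φ₁.range.index ≠ 0 → φ₁.range.index ≤ K → φ₂.range.index ≠ 0 → φ₂.range.index ≤ K →
      ∀ A : Fin r → Set G, (∀ x, ∃ i, x ∈ A i) →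
        ∃ i, ∃ χ : Fin k → AddChar G Circle,
          ∀ g, (∀ j, ‖((χ j g : Circle) : ℂ) - 1‖ < η) → g ∈ X φ₁ φ₂ (A i) := by
  classical
  obtain ⟨c, hc, hcon⟩ := exists_const r K
  obtain ⟨η₁, hη₁, hstat⟩ := static_chars K
  obtain ⟨k', hk'⟩ := exists_nat_ge (32 / (c / 2) ^ 2)
  refine ⟨K + k', min η₁ (c / 2 / 4), lt_min hη₁ (by positivity), ?_⟩
  intro G _ φ₁ φ₂ h1 h1K h2 h2K A hA
  obtain ⟨M⟩ := exists_invMean G
  obtain ⟨i, hi⟩ := hcon (fun i => bet M φ₂ (φ₂ '' A i)) (fun i => Mz M φ₁ φ₂ (A i))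
    (fun i => ⟨bet_nonneg M φ₂ _, bet_le_one M φ₂ _⟩)
    (fun I => ineq M φ₁ φ₂ A hA K h2 h2K I) (fun i => Mz_nonneg M φ₁ φ₂ (A i))
  obtain ⟨χs, hχs⟩ := hstat G φ₁.range h1 h1K
  obtain ⟨χd, hχd⟩ := limit_chars (G := G) k' (c / 2 / 4) {t | t ∈ φ₁.range ∧ t ∉ X φ₁ φ₂ (A i)} (by
    intro F hF
    obtain ⟨T, hT1, hT2⟩ := finite_step M φ₁ φ₂ (A i) c hc hi F (fun t ht => (hF t ht).1)
      (fun t ht => (hF t ht).2)
    have hcard : T.card ≤ k' := by
      have h3 : (T.card : ℝ) ≤ 32 / (c / 2) ^ 2 := by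
        rw [le_div_iff₀ (by positivity)]; exact hT1
      exact_mod_cast h3.trans hk'
    have : Inhabited (AddChar G Circle) := ⟨0⟩
    obtain ⟨χ, hχ⟩ := fill T k' hcard
    refine ⟨χ, fun t ht => ?_⟩
    obtain ⟨ψ, hψ, hψt⟩ := hT2 t ht
    obtain ⟨j, hj⟩ := hχ ψ hψ
    exact ⟨j, by rw [hj]; exact hψt⟩)
  refine ⟨i, Fin.append χs χd, ?_⟩
  intro g hg
  have hgH : g ∈ φ₁.range := by
    apply hχs
    intro j
    have := hg (Fin.castAdd k' j)
    rw [Fin.append_left] at this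
    exact lt_of_lt_of_le this (min_le_left _ _)
  by_contra hgX
  obtain ⟨j, hj⟩ := hχd g ⟨hgH, hgX⟩
  have := hg (Fin.natAdd K j)
  rw [Fin.append_right] at this
  have h3 := lt_of_lt_of_le this (min_le_right _ _)
  linarith

end Pool.Agent.R3.CB
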