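import Mathlib

/-!
Entropy lower bound for the growth of non-backtracking walks in graphs with half of the degrees
equal to two and half equal to three.
-/

set_option autoImplicit false

namespace Pool.Agent.R3.Cover

open Finset

/-- numerical facts about the real root of `x ^ 3 = x + 2` -/
structure Consts (r a L : ℝ) : Prop where
  r_lo : 1.5213 < r
  r_hi : r < 1.5214
  r_eq : r ^ 3 = r + 2
  a_eq : a = 4 / r ^ 3
  L_eq : L = Real.log r

lemma exists_root : ∃ r : ℝ, 1.5213 < r ∧ r < 1.5214 ∧ r ^ 3 = r + 2 := by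
  have hcont : ContinuousOn (fun x : ℝ => x ^ 3 - x - 2) (Set.Icc 1.5213 1.5214) := by fun_prop
  have h := intermediate_value_Ioo (by norm_num : (1.5213 : ℝ) ≤ 1.5214) hcont
  have h0 : (0 : ℝ) ∈ Set.Ioo ((fun x : ℝ => x ^ 3 - x - 2) 1.5213)
      ((fun x : ℝ => x ^ 3 - x - 2) 1.5214) := by
    constructor <;> norm_num
  obtain ⟨r, hr, hr0⟩ := h h0
  exact ⟨r, hr.1, hr.2, by simp only at hr0; linarith⟩

/-- the local entropy of three weights -/
noncomputable def H3 (x y z : ℝ) : ℝ :=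
  x * Real.log x + y * Real.log y + z * Real.log z
    - 2 * ((x + y - z) / 2 * Real.log ((x + y - z) / 2)
      + (x + z - y) / 2 * Real.log ((x + z - y) / 2)
      + (y + z - x) / 2 * Real.log ((y + z - x) / 2))

lemma H3_comm12 (x y z : ℝ) : H3 x y z = H3 y x z := by
  unfold H3
  rw [show y + x - z = x + y - z by ring]
  ring

lemma H3_comm23 (x y z : ℝ) : H3 x y z = H3 x z y := by
  unfold H3
  rw [show z + y - x = y + z - x by ring]
  ring

lemma a_bounds {r a L : ℝ} (h : Consts r a L) : 1.1359 < a ∧ a < 1.136 := by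
  have h1 := h.r_lo
  have h2 := h.r_hi
  rw [h.a_eq, h.r_eq]
  have h3 : (0 : ℝ) < r + 2 := by linarith
  constructor
  · rw [lt_div_iff₀ h3]; nlinarith
  · rw [div_lt_iff₀ h3]; nlinarith

lemma L_lt {r a L : ℝ} (h : Consts r a L) : L < 0.42 := by
  rw [h.L_eq, Real.log_lt_iff_lt_exp (by linarith [h.r_lo])]
  have h1 : (1.5214 : ℝ) < Real.exp 0.42 := by
    have := Real.sum_le_exp_of_nonneg (show (0 : ℝ) ≤ 0.42 by norm_num) 6
    refine lt_of_lt_of_le ?_ this
    norm_num [Finset.sum_range_succ, Nat.factorial]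
  linarith [h.r_hi]

lemma L_pos {r a L : ℝ} (h : Consts r a L) : 0 < L := by
  rw [h.L_eq]
  exact Real.log_pos (by linarith [h.r_lo])

lemma H0 {r a L : ℝ} (h : Consts r a L) : 5 * L - 0.03 ≤ H3 1 1 1 := by
  have h1 := L_lt h
  have h2 := Real.log_two_gt_d9
  unfold H3
  norm_num
  rw [show (1 / 2 : ℝ) = 2⁻¹ by norm_num, Real.log_inv]
  linarith

lemma H1 {r a L : ℝ} (h : Consts r a L) : L * (4 + a) ≤ H3 a 1 1 := by
  have hr : 0 < r := by linarith [h.r_lo]
  have ha := a_bounds h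
  have e1 : a / 2 = 2 / r ^ 3 := by rw [h.a_eq]; ring
  have e2 : 1 - a / 2 = (r ^ 2)⁻¹ := by
    rw [e1]
    have h3 : r ^ 3 ≠ 0 := by positivity
    field_simp
    have := h.r_eq
    linarith
  have l1 : Real.log (a / 2) = Real.log 2 - 3 * L := by
    rw [e1, Real.log_div (by norm_num) (by positivity), Real.log_pow, h.L_eq]
    push_cast
    ring
  have l2 : Real.log (1 - a / 2) = - (2 * L) := by
    rw [e2, Real.log_inv, Real.log_pow, h.L_eq]
    push_cast
    ring
  have l3 : Real.log a = 2 * Real.log 2 - 3 * L := by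
    rw [h.a_eq, Real.log_div (by norm_num) (by positivity), Real.log_pow, h.L_eq,
      show (4 : ℝ) = 2 ^ 2 by norm_num, Real.log_pow]
    push_cast
    ring
  unfold H3
  rw [show (a + 1 - 1) / 2 = a / 2 by ring, show (1 + 1 - a) / 2 = 1 - a / 2 by ring, l1, l2, l3,
    Real.log_one]
  have e3 : a = 4 / r ^ 3 := h.a_eq
  nlinarith [L_pos h]

lemma H2 {r a L : ℝ} (h : Consts r a L) : L * (3 + 2 * a) + 0.03 ≤ H3 a a 1 := by
  have ha := a_bounds h
  have h1 := L_lt h
  have h2 := Real.log_two_gt_d9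
  have l1 : (0.126 : ℝ) ≤ Real.log a := by
    rw [Real.le_log_iff_exp_le (by linarith [ha.1])]
    have := Real.exp_bound' (show (0 : ℝ) ≤ 0.126 by norm_num) (show (0.126 : ℝ) ≤ 1 by norm_num)
      (show 0 < 4 by norm_num)
    refine le_trans this ?_
    norm_num [Finset.sum_range_succ, Nat.factorial]
    linarith [ha.1]
  have l2 : Real.log (a - 1 / 2) ≤ - 0.451 := by
    rw [Real.log_le_iff_le_exp (by linarith [ha.1]), Real.exp_neg]
    have h3 := Real.exp_bound' (show (0 : ℝ) ≤ 0.451 by norm_num)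
      (show (0.451 : ℝ) ≤ 1 by norm_num) (show 0 < 5 by norm_num)
    have h4 : Real.exp 0.451 ≤ 1.571 := by
      refine le_trans h3 ?_
      norm_num [Finset.sum_range_succ, Nat.factorial]
    have h5 : (1.571 : ℝ)⁻¹ ≤ (Real.exp 0.451)⁻¹ := inv_anti₀ (Real.exp_pos _) h4
    refine le_trans ?_ h5
    norm_num
    linarith [ha.2]
  unfold H3
  rw [show (a + a - 1) / 2 = a - 1 / 2 by ring, show (a + 1 - a) / 2 = 1 / 2 by ring,
    Real.log_one, show (1 / 2 : ℝ) = 2⁻¹ by norm_num, Real.log_inv]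
  rw [show (2⁻¹ : ℝ) = 1 / 2 by norm_num]
  nlinarith [ha.1, ha.2, L_pos h]

lemma H3' {r a L : ℝ} (h : Consts r a L) : L * (2 + 3 * a) + 0.06 ≤ H3 a a a := by
  have ha := a_bounds h
  have h1 := L_lt h
  have h2 := Real.log_two_gt_d9
  unfold H3
  rw [show (a + a - a) / 2 = a / 2 by ring, Real.log_div (by linarith [ha.1]) (by norm_num)]
  nlinarith [ha.1, ha.2, L_pos h]

/-- the local inequality in uniform shape -/
lemma local_ineq {r a L : ℝ} (h : Consts r a L) (x y z : ℝ) (hx : x = 1 ∨ x = a)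
    (hy : y = 1 ∨ y = a) (hz : z = 1 ∨ z = a) (tx ty tz : ℝ)
    (htx : tx = if x = 1 then 0 else 1) (hty : ty = if y = 1 then 0 else 1)
    (htz : tz = if z = 1 then 0 else 1) :
    L * (x + y + z) + 2 * L + 0.03 * (tx + ty + tz - 1) ≤ H3 x y z := by
  have ha1 : a ≠ 1 := by linarith [(a_bounds h).1]
  have h0 := H0 h
  have h1 := H1 h
  have h2 := H2 h
  have h3 := H3' h
  rcases hx with rfl | rfl <;> rcases hy with rfl | rfl <;> rcases hz with rfl | rfl <;>
    simp only [if_true, if_neg ha1] at htx hty htz <;> subst htx hty htz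
  · linarith
  · rw [H3_comm23, H3_comm12]; linarith
  · rw [H3_comm12]; linarith
  · rw [H3_comm12, H3_comm23]; linarith
  · linarith
  · rw [H3_comm23]; linarith
  · linarith
  · linarith

end Pool.Agent.R3.Cover
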