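import Mathlib

/-!
The energy comparison between the non-backtracking and the simple random walk hitting times of a
fixed target vertex.
-/

set_option autoImplicit false

namespace Pool.Agent.R3.Kemeny

open Finset

variable {V : Type*} [Fintype V] [DecidableEq V] (G : SimpleGraph V) [DecidableRel G.Adj]

lemma dart_swap {M : Type*} [AddCommMonoid M] (F : V → V → M) :
    ∑ v, ∑ w ∈ G.neighborFinset v, F v w = ∑ v, ∑ w ∈ G.neighborFinset v, F w v := by
  rw [Finset.sum_comm' (s' := fun w => G.neighborFinset w) (t' := univ)]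
  intro x y
  simp [SimpleGraph.adj_comm]

/-- an antisymmetric weight against a potential -/
lemma potential (φ : V → ℝ) (t : V → V → ℝ) (ht : ∀ v w, G.Adj v w → t v w = - t w v) :
    ∑ v, φ v * ∑ w ∈ G.neighborFinset v, t v w
      = (1 / 2) * ∑ v, ∑ w ∈ G.neighborFinset v, (φ v - φ w) * t v w := by
  have h1 : ∑ v, ∑ w ∈ G.neighborFinset v, (φ v - φ w) * t v w
      = ∑ v, ∑ w ∈ G.neighborFinset v, φ v * t v w
        - ∑ v, ∑ w ∈ G.neighborFinset v, φ w * t v w := by
    rw [← sum_sub_distrib]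
    refine sum_congr rfl fun v _ => ?_
    rw [← sum_sub_distrib]
    refine sum_congr rfl fun w _ => ?_
    ring
  have h2 : ∑ v, ∑ w ∈ G.neighborFinset v, φ w * t v w
      = - ∑ v, ∑ w ∈ G.neighborFinset v, φ v * t v w := by
    rw [dart_swap G (fun v w => φ w * t v w), ← sum_neg_distrib]
    refine sum_congr rfl fun v _ => ?_
    rw [← sum_neg_distrib]
    refine sum_congr rfl fun w hw => ?_
    rw [SimpleGraph.mem_neighborFinset] at hw
    rw [ht w v hw.symm]
    ring
  rw [h1, h2]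
  simp_rw [mul_sum]
  ring

theorem energy (j : V) (hdeg : ∀ v, 2 ≤ G.degree v) (h : V → V → ℝ) (g : V → ℝ)
    (h0 : ∀ u, h u j = 0)
    (h1 : ∀ v, v ≠ j → ∀ u, G.Adj v u → h u v = 1 + ((G.degree v : ℝ) - 1)⁻¹ *
      ∑ w ∈ (G.neighborFinset v).erase u, h v w)
    (g0 : g j = 0)
    (g1 : ∀ v, v ≠ j → g v = 1 + (G.degree v : ℝ)⁻¹ * ∑ w ∈ G.neighborFinset v, g w) :
    ∑ v ∈ univ.erase j, ((G.degree v : ℝ) + ∑ w ∈ G.neighborFinset v, h v w)
      < ∑ v ∈ univ.erase j, (G.degree v : ℝ) * g v := by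
  have hd2 : ∀ v, (2 : ℝ) ≤ G.degree v := fun v => by exact_mod_cast hdeg v
  have hd0 : ∀ v, (G.degree v : ℝ) ≠ 0 := fun v => by linarith [hd2 v]
  set f : V → V → ℝ := fun v w => h w v - h v w with hf
  set ρ : V → ℝ := fun v => if v = j then 0 else (G.degree v : ℝ)⁻¹ with hρ
  set φ : V → ℝ := fun v => if v = j then 0 else
    (G.degree v : ℝ)⁻¹ * (((G.degree v : ℝ) - 1) + ∑ w ∈ G.neighborFinset v, h v w) with hφ
  set θ : V → V → ℝ := fun v w => g v - g w with hθ
  have hρj : ρ j = 0 := by simp [hρ]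
  have hφj : φ j = 0 := by simp [hφ]
  have hρv : ∀ v, v ≠ j → ρ v = (G.degree v : ℝ)⁻¹ := fun v hv => by simp [hρ, hv]
  -- the basic relation
  have key : ∀ v, v ≠ j → ∀ u, G.Adj v u → ((G.degree v : ℝ) - 1) * h u v
      = ((G.degree v : ℝ) - 1) + ∑ w ∈ G.neighborFinset v, h v w - h v u := by
    intro v hv u hu
    have hne : (G.degree v : ℝ) - 1 ≠ 0 := by linarith [hd2 v]
    have hmem : u ∈ G.neighborFinset v := by rwa [SimpleGraph.mem_neighborFinset]
    rw [h1 v hv u hu, ← Finset.add_sum_erase _ _ hmem, mul_add, mul_one,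
      mul_inv_cancel_left₀ hne]
    ring
  have hrel : ∀ v w, G.Adj v w → h w v = φ v + ρ v * f v w := by
    intro v w hvw
    by_cases hv : v = j
    · subst hv
      rw [hρj, hφj, h0]; ring
    · have e1 := key v hv w hvw
      have e2 : φ v = (G.degree v : ℝ)⁻¹ *
          (((G.degree v : ℝ) - 1) + ∑ w ∈ G.neighborFinset v, h v w) := by simp [hφ, hv]
      rw [e2, hρv v hv]
      have e3 : ((G.degree v : ℝ) - 1) + ∑ w ∈ G.neighborFinset v, h v w
          = ((G.degree v : ℝ) - 1) * h w v + h v w := by rw [e1]; ring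
      rw [e3]
      have := hd0 v
      simp only [hf]
      field_simp
      ring
  have hcard : ∀ v, (#(G.neighborFinset v) : ℝ) = G.degree v := by
    intro v
    rw [SimpleGraph.card_neighborFinset_eq_degree]
  have hsumh : ∀ v, v ≠ j → ∑ w ∈ G.neighborFinset v, h w v
      = (G.degree v : ℝ) + ∑ w ∈ G.neighborFinset v, h v w := by
    intro v hv
    have hne : (G.degree v : ℝ) - 1 ≠ 0 := by linarith [hd2 v]
    have e1 : ((G.degree v : ℝ) - 1) * ∑ w ∈ G.neighborFinset v, h w v
        = ((G.degree v : ℝ) - 1) * ((G.degree v : ℝ) + ∑ w ∈ G.neighborFinset v, h v w) := by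
      rw [mul_sum]
      rw [sum_congr rfl (fun w hw => key v hv w (by rwa [SimpleGraph.mem_neighborFinset] at hw))]
      rw [sum_sub_distrib, sum_const, nsmul_eq_mul, hcard]
      ring
    exact mul_left_cancel₀ hne e1
  have hdivf : ∀ v, v ≠ j → ∑ w ∈ G.neighborFinset v, f v w = G.degree v := by
    intro v hv
    simp only [hf]
    rw [sum_sub_distrib, hsumh v hv]
    ring
  have hdivθ : ∀ v, v ≠ j → ∑ w ∈ G.neighborFinset v, θ v w = G.degree v := by
    intro v hv
    simp only [hθ]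
    rw [sum_sub_distrib, sum_const, nsmul_eq_mul, hcard, g1 v hv, mul_add, mul_one,
      mul_inv_cancel_left₀ (hd0 v)]
    ring
  -- the two totals
  have hT : ∑ v ∈ univ.erase j, ((G.degree v : ℝ) + ∑ w ∈ G.neighborFinset v, h v w)
      = ∑ v, (G.degree v : ℝ) * φ v + ∑ v, ρ v * G.degree v := by
    rw [← sum_add_distrib, ← Finset.add_sum_erase univ _ (mem_univ j), hφj, hρj]
    rw [mul_zero, zero_mul, add_zero, zero_add]
    refine sum_congr rfl fun v hv => ?_
    have hv' : v ≠ j := ne_of_mem_erase hv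
    rw [← hsumh v hv']
    rw [sum_congr rfl (fun w hw => hrel v w (by rwa [SimpleGraph.mem_neighborFinset] at hw))]
    rw [sum_add_distrib, sum_const, nsmul_eq_mul, hcard, ← mul_sum, hdivf v hv']
  have hT0 : ∑ v ∈ univ.erase j, (G.degree v : ℝ) * g v
      = (1 / 2) * ∑ v, ∑ w ∈ G.neighborFinset v, θ v w ^ 2 := by
    have e1 := potential G g θ (fun v w _ => by simp only [hθ]; ring)
    have e2 : ∑ v, g v * ∑ w ∈ G.neighborFinset v, θ v w
        = ∑ v ∈ univ.erase j, (G.degree v : ℝ) * g v := by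
      rw [← Finset.add_sum_erase univ _ (mem_univ j), g0, zero_mul, zero_add]
      refine sum_congr rfl fun v hv => ?_
      rw [hdivθ v (ne_of_mem_erase hv)]
      ring
    rw [← e2, e1]
    congr 1
    refine sum_congr rfl fun v _ => sum_congr rfl fun w _ => ?_
    simp only [hθ]
    ring
  have hasymf : ∀ v w, G.Adj v w → f v w = - f w v := fun v w _ => by simp only [hf]; ring
  have hasymθ : ∀ v w, G.Adj v w → θ v w = - θ w v := fun v w _ => by simp only [hθ]; ring
  have hr : ∀ v w, G.Adj v w → φ v - φ w = (1 - ρ v - ρ w) * f v w := by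
    intro v w hvw
    have e1 := hrel v w hvw
    have e2 := hrel w v hvw.symm
    have e3 : f v w = h w v - h v w := rfl
    have e4 := hasymf v w hvw
    have e5 : h v w = φ w - ρ w * f v w := by rw [e2, e4]; ring
    have e6 : f v w = (φ v + ρ v * f v w) - (φ w - ρ w * f v w) := by
      rw [← e1, ← e5]
    linarith
  have hφf : ∑ v, (G.degree v : ℝ) * φ v
      = (1 / 2) * ∑ v, ∑ w ∈ G.neighborFinset v, (1 - ρ v - ρ w) * (f v w * f v w) := by
    have e1 := potential G φ f hasymf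
    have e2 : ∑ v, φ v * ∑ w ∈ G.neighborFinset v, f v w = ∑ v, (G.degree v : ℝ) * φ v := by
      refine sum_congr rfl fun v _ => ?_
      by_cases hv : v = j
      · subst hv; rw [hφj]; ring
      · rw [hdivf v hv]; ring
    rw [← e2, e1]
    congr 1
    refine sum_congr rfl fun v _ => sum_congr rfl fun w hw => ?_
    rw [hr v w (by rwa [SimpleGraph.mem_neighborFinset] at hw)]
    ring
  have hφθ : ∑ v, (G.degree v : ℝ) * φ v
      = (1 / 2) * ∑ v, ∑ w ∈ G.neighborFinset v, (1 - ρ v - ρ w) * (f v w * θ v w) := by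
    have e1 := potential G φ θ hasymθ
    have e2 : ∑ v, φ v * ∑ w ∈ G.neighborFinset v, θ v w = ∑ v, (G.degree v : ℝ) * φ v := by
      refine sum_congr rfl fun v _ => ?_
      by_cases hv : v = j
      · subst hv; rw [hφj]; ring
      · rw [hdivθ v hv]; ring
    rw [← e2, e1]
    congr 1
    refine sum_congr rfl fun v _ => sum_congr rfl fun w hw => ?_
    rw [hr v w (by rwa [SimpleGraph.mem_neighborFinset] at hw)]
    ring
  have hrnn : ∀ v w, 0 ≤ 1 - ρ v - ρ w := by
    have hle : ∀ v, ρ v ≤ 1 / 2 := by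
      intro v
      by_cases hv : v = j
      · subst hv; rw [hρj]; norm_num
      · rw [hρv v hv, one_div]
        exact inv_anti₀ (by norm_num) (hd2 v)
    intro v w
    linarith [hle v, hle w]
  have hsq : 0 ≤ ∑ v, ∑ w ∈ G.neighborFinset v, (1 - ρ v - ρ w) * (f v w - θ v w) ^ 2 :=
    sum_nonneg fun v _ => sum_nonneg fun w _ => mul_nonneg (hrnn v w) (sq_nonneg _)
  have hexp : ∑ v, ∑ w ∈ G.neighborFinset v, (1 - ρ v - ρ w) * (f v w - θ v w) ^ 2
      = ∑ v, ∑ w ∈ G.neighborFinset v, (1 - ρ v - ρ w) * (f v w * f v w)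
        - 2 * ∑ v, ∑ w ∈ G.neighborFinset v, (1 - ρ v - ρ w) * (f v w * θ v w)
        + ∑ v, ∑ w ∈ G.neighborFinset v, (1 - ρ v - ρ w) * θ v w ^ 2 := by
    rw [mul_sum, ← sum_sub_distrib, ← sum_add_distrib]
    refine sum_congr rfl fun v _ => ?_
    rw [mul_sum, ← sum_sub_distrib, ← sum_add_distrib]
    refine sum_congr rfl fun w _ => ?_
    ring
  have hθexp : ∑ v, ∑ w ∈ G.neighborFinset v, (1 - ρ v - ρ w) * θ v w ^ 2
      = ∑ v, ∑ w ∈ G.neighborFinset v, θ v w ^ 2
        - 2 * ∑ v, ρ v * ∑ w ∈ G.neighborFinset v, θ v w ^ 2 := by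
    have e1 : ∑ v, ∑ w ∈ G.neighborFinset v, ρ w * θ v w ^ 2
        = ∑ v, ∑ w ∈ G.neighborFinset v, ρ v * θ v w ^ 2 := by
      rw [dart_swap G (fun v w => ρ w * θ v w ^ 2)]
      refine sum_congr rfl fun v _ => sum_congr rfl fun w _ => ?_
      simp only [hθ]
      ring
    have e2 : ∑ v, ∑ w ∈ G.neighborFinset v, (1 - ρ v - ρ w) * θ v w ^ 2
        = ∑ v, ∑ w ∈ G.neighborFinset v, θ v w ^ 2
        - ∑ v, ∑ w ∈ G.neighborFinset v, ρ v * θ v w ^ 2
        - ∑ v, ∑ w ∈ G.neighborFinset v, ρ w * θ v w ^ 2 := by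
      rw [← sum_sub_distrib, ← sum_sub_distrib]
      refine sum_congr rfl fun v _ => ?_
      rw [← sum_sub_distrib, ← sum_sub_distrib]
      refine sum_congr rfl fun w _ => ?_
      ring
    have e3 : ∑ v, ρ v * ∑ w ∈ G.neighborFinset v, θ v w ^ 2
        = ∑ v, ∑ w ∈ G.neighborFinset v, ρ v * θ v w ^ 2 := by
      simp_rw [mul_sum]
    rw [e2, e1, e3]
    ring
  have hone : ∑ v, ρ v * ∑ w ∈ G.neighborFinset v, θ v w ^ 2
      = ∑ v, ρ v * G.degree v
        + ∑ v, ρ v * ∑ w ∈ G.neighborFinset v, (θ v w - 1) ^ 2 := by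
    rw [← sum_add_distrib]
    refine sum_congr rfl fun v _ => ?_
    by_cases hv : v = j
    · subst hv; rw [hρj]; ring
    · rw [← mul_add]
      congr 1
      have e1 : ∑ w ∈ G.neighborFinset v, (θ v w - 1) ^ 2
          = ∑ w ∈ G.neighborFinset v, θ v w ^ 2 - 2 * ∑ w ∈ G.neighborFinset v, θ v w
            + (#(G.neighborFinset v) : ℝ) := by
        rw [mul_sum, ← sum_sub_distrib, card_eq_sum_ones, Nat.cast_sum, ← sum_add_distrib]
        refine sum_congr rfl fun w _ => ?_
        push_cast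
        ring
      rw [e1, hdivθ v hv, hcard]
      ring
  -- strictness
  have hpos : 0 < ∑ v, ρ v * ∑ w ∈ G.neighborFinset v, (θ v w - 1) ^ 2 := by
    have hρnn : ∀ v, 0 ≤ ρ v := by
      intro v
      by_cases hv : v = j
      · subst hv; rw [hρj]
      · rw [hρv v hv]; positivity
    have hnn : ∀ v ∈ (univ : Finset V), 0 ≤ ρ v * ∑ w ∈ G.neighborFinset v, (θ v w - 1) ^ 2 :=
      fun v _ => mul_nonneg (hρnn v) (sum_nonneg fun w _ => sq_nonneg _)
    by_contra hcon
    have hz : ∑ v, ρ v * ∑ w ∈ G.neighborFinset v, (θ v w - 1) ^ 2 = 0 :=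
      le_antisymm (not_lt.mp hcon) (sum_nonneg hnn)
    rw [sum_eq_zero_iff_of_nonneg hnn] at hz
    have hall : ∀ v w, v ≠ j → G.Adj v w → θ v w = 1 := by
      intro v w hv hvw
      have e1 := hz v (mem_univ v)
      rw [hρv v hv] at e1
      rcases mul_eq_zero.mp e1 with e2 | e2
      · exact absurd e2 (inv_ne_zero (hd0 v))
      · rw [sum_eq_zero_iff_of_nonneg (fun _ _ => sq_nonneg _)] at e2
        have e3 := e2 w (by rwa [SimpleGraph.mem_neighborFinset])
        have e4 := pow_eq_zero_iff (two_ne_zero) |>.mp e3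
        linarith
    obtain ⟨v, hv⟩ : (G.neighborFinset j).Nonempty := by
      rw [← card_pos, SimpleGraph.card_neighborFinset_eq_degree]
      have := hdeg j
      omega
    rw [SimpleGraph.mem_neighborFinset] at hv
    have hvj : v ≠ j := hv.ne'
    obtain ⟨w, hw⟩ : ((G.neighborFinset v).erase j).Nonempty := by
      rw [← card_pos, card_erase_of_mem (by rw [SimpleGraph.mem_neighborFinset]; exact hv.symm),
        SimpleGraph.card_neighborFinset_eq_degree]
      have := hdeg v
      omega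
    have hwj : w ≠ j := ne_of_mem_erase hw
    have hvw : G.Adj v w := by
      have := mem_of_mem_erase hw
      rwa [SimpleGraph.mem_neighborFinset] at this
    have e1 := hall v w hvj hvw
    have e2 := hall w v hwj hvw.symm
    simp only [hθ] at e1 e2
    linarith
  rw [hT, hT0]
  have e1 := hexp
  rw [hθexp, hone] at e1
  nlinarith [hsq, hφf, hφθ, hpos, e1]

end Pool.Agent.R3.Kemeny
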