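import Pool.Agent.R3.Cover1
import Pool.Agent.R3.Kemeny1

set_option autoImplicit false

namespace Pool.Agent.R3.Cover

open Finset

lemma gibbs {ι : Type*} (s : Finset ι) (F X : ι → ℝ) (hF : ∀ i ∈ s, 0 < F i)
    (hX : ∀ i ∈ s, 0 < X i) (w : ℝ) (hw : ∑ i ∈ s, F i = w) (hpos : 0 < w) :
    ∑ i ∈ s, F i * (Real.log (X i) - Real.log (F i) + Real.log w)
      ≤ w * Real.log (∑ i ∈ s, X i) := by
  have h := (strictConcaveOn_log_Ioi.concaveOn).le_map_sum (t := s) (w := fun i => F i / w)
    (p := fun i => X i * w / F i) (fun i hi => by have := hF i hi; positivity)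
    (by rw [← Finset.sum_div, hw, div_self hpos.ne'])
    (fun i hi => by
      have h1 := hF i hi
      have h2 := hX i hi
      show 0 < X i * w / F i
      positivity)
  have e1 : ∑ i ∈ s, (F i / w) • (X i * w / F i) = ∑ i ∈ s, X i := by
    refine sum_congr rfl fun i hi => ?_
    have h1 := (hF i hi).ne'
    have h2 := hpos.ne'
    rw [smul_eq_mul]
    field_simp
  rw [e1] at h
  have e2 : ∑ i ∈ s, F i * (Real.log (X i) - Real.log (F i) + Real.log w)
      = w * ∑ i ∈ s, (F i / w) • Real.log (X i * w / F i) := by
    rw [mul_sum]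
    refine sum_congr rfl fun i hi => ?_
    have h1 := hF i hi
    have h2 := hX i hi
    rw [Real.log_div (by positivity) h1.ne', Real.log_mul h2.ne' hpos.ne', smul_eq_mul]
    field_simp
    ring
  rw [e2]
  exact mul_le_mul_of_nonneg_left h hpos.le

variable {V : Type*} [Fintype V] [DecidableEq V] (G : SimpleGraph V) [DecidableRel G.Adj]

/-- number of non-backtracking continuations of length `k` of the dart `(u, v)` -/
noncomputable def X : ℕ → V → V → ℝ
  | 0, _, _ => 1
  | k + 1, u, v => ∑ w ∈ (G.neighborFinset v).erase u, X k v w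

/-- edge weights -/
noncomputable def om (a : ℝ) (u v : V) : ℝ := if G.degree u = 3 ∧ G.degree v = 3 then a else 1

lemma om_comm (a : ℝ) (u v : V) : om G a u v = om G a v u := by
  unfold om
  exact if_congr and_comm rfl rfl

/-- total weight at a vertex -/
noncomputable def Sv (a : ℝ) (v : V) : ℝ := ∑ x ∈ G.neighborFinset v, om G a v x

/-- the flow through `u, v, w` -/
noncomputable def F (a : ℝ) (u v w : V) : ℝ := om G a u v + om G a v w - Sv G a v / 2

lemma F_comm (a : ℝ) (u v w : V) : F G a u v w = F G a w v u := by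
  unfold F
  rw [om_comm G a u v, om_comm G a v w]
  ring

/-- the local entropy -/
noncomputable def hv (a : ℝ) (v : V) : ℝ :=
  ∑ u ∈ G.neighborFinset v, (om G a u v * Real.log (om G a u v)
    - ∑ w ∈ (G.neighborFinset v).erase u, F G a u v w * Real.log (F G a u v w))

variable (hdeg : ∀ v, G.degree v = 2 ∨ G.degree v = 3)

include hdeg in
lemma om_two {a : ℝ} (v x : V) (h2 : G.degree v = 2) : om G a v x = 1 := by
  unfold om
  rw [if_neg]
  rintro ⟨h, -⟩
  omega

include hdeg in
/-- the local structure at a vertex -/
lemma local_facts {r a L : ℝ} (hc : Consts r a L) (v : V) :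
    (∀ u ∈ G.neighborFinset v, ∑ w ∈ (G.neighborFinset v).erase u, F G a u v w = om G a u v) ∧
    (∀ u ∈ G.neighborFinset v, ∀ w ∈ (G.neighborFinset v).erase u, 0 < F G a u v w) ∧
    L * Sv G a v + (if G.degree v = 3 then
      2 * L + 0.03 * (∑ x ∈ G.neighborFinset v, (if G.degree x = 3 then (1 : ℝ) else 0) - 1)
      else - (2 * L)) ≤ hv G a v := by
  have ha := a_bounds hc
  have ha1 : a ≠ 1 := by linarith [ha.1]
  rcases hdeg v with h2 | h3
  · have hcard : #(G.neighborFinset v) = 2 := by
      rw [SimpleGraph.card_neighborFinset_eq_degree, h2]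
    obtain ⟨x, y, hxy, hN⟩ := Finset.card_eq_two.mp hcard
    have hox : om G a v x = 1 := om_two G hdeg v x h2
    have hoy : om G a v y = 1 := om_two G hdeg v y h2
    have hox' : om G a x v = 1 := by rw [om_comm]; exact hox
    have hoy' : om G a y v = 1 := by rw [om_comm]; exact hoy
    have hS : Sv G a v = 2 := by
      rw [Sv, hN, sum_pair hxy, hox, hoy]; norm_num
    have e1 : ({x, y} : Finset V).erase x = {y} := by
      ext z; simp only [mem_erase, mem_insert, mem_singleton]
      constructor
      · rintro ⟨h, rfl | rfl⟩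
        · exact absurd rfl h
        · rfl
      · rintro rfl; exact ⟨hxy.symm, Or.inr rfl⟩
    have e2 : ({x, y} : Finset V).erase y = {x} := by
      ext z; simp only [mem_erase, mem_insert, mem_singleton]
      constructor
      · rintro ⟨h, rfl | rfl⟩
        · rfl
        · exact absurd rfl h
      · rintro rfl; exact ⟨hxy, Or.inl rfl⟩
    have hFxy : F G a x v y = 1 := by unfold F; rw [hox', hoy, hS]; norm_num
    have hFyx : F G a y v x = 1 := by unfold F; rw [hoy', hox, hS]; norm_num
    refine ⟨?_, ?_, ?_⟩
    · intro u hu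
      rw [hN, mem_insert, mem_singleton] at hu
      rcases hu with rfl | rfl
      · rw [hN, e1, sum_singleton, hFxy, hox']
      · rw [hN, e2, sum_singleton, hFyx, hoy']
    · intro u hu w hw
      rw [hN, mem_insert, mem_singleton] at hu
      rcases hu with rfl | rfl
      · rw [hN, e1, mem_singleton] at hw
        subst hw; rw [hFxy]; norm_num
      · rw [hN, e2, mem_singleton] at hw
        subst hw; rw [hFyx]; norm_num
    · rw [hS, if_neg (by omega), hv, hN, sum_pair hxy, e1, e2, sum_singleton, sum_singleton, hFxy,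
        hFyx, hox', hoy', Real.log_one]
      linarith
  · have hcard : #(G.neighborFinset v) = 3 := by
      rw [SimpleGraph.card_neighborFinset_eq_degree, h3]
    obtain ⟨x, y, z, hxy, hxz, hyz, hN⟩ := Finset.card_eq_three.mp hcard
    have hval : ∀ t, om G a v t = 1 ∨ om G a v t = a := by
      intro t; unfold om; split_ifs
      · exact Or.inr rfl
      · exact Or.inl rfl
    have hval' : ∀ t, (if G.degree t = 3 then (1 : ℝ) else 0) = if om G a v t = 1 then 0 else 1 := by
      intro t
      by_cases ht : G.degree t = 3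
      · have e : om G a v t = a := if_pos ⟨h3, ht⟩
        rw [e, if_pos ht, if_neg ha1]
      · have e : om G a v t = 1 := if_neg (fun h => ht h.2)
        rw [e, if_neg ht, if_pos rfl]
    have hS : Sv G a v = om G a v x + om G a v y + om G a v z := by
      rw [Sv, hN, sum_insert (by simp [hxy, hxz]), sum_pair hyz]; ring
    have e1 : ({x, y, z} : Finset V).erase x = {y, z} := by
      rw [erase_insert]; simp [hxy, hxz]
    have e2 : ({x, y, z} : Finset V).erase y = {x, z} := by
      ext t; simp only [mem_erase, mem_insert, mem_singleton]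
      constructor
      · rintro ⟨h, rfl | rfl | rfl⟩
        · exact Or.inl rfl
        · exact absurd rfl h
        · exact Or.inr rfl
      · rintro (rfl | rfl)
        · exact ⟨hxy, Or.inl rfl⟩
        · exact ⟨hyz.symm, Or.inr (Or.inr rfl)⟩
    have e3 : ({x, y, z} : Finset V).erase z = {x, y} := by
      ext t; simp only [mem_erase, mem_insert, mem_singleton]
      constructor
      · rintro ⟨h, rfl | rfl | rfl⟩
        · exact Or.inl rfl
        · exact Or.inr rfl
        · exact absurd rfl h
      · rintro (rfl | rfl)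
        · exact ⟨hxz, Or.inl rfl⟩
        · exact ⟨hyz, Or.inr (Or.inl rfl)⟩
    have hp := hval x
    have hq := hval y
    have hs := hval z
    have hloc := local_ineq hc (om G a v x) (om G a v y) (om G a v z) hp hq hs _ _ _
      (hval' x) (hval' y) (hval' z)
    set p := om G a v x with hpd
    set q := om G a v y with hqd
    set s := om G a v z with hsd
    have hox' : om G a x v = p := by rw [om_comm]
    have hoy' : om G a y v = q := by rw [om_comm]
    have hoz' : om G a z v = s := by rw [om_comm]
    have hFxy : F G a x v y = (p + q - s) / 2 := by unfold F; rw [hox', hS]; ring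
    have hFxz : F G a x v z = (p + s - q) / 2 := by unfold F; rw [hox', hS]; ring
    have hFyz : F G a y v z = (q + s - p) / 2 := by unfold F; rw [hoy', hS]; ring
    have hFyx : F G a y v x = (p + q - s) / 2 := by rw [F_comm, hFxy]
    have hFzx : F G a z v x = (p + s - q) / 2 := by rw [F_comm, hFxz]
    have hFzy : F G a z v y = (q + s - p) / 2 := by rw [F_comm, hFyz]
    have hb : ∀ t : ℝ, (t = 1 ∨ t = a) → 1 ≤ t ∧ t ≤ 1.136 := by
      intro t ht
      rcases ht with rfl | rfl
      · norm_num
      · exact ⟨by linarith [ha.1], ha.2.le⟩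
    have bp := hb p hp
    have bq := hb q hq
    have bs := hb s hs
    refine ⟨?_, ?_, ?_⟩
    · intro u hu
      rw [hN, mem_insert, mem_insert, mem_singleton] at hu
      rcases hu with rfl | rfl | rfl
      · rw [hN, e1, sum_pair hyz, hFxy, hFxz, hox']; ring
      · rw [hN, e2, sum_pair hxz, hFyx, hFyz, hoy']; ring
      · rw [hN, e3, sum_pair hxy, hFzx, hFzy, hoz']; ring
    · intro u hu w hw
      rw [hN, mem_insert, mem_insert, mem_singleton] at hu
      rcases hu with rfl | rfl | rfl
      · rw [hN, e1, mem_insert, mem_singleton] at hw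
        rcases hw with rfl | rfl
        · rw [hFxy]; linarith [bp.1, bq.1, bs.2]
        · rw [hFxz]; linarith [bp.1, bs.1, bq.2]
      · rw [hN, e2, mem_insert, mem_singleton] at hw
        rcases hw with rfl | rfl
        · rw [hFyx]; linarith [bp.1, bq.1, bs.2]
        · rw [hFyz]; linarith [bq.1, bs.1, bp.2]
      · rw [hN, e3, mem_insert, mem_singleton] at hw
        rcases hw with rfl | rfl
        · rw [hFzx]; linarith [bp.1, bs.1, bq.2]
        · rw [hFzy]; linarith [bq.1, bs.1, bp.2]
    · rw [if_pos h3, hv, hN, sum_insert (by simp [hxy, hxz]), sum_pair hyz,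
        sum_insert (by simp [hxy, hxz]), sum_pair hyz, e1, e2, e3, sum_pair hyz, sum_pair hxz,
        sum_pair hxy,
        hFxy, hFxz, hFyx, hFyz, hFzx, hFzy, hox', hoy', hoz', hS]
      have hH : H3 p q s = p * Real.log p + q * Real.log q + s * Real.log s
        - 2 * ((p + q - s) / 2 * Real.log ((p + q - s) / 2)
          + (p + s - q) / 2 * Real.log ((p + s - q) / 2)
          + (q + s - p) / 2 * Real.log ((q + s - p) / 2)) := rfl
      rw [hH] at hloc
      linarith

include hdeg in
lemma X_pos (k : ℕ) (u v : V) (huv : G.Adj u v) : 0 < X G k u v := by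
  induction k generalizing u v with
  | zero => exact one_pos
  | succ k ih =>
    rw [X]
    refine sum_pos (fun w hw => ih v w ?_) ?_
    · have := mem_of_mem_erase hw
      rwa [SimpleGraph.mem_neighborFinset] at this
    · rw [← card_pos, card_erase_of_mem (by rw [SimpleGraph.mem_neighborFinset]; exact huv.symm),
        SimpleGraph.card_neighborFinset_eq_degree]
      have := hdeg v
      omega

/-- the weighted sum of logarithms -/
noncomputable def M (a : ℝ) (k : ℕ) : ℝ :=
  ∑ v, ∑ u ∈ G.neighborFinset v, om G a u v * Real.log (X G k u v)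

include hdeg in
lemma M_step {r a L : ℝ} (hc : Consts r a L) (k : ℕ) :
    M G a k + ∑ v, hv G a v ≤ M G a (k + 1) := by
  have ha := a_bounds hc
  have hompos : ∀ u v, 0 < om G a u v := by
    intro u v; unfold om; split_ifs
    · linarith [ha.1]
    · exact one_pos
  have hM : M G a k = ∑ v, ∑ w ∈ G.neighborFinset v, om G a v w * Real.log (X G k v w) := by
    unfold M
    rw [← Pool.Agent.R3.Kemeny.dart_swap G (fun v w => om G a v w * Real.log (X G k v w))]
  rw [hM, ← sum_add_distrib]
  unfold M
  refine sum_le_sum fun v _ => ?_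
  obtain ⟨f1, f2, -⟩ := local_facts G hdeg hc v
  have hadj : ∀ u, ∀ w ∈ (G.neighborFinset v).erase u, G.Adj v w := by
    intro u w hw
    have := mem_of_mem_erase hw
    rwa [SimpleGraph.mem_neighborFinset] at this
  have hg : ∀ u ∈ G.neighborFinset v, ∑ w ∈ (G.neighborFinset v).erase u, F G a u v w *
      (Real.log (X G k v w) - Real.log (F G a u v w) + Real.log (om G a u v))
      ≤ om G a u v * Real.log (X G (k + 1) u v) := by
    intro u hu
    have := gibbs ((G.neighborFinset v).erase u) (fun w => F G a u v w) (fun w => X G k v w)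
      (fun w hw => f2 u hu w hw) (fun w hw => X_pos G hdeg k v w (hadj u w hw)) (om G a u v)
      (f1 u hu) (hompos u v)
    exact this
  refine le_trans (le_of_eq ?_) (sum_le_sum hg)
  have e1 : ∀ u ∈ G.neighborFinset v, ∑ w ∈ (G.neighborFinset v).erase u, F G a u v w *
      (Real.log (X G k v w) - Real.log (F G a u v w) + Real.log (om G a u v))
      = ∑ w ∈ (G.neighborFinset v).erase u, F G a u v w * Real.log (X G k v w)
        + (om G a u v * Real.log (om G a u v)
          - ∑ w ∈ (G.neighborFinset v).erase u, F G a u v w * Real.log (F G a u v w)) := by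
    intro u hu
    have e2 : om G a u v * Real.log (om G a u v)
        = ∑ w ∈ (G.neighborFinset v).erase u, F G a u v w * Real.log (om G a u v) := by
      rw [← sum_mul, f1 u hu]
    rw [e2, ← sum_sub_distrib, ← sum_add_distrib]
    refine sum_congr rfl fun w _ => ?_
    ring
  rw [sum_congr rfl e1, sum_add_distrib]
  congr 1
  rw [Finset.sum_comm' (s' := fun w => (G.neighborFinset v).erase w) (t' := G.neighborFinset v)]
  · refine sum_congr rfl fun w hw => ?_
    rw [← sum_mul]
    congr 1
    rw [om_comm, ← f1 w hw]
    exact sum_congr rfl fun u _ => F_comm G a w v u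
  · intro x y
    simp only [mem_erase]
    constructor
    · rintro ⟨hx, hyx, hy⟩
      exact ⟨⟨fun h => hyx h.symm, hx⟩, hy⟩
    · rintro ⟨⟨hxy, hx⟩, hy⟩
      exact ⟨hx, fun h => hxy h.symm, hy⟩

include hdeg in
lemma total_entropy {r a L : ℝ} (hc : Consts r a L)
    (hhalf : #{v | G.degree v = 2} = #{v | G.degree v = 3}) :
    L * ∑ v, Sv G a v ≤ ∑ v, hv G a v := by
  have h1 : ∑ v, (L * Sv G a v + (if G.degree v = 3 then
      2 * L + 0.03 * (∑ x ∈ G.neighborFinset v, (if G.degree x = 3 then (1 : ℝ) else 0) - 1)
      else - (2 * L))) ≤ ∑ v, hv G a v :=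
    sum_le_sum fun v _ => (local_facts G hdeg hc v).2.2
  refine le_trans ?_ h1
  rw [sum_add_distrib, ← mul_sum]
  have h2 : 0 ≤ ∑ v, (if G.degree v = 3 then
      2 * L + 0.03 * (∑ x ∈ G.neighborFinset v, (if G.degree x = 3 then (1 : ℝ) else 0) - 1)
      else - (2 * L)) := by
    have e1 : ∑ v, (if G.degree v = 3 then
        2 * L + 0.03 * (∑ x ∈ G.neighborFinset v, (if G.degree x = 3 then (1 : ℝ) else 0) - 1)
        else - (2 * L)) = ∑ v, (2 * L * (if G.degree v = 3 then (1 : ℝ) else 0)
          - 2 * L * (if G.degree v = 2 then (1 : ℝ) else 0)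
          + 0.03 * (if G.degree v = 3 then
            (∑ x ∈ G.neighborFinset v, (if G.degree x = 3 then (1 : ℝ) else 0) - 1) else 0)) := by
      refine sum_congr rfl fun v _ => ?_
      rcases hdeg v with h | h
      · rw [if_neg (by omega), if_neg (by omega), if_pos h, if_neg (by omega)]; ring
      · rw [if_pos h, if_pos h, if_neg (by omega), if_pos h]; ring
    rw [e1, sum_add_distrib, sum_sub_distrib, ← mul_sum, ← mul_sum, ← mul_sum]
    have c3 : ∑ v, (if G.degree v = 3 then (1 : ℝ) else 0) = (#{v | G.degree v = 3} : ℕ) := by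
      rw [sum_ite]; simp
    have c2 : ∑ v, (if G.degree v = 2 then (1 : ℝ) else 0) = (#{v | G.degree v = 2} : ℕ) := by
      rw [sum_ite]; simp
    rw [c3, c2, hhalf, sub_self, zero_add]
    refine mul_nonneg (by norm_num) ?_
    -- counting edges between the two classes
    have e2 : ∑ v, (if G.degree v = 3 then
        (∑ x ∈ G.neighborFinset v, (if G.degree x = 3 then (1 : ℝ) else 0) - 1) else 0)
        = 2 * (#{v | G.degree v = 3} : ℕ) - ∑ v, ∑ x ∈ G.neighborFinset v,
          (if G.degree v = 3 ∧ G.degree x = 2 then (1 : ℝ) else 0) := by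
      rw [← c3, mul_sum, ← sum_sub_distrib]
      refine sum_congr rfl fun v _ => ?_
      by_cases h : G.degree v = 3
      · rw [if_pos h, if_pos h]
        have e3 : ∑ x ∈ G.neighborFinset v, (if G.degree x = 3 then (1 : ℝ) else 0)
            = 3 - ∑ x ∈ G.neighborFinset v,
              (if G.degree v = 3 ∧ G.degree x = 2 then (1 : ℝ) else 0) := by
          have e4 : (3 : ℝ) = ∑ x ∈ G.neighborFinset v, (1 : ℝ) := by
            rw [sum_const, SimpleGraph.card_neighborFinset_eq_degree, h]; norm_num
          rw [e4, ← sum_sub_distrib]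
          refine sum_congr rfl fun x _ => ?_
          rcases hdeg x with hx | hx
          · rw [if_neg (by omega), if_pos ⟨h, hx⟩]; norm_num
          · rw [if_pos hx, if_neg (by omega)]; norm_num
        rw [e3]; ring
      · rw [if_neg h, if_neg h]
        rw [sum_eq_zero]
        · norm_num
        · intro x _
          rw [if_neg (fun hh => h hh.1)]
    rw [e2, sub_nonneg, Pool.Agent.R3.Kemeny.dart_swap G
      (fun v x => (if G.degree v = 3 ∧ G.degree x = 2 then (1 : ℝ) else 0)), ← hhalf, ← c2, mul_sum]
    refine sum_le_sum fun v _ => ?_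
    by_cases h : G.degree v = 2
    · rw [if_pos h]
      calc ∑ w ∈ G.neighborFinset v, (if G.degree w = 3 ∧ G.degree v = 2 then (1 : ℝ) else 0)
          ≤ ∑ w ∈ G.neighborFinset v, (1 : ℝ) := by
            refine sum_le_sum fun w _ => ?_
            split_ifs <;> norm_num
        _ = 2 * 1 := by
            rw [sum_const, SimpleGraph.card_neighborFinset_eq_degree, h]; norm_num
    · rw [if_neg h, sum_eq_zero]
      · norm_num
      · intro x _
        rw [if_neg (fun hh => h hh.2)]
  linarith

include hdeg in
/-- exponential growth at rate `r` -/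
theorem growth {r a L : ℝ} (hc : Consts r a L) [Nonempty V]
    (hhalf : #{v | G.degree v = 2} = #{v | G.degree v = 3}) (k : ℕ) :
    ∃ u v, G.Adj u v ∧ r ^ k ≤ X G k u v := by
  have ha := a_bounds hc
  have hr : 0 < r := by linarith [hc.r_lo]
  have hompos : ∀ u v, 0 < om G a u v := by
    intro u v; unfold om; split_ifs
    · linarith [ha.1]
    · exact one_pos
  have hM : ∀ k : ℕ, k * (L * ∑ v, Sv G a v) ≤ M G a k := by
    intro k
    induction k with
    | zero =>
      rw [Nat.cast_zero, zero_mul]
      unfold M
      simp only [X, Real.log_one, mul_zero, sum_const_zero, le_refl]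
    | succ k ih =>
      have h1 := M_step G hdeg hc k
      have h2 := total_entropy G hdeg hc hhalf
      push_cast
      linarith
  by_contra hcon
  push Not at hcon
  have h1 : M G a k < k * (L * ∑ v, Sv G a v) := by
    have e1 : (k : ℝ) * (L * ∑ v, Sv G a v)
        = ∑ v, ∑ u ∈ G.neighborFinset v, om G a u v * Real.log (r ^ k) := by
      rw [← mul_assoc, mul_sum]
      refine sum_congr rfl fun v _ => ?_
      rw [Sv, mul_sum]
      refine sum_congr rfl fun u _ => ?_
      rw [Real.log_pow, hc.L_eq, om_comm G a v u]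
      ring
    rw [e1]
    unfold M
    refine sum_lt_sum_of_nonempty univ_nonempty fun v _ => ?_
    refine sum_lt_sum_of_nonempty ?_ fun u hu => ?_
    · rw [← card_pos, SimpleGraph.card_neighborFinset_eq_degree]
      have := hdeg v
      omega
    · rw [SimpleGraph.mem_neighborFinset] at hu
      exact mul_lt_mul_of_pos_left (Real.log_lt_log (X_pos G hdeg k u v hu.symm)
        (hcon u v hu.symm)) (hompos u v)
  linarith [hM k]

end Pool.Agent.R3.Cover
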