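import Pool.Agent.R3.Cover2

set_option autoImplicit false

namespace Pool.Agent.R3.Cover

open Finset
open scoped ENNReal NNReal

variable {V : Type*} [Fintype V] [DecidableEq V] (G : SimpleGraph V) [DecidableRel G.Adj]

/-- The non-backtracking matrix: rows and columns are indexed by the directed edges, the entry at
`(e, f)` is `1` when `f` starts where `e` ends and `f` is not the reverse of `e`, else `0`. -/
def nbMatrix : Matrix G.Dart G.Dart ℂ :=
  fun e f => if e.snd = f.fst ∧ f ≠ e.symm then 1 else 0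

/-- `ρ(G)`: the Perron eigenvalue of the non-backtracking matrix, that is its spectral radius, the
largest absolute value of a complex eigenvalue. -/
noncomputable def rho : ℝ≥0∞ := spectralRadius ℂ (nbMatrix G)

/-- The class `𝒢_{2,3}`: connected graphs in which every degree is two or three, with as many
vertices of degree two as of degree three. -/
def InClass : Prop :=
  G.Connected ∧ (∀ v, G.degree v = 2 ∨ G.degree v = 3) ∧
    #{v | G.degree v = 2} = #{v | G.degree v = 3}

/-- The complete graph on four vertices with the edge between `0` and `1` deleted. -/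
def K4minus : SimpleGraph (Fin 4) where
  Adj i j := i ≠ j ∧ ¬ (i = 0 ∧ j = 1) ∧ ¬ (i = 1 ∧ j = 0)
  symm := ⟨fun i j h => ⟨h.1.symm, fun h' => h.2.2 ⟨h'.2, h'.1⟩, fun h' => h.2.1 ⟨h'.2, h'.1⟩⟩⟩
  loopless := ⟨fun i h => h.1 rfl⟩

instance : DecidableRel K4minus.Adj := fun i j =>
  inferInstanceAs (Decidable (i ≠ j ∧ ¬ (i = 0 ∧ j = 1) ∧ ¬ (i = 1 ∧ j = 0)))

lemma nbMatrix_mulVec (Y : V → V → ℂ) (e : G.Dart) :
    (nbMatrix G).mulVec (fun f => Y f.fst f.snd) e
      = ∑ w ∈ (G.neighborFinset e.snd).erase e.fst, Y e.snd w := by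
  rw [Matrix.mulVec, dotProduct]
  have h1 : ∀ f : G.Dart, nbMatrix G e f * Y f.fst f.snd
      = if e.snd = f.fst ∧ f ≠ e.symm then Y f.fst f.snd else 0 := by
    intro f
    unfold nbMatrix
    split_ifs <;> simp
  simp_rw [h1]
  rw [← Finset.sum_filter]
  symm
  refine Finset.sum_bij (fun w hw => (⟨(e.snd, w), by
    have := mem_of_mem_erase hw
    rwa [SimpleGraph.mem_neighborFinset] at this⟩ : G.Dart)) ?_ ?_ ?_ ?_
  · intro w hw
    rw [mem_filter]
    refine ⟨mem_univ _, rfl, ?_⟩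
    intro h
    have h2 : w = e.fst := by
      have := congrArg (fun d : G.Dart => d.snd) h
      simpa using this
    exact ne_of_mem_erase hw h2
  · intro w hw w' hw' h
    have := congrArg (fun d : G.Dart => d.snd) h
    simpa using this
  · intro f hf
    rw [mem_filter] at hf
    obtain ⟨-, h1, h2⟩ := hf
    refine ⟨f.snd, ?_, ?_⟩
    · rw [mem_erase, SimpleGraph.mem_neighborFinset]
      refine ⟨fun h => h2 ?_, h1 ▸ f.adj⟩
      ext
      · exact h1.symm
      · exact h
    · ext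
      · exact h1
      · rfl
  · intro w hw
    rfl

section lower

attribute [local instance] Matrix.linftyOpNormedRing Matrix.linftyOpNormedAlgebra
  Matrix.linftyOpSeminormedAddCommGroup

lemma pow_mulVec_one (k : ℕ) (e : G.Dart) :
    ((nbMatrix G) ^ k).mulVec (fun _ => 1) e = (X G k e.fst e.snd : ℂ) := by
  have h : ((nbMatrix G) ^ k).mulVec (fun _ => 1) = fun e : G.Dart => (X G k e.fst e.snd : ℂ) := by
    induction k with
    | zero =>
      rw [pow_zero, Matrix.one_mulVec]
      funext e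
      simp [X]
    | succ k ih =>
      rw [pow_succ', ← Matrix.mulVec_mulVec, ih]
      funext e
      rw [nbMatrix_mulVec G (fun u v => (X G k u v : ℂ)) e]
      simp only [X]
      push_cast
      rfl
  rw [h]

lemma le_rho (r : ℝ) (hr : 0 ≤ r) (h : ∀ k : ℕ, ∃ u v, G.Adj u v ∧ r ^ k ≤ X G k u v) :
    ENNReal.ofReal r ≤ rho G := by
  have hcomplete : CompleteSpace (Matrix G.Dart G.Dart ℂ) := FiniteDimensional.complete ℂ _
  have ht := spectrum.pow_nnnorm_pow_one_div_tendsto_nhds_spectralRadius (nbMatrix G)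
  have hnorm : ∀ k : ℕ, r ^ k ≤ ‖(nbMatrix G) ^ k‖ := by
    intro k
    obtain ⟨u, v, huv, hX⟩ := h k
    have h1 := Matrix.linfty_opNorm_mulVec ((nbMatrix G) ^ k) (fun _ => (1 : ℂ))
    have h2 : ‖(fun _ : G.Dart => (1 : ℂ))‖ ≤ 1 := by
      rw [pi_norm_le_iff_of_nonneg zero_le_one]
      intro _; simp
    let e : G.Dart := ⟨(u, v), huv⟩
    have h3 : ‖((nbMatrix G) ^ k).mulVec (fun _ => (1 : ℂ)) e‖
        ≤ ‖((nbMatrix G) ^ k).mulVec (fun _ => (1 : ℂ))‖ := norm_le_pi_norm _ e
    rw [pow_mulVec_one] at h3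
    have h4 : X G k u v ≤ ‖(X G k e.fst e.snd : ℂ)‖ := by
      rw [Complex.norm_real]
      exact Real.le_norm_self _
    calc r ^ k ≤ X G k u v := hX
      _ ≤ ‖(X G k e.fst e.snd : ℂ)‖ := h4
      _ ≤ ‖((nbMatrix G) ^ k).mulVec (fun _ => (1 : ℂ))‖ := h3
      _ ≤ ‖(nbMatrix G) ^ k‖ * ‖(fun _ : G.Dart => (1 : ℂ))‖ := h1
      _ ≤ ‖(nbMatrix G) ^ k‖ * 1 := mul_le_mul_of_nonneg_left h2 (norm_nonneg _)
      _ = ‖(nbMatrix G) ^ k‖ := mul_one _
  refine ge_of_tendsto ht ?_
  filter_upwards [Filter.eventually_gt_atTop 0] with k hk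
  have hk' : (0 : ℝ) < k := by exact_mod_cast hk
  have h5 : (ENNReal.ofReal r) ^ (k : ℝ) ≤ (‖(nbMatrix G) ^ k‖₊ : ℝ≥0∞) := by
    rw [ENNReal.rpow_natCast, ← ENNReal.ofReal_pow hr]
    rw [← enorm_eq_nnnorm, ← ofReal_norm]
    exact ENNReal.ofReal_le_ofReal (hnorm k)
  calc ENNReal.ofReal r = ((ENNReal.ofReal r) ^ (k : ℝ)) ^ (1 / (k : ℝ)) := by
        rw [← ENNReal.rpow_mul, mul_one_div_cancel hk'.ne', ENNReal.rpow_one]
    _ ≤ (‖(nbMatrix G) ^ k‖₊ : ℝ≥0∞) ^ (1 / (k : ℝ)) :=
        ENNReal.rpow_le_rpow h5 (by positivity)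

end lower

/-- an eigenvalue bound from a positive vector -/
lemma rho_le (r : ℝ) (x : V → V → ℝ) (hx : ∀ u v, G.Adj u v → 0 < x u v)
    (hB : ∀ u v, G.Adj u v → ∑ w ∈ (G.neighborFinset v).erase u, x v w ≤ r * x u v) :
    rho G ≤ ENNReal.ofReal r := by
  unfold rho spectralRadius
  refine iSup₂_le fun μ hμ => ?_
  rw [← Matrix.spectrum_toLin', ← Module.End.hasEigenvalue_iff_mem_spectrum] at hμ
  obtain ⟨y, hy⟩ := hμ.exists_hasEigenvector
  have hy1 : (nbMatrix G).mulVec y = μ • y := by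
    have := hy.apply_eq_smul
    rwa [Matrix.toLin'_apply] at this
  have hy0 : y ≠ 0 := hy.2
  obtain ⟨e0, he0⟩ : ∃ e, y e ≠ 0 := by
    by_contra hcon
    push Not at hcon
    exact hy0 (funext hcon)
  obtain ⟨e, -, he⟩ := exists_max_image (univ : Finset G.Dart)
    (fun e => ‖y e‖ / x e.fst e.snd) ⟨e0, mem_univ _⟩
  have hxe : ∀ e : G.Dart, 0 < x e.fst e.snd := fun e => hx _ _ e.adj
  set t := ‖y e‖ / x e.fst e.snd with ht
  have ht0 : 0 < t := by
    refine lt_of_lt_of_le ?_ (he e0 (mem_univ _))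
    exact div_pos (norm_pos_iff.mpr he0) (hxe e0)
  have hyle : ∀ f : G.Dart, ‖y f‖ ≤ t * x f.fst f.snd := by
    intro f
    have := he f (mem_univ _)
    rwa [div_le_iff₀ (hxe f)] at this
  have h1 : ‖μ‖ * (t * x e.fst e.snd) ≤ t * (r * x e.fst e.snd) := by
    have e1 : t * x e.fst e.snd = ‖y e‖ := by
      rw [ht, div_mul_cancel₀ _ (hxe e).ne']
    rw [e1, ← norm_mul]
    have e2 : μ * y e = (nbMatrix G).mulVec y e := by rw [hy1]; rfl
    rw [e2, Matrix.mulVec, dotProduct]
    have e3 : ∑ f, nbMatrix G e f * (x f.fst f.snd : ℂ)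
        = ∑ w ∈ (G.neighborFinset e.snd).erase e.fst, (x e.snd w : ℂ) := by
      have := nbMatrix_mulVec G (fun u v => (x u v : ℂ)) e
      rw [Matrix.mulVec, dotProduct] at this
      exact this
    have e4 : ∀ f : G.Dart, ‖nbMatrix G e f * y f‖
        ≤ t * (if e.snd = f.fst ∧ f ≠ e.symm then x f.fst f.snd else 0) := by
      intro f
      unfold nbMatrix
      split_ifs
      · rw [one_mul]; exact hyle f
      · simp
    have e5 : ∑ f : G.Dart, (if e.snd = f.fst ∧ f ≠ e.symm then x f.fst f.snd else 0)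
        = ∑ w ∈ (G.neighborFinset e.snd).erase e.fst, x e.snd w := by
      have e6 : ((∑ f : G.Dart, (if e.snd = f.fst ∧ f ≠ e.symm then x f.fst f.snd else 0) : ℝ) : ℂ)
          = ((∑ w ∈ (G.neighborFinset e.snd).erase e.fst, x e.snd w : ℝ) : ℂ) := by
        push_cast
        rw [← e3]
        refine sum_congr rfl fun f _ => ?_
        unfold nbMatrix
        split_ifs <;> simp
      exact_mod_cast e6
    calc ‖∑ f, nbMatrix G e f * y f‖ ≤ ∑ f, ‖nbMatrix G e f * y f‖ := norm_sum_le _ _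
      _ ≤ ∑ f : G.Dart, t * (if e.snd = f.fst ∧ f ≠ e.symm then x f.fst f.snd else 0) :=
          sum_le_sum fun f _ => e4 f
      _ = t * ∑ w ∈ (G.neighborFinset e.snd).erase e.fst, x e.snd w := by rw [← mul_sum, e5]
      _ ≤ t * (r * x e.fst e.snd) := mul_le_mul_of_nonneg_left (hB _ _ e.adj) ht0.le
  have h2 : ‖μ‖ ≤ r := by
    have h3 : 0 < t * x e.fst e.snd := mul_pos ht0 (hxe e)
    nlinarith
  have h4 : (‖μ‖₊ : ℝ≥0∞) = ENNReal.ofReal ‖μ‖ := by
    rw [ofReal_norm, enorm_eq_nnnorm]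
  rw [h4]
  exact ENNReal.ofReal_le_ofReal h2

lemma K4minus_inClass : InClass K4minus := by
  refine ⟨?_, by decide, by decide⟩
  rw [SimpleGraph.connected_iff]
  refine ⟨?_, ⟨0⟩⟩
  intro u v
  have h : ∀ u : Fin 4, K4minus.Reachable u 2 := by
    intro u
    by_cases hu : u = 2
    · rw [hu]
    · exact SimpleGraph.Adj.reachable (by revert hu; revert u; decide)
  exact (h u).trans (h v).symm

lemma rho_K4minus_le {r a L : ℝ} (hc : Consts r a L) : rho K4minus ≤ ENNReal.ofReal r := by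
  have hr : 0 < r := by linarith [hc.r_lo]
  refine rho_le K4minus r (fun u v => if v = 0 ∨ v = 1 then 1 else if u = 0 ∨ u = 1 then r
    else 2 / r) ?_ ?_
  · intro u v _
    split_ifs
    · exact one_pos
    · exact hr
    · positivity
  · have hN : ∀ u v : Fin 4, K4minus.Adj u v → ((K4minus.neighborFinset v).erase u)
        = if v = 0 ∨ v = 1 then (if u = 2 then {3} else {2})
          else if u = 0 then (if v = 2 then {1, 3} else {1, 2})
          else if u = 1 then (if v = 2 then {0, 3} else {0, 2})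
          else {0, 1} := by decide
    intro u v huv
    rw [hN u v huv]
    have h3 := hc.r_eq
    have hrr : r * (2 / r) = 2 := by field_simp
    have hr2 : 1 + 2 / r = r * r := by
      field_simp
      nlinarith
    fin_cases u <;> fin_cases v <;> first | (exfalso; revert huv; decide) | skip
    all_goals simp
    all_goals first | linarith | skip

end Pool.Agent.R3.Cover
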