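import Mathlib
import Pool.Agent.R47.OddCyc

/-! Odd cycles as sets of edges: basic facts used for flower decompositions. -/

set_option autoImplicit false

namespace Pool.Agent.R3.Flow

open SimpleGraph

variable {V : Type*} (G : SimpleGraph V)

/-- The edge sets of the odd cycles of `G`. -/
def oddCycles : Set (Set (Sym2 V)) :=
  {C | ∃ (v : V) (w : G.Walk v v), w.IsCycle ∧ Odd w.length ∧ C = {e | e ∈ w.edges}}

/-- The vertices of a set of edges. -/
def cv (C : Set (Sym2 V)) : Set V := {v | ∃ e ∈ C, v ∈ e}

variable {G} {C : Set (Sym2 V)}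

lemma adj_of_mem (hC : C ∈ oddCycles G) {a b : V} (h : s(a, b) ∈ C) : G.Adj a b := by
  obtain ⟨v, w, -, -, rfl⟩ := hC
  exact w.adj_of_mem_edges h

lemma cv_left {a b : V} (h : s(a, b) ∈ C) : a ∈ cv C := ⟨_, h, Sym2.mem_mk_left a b⟩

lemma cv_right {a b : V} (h : s(a, b) ∈ C) : b ∈ cv C := ⟨_, h, Sym2.mem_mk_right a b⟩

lemma loop_notMem (hC : C ∈ oddCycles G) (a : V) : s(a, a) ∉ C := fun h =>
  (adj_of_mem hC h).ne rfl

/-- a cycle walk starting at any vertex -/
lemma exists_walk (hC : C ∈ oddCycles G) {p : V} (hp : p ∈ cv C) :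
    ∃ w : G.Walk p p, w.IsCycle ∧ Odd w.length ∧ ∀ e, e ∈ w.edges ↔ e ∈ C := by
  classical
  obtain ⟨v, w, h1, h2, rfl⟩ := hC
  obtain ⟨e, he, hpe⟩ := hp
  have hps : p ∈ w.support := by
    induction e with
    | _ a b =>
      rcases Sym2.mem_iff.1 hpe with rfl | rfl
      · exact w.fst_mem_support_of_mem_edges he
      · exact w.snd_mem_support_of_mem_edges he
  refine ⟨w.rotate p hps, h1.rotate hps, by rw [Walk.length_rotate]; exact h2, fun e => ?_⟩
  exact (w.rotate_edges p hps).mem_iff

lemma mem_support_iff {p : V} (w : G.Walk p p) (hw : w.IsCycle) (he : ∀ e, e ∈ w.edges ↔ e ∈ C)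
    (q : V) : q ∈ w.support ↔ q ∈ cv C := by
  constructor
  · intro h
    rw [← w.mem_verts_toSubgraph] at h
    have h2 := hw.ncard_neighborSet_toSubgraph_eq_two (w.mem_verts_toSubgraph.1 h)
    have h3 : (w.toSubgraph.neighborSet q).Nonempty := by
      rw [Set.nonempty_iff_ne_empty]
      intro h0
      rw [h0] at h2
      simp at h2
    obtain ⟨z, hz⟩ := h3
    have hz' : w.toSubgraph.Adj q z := hz
    have : s(q, z) ∈ w.edges := by
      rw [← Walk.mem_edges_toSubgraph]
      exact hz'
    exact cv_left ((he _).1 this)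
  · rintro ⟨e, h1, h2⟩
    rw [← he] at h1
    induction e with
    | _ a b =>
      rcases Sym2.mem_iff.1 h2 with rfl | rfl
      · exact w.fst_mem_support_of_mem_edges h1
      · exact w.snd_mem_support_of_mem_edges h1

/-- Two vertices of an odd cycle are joined by an even walk in the cycle which avoids an edge. -/
lemma even_arc (hC : C ∈ oddCycles G) {p q : V} (hp : p ∈ cv C) (hq : q ∈ cv C) :
    ∃ e ∈ C, ∃ w : G.Walk p q, Even w.length ∧ ∀ e' ∈ w.edges, e' ∈ C ∧ e' ≠ e := by
  classical
  obtain ⟨w, h1, h2, h3⟩ := exists_walk hC hp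
  have hqs : q ∈ w.support := (mem_support_iff w h1 h3 q).2 hq
  have hsplit := w.take_spec hqs
  have hlen : (w.takeUntil q hqs).length + (w.dropUntil q hqs).length = w.length := by
    rw [← Walk.length_append, hsplit]
  have hed : (w.takeUntil q hqs).edges ++ (w.dropUntil q hqs).edges = w.edges := by
    rw [← Walk.edges_append, hsplit]
  have hnd : ((w.takeUntil q hqs).edges ++ (w.dropUntil q hqs).edges).Nodup := by
    rw [hed]; exact h1.isTrail.edges_nodup
  have hdis := (List.nodup_append.1 hnd).2.2
  rcases Nat.even_or_odd (w.takeUntil q hqs).length with he | ho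
  · have hodd : Odd (w.dropUntil q hqs).length := by
      rcases Nat.even_or_odd (w.dropUntil q hqs).length with h | h
      · exfalso
        rw [← hlen] at h2
        exact (Nat.not_odd_iff_even.2 (he.add h)) h2
      · exact h
    have hne : (w.dropUntil q hqs).edges ≠ [] := by
      intro h0
      have := congrArg List.length h0
      rw [Walk.length_edges] at this
      simp only [List.length_nil] at this
      rw [this] at hodd
      exact absurd hodd (by decide)
    obtain ⟨e, he'⟩ := List.exists_mem_of_ne_nil _ hne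
    have hmem : ∀ e' ∈ (w.takeUntil q hqs).edges, e' ∈ w.edges := fun e' h => by
      rw [← hed]; exact List.mem_append_left _ h
    refine ⟨e, (h3 e).1 (by rw [← hed]; exact List.mem_append_right _ he'),
      w.takeUntil q hqs, he, fun e' he'' => ⟨(h3 e').1 (hmem e' he''), ?_⟩⟩
    exact fun h => hdis e' he'' e he' h
  · have heven : Even (w.dropUntil q hqs).length := by
      rcases Nat.even_or_odd (w.dropUntil q hqs).length with h | h
      · exact h
      · exfalso
        rw [← hlen] at h2
        exact (Nat.not_odd_iff_even.2 (ho.add_odd h)) h2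
    have hne : (w.takeUntil q hqs).edges ≠ [] := by
      intro h0
      have := congrArg List.length h0
      rw [Walk.length_edges] at this
      simp only [List.length_nil] at this
      rw [this] at ho
      exact absurd ho (by decide)
    obtain ⟨e, he'⟩ := List.exists_mem_of_ne_nil _ hne
    refine ⟨e, (h3 e).1 (by rw [← hed]; exact List.mem_append_left _ he'),
      (w.dropUntil q hqs).reverse, by rw [Walk.length_reverse]; exact heven, fun e' he'' => ?_⟩
    rw [Walk.edges_reverse, List.mem_reverse] at he''
    exact ⟨(h3 e').1 (by rw [← hed]; exact List.mem_append_right _ he''),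
      fun h => hdis e he' e' he'' h.symm⟩

/-- Going round an odd cycle by steps of length two. -/
lemma two_steps (hC : C ∈ oddCycles G) (P : V → Prop)
    (hP : ∀ b o, P b → s(b, o) ∈ C → ∃ x, x ≠ b ∧ s(o, x) ∈ C ∧ P x) {b : V} (hb : b ∈ cv C)
    (hPb : P b) : ∀ v ∈ cv C, P v := by
  have key : ∀ w : G.Walk b b, w.IsCycle → (∀ e, e ∈ w.edges ↔ e ∈ C) →
      ∀ j, 2 * j ≤ w.length → P (w.getVert (2 * j)) := by
    intro w hw he j
    induction j with
    | zero => intro _; simpa using hPb
    | succ j ih =>
      intro hj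
      have h1 := ih (by omega)
      have ha : s(w.getVert (2 * j), w.getVert (2 * j + 1)) ∈ C := by
        rw [← he, ← Walk.mem_edges_toSubgraph]
        exact w.toSubgraph_adj_getVert (by omega)
      obtain ⟨x, hx1, hx2, hx3⟩ := hP _ _ h1 ha
      have hn := hw.neighborSet_toSubgraph_internal (i := 2 * j + 1) (by omega) (by omega)
      have hx4 : x ∈ w.toSubgraph.neighborSet (w.getVert (2 * j + 1)) := by
        rw [← he, ← Walk.mem_edges_toSubgraph] at hx2
        exact hx2
      rw [hn] at hx4
      rcases hx4 with h | h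
      · rw [show 2 * j + 1 - 1 = 2 * j by omega] at h
        exact absurd h hx1
      · rw [Set.mem_singleton_iff] at h
        rw [show 2 * (j + 1) = 2 * j + 1 + 1 by ring, ← h]
        exact hx3
  obtain ⟨w, h1, h2, h3⟩ := exists_walk hC hb
  intro v hv
  rw [← mem_support_iff w h1 h3, Walk.mem_support_iff_exists_getVert] at hv
  obtain ⟨i, rfl, hi⟩ := hv
  rcases Nat.even_or_odd i with he | ho
  · obtain ⟨j, rfl⟩ := he
    have := key w h1 h3 j (by omega)
    rwa [show 2 * j = j + j by ring] at this
  · obtain ⟨a, ha⟩ := h2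
    obtain ⟨c, hc⟩ := ho
    have := key w.reverse h1.reverse (fun e => by
      rw [Walk.edges_reverse, List.mem_reverse]; exact h3 e) (a - c) (by
        rw [Walk.length_reverse]; omega)
    rw [Walk.getVert_reverse] at this
    rwa [show w.length - 2 * (a - c) = i by omega] at this

end Pool.Agent.R3.Flow
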