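import Pool.Agent.R3.Flow1

/-! Matchings as involutions, slides, alternating stems, flower states and their closure. -/

set_option autoImplicit false
set_option linter.unusedSectionVars false

namespace Pool.Agent.R3.Flow

open SimpleGraph

variable {V : Type*} [Fintype V] [DecidableEq V] (G : SimpleGraph V)

/-- a matching as an involution: `f v` is the partner of `v`, or `v` if `v` is not covered -/
structure Inv (f : V → V) : Prop where
  inv : ∀ v, f (f v) = v
  adj : ∀ v, f v ≠ v → G.Adj v (f v)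

/-- maximum matchings: least number of uncovered vertices -/
def Mx (f : V → V) : Prop :=
  Inv G f ∧ ∀ g, Inv G g →
    (Finset.univ.filter fun v => f v = v).card ≤ (Finset.univ.filter fun v => g v = v).card

/-- slide of the uncovered vertex `y` along `o` -/
def slide (f : V → V) (y o : V) : V → V := fun v =>
  if v = y then o else if v = o then y else if v = f o then f o else f v

variable {G}

lemma inv_inj {f : V → V} (hf : Inv G f) : Function.Injective f := fun a b h => by
  rw [← hf.inv a, h, hf.inv b]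

lemma slide_y (f : V → V) (y o : V) : slide f y o y = o := by simp [slide]

lemma slide_o {f : V → V} {y o : V} (h : y ≠ o) : slide f y o o = y := by
  simp [slide, h.symm]

lemma slide_x {f : V → V} {y o : V} (h1 : f o ≠ y) (h2 : f o ≠ o) :
    slide f y o (f o) = f o := by
  simp [slide, h1, h2]

lemma slide_of_ne {f : V → V} {y o v : V} (h1 : v ≠ y) (h2 : v ≠ o) (h3 : v ≠ f o) :
    slide f y o v = f v := by
  simp [slide, h1, h2, h3]

lemma covered {f : V → V} (hf : Mx G f) {y o : V} (hy : f y = y) (ha : G.Adj y o) : f o ≠ o := by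
  intro ho
  have hne : y ≠ o := ha.ne
  set g : V → V := fun v => if v = y then o else if v = o then y else f v with hg
  have hgy : g y = o := by simp [hg]
  have hgo : g o = y := by simp [hg, hne.symm]
  have hgv : ∀ v, v ≠ y → v ≠ o → g v = f v := fun v h1 h2 => by simp [hg, h1, h2]
  have hG : Inv G g := by
    constructor
    · intro v
      by_cases h1 : v = y
      · subst h1; rw [hgy, hgo]
      by_cases h2 : v = o
      · subst h2; rw [hgo, hgy]
      rw [hgv v h1 h2]
      have h3 : f v ≠ y := fun h => h1 (by rw [← hf.1.inv v, h, hy])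
      have h4 : f v ≠ o := fun h => h2 (by rw [← hf.1.inv v, h, ho])
      rw [hgv _ h3 h4, hf.1.inv]
    · intro v hv
      by_cases h1 : v = y
      · subst h1; rw [hgy]; exact ha
      by_cases h2 : v = o
      · subst h2; rw [hgo]; exact ha.symm
      rw [hgv v h1 h2] at hv ⊢
      exact hf.1.adj v hv
  have := hf.2 g hG
  have hlt : (Finset.univ.filter fun v => g v = v).card <
      (Finset.univ.filter fun v => f v = v).card := by
    refine Finset.card_lt_card ⟨fun v hv => ?_, fun h => ?_⟩
    · rw [Finset.mem_filter] at hv ⊢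
      refine ⟨Finset.mem_univ _, ?_⟩
      by_cases h1 : v = y
      · rw [h1]; exact hy
      by_cases h2 : v = o
      · rw [h2]; exact ho
      rw [← hgv v h1 h2]; exact hv.2
    · have h1 : y ∈ Finset.univ.filter fun v => f v = v := by simp [hy]
      have h2 := h h1
      rw [Finset.mem_filter, hgy] at h2
      exact hne h2.2.symm
  omega

lemma slide_mx {f : V → V} (hf : Mx G f) {y o : V} (hy : f y = y) (ha : G.Adj y o) :
    Mx G (slide f y o) ∧ slide f y o (f o) = f o ∧ f o ≠ y ∧ f o ≠ o := by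
  have h1 := covered hf hy ha
  have hne : y ≠ o := ha.ne
  have h2 : f o ≠ y := fun h => hne (by rw [← hy, ← h, hf.1.inv])
  have hox : G.Adj o (f o) := hf.1.adj o h1
  have hx : slide f y o (f o) = f o := slide_x h2 h1
  refine ⟨⟨⟨fun v => ?_, fun v hv => ?_⟩, ?_⟩, hx, h2, h1⟩
  · by_cases c1 : v = y
    · subst c1; rw [slide_y, slide_o hne]
    by_cases c2 : v = o
    · subst c2; rw [slide_o hne, slide_y]
    by_cases c3 : v = f o
    · subst c3; rw [hx, hx]
    rw [slide_of_ne c1 c2 c3]
    have c4 : f v ≠ y := fun h => c1 (by rw [← hf.1.inv v, h, hy])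
    have c5 : f v ≠ o := fun h => c3 (by rw [← hf.1.inv v, h])
    have c6 : f v ≠ f o := fun h => c2 (inv_inj hf.1 h)
    rw [slide_of_ne c4 c5 c6, hf.1.inv]
  · by_cases c1 : v = y
    · subst c1; rw [slide_y]; exact ha
    by_cases c2 : v = o
    · subst c2; rw [slide_o hne]; exact ha.symm
    by_cases c3 : v = f o
    · subst c3; exact absurd hx hv
    rw [slide_of_ne c1 c2 c3] at hv ⊢
    exact hf.1.adj v hv
  · intro g hg
    refine le_trans (le_of_eq ?_) (hf.2 g hg)
    have e1 : (Finset.univ.filter fun v => slide f y o v = v) =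
        insert (f o) ((Finset.univ.filter fun v => f v = v).erase y) := by
      ext v
      simp only [Finset.mem_filter, Finset.mem_univ, true_and, Finset.mem_insert,
        Finset.mem_erase]
      by_cases c3 : v = f o
      · subst c3; simp [hx]
      by_cases c1 : v = y
      · subst c1; rw [slide_y]; simp [hne.symm, c3]
      by_cases c2 : v = o
      · subst c2; rw [slide_o hne]; simp [hne, c3, h1]
      rw [slide_of_ne c1 c2 c3]
      simp [c3, c1]
    rw [e1, Finset.card_insert_of_notMem, Finset.card_erase_add_one]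
    · simp [hy]
    · simp only [Finset.mem_erase, Finset.mem_filter, Finset.mem_univ, true_and, not_and]
      intro _ h
      rw [hf.1.inv] at h
      exact h1 h.symm

variable (G)

/-- alternating paths `y, o, f o, …, b`, whose first edge is not in the matching -/
inductive Alt (f : V → V) : V → V → List V → Prop
  | nil (b : V) : Alt f b b [b]
  | cons {y o b : V} {Q : List V} (ha : G.Adj y o) (hy : y ∉ Q) (ho : o ∉ Q) (hne : f o ≠ o)
      (hQ : Alt f (f o) b Q) : Alt f y b (y :: o :: Q)

variable {G}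

lemma Alt.start_mem {f : V → V} {y b : V} {Q : List V} (h : Alt G f y b Q) : y ∈ Q := by
  cases h <;> simp

lemma Alt.end_mem {f : V → V} {y b : V} {Q : List V} (h : Alt G f y b Q) : b ∈ Q := by
  induction h with
  | nil b => simp
  | cons _ _ _ _ _ ih => simp [ih]

lemma Alt.congr {f g : V → V} {y b : V} {Q : List V} (h : Alt G f y b Q)
    (hfg : ∀ v ∈ Q, v ≠ y → g v = f v) : Alt G g y b Q := by
  induction h with
  | nil b => exact Alt.nil b
  | @cons y o b Q ha hy ho hne hQ ih =>
    have h1 : g o = f o := hfg o (by simp) ha.ne'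
    rw [← h1] at hQ hne
    refine Alt.cons ha hy ho hne ?_
    rw [h1]
    refine ih fun v hv hv2 => hfg v (by simp [hv]) fun h => hy (h ▸ hv)

lemma Alt.closed {f : V → V} (hf : ∀ v, f (f v) = v) {y b : V} {Q : List V}
    (h : Alt G f y b Q) : ∀ v ∈ Q, v ≠ y → f v ∈ Q := by
  induction h with
  | nil b => intro v hv hne; exact absurd (by simpa using hv) hne
  | @cons y o b Q ha hy ho hne hQ ih =>
    intro v hv hvy
    rcases List.mem_cons.1 hv with h1 | h1
    · exact absurd h1 hvy
    rcases List.mem_cons.1 h1 with h2 | h2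
    · rw [h2]; simp [hQ.start_mem]
    · by_cases h3 : v = f o
      · rw [h3, hf]; simp
      · have := ih v h2 h3
        simp [this]

/-- a vertex of a stem is in an even or in an odd position -/
lemma Alt.split {f : V → V} {y b : V} {Q : List V} (h : Alt G f y b Q) :
    ∀ v ∈ Q, (∃ Q2, Alt G f v b Q2 ∧ Q2 ⊆ Q) ∨
      (∃ Q2, Alt G f (f v) b Q2 ∧ Q2 ⊆ Q ∧ y ∉ Q2 ∧ v ∉ Q2 ∧ f v ≠ v) := by
  induction h with
  | nil b =>
    intro v hv
    have : v = b := by simpa using hv
    subst this
    exact Or.inl ⟨[v], Alt.nil v, fun _ h => h⟩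
  | @cons y o b Q ha hy ho hne hQ ih =>
    intro v hv
    rcases List.mem_cons.1 hv with h1 | h1
    · subst h1
      exact Or.inl ⟨_, Alt.cons ha hy ho hne hQ, fun _ h => h⟩
    rcases List.mem_cons.1 h1 with h2 | h2
    · subst h2
      exact Or.inr ⟨Q, hQ, fun w hw => by simp [hw], hy, ho, hne⟩
    · rcases ih v h2 with ⟨Q2, h3, h4⟩ | ⟨Q2, h3, h4, h5, h6, h7⟩
      · exact Or.inl ⟨Q2, h3, fun w hw => by simp [h4 hw]⟩
      · exact Or.inr ⟨Q2, h3, fun w hw => by simp [h4 hw], fun h => hy (h4 h), h6, h7⟩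

/-- `b` is the base of the blossom `C` -/
def Bl (C : Set (Sym2 V)) (f : V → V) (b : V) : Prop :=
  (∀ v ∈ cv C, v ≠ b → s(v, f v) ∈ C) ∧ s(b, f b) ∉ C

variable (G)

/-- a flower with blossom `C`, stem `Q` from the uncovered vertex `y` to the base `b` -/
structure Fl (C : Set (Sym2 V)) (f : V → V) (y b : V) (Q : List V) : Prop where
  mx : Mx G f
  unc : f y = y
  alt : Alt G f y b Q
  meet : ∀ v ∈ Q, v ∈ cv C → v = b
  base : b ∈ cv C
  bl : Bl C f b

/-- flower states -/
def FS (C : Set (Sym2 V)) (f : V → V) (y : V) : Prop := ∃ b Q, Fl G C f y b Q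

/-- the reach set -/
def RR (C : Set (Sym2 V)) : Set V := {v | ∃ f y b Q, Fl G C f y b Q ∧ (v ∈ Q ∨ v ∈ cv C)}

/-- the even vertices -/
def EE (C : Set (Sym2 V)) : Set V := {y | ∃ f, FS G C f y}

/-- the odd vertices outside `C` -/
def OO (C : Set (Sym2 V)) : Set V := {o | o ∉ cv C ∧ ∃ y ∈ EE G C, G.Adj y o}

/-- the graph induced by `R`, without the edge `e` -/
def Ge (R : Set V) (e : Sym2 V) : SimpleGraph V where
  Adj v w := G.Adj v w ∧ v ∈ R ∧ w ∈ R ∧ s(v, w) ≠ e
  symm := ⟨fun v w h => ⟨h.1.symm, h.2.2.1, h.2.1, by rw [Sym2.eq_swap]; exact h.2.2.2⟩⟩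
  loopless := ⟨fun v h => h.1.ne rfl⟩

variable {G}

/-- The standing assumption: other odd cycles do not meet the reach set of `C`. -/
structure Ctx (G : SimpleGraph V) (C : Set (Sym2 V)) : Prop where
  hC : C ∈ oddCycles G
  dis : ∀ C' ∈ oddCycles G, C' ≠ C → ∀ v ∈ cv C', v ∉ RR G C

lemma colour {C : Set (Sym2 V)} (X : Ctx G C) {e : Sym2 V} (he : e ∈ C) :
    Nonempty ((Ge G (RR G C) e).Coloring Bool) := by
  have h2 : (Ge G (RR G C) e).Colorable 2 := by
    by_contra hcon
    obtain ⟨v, p, hp, ho⟩ := Pool.Agent.R47.OddCyc.exists_odd_cycle _ hcon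
    have hle : Ge G (RR G C) e ≤ G := fun a b h => h.1
    set C' : Set (Sym2 V) := {x | x ∈ (p.mapLe hle).edges} with hC'
    have hC'1 : C' ∈ oddCycles G := ⟨v, p.mapLe hle, hp.mapLe hle, by
      rw [Walk.mapLe, Walk.length_map]; exact ho, rfl⟩
    have hedge : ∀ x, x ∈ C' ↔ x ∈ p.edges := fun x => by
      rw [hC', Set.mem_ofPred_eq, Walk.edges_mapLe_eq_edges]
    have hin : ∀ x ∈ p.edges, x ≠ e ∧ ∀ w ∈ x, w ∈ RR G C := by
      intro x hx
      have := p.edges_subset_edgeSet hx
      induction x with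
      | _ a b =>
        have h3 : (Ge G (RR G C) e).Adj a b := this
        refine ⟨h3.2.2.2, fun w hw => ?_⟩
        rcases Sym2.mem_iff.1 hw with rfl | rfl
        · exact h3.2.1
        · exact h3.2.2.1
    by_cases hCC : C' = C
    · rw [← hCC, hedge] at he
      exact (hin e he).1 rfl
    · have hne : p.edges ≠ [] := by
        intro h0
        have := congrArg List.length h0
        rw [Walk.length_edges] at this
        simp only [List.length_nil] at this
        rw [this] at ho
        exact absurd ho (by decide)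
      obtain ⟨x, hx⟩ := List.exists_mem_of_ne_nil _ hne
      have hx2 := hin x hx
      induction x with
      | _ a b =>
        exact X.dis C' hC'1 hCC a (cv_left ((hedge _).2 hx)) (hx2.2 a (Sym2.mem_mk_left a b))
  obtain ⟨c⟩ := h2
  exact ⟨(recolorOfEquiv _ finTwoEquiv) c⟩

/-- `v` has the same colour as a vertex of the cycle -/
def Ev (G : SimpleGraph V) (C : Set (Sym2 V)) (v : V) : Prop :=
  v ∈ RR G C ∧ ∃ b ∈ cv C, ∀ e ∈ C, ∀ c : (Ge G (RR G C) e).Coloring Bool, c v = c b

lemma par {C : Set (Sym2 V)} (X : Ctx G C) (hsub : cv C ⊆ RR G C) {v w : V} (hv : Ev G C v)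
    (hw : Ev G C w) (ha : G.Adj v w) : s(v, w) ∈ C := by
  obtain ⟨hvR, b1, hb1, h1⟩ := hv
  obtain ⟨hwR, b2, hb2, h2⟩ := hw
  obtain ⟨e, he, p, hp1, hp2⟩ := even_arc X.hC hb1 hb2
  obtain ⟨c⟩ := colour X he
  have hpe : ∀ e' ∈ p.edges, e' ∈ (Ge G (RR G C) e).edgeSet := by
    intro e' he'
    have h3 := hp2 e' he'
    induction e' with
    | _ a b =>
      exact ⟨adj_of_mem X.hC h3.1, hsub (cv_left h3.1), hsub (cv_right h3.1), h3.2⟩
  have h4 := c.even_length_iff_congr (p.transfer _ hpe)
  rw [Walk.length_transfer] at h4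
  have h5 : c b1 = c b2 := by
    have := h4.1 hp1
    rw [Bool.eq_iff_iff]; exact this
  by_contra hne
  have h6 : (Ge G (RR G C) e).Adj v w := ⟨ha, hvR, hwR, fun h => hne (h ▸ he)⟩
  exact c.valid h6 (by rw [h1 e he c, h2 e he c, h5])

lemma ev_of_alt {C : Set (Sym2 V)} {f : V → V} (hf : Inv G f) {y b : V} {Q : List V}
    (h : Alt G f y b Q) (hR : ∀ v ∈ Q, v ∈ RR G C) (hm : ∀ v ∈ Q, v ∈ cv C → v = b)
    (hb : b ∈ cv C) : Ev G C y := by
  refine ⟨hR y h.start_mem, b, hb, fun e he c => ?_⟩
  induction h with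
  | nil b => rfl
  | @cons y o b Q ha hy ho hne hQ ih =>
    have h1 := ih (fun v hv => hR v (by simp [hv])) (fun v hv => hm v (by simp [hv])) hb
    have hbQ := hQ.end_mem
    have ho' : o ∉ cv C := fun h => ho (by rw [hm o (by simp) h]; exact hbQ)
    have hA1 : (Ge G (RR G C) e).Adj y o :=
      ⟨ha, hR y (by simp), hR o (by simp), fun h => ho' (cv_right (h ▸ he))⟩
    have hA2 : (Ge G (RR G C) e).Adj o (f o) :=
      ⟨hf.adj o hne, hR o (by simp), hR _ (by simp [hQ.start_mem]),
        fun h => ho' (cv_left (h ▸ he))⟩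
    have v1 := c.valid hA1
    have v2 := c.valid hA2
    rw [← h1]
    cases hc1 : c y <;> cases hc2 : c o <;> cases hc3 : c (f o) <;> simp_all

lemma cv_sub {C : Set (Sym2 V)} (hne : (RR G C).Nonempty) : cv C ⊆ RR G C := by
  obtain ⟨v, f, y, b, Q, h, -⟩ := hne
  exact fun w hw => ⟨f, y, b, Q, h, Or.inr hw⟩

/-- closure of the flower states under slides -/
lemma close {C : Set (Sym2 V)} (X : Ctx G C) {f : V → V} {y o : V} (h : FS G C f y)
    (ha : G.Adj y o) : FS G C (slide f y o) (f o) ∧ o ∈ RR G C := by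
  obtain ⟨b, Q, F⟩ := h
  have hRQ : ∀ v ∈ Q, v ∈ RR G C := fun v hv => ⟨f, y, b, Q, F, Or.inl hv⟩
  have hsub : cv C ⊆ RR G C := fun v hv => ⟨f, y, b, Q, F, Or.inr hv⟩
  obtain ⟨m1, m2, m3, m4⟩ := slide_mx F.mx F.unc ha
  have hyo : y ≠ o := ha.ne
  have hfx : f (f o) = o := F.mx.1.inv o
  by_cases hoC : o ∈ cv C
  · -- then `y = b` and `o` is a neighbour of `b` on the cycle
    have hEy := ev_of_alt F.mx.1 F.alt hRQ F.meet F.base
    have hEo : Ev G C o := ⟨hsub hoC, o, hoC, fun _ _ _ => rfl⟩
    have hyoC := par X hsub hEy hEo ha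
    have hyb : y = b := F.meet y F.alt.start_mem (cv_left hyoC)
    subst hyb
    have hox := F.bl.1 o hoC hyo.symm
    refine ⟨⟨f o, [f o], m1, m2, Alt.nil _, fun v hv _ => by simpa using hv, cv_right hox, ?_, ?_⟩,
      hsub hoC⟩
    · intro v hv hvx
      by_cases c1 : v = y
      · subst c1; rw [slide_y]; exact hyoC
      by_cases c2 : v = o
      · subst c2; rw [slide_o hyo, Sym2.eq_swap]; exact hyoC
      rw [slide_of_ne c1 c2 hvx]
      exact F.bl.1 v hv c1
    · rw [m2]; exact loop_notMem X.hC _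
  by_cases hoQ : o ∈ Q
  · rcases F.alt.split o hoQ with ⟨Q2, h1, h2⟩ | ⟨Q2, h1, h2, h3, h4, h5⟩
    · exfalso
      have hEy := ev_of_alt F.mx.1 F.alt hRQ F.meet F.base
      have hEo := ev_of_alt F.mx.1 h1 (fun v hv => hRQ v (h2 hv)) (fun v hv => F.meet v (h2 hv))
        F.base
      exact hoC (cv_right (par X hsub hEy hEo ha))
    · refine ⟨⟨b, Q2, m1, m2, h1.congr ?_, fun v hv => F.meet v (h2 hv), F.base, ?_, ?_⟩,
        hRQ o hoQ⟩
      · intro v hv hvx
        exact slide_of_ne (fun h => h3 (h ▸ hv)) (fun h => h4 (h ▸ hv)) hvx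
      · intro v hv hvb
        have c1 : v ≠ y := fun h => hvb (F.meet v (h ▸ F.alt.start_mem) hv)
        have c2 : v ≠ o := fun h => hoC (h ▸ hv)
        have c3 : v ≠ f o := fun h => hvb (F.meet v (h ▸ h2 h1.start_mem) hv)
        rw [slide_of_ne c1 c2 c3]
        exact F.bl.1 v hv hvb
      · have hb2 := h1.end_mem
        by_cases c3 : b = f o
        · rw [c3, m2]; exact loop_notMem X.hC _
        have c1 : b ≠ y := fun h => h3 (h ▸ hb2)
        have c2 : b ≠ o := fun h => h4 (h ▸ hb2)
        rw [slide_of_ne c1 c2 c3]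
        exact F.bl.2
  · -- a new, longer stem
    have hxQ : f o ∉ Q := by
      intro h
      have := F.alt.closed F.mx.1.inv _ h m3
      rw [hfx] at this
      exact hoQ this
    have hxC : f o ∉ cv C := by
      intro h
      have hxb : f o ≠ b := fun h' => hxQ (h' ▸ F.alt.end_mem)
      have := F.bl.1 _ h hxb
      rw [hfx] at this
      exact hoC (cv_right this)
    have hbQ := F.alt.end_mem
    have hFl : Fl G C (slide f y o) (f o) b (f o :: o :: Q) := by
      refine ⟨m1, m2, ?_, ?_, F.base, ?_, ?_⟩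
      · have hs : slide f y o o = y := slide_o hyo
        refine Alt.cons (F.mx.1.adj o m4).symm hxQ hoQ (by rw [hs]; exact hyo) ?_
        rw [hs]
        refine F.alt.congr fun v hv hvy => ?_
        exact slide_of_ne hvy (fun h => hoQ (h ▸ hv)) (fun h => hxQ (h ▸ hv))
      · intro v hv hvC
        rcases List.mem_cons.1 hv with h1 | h1
        · exact absurd (h1 ▸ hvC) hxC
        rcases List.mem_cons.1 h1 with h2 | h2
        · exact absurd (h2 ▸ hvC) hoC
        · exact F.meet v h2 hvC
      · intro v hv hvb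
        have c1 : v ≠ y := fun h => hvb (F.meet v (h ▸ F.alt.start_mem) hv)
        have c2 : v ≠ o := fun h => hoC (h ▸ hv)
        have c3 : v ≠ f o := fun h => hxC (h ▸ hv)
        rw [slide_of_ne c1 c2 c3]
        exact F.bl.1 v hv hvb
      · by_cases c1 : b = y
        · rw [c1, slide_y]
          exact fun h => hoC (cv_right h)
        have c2 : b ≠ o := fun h => hoQ (h ▸ hbQ)
        have c3 : b ≠ f o := fun h => hxQ (h ▸ hbQ)
        rw [slide_of_ne c1 c2 c3]
        exact F.bl.2
    exact ⟨⟨b, _, hFl⟩, ⟨_, _, _, _, hFl, Or.inl (by simp)⟩⟩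

end Pool.Agent.R3.Flow
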