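import Pool.Agent.R3.Flow2

/-! The structure of a reach set. -/

set_option autoImplicit false
set_option linter.unusedSectionVars false

namespace Pool.Agent.R3.Flow

open SimpleGraph
open scoped Classical

variable {V : Type*} [Fintype V] {G : SimpleGraph V} {C : Set (Sym2 V)}

lemma Fl.tail (hC : C ∈ oddCycles G) {f : V → V} {y o b : V} {Q : List V}
    (F : Fl G C f y b (y :: o :: Q)) :
    G.Adj y o ∧ Fl G C (slide f y o) (f o) b Q := by
  have halt := F.alt
  cases halt with
  | cons ha hy ho hne hQ =>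
  obtain ⟨m1, m2, m3, m4⟩ := slide_mx F.mx F.unc ha
  have hb2 := hQ.end_mem
  have hyC : ∀ v ∈ cv C, v ≠ b → v ≠ y := fun v hv hvb h => hvb (F.meet v (h ▸ by simp) hv)
  have hoC : ∀ v ∈ cv C, v ≠ b → v ≠ o := fun v hv hvb h => hvb (F.meet v (h ▸ by simp) hv)
  have hxC : ∀ v ∈ cv C, v ≠ b → v ≠ f o := fun v hv hvb h =>
    hvb (F.meet v (h ▸ by simp [hQ.start_mem]) hv)
  refine ⟨ha, m1, m2, hQ.congr ?_, fun v hv => F.meet v (by simp [hv]), F.base, ?_, ?_⟩
  · intro v hv hvx
    exact slide_of_ne (fun h => hy (h ▸ hv)) (fun h => ho (h ▸ hv)) hvx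
  · intro v hv hvb
    rw [slide_of_ne (hyC v hv hvb) (hoC v hv hvb) (hxC v hv hvb)]
    exact F.bl.1 v hv hvb
  · by_cases c3 : b = f o
    · rw [c3, m2]; exact loop_notMem hC _
    have c1 : b ≠ y := fun h => hy (h ▸ hb2)
    have c2 : b ≠ o := fun h => ho (h ▸ hb2)
    rw [slide_of_ne c1 c2 c3]
    exact F.bl.2

lemma stem_mem (hC : C ∈ oddCycles G) : ∀ (n : ℕ) (Q : List V) (f : V → V) (y b : V),
    Q.length ≤ n → Fl G C f y b Q →
    b ∈ EE G C ∧ ∀ v ∈ Q, v ∈ EE G C ∨ ∃ y' ∈ EE G C, G.Adj y' v := by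
  intro n
  induction n with
  | zero =>
    intro Q f y b hn F
    have := F.alt.start_mem
    rw [List.length_eq_zero_iff.1 (Nat.le_zero.1 hn)] at this
    simp at this
  | succ n ih =>
    intro Q f y b hn F
    have hyE : y ∈ EE G C := ⟨f, b, Q, F⟩
    have halt := F.alt
    cases halt with
    | nil =>
      refine ⟨hyE, fun v hv => Or.inl ?_⟩
      have : v = y := by simpa using hv
      rw [this]; exact hyE
    | @cons _ o _ Q ha hy ho hne hQ =>
      obtain ⟨ha, F2⟩ := F.tail hC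
      obtain ⟨h1, h2⟩ := ih Q _ _ _ (by simp only [List.length_cons] at hn; omega) F2
      refine ⟨h1, fun v hv => ?_⟩
      rcases List.mem_cons.1 hv with h3 | h3
      · rw [h3]; exact Or.inl hyE
      rcases List.mem_cons.1 h3 with h4 | h4
      · rw [h4]; exact Or.inr ⟨y, hyE, ha⟩
      · exact h2 v h4

lemma EE_sub : EE G C ⊆ RR G C := by
  rintro y ⟨f, b, Q, F⟩
  exact ⟨f, y, b, Q, F, Or.inl F.alt.start_mem⟩

lemma OO_sub (X : Ctx G C) : OO G C ⊆ RR G C := by
  rintro o ⟨-, y, ⟨f, hf⟩, ha⟩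
  exact (close X hf ha).2

lemma cv_sub_EE (X : Ctx G C) (hne : (RR G C).Nonempty) : cv C ⊆ EE G C := by
  obtain ⟨v, f, y, b, Q, F, -⟩ := hne
  have hb := (stem_mem X.hC Q.length Q f y b le_rfl F).1
  have := two_steps X.hC (fun v => v ∈ EE G C) (fun b o hb hbo => ?_) F.base hb
  · exact this
  obtain ⟨f', hf'⟩ := hb
  have ha := adj_of_mem X.hC hbo
  obtain ⟨b', Q', F'⟩ := hf'
  have hbb : b = b' := F'.meet b F'.alt.start_mem (cv_left hbo)
  subst hbb
  refine ⟨f' o, (slide_mx F'.mx F'.unc ha).2.2.1, F'.bl.1 o (cv_right hbo) ha.ne', ?_⟩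
  exact ⟨_, (close X ⟨_, _, F'⟩ ha).1⟩

lemma ev_of_EE {y : V} (hy : y ∈ EE G C) : Ev G C y := by
  obtain ⟨f, b, Q, F⟩ := hy
  exact ev_of_alt F.mx.1 F.alt (fun v hv => ⟨f, y, b, Q, F, Or.inl hv⟩) F.meet F.base

lemma par' (X : Ctx G C) (hne : (RR G C).Nonempty) {v w : V} (hv : v ∈ EE G C)
    (hw : w ∈ EE G C) (ha : G.Adj v w) : s(v, w) ∈ C :=
  par X (cv_sub hne) (ev_of_EE hv) (ev_of_EE hw) ha

lemma OO_EE (X : Ctx G C) (hne : (RR G C).Nonempty) {o : V} (ho : o ∈ OO G C) :
    o ∉ EE G C := by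
  intro hE
  obtain ⟨h1, y, hy, ha⟩ := ho
  exact h1 (cv_right (par' X hne hy hE ha))

/-- a start state: `g` leaves the base `b` of the blossom `C` uncovered -/
structure SS (G : SimpleGraph V) (C : Set (Sym2 V)) (g : V → V) (b : V) : Prop where
  mx : Mx G g
  unc : g b = b
  base : b ∈ cv C
  bl : ∀ v ∈ cv C, v ≠ b → s(v, g v) ∈ C

lemma SS.fs (hC : C ∈ oddCycles G) {g : V → V} {b : V} (h : SS G C g b) : FS G C g b :=
  ⟨b, [b], h.mx, h.unc, Alt.nil b, fun v hv _ => by simpa using hv, h.base, h.bl, by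
    rw [h.unc]; exact loop_notMem hC _⟩

lemma SS.pres {g : V → V} {b : V} (h : SS G C g b) {v : V} : g v ∈ cv C ↔ v ∈ cv C := by
  have key : ∀ v, v ∈ cv C → g v ∈ cv C := by
    intro v hv
    by_cases hvb : v = b
    · rw [hvb, h.unc]; exact h.base
    · exact cv_right (h.bl v hv hvb)
  refine ⟨fun hv => ?_, key v⟩
  have := key _ hv
  rwa [h.mx.1.inv] at this

lemma walk (X : Ctx G C) (hne : (RR G C).Nonempty) {g : V → V} {b : V} (hg : SS G C g b) :
    ∀ (n : ℕ) (f : V → V) (y : V), (Finset.univ.filter fun v => f v ≠ g v).card ≤ n →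
      FS G C f y → (∀ v ∈ cv C, v ≠ b → f v = g v) →
      ∃ h : V → V, Mx G h ∧ h y = y ∧ (∀ v, h v = f v ∨ h v = g v) ∧
        (∀ v ∈ cv C, v ≠ b → h v = g v) ∧
        (∀ v ∈ OO G C, h v = g v ∨ (h v ∈ EE G C ∧ g v ∈ EE G C)) ∧
        (h b = b ∨ FS G C h y) := by
  intro n
  induction n with
  | zero =>
    intro f y hn hF hfg
    have hfg' : f = g := by
      funext v
      by_contra hcon
      have : v ∈ Finset.univ.filter fun v => f v ≠ g v := by simp [hcon]
      rw [Finset.card_eq_zero.1 (Nat.le_zero.1 hn)] at this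
      simp at this
    subst hfg'
    obtain ⟨b', Q, F⟩ := hF
    exact ⟨f, F.mx, F.unc, fun v => Or.inl rfl, fun v _ _ => rfl, fun v _ => Or.inl rfl,
      Or.inl hg.unc⟩
  | succ n ih =>
    intro f y hn hF hfg
    by_cases hgy : g y = y
    · exact ⟨g, hg.mx, hgy, fun v => Or.inr rfl, fun v _ _ => rfl, fun v _ => Or.inl rfl,
        Or.inl hg.unc⟩
    have hfy : f y = y := by obtain ⟨b', Q, F⟩ := hF; exact F.unc
    have hfm : Mx G f := by obtain ⟨b', Q, F⟩ := hF; exact F.mx
    have hyE : y ∈ EE G C := ⟨f, hF⟩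
    have hyb : y ≠ b := fun h => hgy (by rw [h, hg.unc])
    have hyC : y ∉ cv C := fun h => hgy (by rw [← hfg y h hyb, hfy])
    obtain ⟨z, hz⟩ : ∃ z, z = g y := ⟨_, rfl⟩
    have hyz : G.Adj y z := by rw [hz]; exact hg.mx.1.adj y hgy
    have hgz : g z = y := by rw [hz, hg.mx.1.inv]
    have hzC : z ∉ cv C := fun h => hyC (by rw [← hgz]; exact hg.pres.2 h)
    have hzO : z ∈ OO G C := ⟨hzC, y, hyE, hyz⟩
    have hzE := OO_EE X hne hzO
    obtain ⟨m1, m2, m3, m4⟩ := slide_mx hfm hfy hyz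
    obtain ⟨hF1, -⟩ := close X hF hyz
    set x := f z with hx
    have hxE : x ∈ EE G C := ⟨_, hF1⟩
    have hxC : ∀ v ∈ cv C, v ≠ b → v ≠ x := by
      intro v hv hvb h
      have h1 := hfg v hv hvb
      have h2 : f v = z := by rw [h, hx, hfm.1.inv]
      have h3 := hg.pres.2 hv
      rw [← h1, h2] at h3
      exact hzC h3
    have hyz' : y ≠ z := hyz.ne
    have hfg1 : ∀ v ∈ cv C, v ≠ b → slide f y z v = g v := by
      intro v hv hvb
      have e1 : v ≠ y := fun h => hyC (h ▸ hv)
      have e2 : v ≠ z := fun h => hzC (h ▸ hv)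
      rw [slide_of_ne e1 e2 (hxC v hv hvb)]
      exact hfg v hv hvb
    have hcard : (Finset.univ.filter fun v => slide f y z v ≠ g v).card ≤ n := by
      have hlt : (Finset.univ.filter fun v => slide f y z v ≠ g v).card <
          (Finset.univ.filter fun v => f v ≠ g v).card := by
        refine Finset.card_lt_card ⟨fun v hv => ?_, fun h => ?_⟩
        · rw [Finset.mem_filter] at hv ⊢
          refine ⟨Finset.mem_univ _, ?_⟩
          by_cases c1 : v = y
          · rw [c1, hfy]; exact fun h => hgy h.symm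
          by_cases c2 : v = z
          · exfalso
            apply hv.2
            rw [c2, slide_o hyz', hgz]
          by_cases c3 : v = f z
          · rw [c3, hfm.1.inv]
            intro h
            have : f z = y := by
              rw [← hgz]; nth_rewrite 2 [h]; rw [hg.mx.1.inv]
            exact m3 this
          · have h2 := hv.2
            rwa [slide_of_ne c1 c2 c3] at h2
        · have h1 : y ∈ Finset.univ.filter fun v => f v ≠ g v := by
            simp only [Finset.mem_filter, Finset.mem_univ, true_and]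
            rw [hfy]; exact fun h => hgy h.symm
          have h2 := h h1
          rw [Finset.mem_filter, slide_y] at h2
          exact h2.2 hz
      omega
    obtain ⟨h, k1, k2, k3, k4, k5, k6⟩ := ih (slide f y z) x hcard hF1 hfg1
    have hhz : h z = y := by
      rcases k3 z with h1 | h1
      · rw [h1, slide_o hyz']
      · rw [h1, hgz]
    have hxz : G.Adj x z := (hfm.1.adj z m4).symm
    obtain ⟨q1, q2, q3, q4⟩ := slide_mx k1 k2 hxz
    rw [hhz] at q2 q3 q4
    have hsx : slide h x z x = z := slide_y _ _ _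
    have hsz : slide h x z z = x := slide_o hxz.ne
    have hso : ∀ v, v ≠ x → v ≠ z → v ≠ y → slide h x z v = h v := fun v h1 h2 h3 =>
      slide_of_ne h1 h2 (by rw [hhz]; exact h3)
    refine ⟨slide h x z, q1, q2, ?_, ?_, ?_, ?_⟩
    · intro v
      by_cases c1 : v = x
      · left; rw [c1, hsx, hx, hfm.1.inv]
      by_cases c2 : v = z
      · left; rw [c2, hsz]
      by_cases c3 : v = y
      · left; rw [c3, q2, hfy]
      rw [hso v c1 c2 c3]
      rcases k3 v with h1 | h1
      · left; rw [h1, slide_of_ne c3 c2 c1]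
      · right; exact h1
    · intro v hv hvb
      rw [hso v (hxC v hv hvb) (fun h => hzC (h ▸ hv)) (fun h => hyC (h ▸ hv))]
      exact k4 v hv hvb
    · intro v hv
      have hvE := OO_EE X hne hv
      by_cases c2 : v = z
      · right; rw [c2, hsz, hgz]; exact ⟨hxE, hyE⟩
      rw [hso v (fun h => hvE (h ▸ hxE)) c2 (fun h => hvE (h ▸ hyE))]
      exact k5 v hv
    · rcases k6 with h1 | h1
      · by_cases hxb : x = b
        · right
          have hS : SS G C h b := by
            refine ⟨k1, h1, hg.base, fun v hv hvb => ?_⟩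
            rw [k4 v hv hvb]
            exact hg.bl v hv hvb
          have hFS := hS.fs X.hC
          rw [← hxb] at hFS
          have := (close X hFS hxz).1
          rwa [hhz] at this
        · left
          rw [hso b (fun h => hxb h.symm) (fun h => hzC (h ▸ hg.base)) (fun h => hyb h.symm)]
          exact h1
      · right
        have := (close X h1 hxz).1
        rwa [hhz] at this

/-- A start state which matches every odd vertex to an even vertex. -/
lemma good_start (X : Ctx G C) (hne : (RR G C).Nonempty) :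
    ∃ g b, SS G C g b ∧ ∀ o ∈ OO G C, g o ∈ EE G C := by
  have hcE := cv_sub_EE X hne
  -- some start state
  obtain ⟨g0, b0, hg0⟩ : ∃ g b, SS G C g b := by
    have hcv : (cv C).Nonempty := by
      obtain ⟨v, f, y, b, Q, F, -⟩ := hne
      exact ⟨b, F.base⟩
    obtain ⟨c, hc⟩ := hcv
    obtain ⟨f, b, Q, F⟩ := hcE hc
    have : c = b := F.meet c F.alt.start_mem hc
    subst this
    exact ⟨f, c, F.mx, F.unc, hc, F.bl.1⟩
  let cnt : (V → V) → ℕ := fun g => (Finset.univ.filter fun o => o ∈ OO G C ∧ g o ∈ EE G C).card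
  let T : Finset ((V → V) × V) := Finset.univ.filter fun p => SS G C p.1 p.2
  have hT : T.Nonempty := ⟨(g0, b0), by simp [T, hg0]⟩
  obtain ⟨⟨g, b⟩, hgT, hmax⟩ := T.exists_max_image (fun p => cnt p.1) hT
  have hg : SS G C g b := by simpa [T] using hgT
  refine ⟨g, b, hg, ?_⟩
  by_contra hcon
  push Not at hcon
  obtain ⟨o, ho, hox⟩ := hcon
  obtain ⟨hoC, y, ⟨f, hF⟩, hyo⟩ := id ho
  obtain ⟨b', Q, F⟩ := id hF
  have hyE : y ∈ EE G C := ⟨f, hF⟩
  -- rotate `g`
  set g' : V → V := fun v => if v ∈ cv C then (if v = b' then b' else f v) else g v with hg'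
  have r1 : g' b' = b' := by simp [hg', F.base]
  have r2 : ∀ v ∈ cv C, v ≠ b' → g' v = f v := fun v h1 h2 => by simp [hg', h1, h2]
  have r3 : ∀ v, v ∉ cv C → g' v = g v := fun v h1 => by simp [hg', h1]
  have r4 : ∀ v ∈ cv C, v ≠ b' → f v ∈ cv C ∧ f v ≠ b' := by
    intro v h1 h2
    have h3 := F.bl.1 v h1 h2
    refine ⟨cv_right h3, fun h => F.bl.2 ?_⟩
    have h4 : f b' = v := by rw [← h, F.mx.1.inv]
    rw [h4, Sym2.eq_swap, ← h]
    exact h3
  have hinv : Inv G g' := by
    constructor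
    · intro v
      by_cases h1 : v ∈ cv C
      · by_cases h2 : v = b'
        · rw [h2, r1, r1]
        · obtain ⟨h3, h4⟩ := r4 v h1 h2
          rw [r2 v h1 h2, r2 _ h3 h4, F.mx.1.inv]
      · rw [r3 v h1, r3 _ (fun h => h1 (hg.pres.1 h)), hg.mx.1.inv]
    · intro v hv
      by_cases h1 : v ∈ cv C
      · by_cases h2 : v = b'
        · rw [h2, r1] at hv; exact absurd rfl hv
        · rw [r2 v h1 h2] at hv ⊢; exact F.mx.1.adj v hv
      · rw [r3 v h1] at hv ⊢; exact hg.mx.1.adj v hv
  have hfixg : ∀ v ∈ cv C, g v = v → v = b := by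
    intro v h1 h2
    by_contra h3
    have := hg.bl v h1 h3
    rw [h2] at this
    exact loop_notMem X.hC v this
  have hfixg' : ∀ v ∈ cv C, g' v = v → v = b' := by
    intro v h1 h2
    by_contra h3
    have := F.bl.1 v h1 h3
    rw [← r2 v h1 h3, h2] at this
    exact loop_notMem X.hC v this
  have hmx' : Mx G g' := by
    refine ⟨hinv, fun h hh => le_trans (le_of_eq ?_) (hg.mx.2 h hh)⟩
    have e1 : (Finset.univ.filter fun v => g' v = v) =
        insert b' ((Finset.univ.filter fun v => g v = v).erase b) := by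
      ext v
      simp only [Finset.mem_filter, Finset.mem_univ, true_and, Finset.mem_insert,
        Finset.mem_erase]
      by_cases h1 : v ∈ cv C
      · constructor
        · intro h2; exact Or.inl (hfixg' v h1 h2)
        · rintro (h2 | ⟨h2, h3⟩)
          · rw [h2, r1]
          · exact absurd (hfixg v h1 h3) h2
      · rw [r3 v h1]
        have h2 : v ≠ b' := fun h => h1 (h ▸ F.base)
        have h3 : v ≠ b := fun h => h1 (h ▸ hg.base)
        simp [h2, h3]
    rw [e1, Finset.card_insert_of_notMem, Finset.card_erase_add_one]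
    · simp [hg.unc]
    · simp only [Finset.mem_erase, Finset.mem_filter, Finset.mem_univ, true_and, not_and]
      intro h1 h2
      exact h1 (hfixg b' F.base h2)
  have hS' : SS G C g' b' := ⟨hmx', r1, F.base, fun v h1 h2 => by
    rw [r2 v h1 h2]; exact F.bl.1 v h1 h2⟩
  obtain ⟨h, k1, k2, k3, k4, k5, k6⟩ := walk X hne hS' _ f y le_rfl hF
    (fun v h1 h2 => (r2 v h1 h2).symm)
  have hgo : g' o = g o := r3 o hoC
  have hho : h o = g o := by
    rcases k5 o ho with h1 | ⟨h1, h2⟩
    · rw [h1, hgo]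
    · rw [hgo] at h2; exact absurd h2 hox
  obtain ⟨m1, m2, m3, m4⟩ := slide_mx k1 k2 hyo
  have hnFS : ¬ FS G C h y := by
    intro hFS
    have := (close X hFS hyo).1
    rw [hho] at this
    exact hox ⟨_, this⟩
  have hhb : h b' = b' := by
    rcases k6 with h1 | h1
    · exact h1
    · exact absurd h1 hnFS
  have hSh : SS G C h b' := ⟨k1, hhb, F.base, fun v h1 h2 => by
    rw [k4 v h1 h2, r2 v h1 h2]; exact F.bl.1 v h1 h2⟩
  have hyC : y ∉ cv C := by
    intro hc
    by_cases h1 : y = b'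
    · apply hnFS
      rw [h1]
      exact hSh.fs X.hC
    · have := hSh.bl y hc h1
      rw [k2] at this
      exact loop_notMem X.hC y this
  have hxC : h o ∉ cv C := fun hc => hoC (hSh.pres.1 hc)
  have hsC : ∀ v ∈ cv C, slide h y o v = h v := by
    intro v hv
    have e1 : v ≠ y := fun h => hyC (h ▸ hv)
    have e2 : v ≠ o := fun h => hoC (h ▸ hv)
    have e3 : v ≠ h o := fun h => hxC (h ▸ hv)
    exact slide_of_ne e1 e2 e3
  have hS2 : SS G C (slide h y o) b' := ⟨m1, by rw [hsC b' F.base, hhb], F.base,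
    fun v h1 h2 => by rw [hsC v h1]; exact hSh.bl v h1 h2⟩
  have hle := hmax (slide h y o, b') (by simp [T, hS2])
  have hlt : cnt g < cnt (slide h y o) := by
    refine Finset.card_lt_card ⟨fun v hv => ?_, fun hsub => ?_⟩
    · rw [Finset.mem_filter] at hv ⊢
      obtain ⟨-, hvO, hvg⟩ := hv
      refine ⟨Finset.mem_univ _, hvO, ?_⟩
      have e2 : v ≠ o := fun e => hox (e ▸ hvg)
      have e1 : v ≠ y := fun e => OO_EE X hne hvO (e ▸ hyE)
      have hhv : h v ∈ EE G C := by
        rcases k5 v hvO with h1 | ⟨h1, -⟩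
        · rw [h1, r3 v hvO.1]; exact hvg
        · exact h1
      have e3 : v ≠ h o := by
        intro e
        rw [e, k1.1.inv] at hhv
        exact OO_EE X hne ho hhv
      rw [slide_of_ne e1 e2 e3]
      exact hhv
    · have h1 : o ∈ Finset.univ.filter fun o => o ∈ OO G C ∧ slide h y o o ∈ EE G C := by
        rw [Finset.mem_filter]
        exact ⟨Finset.mem_univ _, ho, by rw [slide_o hyo.ne]; exact hyE⟩
      have h3 : o ∈ Finset.univ.filter fun v => v ∈ OO G C ∧ slide h y o v ∈ EE G C := by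
        rw [Finset.mem_filter]
        exact ⟨Finset.mem_univ _, ho, by rw [slide_o hyo.ne]; exact hyE⟩
      have h2 := hsub h3
      rw [Finset.mem_filter] at h2
      exact hox h2.2.2
  exact absurd hle (not_le.2 hlt)

/-- The structure of a reach set. -/
theorem structure_RR (X : Ctx G C) (hne : (RR G C).Nonempty) :
    ∃ S A : Finset V, (∀ v ∈ S, v ∈ RR G C) ∧ (∀ v ∈ A, v ∈ RR G C) ∧
      (∀ v ∈ S, ∀ w, G.Adj v w → w ∈ A) ∧
      (∀ v ∈ RR G C, v ∉ S → v ∉ A → ∀ w, G.Adj v w → w ∈ RR G C) ∧ A.card ≤ S.card := by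
  have hcE := cv_sub_EE X hne
  refine ⟨Finset.univ.filter fun v => v ∈ EE G C ∧ v ∉ cv C,
    Finset.univ.filter fun v => v ∈ OO G C, ?_, ?_, ?_, ?_, ?_⟩
  · intro v hv
    rw [Finset.mem_filter] at hv
    exact EE_sub hv.2.1
  · intro v hv
    rw [Finset.mem_filter] at hv
    exact OO_sub X hv.2
  · intro v hv w ha
    rw [Finset.mem_filter] at hv ⊢
    refine ⟨Finset.mem_univ _, fun hw => ?_, v, hv.2.1, ha⟩
    exact hv.2.2 (cv_left (par' X hne hv.2.1 (hcE hw) ha))
  · intro v hv h1 h2 w ha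
    have hvC : v ∈ cv C := by
      by_contra hvC
      have h3 : v ∉ EE G C := fun h => h1 (by simp [h, hvC])
      have h4 : v ∉ OO G C := fun h => h2 (by simp [h])
      obtain ⟨f, y, b, Q, F, h5 | h5⟩ := hv
      · rcases (stem_mem X.hC Q.length Q f y b le_rfl F).2 v h5 with h6 | ⟨y', h6, h7⟩
        · exact h3 h6
        · exact h4 ⟨hvC, y', h6, h7⟩
      · exact hvC h5
    by_cases hw : w ∈ cv C
    · exact cv_sub hne hw
    · exact OO_sub X ⟨hw, v, hcE hvC, ha⟩
  · obtain ⟨g, b, hg, hgo⟩ := good_start X hne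
    refine Finset.card_le_card_of_injOn g (fun o ho => ?_) (fun a _ b _ h => inv_inj hg.mx.1 h)
    simp only [Finset.coe_filter, Finset.mem_univ, true_and, Set.mem_ofPred_eq] at ho ⊢
    exact ⟨hgo o ho, fun h => ho.1 (hg.pres.1 h)⟩

end Pool.Agent.R3.Flow
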