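import Pool.Agent.R3.Flow3

/-! The determinant of the adjacency matrix splits along the reach sets. -/

set_option autoImplicit false
set_option linter.unusedSectionVars false
set_option maxHeartbeats 1000000

namespace Pool.Agent.R3.Flow

open SimpleGraph
open scoped Classical

/-- If `S ⊆ R` has all its neighbours in `A ⊆ R`, `|A| ≤ |S|`, and `R \ (S ∪ A)` has no neighbour
outside `R`, the determinant splits. -/
theorem det_split {W : Type*} [Fintype W] [DecidableEq W] (N : Matrix W W ℝ) (hsym : ∀ i j, N i j = N j i)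
    (R : W → Prop) (S A : Finset W) (hS : ∀ v ∈ S, R v) (hA : ∀ v ∈ A, R v)
    (h1 : ∀ v ∈ S, ∀ w, N v w ≠ 0 → w ∈ A)
    (h2 : ∀ v, R v → v ∉ S → v ∉ A → ∀ w, N v w ≠ 0 → R w) (hc : A.card ≤ S.card) :
    N.det = (N.toSquareBlockProp R).det * (N.toSquareBlockProp fun i => ¬ R i).det := by
  set N' : Matrix W W ℝ := Matrix.of fun i j => if (R i ↔ R j) then N i j else 0 with hN'
  have e1 : N'.toSquareBlockProp R = N.toSquareBlockProp R := by
    ext ⟨i, hi⟩ ⟨j, hj⟩
    simp [Matrix.toSquareBlockProp, hN', hi, hj]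
  have e2 : N'.toSquareBlockProp (fun i => ¬ R i) = N.toSquareBlockProp fun i => ¬ R i := by
    ext ⟨i, hi⟩ ⟨j, hj⟩
    simp [Matrix.toSquareBlockProp, hN', hi, hj]
  have e3 : N'.det = (N'.toSquareBlockProp R).det * (N'.toSquareBlockProp fun i => ¬ R i).det := by
    refine Matrix.twoBlockTriangular_det N' R fun i hi j hj => ?_
    simp [hN', hi, hj]
  rw [← e1, ← e2, ← e3, Matrix.det_apply, Matrix.det_apply]
  refine Finset.sum_congr rfl fun σ _ => ?_
  congr 1
  by_cases hσ : ∀ i, (R (σ i) ↔ R i)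
  · refine Finset.prod_congr rfl fun i _ => ?_
    simp [hN', hσ i]
  have z1 : ∏ i, N' (σ i) i = 0 := by
    push Not at hσ
    obtain ⟨i, hi⟩ := hσ
    refine Finset.prod_eq_zero (Finset.mem_univ i) ?_
    simp only [hN', Matrix.of_apply]
    rw [if_neg]
    tauto
  rw [z1]
  by_contra hne
  apply hσ
  have hnz : ∀ i, N (σ i) i ≠ 0 := fun i h => hne (Finset.prod_eq_zero (Finset.mem_univ i) h)
  have hnz' : ∀ i, N i (σ i) ≠ 0 := fun i => by rw [hsym]; exact hnz i
  -- `σ S = A`
  have f1 : S.image σ = A := by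
    refine Finset.eq_of_subset_of_card_le (fun x hx => ?_) ?_
    · obtain ⟨v, hv, rfl⟩ := Finset.mem_image.1 hx
      exact h1 v hv _ (hnz' v)
    · rw [Finset.card_image_of_injective _ σ.injective]; exact hc
  have f2 : S.image σ.symm = A := by
    refine Finset.eq_of_subset_of_card_le (fun x hx => ?_) ?_
    · obtain ⟨v, hv, rfl⟩ := Finset.mem_image.1 hx
      refine h1 v hv _ ?_
      have := hnz (σ.symm v)
      rwa [Equiv.apply_symm_apply] at this
    · rw [Finset.card_image_of_injective _ σ.symm.injective]; exact hc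
  have g1 : ∀ i, i ∈ S → σ i ∈ A := fun i hi => by rw [← f1]; exact Finset.mem_image_of_mem _ hi
  have g2 : ∀ i, i ∈ A → σ i ∈ S := by
    intro i hi
    rw [← f2] at hi
    obtain ⟨v, hv, rfl⟩ := Finset.mem_image.1 hi
    rwa [Equiv.apply_symm_apply]
  have g3 : ∀ i, σ i ∈ A → i ∈ S := by
    intro i hi
    rw [← f1] at hi
    obtain ⟨v, hv, h⟩ := Finset.mem_image.1 hi
    rwa [← σ.injective h]
  have g4 : ∀ i, σ i ∈ S → i ∈ A := by
    intro i hi
    rw [← f2]
    exact Finset.mem_image.2 ⟨σ i, hi, by simp⟩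
  intro i
  by_cases hi1 : i ∈ S
  · exact ⟨fun _ => hS i hi1, fun _ => hA _ (g1 i hi1)⟩
  by_cases hi2 : i ∈ A
  · exact ⟨fun _ => hA i hi2, fun _ => hS _ (g2 i hi2)⟩
  have hi3 : σ i ∉ S := fun h => hi2 (g4 i h)
  have hi4 : σ i ∉ A := fun h => hi1 (g3 i h)
  exact ⟨fun h => h2 _ h hi3 hi4 i (hnz i), fun h => h2 i h hi1 hi2 _ (hnz' i)⟩

lemma det_eq_of_equiv {m n : Type*} [Fintype m] [DecidableEq m] [Fintype n] [DecidableEq n]
    (e : m ≃ n) (A : Matrix m m ℝ) (B : Matrix n n ℝ) (h : ∀ i j, A i j = B (e i) (e j)) :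
    A.det = B.det := by
  rw [← Matrix.det_submatrix_equiv_self e B]
  congr 1
  ext i j
  exact h i j

variable {V : Type*} [Fintype V]

/-- the determinant of the adjacency matrix of the subgraph induced by `X` -/
noncomputable def detA (G : SimpleGraph V) (X : Set V) : ℝ := ((G.induce X).adjMatrix ℝ).det

lemma detA_eq {m : Type*} [Fintype m] [DecidableEq m] (G : SimpleGraph V) (X : Set V)
    (e : m ≃ X) (A : Matrix m m ℝ) (h : ∀ i j, A i j = if G.Adj (e i) (e j) then 1 else 0) :
    detA G X = A.det := by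
  unfold detA
  symm
  refine @det_eq_of_equiv _ _ _ _ _ _ e _ _ (fun i j => ?_)
  rw [h]
  simp only [adjMatrix_apply, comap_adj, Function.Embedding.subtype_apply]

lemma detA_split (G : SimpleGraph V) (X R : Set V) (hRX : R ⊆ X) (S A : Finset V)
    (hS : ∀ v ∈ S, v ∈ R) (hA : ∀ v ∈ A, v ∈ R) (h1 : ∀ v ∈ S, ∀ w, G.Adj v w → w ∈ A)
    (h2 : ∀ v ∈ R, v ∉ S → v ∉ A → ∀ w, G.Adj v w → w ∈ R) (hc : A.card ≤ S.card) :
    detA G X = detA G R * detA G (X \ R) := by
  have key : ∀ (F : Finset V), (∀ v ∈ F, v ∈ R) →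
      ((Finset.univ.filter fun w : X => w.1 ∈ F).card = F.card) := by
    intro F hF
    refine Finset.card_bij (fun w _ => w.1) (fun w hw => (Finset.mem_filter.1 hw).2)
      (fun a _ b _ h => Subtype.ext h) (fun v hv => ⟨⟨v, hRX (hF v hv)⟩, ?_, rfl⟩)
    simp [hv]
  have hsp := det_split ((G.induce X).adjMatrix ℝ) (fun i j => by
      simp only [adjMatrix_apply, (G.induce X).adj_comm i j]) (fun w => w.1 ∈ R)
    (Finset.univ.filter fun w : X => w.1 ∈ S) (Finset.univ.filter fun w : X => w.1 ∈ A)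
    (fun v hv => hS _ (Finset.mem_filter.1 hv).2) (fun v hv => hA _ (Finset.mem_filter.1 hv).2)
    (fun v hv w hvw => by
      rw [adjMatrix_apply] at hvw
      have ha : G.Adj v.1 w.1 := by
        by_contra hcon
        exact hvw (if_neg hcon)
      simp only [Finset.mem_filter, Finset.mem_univ, true_and] at hv ⊢
      exact h1 _ hv _ ha)
    (fun v hv hvS hvA w hvw => by
      rw [adjMatrix_apply] at hvw
      have ha : G.Adj v.1 w.1 := by
        by_contra hcon
        exact hvw (if_neg hcon)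
      simp only [Finset.mem_filter, Finset.mem_univ, true_and] at hvS hvA
      exact h2 _ hv hvS hvA _ ha)
    (by rw [key A hA, key S hS]; exact hc)
  let e1 : {w : X // w.1 ∈ R} ≃ R :=
    { toFun := fun w => ⟨w.1.1, w.2⟩
      invFun := fun w => ⟨⟨w.1, hRX w.2⟩, w.2⟩
      left_inv := fun w => rfl
      right_inv := fun w => rfl }
  let e2 : {w : X // ¬ w.1 ∈ R} ≃ (X \ R : Set V) :=
    { toFun := fun w => ⟨w.1.1, w.1.2, w.2⟩
      invFun := fun w => ⟨⟨w.1, w.2.1⟩, w.2.2⟩
      left_inv := fun w => rfl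
      right_inv := fun w => rfl }
  have q0 : detA G X = ((G.induce X).adjMatrix ℝ).det :=
    detA_eq G X (Equiv.refl _) _ fun i j => by
      simp only [adjMatrix_apply, comap_adj, Function.Embedding.subtype_apply, Equiv.refl_apply]
      congr
  have q1 : detA G R = (((G.induce X).adjMatrix ℝ).toSquareBlockProp fun w => w.1 ∈ R).det :=
    detA_eq G R e1 _ fun i j => by
      simp only [Matrix.toSquareBlockProp_def, Matrix.of_apply, adjMatrix_apply, comap_adj,
        Function.Embedding.subtype_apply, e1, Equiv.coe_fn_mk]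
  have q2 : detA G (X \ R) =
      (((G.induce X).adjMatrix ℝ).toSquareBlockProp fun w => ¬ w.1 ∈ R).det :=
    detA_eq G (X \ R) e2 _ fun i j => by
      simp only [Matrix.toSquareBlockProp_def, Matrix.of_apply, adjMatrix_apply, comap_adj,
        Function.Embedding.subtype_apply, e2, Equiv.coe_fn_mk]
  rw [q1, q2, ← hsp]
  exact q0

lemma detA_univ (G : SimpleGraph V) : detA G Set.univ = (G.adjMatrix ℝ).det :=
  detA_eq G Set.univ (Equiv.Set.univ V).symm _ fun i j => by
    simp only [adjMatrix_apply, Equiv.Set.univ_symm_apply]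

/-- The factorization over the reach sets. -/
theorem factor (G : SimpleGraph V) (hne : ∀ C ∈ oddCycles G, (RR G C).Nonempty)
    (hdis : ∀ C ∈ oddCycles G, ∀ C' ∈ oddCycles G, C ≠ C' → Disjoint (RR G C) (RR G C')) :
    (G.adjMatrix ℝ).det = detA G {v | ∀ C ∈ oddCycles G, v ∉ RR G C} *
      ∏ C ∈ (Set.toFinite (oddCycles G)).toFinset, detA G (RR G C) := by
  have hX : ∀ C ∈ oddCycles G, Ctx G C := fun C hC => ⟨hC, fun C' hC' hCC v hv hv2 =>
    Set.disjoint_left.1 (hdis C' hC' C hC hCC) (cv_sub (hne C' hC') hv) hv2⟩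
  have key : ∀ D : Finset (Set (Sym2 V)), (∀ C ∈ D, C ∈ oddCycles G) →
      (G.adjMatrix ℝ).det = detA G {v | ∀ C ∈ D, v ∉ RR G C} * ∏ C ∈ D, detA G (RR G C) := by
    intro D
    induction D using Finset.induction_on with
    | empty =>
      intro _
      rw [Finset.prod_empty, mul_one, ← detA_univ]
      congr 1
      ext v
      simp
    | insert C D hCD ih =>
      intro hD
      rw [ih fun C hC => hD C (Finset.mem_insert_of_mem hC), Finset.prod_insert hCD, ← mul_assoc]
      congr 1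
      have hC : C ∈ oddCycles G := hD C (Finset.mem_insert_self _ _)
      obtain ⟨S, A, a1, a2, a3, a4, a5⟩ := structure_RR (hX C hC) (hne C hC)
      rw [detA_split G {v | ∀ C ∈ D, v ∉ RR G C} (RR G C) ?_ S A a1 a2 a3 a4 a5, mul_comm]
      · congr 2
        ext v
        simp only [Set.mem_sdiff, Set.mem_ofPred_eq, Finset.mem_insert]
        constructor
        · rintro ⟨h1, h2⟩ C' (rfl | h3)
          · exact h2
          · exact h1 C' h3
        · intro h
          exact ⟨fun C' h3 => h C' (Or.inr h3), h C (Or.inl rfl)⟩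
      · intro v hv C' hC' hv2
        have : C ≠ C' := fun h => hCD (h ▸ hC')
        exact Set.disjoint_left.1 (hdis C hC C' (hD C' (Finset.mem_insert_of_mem hC')) this) hv hv2
  rw [key (Set.toFinite (oddCycles G)).toFinset fun C hC => (Set.Finite.mem_toFinset _).1 hC]
  congr 2
  ext v
  simp

end Pool.Agent.R3.Flow
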