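import Mathlib

/-!
Edge boundaries, their invariance and submodularity, and averaging over a transitive group.
-/

set_option autoImplicit false

namespace Pool.Agent.R3.Iso

open Finset

variable {V : Type*} [Fintype V] [DecidableEq V]

/-- the number of edges with one endpoint in `A` and the other outside `A` -/
def bdry (Γ : SimpleGraph V) [DecidableRel Γ.Adj] (A : Finset V) : ℕ := #(Γ.interedges A Aᶜ)

/-- the part of a colouring with colour `i` -/
def part {ι : Type*} [DecidableEq ι] (P : V → ι) (i : ι) : Finset V := univ.filter (fun x => P x = i)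

lemma mem_part {ι : Type*} [DecidableEq ι] (P : V → ι) (i : ι) (x : V) :
    x ∈ part P i ↔ P x = i := by simp [part]

section cut

variable (Γ : SimpleGraph V) [DecidableRel Γ.Adj]

lemma bdry_eq (A : Finset V) : (bdry Γ A : ℝ)
    = ∑ x, ∑ y, if (x ∈ A ∧ y ∉ A ∧ Γ.Adj x y) then (1 : ℝ) else 0 := by
  have h : Γ.interedges A Aᶜ = (univ ×ˢ univ).filter
      (fun z : V × V => z.1 ∈ A ∧ z.2 ∉ A ∧ Γ.Adj z.1 z.2) := by
    ext z
    simp [SimpleGraph.mem_interedges_iff]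
  rw [bdry, h, Finset.natCast_card_filter, Finset.sum_product]

lemma two_bdry (A : Finset V) : 2 * (bdry Γ A : ℝ)
    = ∑ x, ∑ y, if Γ.Adj x y then (if (x ∈ A ∧ y ∉ A) ∨ (x ∉ A ∧ y ∈ A) then (1 : ℝ) else 0)
      else 0 := by
  rw [two_mul]
  nth_rewrite 2 [bdry_eq]
  rw [sum_comm, bdry_eq, ← sum_add_distrib]
  refine sum_congr rfl fun x _ => ?_
  rw [← sum_add_distrib]
  refine sum_congr rfl fun y _ => ?_
  by_cases hxy : Γ.Adj x y
  · have hyx := hxy.symm
    by_cases hx : x ∈ A <;> by_cases hy : y ∈ A <;> simp [hxy, hyx, hx, hy]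
  · have hyx : ¬ Γ.Adj y x := fun h => hxy h.symm
    simp [hxy, hyx]

lemma posimod (A B : Finset V) : (bdry Γ (A \ B) : ℝ) + bdry Γ (B \ A) ≤ bdry Γ A + bdry Γ B := by
  have h : 2 * (bdry Γ (A \ B) : ℝ) + 2 * bdry Γ (B \ A) ≤ 2 * bdry Γ A + 2 * bdry Γ B := by
    rw [two_bdry, two_bdry, two_bdry, two_bdry, ← sum_add_distrib, ← sum_add_distrib]
    refine sum_le_sum fun x _ => ?_
    rw [← sum_add_distrib, ← sum_add_distrib]
    refine sum_le_sum fun y _ => ?_
    by_cases hxy : Γ.Adj x y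
    · by_cases hx : x ∈ A <;> by_cases hy : y ∈ A <;> by_cases hx' : x ∈ B <;>
        by_cases hy' : y ∈ B <;> simp [hxy, hx, hy, hx', hy'] <;> norm_num
    · simp [hxy]
  linarith

lemma bdry_inter_le (A B : Finset V) : (bdry Γ (A ∩ B) : ℝ) ≤ bdry Γ A + bdry Γ B := by
  have h : 2 * (bdry Γ (A ∩ B) : ℝ) ≤ 2 * bdry Γ A + 2 * bdry Γ B := by
    rw [two_bdry, two_bdry, two_bdry, ← sum_add_distrib]
    refine sum_le_sum fun x _ => ?_
    rw [← sum_add_distrib]
    refine sum_le_sum fun y _ => ?_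
    by_cases hxy : Γ.Adj x y
    · by_cases hx : x ∈ A <;> by_cases hy : y ∈ A <;> by_cases hx' : x ∈ B <;>
        by_cases hy' : y ∈ B <;> simp [hxy, hx, hy, hx', hy']
    · simp [hxy]
  linarith

lemma bdry_sdiff_le (A B : Finset V) : (bdry Γ (A \ B) : ℝ) ≤ bdry Γ A + bdry Γ B := by
  have := posimod Γ A B
  have h2 : (0 : ℝ) ≤ bdry Γ (B \ A) := Nat.cast_nonneg _
  linarith

end cut

section action

variable {G : Type*} [Group G] [MulAction G V]

/-- the translate of a set -/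
def tr (g : G) (A : Finset V) : Finset V := univ.filter (fun x => g⁻¹ • x ∈ A)

lemma mem_tr (g : G) (A : Finset V) (x : V) : x ∈ tr g A ↔ g⁻¹ • x ∈ A := by simp [tr]

lemma tr_one (A : Finset V) : tr (1 : G) A = A := by
  ext x; simp [mem_tr]

lemma tr_mul (g k : G) (A : Finset V) : tr (g * k) A = tr g (tr k A) := by
  ext x; simp [mem_tr, mul_smul]

lemma tr_inter (g : G) (A B : Finset V) : tr g (A ∩ B) = tr g A ∩ tr g B := by
  ext x; simp [mem_tr]

lemma tr_sdiff (g : G) (A B : Finset V) : tr g (A \ B) = tr g A \ tr g B := by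
  ext x; simp [mem_tr]

lemma card_tr (g : G) (A : Finset V) : #(tr g A) = #A := by
  refine Finset.card_bij (fun x _ => g⁻¹ • x) ?_ ?_ ?_
  · intro x hx; exact (mem_tr g A x).mp hx
  · intro x _ y _ h; exact MulAction.injective _ h
  · intro y hy
    exact ⟨g • y, by rw [mem_tr, inv_smul_smul]; exact hy, by rw [inv_smul_smul]⟩

lemma bdry_tr (Γ : SimpleGraph V) [DecidableRel Γ.Adj]
    (hadj : ∀ (g : G) (x y : V), Γ.Adj (g • x) (g • y) ↔ Γ.Adj x y) (g : G) (A : Finset V) :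
    bdry Γ (tr g A) = bdry Γ A := by
  unfold bdry
  refine Finset.card_bij (fun z _ => (g⁻¹ • z.1, g⁻¹ • z.2)) ?_ ?_ ?_
  · intro z hz
    rw [SimpleGraph.mem_interedges_iff] at hz ⊢
    simp only [mem_compl, mem_tr] at hz ⊢
    exact ⟨hz.1, hz.2.1, (hadj g⁻¹ _ _).mpr hz.2.2⟩
  · intro z _ w _ h
    have h1 := congrArg Prod.fst h
    have h2 := congrArg Prod.snd h
    exact Prod.ext (MulAction.injective g⁻¹ h1) (MulAction.injective g⁻¹ h2)
  · intro z hz
    refine ⟨(g • z.1, g • z.2), ?_, by simp⟩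
    rw [SimpleGraph.mem_interedges_iff] at hz ⊢
    simp only [mem_compl, mem_tr, inv_smul_smul] at hz ⊢
    exact ⟨hz.1, hz.2.1, (hadj g _ _).mpr hz.2.2⟩

variable [Fintype G]

/-- averaging over a transitive group -/
lemma avg (htr : ∀ x y : V, ∃ g : G, g • x = y) (φ : V → ℝ) (x : V) :
    (Fintype.card V : ℝ) * ∑ g : G, φ (g⁻¹ • x) = (Fintype.card G : ℝ) * ∑ y, φ y := by
  have hconst : ∀ y, ∑ g : G, φ (g⁻¹ • y) = ∑ g : G, φ (g⁻¹ • x) := by
    intro y
    obtain ⟨k, rfl⟩ := htr x y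
    refine Fintype.sum_equiv (Equiv.mulLeft k⁻¹) _ _ fun g => ?_
    simp [mul_smul]
  have h1 : ∑ y, ∑ g : G, φ (g⁻¹ • y) = (Fintype.card V : ℝ) * ∑ g : G, φ (g⁻¹ • x) := by
    rw [sum_congr rfl (fun y _ => hconst y), sum_const, card_univ, nsmul_eq_mul]
  rw [← h1, sum_comm]
  have h2 : ∀ g : G, ∑ y, φ (g⁻¹ • y) = ∑ y, φ y := by
    intro g
    exact Fintype.sum_equiv (MulAction.toPerm g⁻¹) _ _ fun y => rfl
  rw [sum_congr rfl (fun g _ => h2 g), sum_const, card_univ, nsmul_eq_mul]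

end action

end Pool.Agent.R3.Iso
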