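import Pool.Agent.R3.Iso1

set_option autoImplicit false

namespace Pool.Agent.R3.Iso

open Finset

variable {V : Type*} [Fintype V] [DecidableEq V] (Γ : SimpleGraph V) [DecidableRel Γ.Adj]

/-- a colouring `A` with all ratios at most `h`, while every partition into one more part has a part
of ratio larger than `C * h` -/
structure Gap {n : ℕ} (A : V → Fin n) (h C : ℝ) : Prop where
  surj : Function.Surjective A
  hA : ∀ i, (bdry Γ (part A i) : ℝ) ≤ h * #(part A i)
  hQ : ∀ Q : V → Fin (n + 1), Function.Surjective Q →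
    ∃ i, C * h * #(part Q i) < bdry Γ (part Q i)
  h0 : 0 ≤ h
  C6 : 6 ≤ C

variable {Γ} {n : ℕ} {A : V → Fin n} {h C : ℝ}

lemma Gap.part_pos (hg : Gap Γ A h C) (i : Fin n) : 0 < (#(part A i) : ℝ) := by
  obtain ⟨x, hx⟩ := hg.surj i
  have : 0 < #(part A i) := card_pos.mpr ⟨x, (mem_part A i x).mpr hx⟩
  exact_mod_cast this

lemma Gap.carve (hg : Gap Γ A h C) (B : Finset V) (hB : B.Nonempty)
    (hAB : ∀ i, (part A i \ B).Nonempty) :
    C * h * #B < bdry Γ B ∨ ∃ i, C * h * #(part A i \ B) < bdry Γ (part A i \ B) := by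
  set Q : V → Fin (n + 1) := fun x => if x ∈ B then Fin.last n else (A x).castSucc with hQ
  have hlast : part Q (Fin.last n) = B := by
    ext x
    rw [mem_part, hQ]
    simp only
    split_ifs with hx
    · exact ⟨fun _ => hx, fun _ => rfl⟩
    · exact ⟨fun h => absurd h (Fin.castSucc_lt_last _).ne, fun h => absurd h hx⟩
  have hcast : ∀ i : Fin n, part Q i.castSucc = part A i \ B := by
    intro i
    ext x
    rw [mem_part, mem_sdiff, mem_part, hQ]
    simp only
    split_ifs with hx
    · exact ⟨fun h => absurd h.symm (Fin.castSucc_lt_last _).ne, fun h => absurd hx h.2⟩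
    · rw [Fin.castSucc_inj]
      exact ⟨fun h => ⟨h, hx⟩, fun h => h.1⟩
  have hsurj : Function.Surjective Q := by
    intro j
    refine Fin.lastCases ?_ (fun i => ?_) j
    · obtain ⟨x, hx⟩ := hB
      exact ⟨x, by rw [← mem_part, hlast]; exact hx⟩
    · obtain ⟨x, hx⟩ := hAB i
      exact ⟨x, by rw [← mem_part, hcast]; exact hx⟩
  obtain ⟨j, hj⟩ := hg.hQ Q hsurj
  revert hj
  refine Fin.lastCases ?_ (fun i => ?_) j
  · intro hj
    rw [hlast] at hj
    exact Or.inl hj
  · intro hj
    rw [hcast] at hj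
    exact Or.inr ⟨i, hj⟩

section group

variable {G : Type*} [Group G] [MulAction G V]
  (hadj : ∀ (g : G) (x y : V), Γ.Adj (g • x) (g • y) ↔ Γ.Adj x y)
  (hg : Gap Γ A h C) (i0 : Fin n) (hmin : ∀ i, #(part A i0) ≤ #(part A i))

include hadj hg in
/-- dichotomy for the overlap of the smallest part with its translates -/
lemma dichotomy (i0 : Fin n) (g : G) :
    C * #(part A i0 ∩ tr g (part A i0)) < 2 * #(part A i0) ∨
    C * ((#(part A i0) : ℝ) - #(part A i0 ∩ tr g (part A i0))) < #(part A i0) := by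
  classical
  by_contra hcon
  push Not at hcon
  obtain ⟨h1, h2⟩ := hcon
  set A0 := part A i0 with hA0
  have ha := hg.part_pos i0
  rw [← hA0] at ha
  have hC := hg.C6
  have hh := hg.h0
  have hCh : h ≤ C * h := by nlinarith
  -- the overlap with the inverse translate has the same size
  have hinv : #(A0 ∩ tr g⁻¹ A0) = #(A0 ∩ tr g A0) := by
    rw [← card_tr g (A0 ∩ tr g⁻¹ A0), tr_inter, ← tr_mul, mul_inv_cancel, tr_one, inter_comm]
  have key : ∀ k : G, #(A0 ∩ tr k A0) = #(A0 ∩ tr g A0) →
      C * h * ((#A0 : ℝ) - #(A0 ∩ tr g A0)) < bdry Γ (A0 \ tr k A0) := by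
    intro k hk
    have hp : 0 < (#(A0 ∩ tr k A0) : ℝ) := by
      rw [hk]
      by_contra hneg
      have : (#(A0 ∩ tr g A0) : ℝ) = 0 := le_antisymm (not_lt.mp hneg) (Nat.cast_nonneg _)
      rw [this] at h1
      linarith
    have hcard : (#(A0 \ tr k A0) : ℝ) = #A0 - #(A0 ∩ tr g A0) := by
      have := card_sdiff_add_card_inter A0 (tr k A0)
      rw [hk] at this
      have h3 : (#(A0 \ tr k A0) : ℝ) + #(A0 ∩ tr g A0) = #A0 := by exact_mod_cast this
      linarith
    have hp2 : 0 < (#(A0 \ tr k A0) : ℝ) := by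
      rw [hcard]
      by_contra hneg
      nlinarith
    have hB : (A0 ∩ tr k A0).Nonempty := card_pos.mp (by exact_mod_cast hp)
    have hD : (A0 \ tr k A0).Nonempty := card_pos.mp (by exact_mod_cast hp2)
    have hsd : A0 \ (A0 ∩ tr k A0) = A0 \ tr k A0 := sdiff_inter_self_left _ _
    have hdis : ∀ i, i ≠ i0 → part A i \ (A0 ∩ tr k A0) = part A i := by
      intro i hi
      rw [Finset.sdiff_eq_self_iff_disjoint]
      refine Finset.disjoint_left.mpr fun x hx hx' => ?_
      rw [mem_inter, hA0, mem_part] at hx'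
      rw [mem_part] at hx
      exact hi (hx.symm.trans hx'.1)
    rcases hg.carve (A0 ∩ tr k A0) hB (by
      intro i
      by_cases hi : i = i0
      · rw [hi, ← hA0, hsd]; exact hD
      · rw [hdis i hi]
        exact card_pos.mp (by exact_mod_cast hg.part_pos i)) with h4 | ⟨i, h4⟩
    · exfalso
      have h5 := bdry_inter_le Γ A0 (tr k A0)
      rw [bdry_tr Γ hadj] at h5
      have h6 := hg.hA i0
      rw [← hA0] at h6
      rw [hk] at h4
      nlinarith
    · by_cases hi : i = i0
      · rw [hi, ← hA0, hsd, hcard] at h4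
        exact h4
      · exfalso
        rw [hdis i hi] at h4
        have h6 := hg.hA i
        have h7 := hg.part_pos i
        nlinarith
  have k1 := key g rfl
  have k2 := key g⁻¹ hinv
  have h3 : bdry Γ (A0 \ tr g⁻¹ A0) = bdry Γ (tr g A0 \ A0) := by
    rw [← bdry_tr Γ hadj g (A0 \ tr g⁻¹ A0), tr_sdiff, ← tr_mul, mul_inv_cancel, tr_one]
  rw [h3] at k2
  have h4 := posimod Γ A0 (tr g A0)
  rw [bdry_tr Γ hadj] at h4
  have h5 := hg.hA i0
  rw [← hA0] at h5
  nlinarith

include hadj hg hmin in
/-- every translate of the smallest part almost covers some part -/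
lemma cover (g : G) : ∃ i, C * #(part A i \ tr g (part A i0)) < 2 * #(part A i) := by
  classical
  by_contra hcon
  push Not at hcon
  have hC := hg.C6
  have hh := hg.h0
  have ha := hg.part_pos i0
  rcases hg.carve (tr g (part A i0)) (by
      rw [← card_pos, card_tr]; exact_mod_cast ha) (by
      intro i
      rw [← card_pos]
      by_contra hneg
      have h0 : #(part A i \ tr g (part A i0)) = 0 := by omega
      have h1 := hcon i
      rw [h0] at h1
      have := hg.part_pos i
      push_cast at h1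
      linarith) with h4 | ⟨i, h4⟩
  · rw [card_tr, bdry_tr Γ hadj] at h4
    have h5 := hg.hA i0
    nlinarith
  · have h5 := bdry_sdiff_le Γ (part A i) (tr g (part A i0))
    rw [bdry_tr Γ hadj] at h5
    have h6 := hg.hA i
    have h7 := hg.hA i0
    have h8 : (#(part A i0) : ℝ) ≤ #(part A i) := by exact_mod_cast hmin i
    have h9 := hcon i
    nlinarith

end group

end Pool.Agent.R3.Iso
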