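import Pool.Agent.R3.Iso2

set_option autoImplicit false

namespace Pool.Agent.R3.Iso

open Finset

variable {V : Type*} [Fintype V] [DecidableEq V] {Γ : SimpleGraph V} [DecidableRel Γ.Adj]
  {n : ℕ} {A : V → Fin n} {h C : ℝ} {G : Type*} [Group G] [MulAction G V]

/-- elementary cardinality estimates as real numbers -/
lemma card_sdiff_real (S T : Finset V) : (#(S \ T) : ℝ) = #S - #(S ∩ T) := by
  have := card_sdiff_add_card_inter S T
  have h3 : (#(S \ T) : ℝ) + #(S ∩ T) = #S := by exact_mod_cast this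
  linarith

lemma same_of_index (hadj : ∀ (g : G) (x y : V), Γ.Adj (g • x) (g • y) ↔ Γ.Adj x y)
    (hg : Gap Γ A h C) (i0 : Fin n) (hmin : ∀ i, #(part A i0) ≤ #(part A i)) (g g' : G)
    (i : Fin n) (h1 : C * #(part A i \ tr g (part A i0)) < 2 * #(part A i))
    (h2 : C * #(part A i \ tr g' (part A i0)) < 2 * #(part A i)) :
    C * ((#(part A i0) : ℝ) - #(tr g (part A i0) ∩ tr g' (part A i0))) < #(part A i0) := by
  classical
  set A0 := part A i0 with hA0
  have hD : #(tr g A0 ∩ tr g' A0) = #(A0 ∩ tr (g⁻¹ * g') A0) := by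
    rw [← card_tr g⁻¹ (tr g A0 ∩ tr g' A0), tr_inter, ← tr_mul, ← tr_mul, inv_mul_cancel, tr_one]
  rcases dichotomy hadj hg i0 (g⁻¹ * g') with h3 | h3
  · exfalso
    rw [← hA0, ← hD] at h3
    have h4 : #(part A i) ≤ #(part A i \ tr g A0) + #(part A i \ tr g' A0)
        + #(tr g A0 ∩ tr g' A0) := by
      have : part A i ⊆ (part A i \ tr g A0) ∪ (part A i \ tr g' A0) ∪ (tr g A0 ∩ tr g' A0) := by
        intro x hx
        by_cases h5 : x ∈ tr g A0
        · by_cases h6 : x ∈ tr g' A0
          · exact mem_union_right _ (mem_inter.mpr ⟨h5, h6⟩)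
          · exact mem_union_left _ (mem_union_right _ (mem_sdiff.mpr ⟨hx, h6⟩))
        · exact mem_union_left _ (mem_union_left _ (mem_sdiff.mpr ⟨hx, h5⟩))
      refine (card_le_card this).trans ((card_union_le _ _).trans ?_)
      exact Nat.add_le_add_right (card_union_le _ _) _
    have h4' : (#(part A i) : ℝ) ≤ #(part A i \ tr g A0) + #(part A i \ tr g' A0)
        + #(tr g A0 ∩ tr g' A0) := by exact_mod_cast h4
    have h7 : (#A0 : ℝ) ≤ #(part A i) := by exact_mod_cast hmin i
    have h8 := hg.part_pos i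
    have hC := hg.C6
    nlinarith
  · rw [← hA0, ← hD] at h3
    exact h3

lemma index_of_same (hg : Gap Γ A h C) (i0 : Fin n) (hmin : ∀ i, #(part A i0) ≤ #(part A i))
    (g g' : G) (i i' : Fin n) (h1 : C * #(part A i \ tr g (part A i0)) < 2 * #(part A i))
    (h2 : C * #(part A i' \ tr g' (part A i0)) < 2 * #(part A i'))
    (h3 : C * ((#(part A i0) : ℝ) - #(tr g (part A i0) ∩ tr g' (part A i0))) < #(part A i0)) :
    i = i' := by
  classical
  by_contra hne
  set A0 := part A i0 with hA0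
  have e1 := card_sdiff_real (part A i) (tr g A0)
  have e2 := card_sdiff_real (part A i') (tr g' A0)
  have e3 : (#(tr g' A0 \ tr g A0) : ℝ) = #A0 - #(tr g A0 ∩ tr g' A0) := by
    rw [card_sdiff_real, card_tr, inter_comm]
  have e4 : #(part A i' ∩ tr g' A0) ≤ #(part A i' ∩ tr g A0) + #(tr g' A0 \ tr g A0) := by
    have : part A i' ∩ tr g' A0 ⊆ (part A i' ∩ tr g A0) ∪ (tr g' A0 \ tr g A0) := by
      intro x hx
      rw [mem_inter] at hx
      by_cases h5 : x ∈ tr g A0
      · exact mem_union_left _ (mem_inter.mpr ⟨hx.1, h5⟩)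
      · exact mem_union_right _ (mem_sdiff.mpr ⟨hx.2, h5⟩)
    exact (card_le_card this).trans (card_union_le _ _)
  have e4' : (#(part A i' ∩ tr g' A0) : ℝ) ≤ #(part A i' ∩ tr g A0) + #(tr g' A0 \ tr g A0) := by
    exact_mod_cast e4
  have e5 : #(part A i ∩ tr g A0) + #(part A i' ∩ tr g A0) ≤ #A0 := by
    rw [← card_union_of_disjoint, ← card_tr g A0]
    · refine card_le_card ?_
      intro x hx
      rcases mem_union.mp hx with h6 | h6
      · exact (mem_inter.mp h6).2
      · exact (mem_inter.mp h6).2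
    · refine Finset.disjoint_left.mpr fun x hx hx' => hne ?_
      rw [mem_inter, mem_part] at hx hx'
      exact hx.1.symm.trans hx'.1
  have e5' : (#(part A i ∩ tr g A0) : ℝ) + #(part A i' ∩ tr g A0) ≤ #A0 := by exact_mod_cast e5
  have h7 : (#A0 : ℝ) ≤ #(part A i) := by exact_mod_cast hmin i
  have h7' : (#A0 : ℝ) ≤ #(part A i') := by exact_mod_cast hmin i'
  have h8 : (0 : ℝ) < #A0 := hg.part_pos i0
  have hC := hg.C6
  nlinarith

end Pool.Agent.R3.Iso
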