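import Pool.Agent.R3.Iso3

set_option autoImplicit false

namespace Pool.Agent.R3.Iso

open Finset

variable {V : Type*} [Fintype V] [DecidableEq V] {Γ : SimpleGraph V} [DecidableRel Γ.Adj]
  {n : ℕ} {A : V → Fin n} {h C : ℝ} {G : Type*} [Group G] [Fintype G] [MulAction G V]

set_option maxHeartbeats 1000000 in
open Classical in
theorem core [Nonempty V] (htr : ∀ x y : V, ∃ g : G, g • x = y)
    (hadj : ∀ (g : G) (x y : V), Γ.Adj (g • x) (g • y) ↔ Γ.Adj x y)
    (hn : 0 < n) (hg : Gap Γ A h C) :
    ∃ (P : V → Fin n) (r a : ℕ),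
      (∀ (g : G) (x y : V), P x = P y → P (g • x) = P (g • y)) ∧
      (∀ i ∈ image P univ, #(image P univ) * #(part P i) = Fintype.card V) ∧
      (∀ i, a ≤ #(part A i)) ∧
      (C - 1) * Fintype.card V < C * #(image P univ) * a ∧
      (∀ x, #{y | Γ.Adj x y ∧ P y ≠ P x} = r) ∧
      (C - 2) * r ≤ C * h ∧
      (∀ i ∈ image P univ, C * #(image P univ) * #(part P i \ part A i) < 3 * Fintype.card V) := by
  have hC := hg.C6
  -- the smallest part
  obtain ⟨i0, -, hmin'⟩ := exists_min_image (univ : Finset (Fin n)) (fun i => #(part A i))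
    ⟨⟨0, hn⟩, mem_univ _⟩
  have hmin : ∀ i, #(part A i0) ≤ #(part A i) := fun i => hmin' i (mem_univ i)
  set A0 := part A i0 with hA0
  have ha : (0 : ℝ) < #A0 := hg.part_pos i0
  choose ι hι using cover hadj hg i0 hmin (G := G)
  rw [← hA0] at hι
  have hR : ∀ g g', ι g = ι g' ↔ C * ((#A0 : ℝ) - #(tr g A0 ∩ tr g' A0)) < #A0 := by
    intro g g'
    constructor
    · intro he
      have h1 := hι g'
      rw [← he] at h1
      exact same_of_index hadj hg i0 hmin g g' (ι g) (hι g) h1
    · exact index_of_same hg i0 hmin g g' (ι g) (ι g') (hι g) (hι g')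
  have hinv : ∀ k g g', ι (k * g) = ι (k * g') ↔ ι g = ι g' := by
    intro k g g'
    rw [hR, hR, tr_mul, tr_mul, ← tr_inter, card_tr]
  -- class sizes
  set q : ℕ := #{g | ι g = ι 1} with hq
  have hcl : ∀ g, #{g' | ι g' = ι g} = q := by
    intro g
    refine Finset.card_bij (fun g' _ => g⁻¹ * g') ?_ ?_ ?_
    · intro g' hg'
      simp only [mem_filter, mem_univ, true_and] at hg' ⊢
      have := (hinv g⁻¹ g' g).mpr hg'
      rwa [inv_mul_cancel] at this
    · intro x _ y _ hxy
      exact mul_left_cancel hxy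
    · intro k hk
      simp only [mem_filter, mem_univ, true_and] at hk
      refine ⟨g * k, ?_, by group⟩
      simp only [mem_filter, mem_univ, true_and]
      have := (hinv g k 1).mpr hk
      rwa [mul_one] at this
  have hqpos : 0 < q := card_pos.mpr ⟨1, by simp⟩
  have hqR : (0 : ℝ) < q := by exact_mod_cast hqpos
  set m : ℕ := #(image ι univ) with hm
  have hN : Fintype.card G = m * q := by
    rw [← card_univ, Finset.card_eq_sum_card_image ι univ]
    rw [sum_congr rfl (fun i hi => ?_), sum_const, smul_eq_mul]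
    obtain ⟨g, -, rfl⟩ := mem_image.mp hi
    exact hcl g
  have hNR : (Fintype.card G : ℝ) = m * q := by exact_mod_cast hN
  have hmn : m ≤ n := by
    calc m ≤ #(univ : Finset (Fin n)) := card_le_card (subset_univ _)
      _ = n := by simp
  have hvn : n * #A0 ≤ Fintype.card V := by
    have h1 : Fintype.card V = ∑ i : Fin n, #(part A i) := by
      rw [← card_univ]
      exact Finset.card_eq_sum_card_fiberwise (fun x _ => mem_univ _)
    rw [h1]
    calc n * #A0 = ∑ _i : Fin n, #A0 := by simp
      _ ≤ ∑ i : Fin n, #(part A i) := sum_le_sum fun i _ => hmin i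
  have hma : (m : ℝ) * #A0 ≤ Fintype.card V := by
    have : m * #A0 ≤ Fintype.card V := (Nat.mul_le_mul_right _ hmn).trans hvn
    exact_mod_cast this
  have hv : (0 : ℝ) < Fintype.card V := by exact_mod_cast Fintype.card_pos
  have hNpos : (0 : ℝ) < Fintype.card G := by exact_mod_cast Fintype.card_pos
  have hmpos : (0 : ℝ) < m := by
    rw [hNR] at hNpos
    exact pos_of_mul_pos_left hNpos hqR.le
  -- the set of translates containing `x`
  set T : V → Finset G := fun x => univ.filter (fun g => g⁻¹ • x ∈ A0) with hT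
  have hmT : ∀ x g, g ∈ T x ↔ g⁻¹ • x ∈ A0 := fun x g => by simp [hT]
  have hTcard : ∀ x, (Fintype.card V : ℝ) * #(T x) = Fintype.card G * #A0 := by
    intro x
    have h1 := avg (G := G) htr (fun y => if y ∈ A0 then (1 : ℝ) else 0) x
    rw [← Finset.natCast_card_filter, ← Finset.natCast_card_filter] at h1
    have h2 : (univ.filter (fun y => y ∈ A0)) = A0 := by ext; simp
    rw [h2] at h1
    exact h1
  have hTle : ∀ x, (#(T x) : ℝ) ≤ q := by
    intro x
    have h1 := hTcard x
    rw [hNR] at h1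
    have h2 : (Fintype.card V : ℝ) * #(T x) ≤ Fintype.card V * q := by
      rw [h1]
      have h3 := mul_le_mul_of_nonneg_right hma hqR.le
      linarith
    exact le_of_mul_le_mul_left h2 hv
  -- the number of elements of the class of `g` missing `x`
  set u : G → V → ℕ := fun g x => #{g' | ι g' = ι g ∧ g'⁻¹ • x ∉ A0} with hu
  have hucls : ∀ g g' x, ι g = ι g' → u g x = u g' x := by
    intro g g' x he
    simp only [hu, he]
  have huinv : ∀ k g x, u (k * g) (k • x) = u g x := by
    intro k g x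
    simp only [hu]
    refine Finset.card_bij (fun g' _ => k⁻¹ * g') ?_ ?_ ?_
    · intro g' hg'
      simp only [mem_filter, mem_univ, true_and] at hg' ⊢
      refine ⟨?_, ?_⟩
      · have := (hinv k⁻¹ g' (k * g)).mpr hg'.1
        rwa [inv_mul_cancel_left] at this
      · have h1 := hg'.2
        rw [← mul_smul] at h1
        rwa [mul_inv_rev, inv_inv]
    · intro x _ y _ hxy
      exact mul_left_cancel hxy
    · intro g' hg'
      simp only [mem_filter, mem_univ, true_and] at hg'
      refine ⟨k * g', ?_, by group⟩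
      simp only [mem_filter, mem_univ, true_and]
      refine ⟨(hinv k g' g).mpr hg'.1, ?_⟩
      rw [mul_inv_rev, mul_smul, inv_smul_smul]
      exact hg'.2
  -- a dominant class
  have hdom : ∀ x, ∃ g, C * u g x < q := by
    by_contra hcon
    push Not at hcon
    obtain ⟨x0, hx0⟩ := hcon
    have hall : ∀ x g, (q : ℝ) ≤ C * u g x := by
      intro x g
      obtain ⟨k, rfl⟩ := htr x0 x
      have := hx0 (k⁻¹ * g)
      rw [← huinv k, mul_inv_cancel_left] at this
      exact this
    have h1 : ∑ x, ∑ g ∈ T x, (q : ℝ) ≤ ∑ x, ∑ g ∈ T x, C * u g x :=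
      sum_le_sum fun x _ => sum_le_sum fun g _ => hall x g
    have h2 : ∑ x : V, ∑ g ∈ T x, (q : ℝ) = q * (Fintype.card G * #A0) := by
      have e1 : ∀ x, ∑ g ∈ T x, (q : ℝ) = q * #(T x) := by
        intro x; rw [sum_const, nsmul_eq_mul]; ring
      rw [sum_congr rfl (fun x _ => e1 x), ← mul_sum]
      congr 1
      obtain ⟨x1⟩ := (inferInstance : Nonempty V)
      have e2 : ∀ x, (#(T x) : ℝ) = #(T x1) := by
        intro x
        have e3 := hTcard x
        have e4 := hTcard x1
        rw [← e4] at e3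
        exact mul_left_cancel₀ hv.ne' e3
      rw [sum_congr rfl (fun x _ => e2 x), sum_const, card_univ, nsmul_eq_mul, hTcard]
    have h3 : ∑ x, ∑ g ∈ T x, C * (u g x : ℝ)
        = ∑ g, ∑ g' ∈ univ.filter (fun g' => ι g' = ι g), C * #(tr g A0 \ tr g' A0) := by
      have e1 : ∀ x, ∑ g ∈ T x, C * (u g x : ℝ) = ∑ g, ∑ g', C *
          (if g⁻¹ • x ∈ A0 ∧ ι g' = ι g ∧ g'⁻¹ • x ∉ A0 then (1 : ℝ) else 0) := by
        intro x
        simp only [hT, sum_filter]
        refine sum_congr rfl fun g _ => ?_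
        split_ifs with hx
        · rw [← mul_sum]
          congr 1
          simp only [hu]
          rw [Finset.natCast_card_filter]
          refine sum_congr rfl fun g' _ => ?_
          simp [hx]
        · symm
          refine sum_eq_zero fun g' _ => ?_
          simp [hx]
      rw [sum_congr rfl (fun x _ => e1 x), sum_comm]
      refine sum_congr rfl fun g _ => ?_
      rw [sum_comm, sum_filter]
      refine sum_congr rfl fun g' _ => ?_
      rw [← mul_sum]
      split_ifs with hgg
      · congr 1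
        have : tr g A0 \ tr g' A0 = univ.filter (fun x => g⁻¹ • x ∈ A0 ∧ g'⁻¹ • x ∉ A0) := by
          ext x; simp [mem_tr]
        rw [this, Finset.natCast_card_filter]
        refine sum_congr rfl fun x _ => ?_
        simp [hgg]
      · rw [sum_eq_zero, mul_zero]
        intro x _
        simp [hgg]
    have h4 : ∑ g, ∑ g' ∈ univ.filter (fun g' => ι g' = ι g), C * (#(tr g A0 \ tr g' A0) : ℝ)
        < q * (Fintype.card G * #A0) := by
      have e1 : (q : ℝ) * (Fintype.card G * #A0) = ∑ g : G, ∑ g' ∈ univ.filter (fun g' => ι g' = ι g),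
          (#A0 : ℝ) := by
        rw [sum_congr rfl (fun g _ => by rw [sum_const, hcl g, nsmul_eq_mul]), sum_const, card_univ,
          nsmul_eq_mul]
        ring
      rw [e1]
      refine sum_lt_sum_of_nonempty univ_nonempty fun g _ => ?_
      refine sum_lt_sum_of_nonempty ⟨g, by simp⟩ fun g' hg' => ?_
      simp only [mem_filter, mem_univ, true_and] at hg'
      rw [card_sdiff_real, card_tr]
      exact (hR g g').mp hg'.symm
    linarith
  have hqu : ∀ g x, (#{g' | ι g' = ι g ∧ g'⁻¹ • x ∈ A0} : ℝ) = q - u g x := by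
    intro g x
    have e1 : #{g' | ι g' = ι g ∧ g'⁻¹ • x ∈ A0} + #{g' | ι g' = ι g ∧ g'⁻¹ • x ∉ A0} = q := by
      rw [← hcl g, ← Finset.card_filter_add_card_filter_not (s := univ.filter (fun g' => ι g' = ι g))
        (fun g' => g'⁻¹ • x ∈ A0), filter_filter, filter_filter]
    have e2 : (#{g' | ι g' = ι g ∧ g'⁻¹ • x ∈ A0} : ℝ) + u g x = q := by exact_mod_cast e1
    linarith
  have huniq : ∀ x g g', C * u g x < q → C * u g' x < q → ι g = ι g' := by
    intro x g g' h1 h2
    by_contra hne
    have e1 : #{g1 | ι g1 = ι g ∧ g1⁻¹ • x ∈ A0} + #{g1 | ι g1 = ι g' ∧ g1⁻¹ • x ∈ A0}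
        ≤ #(T x) := by
      rw [← card_union_of_disjoint]
      · refine card_le_card fun g1 hg1 => ?_
        rw [hmT]
        rcases mem_union.mp hg1 with h5 | h5
        · exact (mem_filter.mp h5).2.2
        · exact (mem_filter.mp h5).2.2
      · refine Finset.disjoint_left.mpr fun g1 hg1 hg1' => hne ?_
        exact (mem_filter.mp hg1).2.1.symm.trans (mem_filter.mp hg1').2.1
    have e2 : (#{g1 | ι g1 = ι g ∧ g1⁻¹ • x ∈ A0} : ℝ) + #{g1 | ι g1 = ι g' ∧ g1⁻¹ • x ∈ A0}
        ≤ #(T x) := by exact_mod_cast e1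
    rw [hqu, hqu] at e2
    have e3 := hTle x
    have e4 : (q : ℝ) ≤ u g x + u g' x := by linarith
    have e5 := mul_le_mul_of_nonneg_left e4 (show (0 : ℝ) ≤ C by linarith)
    have e6 := mul_le_mul_of_nonneg_right hC hqR.le
    linarith
  choose gx hgx using hdom
  set P : V → Fin n := fun x => ι (gx x) with hP
  have hPiff : ∀ x g, P x = ι g ↔ C * u g x < q := by
    intro x g
    constructor
    · intro he
      rw [← hucls (gx x) g x he]
      exact hgx x
    · intro h1
      exact huniq x _ _ (hgx x) h1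
  have hPk : ∀ k x g, P x = ι g → P (k • x) = ι (k * g) := by
    intro k x g h1
    rw [hPiff, huinv, ← hPiff]
    exact h1
  have hPeq : ∀ (k : G) (x y : V), P x = P y → P (k • x) = P (k • y) := by
    intro k x y hxy
    rw [hPk k x (gx x) rfl, hPk k y (gx x) hxy.symm]
  have himg : image P univ = image ι univ := by
    ext i
    simp only [mem_image, mem_univ, true_and]
    constructor
    · rintro ⟨x, rfl⟩
      exact ⟨gx x, rfl⟩
    · rintro ⟨g1, rfl⟩
      obtain ⟨x1⟩ := (inferInstance : Nonempty V)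
      refine ⟨(g1 * (gx x1)⁻¹) • x1, ?_⟩
      rw [hPk _ x1 (gx x1) rfl, inv_mul_cancel_right]
  have hPm : #(image P univ) = m := by rw [himg]
  have hfib : ∀ i ∈ image P univ, m * #(part P i) = Fintype.card V := by
    intro i hi
    have e1 : ∀ i ∈ image P univ, ∀ j ∈ image P univ, #(part P i) ≤ #(part P j) := by
      intro i hi j hj
      obtain ⟨x, -, hx⟩ := mem_image.mp hi
      obtain ⟨y, -, hy⟩ := mem_image.mp hj
      obtain ⟨k, hk⟩ := htr x y
      refine Finset.card_le_card_of_injOn (fun z => k • z) ?_ ?_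
      · intro z hz
        have hz' : P z = i := (mem_part P i z).mp hz
        have : P (k • z) = P (k • x) := hPeq k z x (hz'.trans hx.symm)
        rw [hk, hy] at this
        exact (mem_part P j _).mpr this
      · intro z _ w _ hzw
        exact MulAction.injective k hzw
    have e2 : Fintype.card V = ∑ j ∈ image P univ, #(part P j) := by
      rw [← card_univ, Finset.card_eq_sum_card_image P univ]
      rfl
    rw [e2, sum_congr rfl (fun j hj => le_antisymm (e1 j hj i hi) (e1 i hi j hj)), sum_const,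
      smul_eq_mul, hPm]
  -- the cross degree
  obtain ⟨x1⟩ := (inferInstance : Nonempty V)
  set r : ℕ := #{y | Γ.Adj x1 y ∧ P y ≠ P x1} with hr
  have hrx : ∀ x, #{y | Γ.Adj x y ∧ P y ≠ P x} = r := by
    intro x
    obtain ⟨k, hk⟩ := htr x x1
    rw [hr, ← hk]
    refine Finset.card_bij (fun y _ => k • y) ?_ ?_ ?_
    · intro y hy
      simp only [mem_filter, mem_univ, true_and] at hy ⊢
      refine ⟨(hadj k x y).mpr hy.1, fun h1 => hy.2 ?_⟩
      have := hPeq k⁻¹ _ _ h1
      rwa [inv_smul_smul, inv_smul_smul] at this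
    · intro y _ z _ hyz
      exact MulAction.injective k hyz
    · intro y hy
      simp only [mem_filter, mem_univ, true_and] at hy
      refine ⟨k⁻¹ • y, ?_, by simp⟩
      simp only [mem_filter, mem_univ, true_and]
      refine ⟨?_, fun h1 => hy.2 ?_⟩
      · have := (hadj k x (k⁻¹ • y)).mp (by rw [smul_inv_smul]; exact hy.1)
        exact this
      · have := hPeq k _ _ h1
        rwa [smul_inv_smul] at this
  have hbound : (C - 2) * r ≤ C * h := by
    have e1 : ∑ g : G, 2 * (bdry Γ (tr g A0) : ℝ) ≤ 2 * (Fintype.card G * (h * #A0)) := by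
      have e2 := hg.hA i0
      rw [← hA0] at e2
      rw [sum_congr rfl (fun g _ => by rw [bdry_tr Γ hadj]), sum_const, card_univ, nsmul_eq_mul]
      have e3 := mul_le_mul_of_nonneg_left e2 hNpos.le
      linarith
    have e3 : ∑ g : G, 2 * (bdry Γ (tr g A0) : ℝ)
        = ∑ x, ∑ y, if Γ.Adj x y then
          ((#{g : G | (g⁻¹ • x ∈ A0 ∧ g⁻¹ • y ∉ A0) ∨ (g⁻¹ • x ∉ A0 ∧ g⁻¹ • y ∈ A0)} : ℕ) : ℝ)
          else 0 := by
      rw [sum_congr rfl (fun g _ => two_bdry Γ (tr g A0)), sum_comm]
      refine sum_congr rfl fun x _ => ?_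
      rw [sum_comm]
      refine sum_congr rfl fun y _ => ?_
      by_cases hxy : Γ.Adj x y
      · simp only [hxy, if_true, mem_tr]
        rw [Finset.natCast_card_filter]
      · simp only [hxy, if_false, sum_const_zero]
    have e4 : ∀ x y, P y ≠ P x → 2 * ((C - 2) * q) ≤ C *
        (#{g : G | (g⁻¹ • x ∈ A0 ∧ g⁻¹ • y ∉ A0) ∨ (g⁻¹ • x ∉ A0 ∧ g⁻¹ • y ∈ A0)} : ℝ) := by
      have half : ∀ x y, P y ≠ P x →
          (C - 2) * q ≤ C * (#{g : G | g⁻¹ • x ∈ A0 ∧ g⁻¹ • y ∉ A0} : ℝ) := by
        intro x y hxy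
        have f1 := hqu (gx x) x
        have f2 := hqu (gx y) y
        have f3 : #{g' | ι g' = ι (gx x) ∧ g'⁻¹ • x ∈ A0}
            ≤ #{g : G | g⁻¹ • x ∈ A0 ∧ g⁻¹ • y ∉ A0} + #{g' | ι g' = ι (gx x) ∧ g'⁻¹ • y ∈ A0} := by
          refine le_trans (card_le_card ?_) (card_union_le _ _)
          intro g' hg'
          simp only [mem_union, mem_filter, mem_univ, true_and] at hg' ⊢
          by_cases hy : g'⁻¹ • y ∈ A0
          · exact Or.inr ⟨hg'.1, hy⟩
          · exact Or.inl ⟨hg'.2, hy⟩
        have f4 : #{g' | ι g' = ι (gx x) ∧ g'⁻¹ • y ∈ A0} + #{g' | ι g' = ι (gx y) ∧ g'⁻¹ • y ∈ A0}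
            ≤ #(T y) := by
          rw [← card_union_of_disjoint]
          · refine card_le_card fun g1 hg1 => ?_
            rw [hmT]
            rcases mem_union.mp hg1 with h5 | h5
            · exact (mem_filter.mp h5).2.2
            · exact (mem_filter.mp h5).2.2
          · refine Finset.disjoint_left.mpr fun g1 hg1 hg1' => hxy ?_
            exact (mem_filter.mp hg1').2.1.symm.trans (mem_filter.mp hg1).2.1
        have f3' : (#{g' | ι g' = ι (gx x) ∧ g'⁻¹ • x ∈ A0} : ℝ)
            ≤ #{g : G | g⁻¹ • x ∈ A0 ∧ g⁻¹ • y ∉ A0} + #{g' | ι g' = ι (gx x) ∧ g'⁻¹ • y ∈ A0} := by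
          exact_mod_cast f3
        have f4' : (#{g' | ι g' = ι (gx x) ∧ g'⁻¹ • y ∈ A0} : ℝ)
            + #{g' | ι g' = ι (gx y) ∧ g'⁻¹ • y ∈ A0} ≤ #(T y) := by exact_mod_cast f4
        have f5 := hTle y
        have f6 := hgx x
        have f7 := hgx y
        have f8 : (q : ℝ) - u (gx x) x - u (gx y) y
            ≤ #{g : G | g⁻¹ • x ∈ A0 ∧ g⁻¹ • y ∉ A0} := by linarith
        have f9 := mul_le_mul_of_nonneg_left f8 (show (0 : ℝ) ≤ C by linarith)
        linarith
      intro x y hxy
      have g1 := half x y hxy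
      have g2 := half y x (Ne.symm hxy)
      have g3 : #{g : G | (g⁻¹ • x ∈ A0 ∧ g⁻¹ • y ∉ A0) ∨ (g⁻¹ • x ∉ A0 ∧ g⁻¹ • y ∈ A0)}
          = #{g : G | g⁻¹ • x ∈ A0 ∧ g⁻¹ • y ∉ A0} + #{g : G | g⁻¹ • y ∈ A0 ∧ g⁻¹ • x ∉ A0} := by
        rw [← card_union_of_disjoint]
        · congr 1
          ext g
          simp only [mem_union, mem_filter, mem_univ, true_and]
          tauto
        · refine Finset.disjoint_left.mpr fun g hg1 hg2 => ?_
          simp only [mem_filter, mem_univ, true_and] at hg1 hg2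
          exact hg1.2 hg2.1
      rw [g3]
      push_cast
      linarith
    have e5 : 2 * ((C - 2) * q) * (Fintype.card V * r) ≤ C * ∑ g : G, 2 * (bdry Γ (tr g A0) : ℝ) := by
      rw [e3, mul_sum]
      have e6 : 2 * ((C - 2) * q) * (Fintype.card V * r)
          = ∑ x : V, ∑ y ∈ univ.filter (fun y => Γ.Adj x y ∧ P y ≠ P x), 2 * ((C - 2) * (q : ℝ)) := by
        rw [sum_congr rfl (fun x _ => by rw [sum_const, hrx x, nsmul_eq_mul]), sum_const, card_univ,
          nsmul_eq_mul]
        ring
      rw [e6]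
      refine sum_le_sum fun x _ => ?_
      rw [mul_sum, sum_filter]
      refine sum_le_sum fun y _ => ?_
      by_cases hxy : Γ.Adj x y
      · by_cases hP2 : P y ≠ P x
        · rw [if_pos ⟨hxy, hP2⟩, if_pos hxy]
          exact e4 x y hP2
        · rw [if_neg (fun h => hP2 h.2), if_pos hxy]
          exact mul_nonneg (by linarith) (Nat.cast_nonneg _)
      · rw [if_neg (fun h => hxy h.1), if_neg hxy, mul_zero]
    have hh := hg.h0
    have e7 : 2 * ((C - 2) * q) * (Fintype.card V * r) ≤ 2 * (C * h * (q * Fintype.card V)) := by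
      refine le_trans e5 ?_
      have e8 : C * ∑ g : G, 2 * (bdry Γ (tr g A0) : ℝ)
          ≤ C * (2 * (Fintype.card G * (h * #A0))) := mul_le_mul_of_nonneg_left e1 (by linarith)
      refine le_trans e8 ?_
      rw [hNR]
      have e9 : (m : ℝ) * q * (h * #A0) ≤ h * (q * Fintype.card V) := by
        have : (m : ℝ) * q * (h * #A0) = h * (q * (m * #A0)) := by ring
        rw [this]
        exact mul_le_mul_of_nonneg_left (mul_le_mul_of_nonneg_left hma hqR.le) hh
      have e12 := mul_le_mul_of_nonneg_left e9 (show (0 : ℝ) ≤ C by linarith)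
      linarith
    have e10 : 0 < 2 * ((q : ℝ) * Fintype.card V) := mul_pos two_pos (mul_pos hqR hv)
    have e11 : (C - 2) * r * (2 * ((q : ℝ) * Fintype.card V))
        ≤ C * h * (2 * ((q : ℝ) * Fintype.card V)) := by linarith
    exact le_of_mul_le_mul_right e11 e10
  refine ⟨P, r, #A0, hPeq, ?_, hmin, ?_, hrx, hbound, ?_⟩
  · intro i hi
    rw [hPm]
    exact hfib i hi
  · -- the smallest part is almost a block
    rw [hPm]
    have f1 := hqu (gx x1) x1
    have f2 : #{g' | ι g' = ι (gx x1) ∧ g'⁻¹ • x1 ∈ A0} ≤ #(T x1) := by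
      refine card_le_card fun g1 hg1 => ?_
      rw [hmT]
      exact (mem_filter.mp hg1).2.2
    have f2' : (#{g' | ι g' = ι (gx x1) ∧ g'⁻¹ • x1 ∈ A0} : ℝ) ≤ #(T x1) := by exact_mod_cast f2
    have f3 := hgx x1
    have f4 : (C - 1) * q < C * #(T x1) := by
      have f8 := mul_le_mul_of_nonneg_left f2' (show (0 : ℝ) ≤ C by linarith)
      rw [f1] at f8
      linarith
    have f5 : (C - 1) * q * Fintype.card V < C * #(T x1) * Fintype.card V :=
      mul_lt_mul_of_pos_right f4 hv
    have f6 : C * #(T x1) * Fintype.card V = C * (m * q * #A0) := by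
      rw [← hNR, ← hTcard x1]; ring
    rw [f6] at f5
    have f7 : (C - 1) * Fintype.card V * q < C * m * #A0 * q := by linarith
    exact lt_of_mul_lt_mul_right f7 hqR.le
  · intro i hi
    rw [hPm]
    have hi' := hi
    rw [himg] at hi'
    obtain ⟨g0, -, hg0⟩ := mem_image.mp hi'
    obtain ⟨y0, -, hy0⟩ := mem_image.mp hi
    have k1 : ∃ g, ι g = i ∧ C * #(part P i \ tr g A0) < #(part P i) := by
      by_contra hcon
      push Not at hcon
      have e1 : ∑ g ∈ univ.filter (fun g => ι g = ι g0), (#(part P i) : ℝ)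
          ≤ ∑ g ∈ univ.filter (fun g => ι g = ι g0), C * (#(part P i \ tr g A0) : ℝ) := by
        refine sum_le_sum fun g hg1 => ?_
        simp only [mem_filter, mem_univ, true_and] at hg1
        exact hcon g (hg1.trans hg0)
      rw [sum_const, hcl, nsmul_eq_mul, ← mul_sum] at e1
      have e2 : ∑ g ∈ univ.filter (fun g => ι g = ι g0), (#(part P i \ tr g A0) : ℝ)
          = ∑ x ∈ part P i, (u g0 x : ℝ) := by
        have e3 : ∀ g : G, (#(part P i \ tr g A0) : ℝ)
            = ∑ x ∈ part P i, if g⁻¹ • x ∉ A0 then (1 : ℝ) else 0 := by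
          intro g
          rw [← Finset.natCast_card_filter]
          congr 2
          ext x
          simp [mem_tr]
        rw [sum_congr rfl (fun g _ => e3 g), sum_comm]
        refine sum_congr rfl fun x _ => ?_
        rw [← Finset.natCast_card_filter, filter_filter]
      rw [e2, mul_sum] at e1
      have e4 : ∑ x ∈ part P i, C * (u g0 x : ℝ) < ∑ x ∈ part P i, (q : ℝ) := by
        refine sum_lt_sum_of_nonempty ⟨y0, (mem_part P i y0).mpr hy0⟩ fun x hx => ?_
        rw [mem_part] at hx
        exact (hPiff x g0).mp (hx.trans hg0.symm)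
      rw [sum_const, nsmul_eq_mul] at e4
      linarith
    obtain ⟨g, hgi, hglt⟩ := k1
    have k2 := hι g
    rw [hgi] at k2
    have k3 := card_sdiff_real (part A i) (tr g A0)
    have k4 : (#(tr g A0 \ part A i) : ℝ) = #A0 - #(part A i ∩ tr g A0) := by
      rw [card_sdiff_real, card_tr, inter_comm]
    have k5 : #(part P i \ part A i) ≤ #(part P i \ tr g A0) + #(tr g A0 \ part A i) := by
      refine le_trans (card_le_card ?_) (card_union_le _ _)
      intro x hx
      rw [mem_sdiff] at hx
      by_cases h5 : x ∈ tr g A0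
      · exact mem_union_right _ (mem_sdiff.mpr ⟨h5, hx.2⟩)
      · exact mem_union_left _ (mem_sdiff.mpr ⟨hx.1, h5⟩)
    have k5' : (#(part P i \ part A i) : ℝ) ≤ #(part P i \ tr g A0) + #(tr g A0 \ part A i) := by
      exact_mod_cast k5
    have k6 : (#A0 : ℝ) ≤ #(part A i) := by exact_mod_cast hmin i
    have k7 : C * (#(part P i \ part A i) : ℝ) < #(part P i) + 2 * #A0 := by
      have t1 := mul_le_mul_of_nonneg_left k5' (show (0 : ℝ) ≤ C by linarith)
      have t2 := mul_nonneg (show (0 : ℝ) ≤ C - 2 by linarith)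
        (show (0 : ℝ) ≤ #(part A i) - #A0 by linarith)
      rw [k4] at t1
      rw [k3] at k2
      linarith
    have k8 : (m : ℝ) * #(part P i) = Fintype.card V := by exact_mod_cast hfib i hi
    have k9 : (m : ℝ) * (C * #(part P i \ part A i)) < m * (#(part P i) + 2 * #A0) :=
      mul_lt_mul_of_pos_left k7 hmpos
    linarith

end Pool.Agent.R3.Iso
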