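import Pool.Agent.R3.Iso4

/-!
Definitions of the multi-way isoperimetric constants and the passage to the core statement.
-/

set_option autoImplicit false

namespace Pool.Agent.R3.Iso

open Finset

variable {V : Type*} [Fintype V] [DecidableEq V] (Γ : SimpleGraph V) [DecidableRel Γ.Adj]

/-- A partition of the vertex set into `n` nonempty parts is given by a surjection `P : V → Fin n`.
`maxRatio Γ P` is the largest of the ratios `|∂ A| / |A|` over its parts `A`. -/
noncomputable def maxRatio {n : ℕ} (P : V → Fin n) : ℝ :=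
  ⨆ i : Fin n, (bdry Γ (part P i) : ℝ) / #(part P i)

/-- the `n`-way isoperimetric constant: the minimum of `maxRatio Γ P` over all partitions into `n`
nonempty parts -/
noncomputable def isoConst (n : ℕ) : ℝ :=
  ⨅ P : {P : V → Fin n // Function.Surjective P}, maxRatio Γ P.1

omit [Fintype V] [DecidableEq V] [DecidableRel Γ.Adj] in
/-- `Γ` is vertex-transitive -/
def VertexTransitive : Prop := ∀ x y : V, ∃ σ : Γ ≃g Γ, σ x = y

omit [DecidableRel Γ.Adj] in
/-- the partition `P` is a system of imprimitivity for the action of the automorphism group -/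
def IsBlockSystem {n : ℕ} (P : V → Fin n) : Prop :=
  Function.Surjective P ∧ ∀ (σ : Γ ≃g Γ) (i : Fin n), ∃ j, (part P i).image σ = part P j

variable {Γ}

lemma maxRatio_nonneg {n : ℕ} (P : V → Fin n) : 0 ≤ maxRatio Γ P :=
  Real.iSup_nonneg fun _ => div_nonneg (Nat.cast_nonneg _) (Nat.cast_nonneg _)

lemma isoConst_nonneg (n : ℕ) : 0 ≤ isoConst Γ n :=
  Real.iInf_nonneg fun _ => maxRatio_nonneg _

lemma isoConst_le {n : ℕ} (P : V → Fin n) (hP : Function.Surjective P) :
    isoConst Γ n ≤ maxRatio Γ P :=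
  ciInf_le (f := fun P : {P : V → Fin n // Function.Surjective P} => maxRatio Γ P.1)
    (Set.finite_range _).bddBelow ⟨P, hP⟩

lemma part_pos_of_surj {n : ℕ} {P : V → Fin n} (hP : Function.Surjective P) (i : Fin n) :
    0 < (#(part P i) : ℝ) := by
  obtain ⟨x, hx⟩ := hP i
  have : 0 < #(part P i) := card_pos.mpr ⟨x, (mem_part P i x).mpr hx⟩
  exact_mod_cast this

lemma exists_surj {n : ℕ} (hn : 0 < n) (hV : n ≤ Fintype.card V) :
    ∃ P : V → Fin n, Function.Surjective P := by
  have h1 : Nonempty (Fin n ↪ V) := by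
    rw [← Fintype.card_fin n] at hV
    exact Function.Embedding.nonempty_of_card_le hV
  obtain ⟨f⟩ := h1
  have : Nonempty (Fin n) := ⟨⟨0, hn⟩⟩
  exact ⟨Function.invFun f, Function.invFun_surjective f.injective⟩

/-- the gap structure from a jump of the isoperimetric constants -/
lemma exists_gap {n : ℕ} (hn : 0 < n) (hV : n ≤ Fintype.card V) {C : ℝ} (hC : 6 ≤ C)
    (h : C * isoConst Γ n < isoConst Γ (n + 1)) :
    ∃ A : V → Fin n, Gap Γ A (isoConst Γ n) C := by
  obtain ⟨P0, hP0⟩ := exists_surj hn hV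
  have hne : Nonempty {P : V → Fin n // Function.Surjective P} := ⟨⟨P0, hP0⟩⟩
  obtain ⟨A, hA⟩ := exists_eq_ciInf_of_finite
    (f := fun P : {P : V → Fin n // Function.Surjective P} => maxRatio Γ P.1)
  refine ⟨A.1, A.2, ?_, ?_, isoConst_nonneg n, hC⟩
  · intro i
    have h1 : (bdry Γ (part A.1 i) : ℝ) / #(part A.1 i) ≤ maxRatio Γ A.1 :=
      le_ciSup (f := fun i : Fin n => (bdry Γ (part A.1 i) : ℝ) / #(part A.1 i))
        (Set.finite_range _).bddAbove i
    rw [div_le_iff₀ (part_pos_of_surj A.2 i)] at h1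
    have h2 : maxRatio Γ A.1 = isoConst Γ n := hA
    rw [h2] at h1
    exact h1
  · intro Q hQ
    have h1 : C * isoConst Γ n < maxRatio Γ Q := lt_of_lt_of_le h (isoConst_le Q hQ)
    obtain ⟨i, hi⟩ := exists_eq_ciSup_of_finite
      (f := fun i : Fin (n + 1) => (bdry Γ (part Q i) : ℝ) / #(part Q i))
    refine ⟨i, ?_⟩
    have h2 : (bdry Γ (part Q i) : ℝ) / #(part Q i) = maxRatio Γ Q := hi
    rw [← h2, lt_div_iff₀ (part_pos_of_surj hQ i)] at h1
    exact h1

variable (Γ) in
/-- number of adjacent ordered pairs in `X × Y` -/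
noncomputable def eb (X Y : Finset V) : ℝ := ∑ x ∈ X, ∑ y ∈ Y, if Γ.Adj x y then (1 : ℝ) else 0

lemma eb_comm (X Y : Finset V) : eb Γ X Y = eb Γ Y X := by
  unfold eb
  rw [sum_comm]
  refine sum_congr rfl fun y _ => sum_congr rfl fun x _ => ?_
  simp only [SimpleGraph.adj_comm]

lemma eb_nonneg (X Y : Finset V) : 0 ≤ eb Γ X Y :=
  sum_nonneg fun _ _ => sum_nonneg fun _ _ => by split_ifs <;> norm_num

lemma bdry_eb (X : Finset V) : (bdry Γ X : ℝ) = eb Γ X Xᶜ := by
  rw [bdry_eq, eb, ← sum_filter_add_sum_filter_not univ (fun x => x ∈ X)]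
  have e1 : ∑ x ∈ univ.filter (fun x => x ∉ X),
      ∑ y, (if x ∈ X ∧ y ∉ X ∧ Γ.Adj x y then (1 : ℝ) else 0) = 0 := by
    refine sum_eq_zero fun x hx => sum_eq_zero fun y _ => ?_
    rw [mem_filter] at hx
    rw [if_neg (fun h => hx.2 h.1)]
  rw [e1, add_zero]
  have e2 : univ.filter (fun x => x ∈ X) = X := by ext; simp
  rw [e2]
  refine sum_congr rfl fun x hx => ?_
  have e3 : Xᶜ = univ.filter (fun y => y ∉ X) := by ext; simp
  rw [e3, sum_filter]
  refine sum_congr rfl fun y _ => ?_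
  by_cases hy : y ∉ X <;> by_cases hxy : Γ.Adj x y <;> simp [hx, hy, hxy]

/-- boundary of a subset of a block -/
lemma bdry_block {n : ℕ} {P : V → Fin n} {r : ℕ} (hr : ∀ x, #{y | Γ.Adj x y ∧ P y ≠ P x} = r)
    (j : Fin n) (X : Finset V) (hX : X ⊆ part P j) :
    (bdry Γ X : ℝ) = eb Γ X (part P j \ X) + r * #X := by
  rw [bdry_eb]
  have h1 : Xᶜ = (part P j \ X) ∪ (part P j)ᶜ := by
    ext x
    simp only [mem_compl, mem_union, mem_sdiff]
    constructor
    · intro h
      by_cases hx : x ∈ part P j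
      · exact Or.inl ⟨hx, h⟩
      · exact Or.inr hx
    · rintro (h | h)
      · exact h.2
      · exact fun h' => h (hX h')
  have h2 : Disjoint (part P j \ X) (part P j)ᶜ := by
    refine Finset.disjoint_left.mpr fun x hx hx' => ?_
    rw [mem_compl] at hx'
    exact hx' (mem_sdiff.mp hx).1
  unfold eb
  rw [h1, sum_congr rfl (fun x _ => sum_union h2), sum_add_distrib]
  congr 1
  have h3 : ∀ x ∈ X, ∑ y ∈ (part P j)ᶜ, (if Γ.Adj x y then (1 : ℝ) else 0) = r := by
    intro x hx
    have hxj : P x = j := (mem_part P j x).mp (hX hx)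
    rw [← hr x, Finset.natCast_card_filter, sum_ite, sum_const_zero, add_zero, sum_const,
      nsmul_eq_mul, mul_one, ← Finset.natCast_card_filter]
    congr 2
    ext y
    simp only [mem_filter, mem_compl, mem_part, mem_univ, true_and, hxj]
    tauto
  rw [sum_congr rfl h3, sum_const, nsmul_eq_mul]
  ring

lemma bdry_part {n : ℕ} {P : V → Fin n} {r : ℕ} (hr : ∀ x, #{y | Γ.Adj x y ∧ P y ≠ P x} = r)
    (j : Fin n) : (bdry Γ (part P j) : ℝ) = r * #(part P j) := by
  rw [bdry_block hr j _ (Finset.Subset.refl _)]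
  simp [eb]

/-- the core applied to the full automorphism group -/
theorem core_aut [Nonempty V] (hvt : VertexTransitive Γ) {n : ℕ} {A : V → Fin n} {h C : ℝ}
    (hn : 0 < n) (hg : Gap Γ A h C) :
    ∃ (P : V → Fin n) (r a : ℕ),
      (∀ (σ : Γ ≃g Γ) (x y : V), P x = P y → P (σ x) = P (σ y)) ∧
      (∀ i ∈ image P univ, #(image P univ) * #(part P i) = Fintype.card V) ∧
      (∀ i, a ≤ #(part A i)) ∧
      (C - 1) * Fintype.card V < C * #(image P univ) * a ∧
      (∀ x, #{y | Γ.Adj x y ∧ P y ≠ P x} = r) ∧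
      (C - 2) * r ≤ C * h ∧
      (∀ i ∈ image P univ, C * #(image P univ) * #(part P i \ part A i) < 3 * Fintype.card V) := by
  classical
  have hfin : Finite (Γ ≃g Γ) :=
    Finite.of_injective (fun σ : Γ ≃g Γ => (σ : V → V)) DFunLike.coe_injective
  letI : Fintype (Γ ≃g Γ) := Fintype.ofFinite _
  letI : MulAction (Γ ≃g Γ) V :=
    { smul := fun σ x => σ x
      one_smul := fun _ => rfl
      mul_smul := fun _ _ _ => rfl }
  have key := core (Γ := Γ) (A := A) (h := h) (C := C) (G := Γ ≃g Γ) hvt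
    (fun g x y => g.map_adj_iff) hn hg
  obtain ⟨P, r, a, h1, h2, h3, h4, h5, h6, h7⟩ := key
  refine ⟨P, r, a, h1, ?_, h3, ?_, ?_, h6, ?_⟩
  · convert h2
  · convert h4
  · convert h5
  · convert h7

/-- a surjective equivariant colouring is a system of imprimitivity -/
lemma isBlockSystem_of {n : ℕ} {P : V → Fin n} (hs : Function.Surjective P)
    (hP : ∀ (σ : Γ ≃g Γ) (x y : V), P x = P y → P (σ x) = P (σ y)) : IsBlockSystem Γ P := by
  refine ⟨hs, fun σ i => ?_⟩
  obtain ⟨x, hx⟩ := hs i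
  refine ⟨P (σ x), ?_⟩
  ext y
  rw [mem_image, mem_part]
  constructor
  · rintro ⟨z, hz, rfl⟩
    exact hP σ z x (((mem_part P i z).mp hz).trans hx.symm)
  · intro hy
    refine ⟨σ.symm y, ?_, by simp⟩
    rw [mem_part, ← hx]
    have := hP σ.symm y (σ x) hy
    simpa using this

end Pool.Agent.R3.Iso
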