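import Pool.Agent.R3.Iso5

/-!
A large gap forces a system of imprimitivity that realizes the isoperimetric constant.
-/

set_option autoImplicit false

namespace Pool.Agent.R3.Iso

open Finset

variable {V : Type*} [Fintype V] [DecidableEq V] {Γ : SimpleGraph V} [DecidableRel Γ.Adj]

/-- carving a set out of an arbitrary colouring -/
lemma carve_gen {n : ℕ} {P : V → Fin n} {K : ℝ}
    (hQ : ∀ Q : V → Fin (n + 1), Function.Surjective Q → ∃ i, K * #(part Q i) < bdry Γ (part Q i))
    (B : Finset V) (hB : B.Nonempty) (hPB : ∀ i, (part P i \ B).Nonempty) :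
    K * #B < bdry Γ B ∨ ∃ i, K * #(part P i \ B) < bdry Γ (part P i \ B) := by
  set Q : V → Fin (n + 1) := fun x => if x ∈ B then Fin.last n else (P x).castSucc with hQdef
  have hlast : part Q (Fin.last n) = B := by
    ext x
    rw [mem_part, hQdef]
    simp only
    split_ifs with hx
    · exact ⟨fun _ => hx, fun _ => rfl⟩
    · exact ⟨fun h => absurd h (Fin.castSucc_lt_last _).ne, fun h => absurd h hx⟩
  have hcast : ∀ i : Fin n, part Q i.castSucc = part P i \ B := by
    intro i
    ext x
    rw [mem_part, mem_sdiff, mem_part, hQdef]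
    simp only
    split_ifs with hx
    · exact ⟨fun h => absurd h.symm (Fin.castSucc_lt_last _).ne, fun h => absurd hx h.2⟩
    · rw [Fin.castSucc_inj]
      exact ⟨fun h => ⟨h, hx⟩, fun h => h.1⟩
  have hsurj : Function.Surjective Q := by
    intro j
    refine Fin.lastCases ?_ (fun i => ?_) j
    · obtain ⟨x, hx⟩ := hB
      exact ⟨x, by rw [← mem_part, hlast]; exact hx⟩
    · obtain ⟨x, hx⟩ := hPB i
      exact ⟨x, by rw [← mem_part, hcast]; exact hx⟩
  obtain ⟨j, hj⟩ := hQ Q hsurj
  revert hj
  refine Fin.lastCases ?_ (fun i => ?_) j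
  · intro hj
    rw [hlast] at hj
    exact Or.inl hj
  · intro hj
    rw [hcast] at hj
    exact Or.inr ⟨i, hj⟩

/-- internal boundaries of small subsets of a block are large -/
lemma internal_large {n : ℕ} {P : V → Fin n} (hP : Function.Surjective P) {K : ℝ} {r : ℕ}
    (hQ : ∀ Q : V → Fin (n + 1), Function.Surjective Q → ∃ i, K * #(part Q i) < bdry Γ (part Q i))
    (hr : ∀ x, #{y | Γ.Adj x y ∧ P y ≠ P x} = r) (hrK : (r : ℝ) ≤ K) (j : Fin n) (X : Finset V)
    (hX : X ⊆ part P j) (h2 : 2 * #X ≤ #(part P j)) :
    (K - r) * #X ≤ eb Γ X (part P j \ X) := by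
  rcases X.eq_empty_or_nonempty with rfl | hne
  · simp [eb]
  · have hXpos : 0 < #X := card_pos.mpr hne
    have hcard : #(part P j \ X) + #X = #(part P j) := card_sdiff_add_card_eq_card hX
    have hne2 : (part P j \ X).Nonempty := card_pos.mp (by omega)
    have hdis : ∀ i, i ≠ j → part P i \ X = part P i := by
      intro i hi
      rw [Finset.sdiff_eq_self_iff_disjoint]
      refine Finset.disjoint_left.mpr fun x hx hx' => ?_
      have := (mem_part P j x).mp (hX hx')
      rw [mem_part] at hx
      exact hi (hx.symm.trans this)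
    rcases carve_gen (P := P) hQ X hne (by
      intro i
      by_cases hi : i = j
      · rw [hi]; exact hne2
      · rw [hdis i hi]
        obtain ⟨x, hx⟩ := hP i
        exact ⟨x, (mem_part P i x).mpr hx⟩) with h4 | ⟨i, h4⟩
    · rw [bdry_block hr j X hX] at h4
      linarith
    · by_cases hi : i = j
      · rw [hi, bdry_block hr j _ sdiff_subset, Finset.sdiff_sdiff_eq_self hX, eb_comm] at h4
        have h5 : (#X : ℝ) ≤ #(part P j \ X) := by exact_mod_cast (by omega : #X ≤ #(part P j \ X))
        have h6 := mul_le_mul_of_nonneg_left h5 (sub_nonneg.mpr hrK)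
        linarith
      · exfalso
        rw [hdis i hi, bdry_part hr i] at h4
        have h5 : (0 : ℝ) ≤ #(part P i) := Nat.cast_nonneg _
        have h6 := mul_le_mul_of_nonneg_right hrK h5
        linarith

theorem realizer [Nonempty V] (hvt : VertexTransitive Γ) {n : ℕ} (hn : 2 ≤ n)
    (hV : n + 1 ≤ Fintype.card V)
    (h : 2 * ((n : ℝ) + 1) * isoConst Γ n < isoConst Γ (n + 1)) :
    ∃ P : V → Fin n, maxRatio Γ P = isoConst Γ n ∧ IsBlockSystem Γ P := by
  classical
  have hn2 : (2 : ℝ) ≤ n := by exact_mod_cast hn
  obtain ⟨A, hg⟩ := exists_gap (by omega : 0 < n) (by omega : n ≤ Fintype.card V)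
    (by linarith : (6 : ℝ) ≤ 2 * ((n : ℝ) + 1)) h
  obtain ⟨P, r, a, h1, h2, h3, h4, h5, h6, h7⟩ := core_aut hvt (by omega : 0 < n) hg
  set hh := isoConst Γ n with hhh
  set C : ℝ := 2 * ((n : ℝ) + 1) with hC
  set m := #(image P univ) with hm
  have hh0 : 0 ≤ hh := hg.h0
  have hv : (0 : ℝ) < Fintype.card V := by exact_mod_cast Fintype.card_pos
  have hsumA : ∑ i : Fin n, (#(part A i) : ℝ) = Fintype.card V := by
    have : Fintype.card V = ∑ i : Fin n, #(part A i) := by
      rw [← card_univ]
      exact Finset.card_eq_sum_card_fiberwise (fun x _ => mem_univ _)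
    rw [this]; push_cast; rfl
  -- all `n` colours are used
  have hna : (n : ℝ) * a ≤ Fintype.card V := by
    rw [← hsumA]
    calc (n : ℝ) * a = ∑ _i : Fin n, (a : ℝ) := by simp
      _ ≤ ∑ i : Fin n, (#(part A i) : ℝ) := sum_le_sum fun i _ => by exact_mod_cast h3 i
  have hmn : m = n := by
    have hle : m ≤ n := by
      calc m ≤ #(univ : Finset (Fin n)) := card_le_card (subset_univ _)
        _ = n := by simp
    by_contra hne
    have hlt : m + 1 ≤ n := by omega
    have hlt' : (m : ℝ) + 1 ≤ n := by exact_mod_cast hlt
    have ha0 : (0 : ℝ) ≤ a := Nat.cast_nonneg _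
    have e1 : C * m * a ≤ C * (n - 1) * a := by
      have : (m : ℝ) ≤ n - 1 := by linarith
      have hC0 : 0 ≤ C := by rw [hC]; positivity
      exact mul_le_mul_of_nonneg_right (mul_le_mul_of_nonneg_left this hC0) ha0
    have e2 : (C - 1) * (n * a) ≤ (C - 1) * Fintype.card V :=
      mul_le_mul_of_nonneg_left hna (by rw [hC]; linarith)
    have e3 : (C - 1) * (n * a) < C * (n - 1) * a := by linarith
    have e4 : (C - n) * a < 0 := by nlinarith
    have e5 : 0 ≤ (C - n) * a := mul_nonneg (by rw [hC]; linarith) ha0
    linarith
  have himg : image P univ = univ := by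
    apply Finset.eq_univ_of_card
    rw [← hm, hmn]; simp
  have hsurj : Function.Surjective P := by
    intro i
    have : i ∈ image P univ := by rw [himg]; exact mem_univ i
    obtain ⟨x, -, hx⟩ := mem_image.mp this
    exact ⟨x, hx⟩
  have hCn : C - 2 = 2 * n := by rw [hC]; ring
  have hrC : (r : ℝ) ≤ C * hh := by
    have hr0 : (0 : ℝ) ≤ r := Nat.cast_nonneg _
    have : (r : ℝ) ≤ (C - 2) * r := by rw [hCn]; nlinarith
    linarith
  have hcardP : ∀ i, (n : ℝ) * #(part P i) = Fintype.card V := by
    intro i
    have := h2 i (by rw [himg]; exact mem_univ i)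
    rw [hmn] at this
    exact_mod_cast this
  have hPpos : ∀ i, (0 : ℝ) < #(part P i) := fun i => part_pos_of_surj hsurj i
  -- less than half of each block is outside the corresponding part
  have hhalf : ∀ i, 2 * #(part P i \ part A i) < #(part P i) := by
    intro i
    have e1 := h7 i (by rw [himg]; exact mem_univ i)
    rw [hmn, ← hcardP i] at e1
    have hnpos : (0 : ℝ) < n := by linarith
    have e2 : (n : ℝ) * (C * #(part P i \ part A i)) < n * (3 * #(part P i)) := by linarith
    have e3 : C * #(part P i \ part A i) < 3 * (#(part P i) : ℝ) := lt_of_mul_lt_mul_left e2 hnpos.le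
    have e4 : 6 * (#(part P i \ part A i) : ℝ) ≤ C * #(part P i \ part A i) :=
      mul_le_mul_of_nonneg_right hg.C6 (Nat.cast_nonneg _)
    have e5 : 2 * (#(part P i \ part A i) : ℝ) < #(part P i) := by linarith
    exact_mod_cast e5
  have hrle : (r : ℝ) ≤ hh := by
    by_contra hcon
    push Not at hcon
    -- ordered pair sums
    set D : ℝ := ∑ i, (#(part P i \ part A i) : ℝ) with hD
    have hD0 : 0 ≤ D := sum_nonneg fun _ _ => Nat.cast_nonneg _
    set S1 : ℝ := ∑ x, ∑ y, if Γ.Adj x y ∧ P y ≠ P x then (1 : ℝ) else 0 with hS1
    set S2 : ℝ := ∑ x, ∑ y, if Γ.Adj x y ∧ A y ≠ A x then (1 : ℝ) else 0 with hS2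
    set U : ℝ := ∑ x, ∑ y, if Γ.Adj x y ∧ P y ≠ P x ∧ A y = A x then (1 : ℝ) else 0 with hU
    set W : ℝ := ∑ x, ∑ y, if Γ.Adj x y ∧ P y = P x ∧ A y ≠ A x then (1 : ℝ) else 0 with hW
    have hrow : ∀ x, ∑ y, (if Γ.Adj x y ∧ P y ≠ P x then (1 : ℝ) else 0) = r := by
      intro x
      rw [← h5 x, Finset.natCast_card_filter]
    have hS1v : S1 = r * Fintype.card V := by
      rw [hS1, sum_congr rfl (fun x _ => hrow x), sum_const, card_univ, nsmul_eq_mul]
      ring
    have hS2v : S2 ≤ hh * Fintype.card V := by
      have e1 : S2 = ∑ i, (bdry Γ (part A i) : ℝ) := by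
        have e2 : ∀ i, (bdry Γ (part A i) : ℝ)
            = ∑ x, ∑ y, if A x = i ∧ A y ≠ i ∧ Γ.Adj x y then (1 : ℝ) else 0 := by
          intro i
          rw [bdry_eq]
          simp only [mem_part]
        rw [sum_congr rfl (fun i _ => e2 i), sum_comm, hS2]
        refine sum_congr rfl fun x _ => ?_
        rw [sum_comm]
        refine sum_congr rfl fun y _ => ?_
        rw [Finset.sum_eq_single (A x)]
        · by_cases hxy : Γ.Adj x y <;> by_cases hA2 : A y = A x <;> simp [hxy, hA2]
        · intro i _ hi
          rw [if_neg (fun h => hi h.1.symm)]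
        · intro h; exact absurd (mem_univ _) h
      rw [e1, ← hsumA, mul_sum]
      exact sum_le_sum fun i _ => hg.hA i
    have hUW : S1 - S2 = U - W := by
      rw [hS1, hS2, hU, hW, ← sum_sub_distrib, ← sum_sub_distrib]
      refine sum_congr rfl fun x _ => ?_
      rw [← sum_sub_distrib, ← sum_sub_distrib]
      refine sum_congr rfl fun y _ => ?_
      by_cases hxy : Γ.Adj x y <;> by_cases hP2 : P y = P x <;> by_cases hA2 : A y = A x <;>
        simp [hxy, hP2, hA2]
    have hbadsum : ∑ x, (if A x ≠ P x then (1 : ℝ) else 0) = D := by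
      have e2 : ∀ i, (#(part P i \ part A i) : ℝ)
          = ∑ x, if P x = i ∧ A x ≠ i then (1 : ℝ) else 0 := by
        intro i
        rw [← Finset.natCast_card_filter]
        congr 2
        ext x
        simp [mem_part]
      rw [hD, sum_congr rfl (fun i _ => e2 i), sum_comm]
      refine sum_congr rfl fun x _ => ?_
      rw [Finset.sum_eq_single (P x)]
      · by_cases hA2 : A x = P x <;> simp [hA2]
      · intro i _ hi
        rw [if_neg (fun h => hi h.1.symm)]
      · intro h; exact absurd (mem_univ _) h
    have hUle : U ≤ 2 * (r * D) := by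
      have e1 : ∑ x, ∑ y, (if A x ≠ P x then (if Γ.Adj x y ∧ P y ≠ P x then (1 : ℝ) else 0) else 0)
          = r * D := by
        rw [← hbadsum, mul_sum]
        refine sum_congr rfl fun x _ => ?_
        by_cases hx : A x = P x
        · simp [hx]
        · simp only [ne_eq, hx, not_false_eq_true, if_true]
          rw [mul_one]
          exact hrow x
      have e2 : ∑ x, ∑ y, (if A y ≠ P y then (if Γ.Adj y x ∧ P x ≠ P y then (1 : ℝ) else 0) else 0)
          = r * D := by
        rw [sum_comm, e1]
      rw [two_mul]
      nth_rewrite 1 [← e1]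
      rw [← e2, hU, ← sum_add_distrib]
      refine sum_le_sum fun x _ => ?_
      rw [← sum_add_distrib]
      refine sum_le_sum fun y _ => ?_
      by_cases hxy : Γ.Adj x y
      · have hyx := hxy.symm
        by_cases hP2 : P y = P x
        · simp [hP2]
        · have hP3 : P x ≠ P y := fun h => hP2 h.symm
          by_cases hA2 : A y = A x
          · by_cases hx : A x = P x
            · have hy : A y ≠ P y := by rw [hA2, hx]; exact hP3
              simp [hxy, hyx, hP2, hP3, hA2, hx]
            · by_cases hy : A x = P y
              · simp [hxy, hyx, hP2, hP3, hA2, hx, hy]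
              · simp [hxy, hyx, hP2, hP3, hA2, hx, hy]
          · have : (0 : ℝ) ≤ (if A x ≠ P x then (if Γ.Adj x y ∧ P y ≠ P x then (1 : ℝ) else 0) else 0)
                + (if A y ≠ P y then (if Γ.Adj y x ∧ P x ≠ P y then (1 : ℝ) else 0) else 0) := by
              refine add_nonneg ?_ ?_ <;> split_ifs <;> norm_num
            simpa [hA2] using this
      · have hyx : ¬ Γ.Adj y x := fun h => hxy h.symm
        simp [hxy, hyx]
    have hWge : 2 * ((C * hh - r) * D) ≤ W := by
      -- split according to the block and to whether `x` is bad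
      have e1 : W = ∑ j, (∑ i ∈ univ.erase j, eb Γ (part P j ∩ part A i) (part P j \ (part P j ∩ part A i))
          + eb Γ (part P j \ part A j) (part P j ∩ part A j)) := by
        have f1 : ∀ j : Fin n, ∑ i ∈ univ.erase j,
            eb Γ (part P j ∩ part A i) (part P j \ (part P j ∩ part A i))
            = ∑ x ∈ part P j \ part A j, ∑ y ∈ part P j,
              if Γ.Adj x y ∧ A y ≠ A x then (1 : ℝ) else 0 := by
          intro j
          have g1 : ∀ i, eb Γ (part P j ∩ part A i) (part P j \ (part P j ∩ part A i))
              = ∑ x ∈ part P j, if A x = i then (∑ y ∈ part P j,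
                if Γ.Adj x y ∧ A y ≠ A x then (1 : ℝ) else 0) else 0 := by
            intro i
            unfold eb
            rw [← sum_filter]
            have g2 : part P j ∩ part A i = (part P j).filter (fun x => A x = i) := by
              ext x; simp [mem_part]
            rw [g2]
            refine sum_congr rfl fun x hx => ?_
            have hxi : A x = i := (mem_filter.mp hx).2
            have g3 : part P j \ (part P j).filter (fun x => A x = i)
                = (part P j).filter (fun y => A y ≠ i) := by
              ext y; simp only [mem_sdiff, mem_filter]; tauto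
            rw [g3, sum_filter]
            refine sum_congr rfl fun y _ => ?_
            rw [hxi]
            by_cases hxy : Γ.Adj x y <;> by_cases hy : A y = i <;> simp [hxy, hy]
          rw [sum_congr rfl (fun i _ => g1 i), sum_comm]
          have g4 : part P j \ part A j = (part P j).filter (fun x => A x ≠ j) := by
            ext x; simp [mem_part]
          rw [g4, sum_filter]
          refine sum_congr rfl fun x _ => ?_
          by_cases hx : A x = j
          · rw [if_neg (fun h => h hx)]
            refine sum_eq_zero fun i hi => ?_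
            rw [if_neg (fun h => ne_of_mem_erase hi (h.symm.trans hx))]
          · rw [if_pos hx, Finset.sum_eq_single (A x)]
            · rw [if_pos rfl]
            · intro i _ hi
              rw [if_neg (fun h => hi h.symm)]
            · intro h
              exact absurd (mem_erase.mpr ⟨hx, mem_univ _⟩) h
        have f2 : ∀ j : Fin n, eb Γ (part P j \ part A j) (part P j ∩ part A j)
            = ∑ x ∈ part P j ∩ part A j, ∑ y ∈ part P j,
              if Γ.Adj x y ∧ A y ≠ A x then (1 : ℝ) else 0 := by
          intro j
          rw [eb_comm]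
          unfold eb
          refine sum_congr rfl fun x hx => ?_
          have hxj : A x = j := (mem_part A j x).mp (mem_inter.mp hx).2
          have g4 : part P j \ part A j = (part P j).filter (fun x => A x ≠ j) := by
            ext x; simp [mem_part]
          rw [g4, sum_filter]
          refine sum_congr rfl fun y _ => ?_
          rw [hxj]
          by_cases hxy : Γ.Adj x y <;> by_cases hy : A y = j <;> simp [hxy, hy]
        have f3 : ∀ j : Fin n, ∑ x ∈ part P j \ part A j, ∑ y ∈ part P j,
              (if Γ.Adj x y ∧ A y ≠ A x then (1 : ℝ) else 0)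
            + ∑ x ∈ part P j ∩ part A j, ∑ y ∈ part P j,
              (if Γ.Adj x y ∧ A y ≠ A x then (1 : ℝ) else 0)
            = ∑ x ∈ part P j, ∑ y ∈ part P j,
              if Γ.Adj x y ∧ A y ≠ A x then (1 : ℝ) else 0 := by
          intro j
          rw [← sum_union, sdiff_union_inter]
          exact disjoint_sdiff_inter _ _
        have f5 : ∀ j ∈ (univ : Finset (Fin n)), (∑ i ∈ univ.erase j,
            eb Γ (part P j ∩ part A i) (part P j \ (part P j ∩ part A i))
            + eb Γ (part P j \ part A j) (part P j ∩ part A j))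
            = ∑ x ∈ part P j, ∑ y ∈ part P j,
              if Γ.Adj x y ∧ A y ≠ A x then (1 : ℝ) else 0 := by
          intro j _
          rw [f1 j, f2 j, f3 j]
        rw [sum_congr rfl f5, hW]
        have f4 : ∀ j : Fin n, ∑ x ∈ part P j, ∑ y ∈ part P j,
              (if Γ.Adj x y ∧ A y ≠ A x then (1 : ℝ) else 0)
            = ∑ x, ∑ y, if P x = j ∧ (Γ.Adj x y ∧ P y = P x ∧ A y ≠ A x) then (1 : ℝ) else 0 := by
          intro j
          rw [part, sum_filter]
          refine sum_congr rfl fun x _ => ?_
          by_cases hx : P x = j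
          · rw [if_pos hx, sum_filter]
            refine sum_congr rfl fun y _ => ?_
            by_cases hy : P y = j <;> by_cases hxy : Γ.Adj x y <;> by_cases hA2 : A y = A x <;>
              simp [hx, hy, hxy, hA2]
          · rw [if_neg hx]
            symm
            refine sum_eq_zero fun y _ => ?_
            rw [if_neg (fun h => hx h.1)]
        symm
        rw [sum_congr rfl (fun j _ => f4 j), sum_comm]
        refine sum_congr rfl fun x _ => ?_
        rw [sum_comm]
        refine sum_congr rfl fun y _ => ?_
        rw [Finset.sum_eq_single (P x)]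
        · by_cases hc : Γ.Adj x y ∧ P y = P x ∧ A y ≠ A x <;> simp [hc]
        · intro i _ hi
          rw [if_neg (fun h => hi h.1.symm)]
        · intro h; exact absurd (mem_univ _) h
      rw [e1]
      have hQ' : ∀ Q : V → Fin (n + 1), Function.Surjective Q →
          ∃ i, (C * hh) * #(part Q i) < bdry Γ (part Q i) := hg.hQ
      have e2 : ∀ j : Fin n, 2 * ((C * hh - r) * #(part P j \ part A j))
          ≤ ∑ i ∈ univ.erase j, eb Γ (part P j ∩ part A i) (part P j \ (part P j ∩ part A i))
          + eb Γ (part P j \ part A j) (part P j ∩ part A j) := by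
        intro j
        have k1 : ∀ i ∈ univ.erase j, (C * hh - r) * #(part P j ∩ part A i)
            ≤ eb Γ (part P j ∩ part A i) (part P j \ (part P j ∩ part A i)) := by
          intro i hi
          refine internal_large hsurj hQ' h5 hrC j _ inter_subset_left ?_
          have l1 : #(part P j ∩ part A i) ≤ #(part P j \ part A j) := by
            refine card_le_card fun x hx => ?_
            rw [mem_inter, mem_part, mem_part] at hx
            rw [mem_sdiff, mem_part, mem_part]
            exact ⟨hx.1, fun h => ne_of_mem_erase hi (hx.2.symm.trans h)⟩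
          have := hhalf j
          omega
        have k2 : (C * hh - r) * #(part P j \ part A j)
            ≤ eb Γ (part P j \ part A j) (part P j ∩ part A j) := by
          have l2 := internal_large hsurj hQ' h5 hrC j (part P j \ part A j) sdiff_subset
            (hhalf j).le
          rwa [sdiff_sdiff_right_self] at l2
        have k3 : ∑ i ∈ univ.erase j, (C * hh - r) * (#(part P j ∩ part A i) : ℝ)
            = (C * hh - r) * #(part P j \ part A j) := by
          rw [← mul_sum]
          congr 1
          have l3 : #(part P j \ part A j) = ∑ i ∈ univ.erase j, #(part P j ∩ part A i) := by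
            rw [Finset.card_eq_sum_card_fiberwise (f := A) (t := univ.erase j)]
            · refine sum_congr rfl fun i hi => ?_
              congr 1
              ext x
              simp only [mem_filter, mem_sdiff, mem_inter, mem_part]
              constructor
              · rintro ⟨⟨q1, -⟩, q3⟩; exact ⟨q1, q3⟩
              · rintro ⟨q1, q2⟩
                exact ⟨⟨q1, fun h => ne_of_mem_erase hi (q2.symm.trans h)⟩, q2⟩
            · intro x hx
              simp only [coe_sdiff, Set.mem_sdiff, mem_coe, mem_part] at hx
              simp only [coe_erase, coe_univ, Set.mem_sdiff, Set.mem_univ, true_and,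
                Set.mem_singleton_iff]
              exact hx.2
          rw [l3]; push_cast; rfl
        have k4 := sum_le_sum k1
        rw [k3] at k4
        linarith
      have e3 := sum_le_sum (fun j (_ : j ∈ (univ : Finset (Fin n))) => e2 j)
      refine le_trans (le_of_eq ?_) e3
      rw [hD, mul_sum, mul_sum]
    have f1 : (r - hh) * Fintype.card V ≤ U - W := by
      rw [← hUW, hS1v]; linarith
    have f2 : 0 < (r - hh) * (Fintype.card V : ℝ) := mul_pos (by linarith) hv
    have f3 : 0 < 2 * (r * D) - 2 * ((C * hh - r) * D) := by linarith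
    have f4 : 0 < (2 * r - C * hh) * D := by linarith
    have hDpos : 0 < D := by
      rcases hD0.lt_or_eq with hlt | heq
      · exact hlt
      · rw [← heq, mul_zero] at f4
        exact absurd f4 (lt_irrefl 0)
    have f5 : 0 < 2 * (r : ℝ) - C * hh := pos_of_mul_pos_left f4 hDpos.le
    have f6 : 2 * (n : ℝ) * r ≤ C * hh := by rw [← hCn]; exact h6
    have hr0 : (0 : ℝ) ≤ r := Nat.cast_nonneg _
    nlinarith
  refine ⟨P, ?_, isBlockSystem_of hsurj h1⟩
  apply le_antisymm
  · have hnem : Nonempty (Fin n) := ⟨⟨0, by omega⟩⟩
    refine ciSup_le fun i => ?_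
    rw [bdry_part h5 i, mul_div_assoc, div_self (hPpos i).ne', mul_one]
    exact hrle
  · exact isoConst_le P hsurj

end Pool.Agent.R3.Iso
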