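import Pool.Agent.R3.Iso5

/-!
Without a system of imprimitivity of size `n` one has `h_{n+1} ≤ 7 h_n`.
-/

set_option autoImplicit false

namespace Pool.Agent.R3.Iso

open Finset

variable {V : Type*} [Fintype V] [DecidableEq V] {Γ : SimpleGraph V} [DecidableRel Γ.Adj]

/-- the gap hypothesis for colourings with an arbitrary colour set of size `n + 1` -/
lemma gap_gen {n : ℕ} {K : ℝ}
    (hQ : ∀ Q : V → Fin (n + 1), Function.Surjective Q → ∃ i, K * #(part Q i) < bdry Γ (part Q i))
    {ι : Type*} [Fintype ι] [DecidableEq ι] (hι : Fintype.card ι = n + 1) (Q : V → ι)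
    (hs : Function.Surjective Q) : ∃ i, K * #(part Q i) < bdry Γ (part Q i) := by
  have e := Fintype.equivFinOfCardEq hι
  obtain ⟨i, hi⟩ := hQ (fun x => e (Q x)) (e.surjective.comp hs)
  refine ⟨e.symm i, ?_⟩
  have : part (fun x => e (Q x)) i = part Q (e.symm i) := by
    ext x
    rw [mem_part, mem_part, Equiv.eq_symm_apply]
  rwa [this] at hi

/-- inner boundaries of the pieces of a part are bounded by its boundary -/
lemma sum_inner_le {n : ℕ} (P A : V → Fin n) (I : Finset (Fin n)) (j : Fin n) :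
    ∑ c ∈ I, eb Γ (part A j ∩ part P c) (part P c \ (part A j ∩ part P c))
      ≤ bdry Γ (part A j) := by
  rw [bdry_eb]
  have h1 : ∀ c ∈ I, eb Γ (part A j ∩ part P c) (part P c \ (part A j ∩ part P c))
      ≤ ∑ x ∈ (part A j).filter (fun x => P x = c), ∑ y ∈ (part A j)ᶜ,
        if Γ.Adj x y then (1 : ℝ) else 0 := by
    intro c _
    unfold eb
    have e1 : part A j ∩ part P c = (part A j).filter (fun x => P x = c) := by
      ext x; simp [mem_part]
    rw [e1]
    refine sum_le_sum fun x _ => ?_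
    refine sum_le_sum_of_subset_of_nonneg ?_ fun y _ _ => by split_ifs <;> norm_num
    intro y hy
    rw [mem_sdiff, mem_filter, mem_part] at hy
    rw [mem_compl]
    exact fun h => hy.2 ⟨h, hy.1⟩
  refine (sum_le_sum h1).trans ?_
  unfold eb
  have h2 : ∀ c, ∑ x ∈ (part A j).filter (fun x => P x = c), ∑ y ∈ (part A j)ᶜ,
      (if Γ.Adj x y then (1 : ℝ) else 0) = ∑ x ∈ part A j, if P x = c then
        (∑ y ∈ (part A j)ᶜ, if Γ.Adj x y then (1 : ℝ) else 0) else 0 := by
    intro c; rw [sum_filter]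
  rw [sum_congr rfl (fun c _ => h2 c), sum_comm]
  refine sum_le_sum fun x _ => ?_
  have h3 : 0 ≤ ∑ y ∈ (part A j)ᶜ, (if Γ.Adj x y then (1 : ℝ) else 0) :=
    sum_nonneg fun _ _ => by split_ifs <;> norm_num
  rw [sum_ite_eq]
  split_ifs
  · exact le_refl _
  · exact h3

theorem seven [Nonempty V] (hvt : VertexTransitive Γ) {n : ℕ} (hn : 2 ≤ n)
    (hV : n < Fintype.card V) (hno : ¬ ∃ P : V → Fin n, IsBlockSystem Γ P) :
    isoConst Γ (n + 1) ≤ 7 * isoConst Γ n := by
  classical
  by_contra hcon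
  push Not at hcon
  obtain ⟨A, hg⟩ := exists_gap (by omega : 0 < n) hV.le (by norm_num : (6 : ℝ) ≤ 7) hcon
  obtain ⟨P, r, a, h1, h2, h3, h4, h5, h6, h7⟩ := core_aut hvt (by omega : 0 < n) hg
  set h := isoConst Γ n with hh
  set I := image P univ with hI
  have hh0 : 0 ≤ h := hg.h0
  have hvpos : (0 : ℝ) < Fintype.card V := by exact_mod_cast Fintype.card_pos
  have hPI : ∀ x, P x ∈ I := fun x => mem_image_of_mem P (mem_univ x)
  have hmn : #I < n := by
    have hle : #I ≤ n := by
      calc #I ≤ #(univ : Finset (Fin n)) := card_le_card (subset_univ _)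
        _ = n := by simp
    refine lt_of_le_of_ne hle fun heq => hno ⟨P, isBlockSystem_of ?_ h1⟩
    intro i
    have : i ∈ I := by
      rw [Finset.eq_univ_of_card I (by rw [heq]; simp)]
      exact mem_univ i
    obtain ⟨x, -, hx⟩ := mem_image.mp this
    exact ⟨x, hx⟩
  set J := (univ : Finset (Fin n)) \ I with hJ
  have hJcard : #J + #I = n := by
    have := card_sdiff_add_card_inter (univ : Finset (Fin n)) I
    rw [univ_inter] at this
    rw [hJ, this]; simp
  have hJI : ∀ j ∈ J, ∀ c ∈ I, j ≠ c := by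
    intro j hj c hc hjc
    rw [hJ, mem_sdiff] at hj
    exact hj.2 (hjc ▸ hc)
  have hmpos : (0 : ℝ) < #I := by
    obtain ⟨x⟩ := (inferInstance : Nonempty V)
    exact_mod_cast card_pos.mpr ⟨P x, hPI x⟩
  have h2' : ∀ c ∈ I, (#I : ℝ) * #(part P c) = Fintype.card V := by
    intro c hc
    exact_mod_cast h2 c hc
  have hr0 : (0 : ℝ) ≤ r := Nat.cast_nonneg _
  have hrh : 2 * h + r ≤ 7 * h := by linarith
  set X : Fin n → Fin n → Finset V := fun j c => part A j ∩ part P c with hX
  -- pieces of the extra parts are small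
  have hpieces : ∀ c ∈ I, ∑ j ∈ J, #(X j c) ≤ #(part P c \ part A c) := by
    intro c hc
    rw [← card_biUnion]
    · refine card_le_card fun x hx => ?_
      rw [mem_biUnion] at hx
      obtain ⟨j, hj, hx⟩ := hx
      rw [hX, mem_inter, mem_part, mem_part] at hx
      rw [mem_sdiff, mem_part, mem_part]
      exact ⟨hx.2, fun h => hJI j hj c hc (hx.1.symm.trans h)⟩
    · intro j _ j' _ hjj'
      refine Finset.disjoint_left.mpr fun x hx hx' => hjj' ?_
      rw [hX, mem_inter, mem_part] at hx hx'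
      exact hx.1.symm.trans hx'.1
  have hsmall : ∀ c ∈ I, ∀ j ∈ J, 7 * (#(X j c) : ℝ) < 3 * #(part P c) := by
    intro c hc j hj
    have e1 : #(X j c) ≤ #(part P c \ part A c) :=
      (single_le_sum (f := fun j => #(X j c)) (fun _ _ => Nat.zero_le _) hj).trans (hpieces c hc)
    have e1' : (#(X j c) : ℝ) ≤ #(part P c \ part A c) := by exact_mod_cast e1
    have e2 := h7 c hc
    have e3 := h2' c hc
    rw [← e3] at e2
    have e4 : (#I : ℝ) * (7 * #(X j c)) < #I * (3 * #(part P c)) := by
      have e5 := mul_le_mul_of_nonneg_left e1' hmpos.le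
      linarith
    exact lt_of_mul_lt_mul_left e4 hmpos.le
  set good : Fin n → Fin n → Prop := fun j c =>
    (X j c).Nonempty ∧ eb Γ (X j c) (part P c \ X j c) ≤ 2 * h * #(X j c) with hgood
  set S := I.filter (fun c => ∃ j ∈ J, good j c) with hS
  have hScard : #J + 1 ≤ #S := by
    by_contra hlt
    have hle : #S ≤ #J := by omega
    -- total mass of the extra parts
    set M : ℝ := ∑ j ∈ J, (#(part A j) : ℝ) with hM
    have hM1 : (#J : ℝ) * a ≤ M := by
      calc (#J : ℝ) * a = ∑ _j ∈ J, (a : ℝ) := by rw [sum_const, nsmul_eq_mul]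
        _ ≤ M := sum_le_sum fun j _ => by exact_mod_cast h3 j
    have hsplit : ∀ j, (#(part A j) : ℝ) = ∑ c ∈ I, (#(X j c) : ℝ) := by
      intro j
      have : #(part A j) = ∑ c ∈ I, #(X j c) := by
        rw [Finset.card_eq_sum_card_fiberwise (f := P) (t := I) (fun x _ => hPI x)]
        refine sum_congr rfl fun c _ => ?_
        congr 1
        ext x
        simp [hX, mem_part]
      rw [this]; push_cast; rfl
    have hMs : M = ∑ c ∈ I, ∑ j ∈ J, (#(X j c) : ℝ) := by
      rw [hM, sum_congr rfl (fun j _ => hsplit j), sum_comm]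
    have hMs2 : M = ∑ c ∈ S, ∑ j ∈ J, (#(X j c) : ℝ) + ∑ c ∈ I \ S, ∑ j ∈ J, (#(X j c) : ℝ) := by
      rw [hMs, add_comm, sum_sdiff (filter_subset _ _)]
    have hbeta : ∑ c ∈ I \ S, ∑ j ∈ J, eb Γ (X j c) (part P c \ X j c) ≤ h * M := by
      rw [sum_comm]
      have e1 : h * M = ∑ j ∈ J, h * (#(part A j) : ℝ) := by rw [hM, mul_sum]
      rw [e1]
      refine sum_le_sum fun j _ => ?_
      exact (sum_inner_le P A (I \ S) j).trans (hg.hA j)
    have hbad : ∀ c ∈ I \ S, ∀ j ∈ J, 2 * h * (#(X j c) : ℝ) ≤ eb Γ (X j c) (part P c \ X j c) := by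
      intro c hc j hj
      rcases (X j c).eq_empty_or_nonempty with he | hne
      · rw [he]; simp [eb]
      · by_contra hlt2
        push Not at hlt2
        rw [mem_sdiff, hS, mem_filter] at hc
        exact hc.2 ⟨hc.1, j, hj, hne, hlt2.le⟩
    have hM0 : 0 ≤ M := sum_nonneg fun _ _ => Nat.cast_nonneg _
    have hout : ∑ c ∈ I \ S, ∑ j ∈ J, (#(X j c) : ℝ) ≤ M / 2 := by
      have e1 : ∑ c ∈ I \ S, ∑ j ∈ J, 2 * h * (#(X j c) : ℝ) ≤ h * M :=
        (sum_le_sum fun c hc => sum_le_sum fun j hj => hbad c hc j hj).trans hbeta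
      rcases hh0.lt_or_eq with hpos | hzero
      · have e2 : ∑ c ∈ I \ S, ∑ j ∈ J, 2 * h * (#(X j c) : ℝ)
            = 2 * h * ∑ c ∈ I \ S, ∑ j ∈ J, (#(X j c) : ℝ) := by
          rw [mul_sum]
          refine sum_congr rfl fun c _ => ?_
          rw [mul_sum]
        rw [e2] at e1
        have e3 : h * (2 * ∑ c ∈ I \ S, ∑ j ∈ J, (#(X j c) : ℝ)) ≤ h * M := by linarith
        have e4 := le_of_mul_le_mul_left e3 hpos
        linarith
      · -- all inner boundaries vanish, so the bad pieces are empty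
        rw [← hzero, zero_mul] at hbeta
        have e2 : ∀ c ∈ I \ S, ∀ j ∈ J, (#(X j c) : ℝ) = 0 := by
          intro c hc j hj
          have e3 : eb Γ (X j c) (part P c \ X j c) = 0 := by
            have e4 : ∑ c ∈ I \ S, ∑ j ∈ J, eb Γ (X j c) (part P c \ X j c) = 0 :=
              le_antisymm hbeta (sum_nonneg fun _ _ => sum_nonneg fun _ _ => eb_nonneg _ _)
            rw [sum_eq_zero_iff_of_nonneg
              (fun _ _ => sum_nonneg fun _ _ => eb_nonneg _ _)] at e4
            have e5 := e4 c hc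
            rw [sum_eq_zero_iff_of_nonneg (fun _ _ => eb_nonneg _ _)] at e5
            exact e5 j hj
          rcases (X j c).eq_empty_or_nonempty with he | hne
          · rw [he]; simp
          · exfalso
            rw [mem_sdiff, hS, mem_filter] at hc
            exact hc.2 ⟨hc.1, j, hj, hne, by rw [e3, ← hzero]; simp⟩
        rw [sum_eq_zero fun c hc => sum_eq_zero fun j hj => e2 c hc j hj]
        linarith
    have hin : M / 2 ≤ ∑ c ∈ S, (#(part P c \ part A c) : ℝ) := by
      have e1 : ∑ c ∈ S, ∑ j ∈ J, (#(X j c) : ℝ) ≤ ∑ c ∈ S, (#(part P c \ part A c) : ℝ) := by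
        refine sum_le_sum fun c hc => ?_
        exact_mod_cast hpieces c (mem_filter.mp hc).1
      linarith
    have ha0 : (0 : ℝ) < a := by
      by_contra hneg
      have : (a : ℝ) = 0 := le_antisymm (not_lt.mp hneg) (Nat.cast_nonneg _)
      rw [this] at h4
      linarith
    have hJpos : (0 : ℝ) < #J := by
      have : 0 < #J := by omega
      exact_mod_cast this
    rcases S.eq_empty_or_nonempty with he | hne
    · rw [he, sum_empty] at hin
      have := mul_pos hJpos ha0
      linarith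
    · have e1 : ∑ c ∈ S, 7 * #I * (#(part P c \ part A c) : ℝ) < ∑ c ∈ S, 3 * (Fintype.card V : ℝ) :=
        sum_lt_sum_of_nonempty hne fun c hc => h7 c (mem_filter.mp hc).1
      rw [← mul_sum, sum_const, nsmul_eq_mul] at e1
      have e2 : (#S : ℝ) ≤ #J := by exact_mod_cast hle
      have e3 : (#S : ℝ) * (3 * Fintype.card V) ≤ #J * (3 * Fintype.card V) :=
        mul_le_mul_of_nonneg_right e2 (by linarith)
      have e4 : 7 * #I * (M / 2) ≤ 7 * #I * ∑ c ∈ S, (#(part P c \ part A c) : ℝ) :=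
        mul_le_mul_of_nonneg_left hin (by linarith)
      have e5 : 7 * #I * (#J * a) ≤ 7 * #I * M := mul_le_mul_of_nonneg_left hM1 (by linarith)
      have e6 : (#J : ℝ) * ((7 - 1) * Fintype.card V) < #J * (7 * #I * a) :=
        mul_lt_mul_of_pos_left h4 hJpos
      linarith
  -- choose `#J + 1` good blocks
  obtain ⟨S', hS'S, hS'card⟩ := Finset.exists_subset_card_eq hScard
  have hch : ∀ c : Fin n, ∃ j, c ∈ S' → j ∈ J ∧ good j c := by
    intro c
    by_cases hc : c ∈ S'
    · obtain ⟨-, j, hj, hgd⟩ := mem_filter.mp (hS'S hc)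
      exact ⟨j, fun _ => ⟨hj, hgd⟩⟩
    · exact ⟨c, fun h => absurd h hc⟩
  choose jj hjj using hch
  have hS'I : ∀ c ∈ S', c ∈ I := fun c hc => (mem_filter.mp (hS'S hc)).1
  set Q : V → {i // i ∈ I} ⊕ {c // c ∈ S'} := fun x =>
    if hx : P x ∈ S' ∧ A x = jj (P x) then Sum.inr ⟨P x, hx.1⟩ else Sum.inl ⟨P x, hPI x⟩ with hQ
  have hQr : ∀ c : {c // c ∈ S'}, part Q (Sum.inr c) = X (jj c.1) c.1 := by
    rintro ⟨c, hc⟩
    ext x
    rw [mem_part, hX, mem_inter, mem_part, mem_part, hQ]
    simp only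
    split_ifs with hx
    · rw [Sum.inr.injEq, Subtype.mk.injEq]
      constructor
      · intro he
        exact ⟨by rw [hx.2, he], he⟩
      · exact fun h => h.2
    · constructor
      · intro he
        exact absurd he (by simp)
      · rintro ⟨e1, e2⟩
        exact absurd ⟨e2 ▸ hc, by rw [e1, e2]⟩ hx
  have hQl : ∀ i : {i // i ∈ I}, part Q (Sum.inl i)
      = part P i.1 \ (if i.1 ∈ S' then X (jj i.1) i.1 else ∅) := by
    rintro ⟨i, hi⟩
    ext x
    rw [mem_part, mem_sdiff, mem_part, hQ]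
    simp only
    split_ifs with hx hiS hiS
    · constructor
      · intro he
        exact absurd he (by simp)
      · rintro ⟨e1, e2⟩
        refine absurd ?_ e2
        rw [hX, mem_inter, mem_part, mem_part]
        exact ⟨by rw [hx.2, e1], e1⟩
    · constructor
      · intro he
        exact absurd he (by simp)
      · rintro ⟨e1, -⟩
        exact absurd (e1 ▸ hx.1) hiS
    · rw [Sum.inl.injEq, Subtype.mk.injEq]
      constructor
      · intro he
        refine ⟨he, fun h => hx ?_⟩
        rw [hX, mem_inter, mem_part, mem_part] at h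
        exact ⟨he ▸ hiS, by rw [h.1, h.2]⟩
      · exact fun h => h.1
    · rw [Sum.inl.injEq, Subtype.mk.injEq]
      exact ⟨fun he => ⟨he, by simp⟩, fun h => h.1⟩
  have hXsub : ∀ j c, X j c ⊆ part P c := fun j c => inter_subset_right
  have hcardsd : ∀ j c, (#(part P c \ X j c) : ℝ) = #(part P c) - #(X j c) := by
    intro j c
    have := card_sdiff_add_card_eq_card (hXsub j c)
    have e1 : (#(part P c \ X j c) : ℝ) + #(X j c) = #(part P c) := by exact_mod_cast this
    linarith
  have hsurj : Function.Surjective Q := by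
    rintro (i | c)
    · have hne : (part Q (Sum.inl i)).Nonempty := by
        rw [hQl i, ← card_pos]
        have hpos : (0 : ℝ) < #(part P i.1) := by
          have := h2' i.1 i.2
          by_contra hneg
          have h0 : (#(part P i.1) : ℝ) = 0 := le_antisymm (not_lt.mp hneg) (Nat.cast_nonneg _)
          rw [h0, mul_zero] at this
          linarith
        split_ifs with hiS
        · have e1 := hsmall i.1 i.2 (jj i.1) (hjj i.1 hiS).1
          have e2 := hcardsd (jj i.1) i.1
          have e3 : (0 : ℝ) < #(part P i.1 \ X (jj i.1) i.1) := by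
            rw [e2]
            have : (0 : ℝ) ≤ #(X (jj i.1) i.1) := Nat.cast_nonneg _
            linarith
          exact_mod_cast e3
        · rw [sdiff_empty]
          exact_mod_cast hpos
      obtain ⟨x, hx⟩ := hne
      exact ⟨x, (mem_part Q _ x).mp hx⟩
    · have hne : (part Q (Sum.inr c)).Nonempty := by
        rw [hQr c]
        exact (hjj c.1 c.2).2.1
      obtain ⟨x, hx⟩ := hne
      exact ⟨x, (mem_part Q _ x).mp hx⟩
  have hcardι : Fintype.card ({i // i ∈ I} ⊕ {c // c ∈ S'}) = n + 1 := by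
    rw [Fintype.card_sum, Fintype.card_coe, Fintype.card_coe, hS'card]
    omega
  obtain ⟨z, hz⟩ := gap_gen (K := 7 * h) hg.hQ hcardι Q hsurj
  rcases z with i | c
  · rw [hQl i] at hz
    split_ifs at hz with hiS
    · obtain ⟨hj, hgd⟩ := hjj i.1 hiS
      rw [bdry_block h5 i.1 _ sdiff_subset, Finset.sdiff_sdiff_eq_self (hXsub _ _), eb_comm] at hz
      have e1 := hgd.2
      have e2 := hsmall i.1 i.2 (jj i.1) hj
      have e3 := hcardsd (jj i.1) i.1
      have e4 : (#(X (jj i.1) i.1) : ℝ) ≤ #(part P i.1 \ X (jj i.1) i.1) := by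
        rw [e3]
        have : (0 : ℝ) ≤ #(X (jj i.1) i.1) := Nat.cast_nonneg _
        linarith
      have e5 : 2 * h * (#(X (jj i.1) i.1) : ℝ) ≤ 2 * h * #(part P i.1 \ X (jj i.1) i.1) :=
        mul_le_mul_of_nonneg_left e4 (by linarith)
      have e6 : (2 * h + r) * (#(part P i.1 \ X (jj i.1) i.1) : ℝ)
          ≤ 7 * h * #(part P i.1 \ X (jj i.1) i.1) :=
        mul_le_mul_of_nonneg_right hrh (Nat.cast_nonneg _)
      linarith
    · rw [sdiff_empty, bdry_part h5 i.1] at hz
      have e6 : (2 * h + r) * (#(part P i.1) : ℝ) ≤ 7 * h * #(part P i.1) :=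
        mul_le_mul_of_nonneg_right hrh (Nat.cast_nonneg _)
      have e7 : 0 ≤ 2 * h * (#(part P i.1) : ℝ) := by positivity
      linarith
  · rw [hQr c] at hz
    obtain ⟨hj, hgd⟩ := hjj c.1 c.2
    rw [bdry_block h5 c.1 _ (hXsub _ _)] at hz
    have e1 := hgd.2
    have e6 : (2 * h + r) * (#(X (jj c.1) c.1) : ℝ) ≤ 7 * h * #(X (jj c.1) c.1) :=
      mul_le_mul_of_nonneg_right hrh (Nat.cast_nonneg _)
    linarith

end Pool.Agent.R3.Iso
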