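import Mathlib

set_option autoImplicit false

open MeasureTheory Filter Topology Set

namespace Pool.Agent.R3.PT

/-! ### spectral measures of real symmetric matrices -/

section Mat

open Matrix

variable {n : Type*} [Fintype n] [DecidableEq n]

lemma pow_mulVec_eigen {M : Matrix n n ℝ} (hM : M.IsHermitian) (k : ℕ) (i : n) :
    (M ^ k) *ᵥ ⇑(hM.eigenvectorBasis i) = (hM.eigenvalues i) ^ k • ⇑(hM.eigenvectorBasis i) := by
  induction k with
  | zero => simp
  | succ k ih =>
    rw [pow_succ, ← Matrix.mulVec_mulVec, hM.mulVec_eigenvectorBasis, Matrix.mulVec_smul, ih,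
      smul_smul]
    congr 1
    ring

lemma pow_apply_eq {M : Matrix n n ℝ} (hM : M.IsHermitian) (k : ℕ) (o : n) :
    (M ^ k) o o = ∑ i, (hM.eigenvalues i) ^ k * (hM.eigenvectorBasis i o) ^ 2 := by
  have hU : ∀ p : n, ∑ i, hM.eigenvectorBasis i p * hM.eigenvectorBasis i o =
      if p = o then 1 else 0 := by
    intro p
    have h1 : (hM.eigenvectorUnitary : Matrix n n ℝ) * star (hM.eigenvectorUnitary : Matrix n n ℝ)
        = 1 := Unitary.coe_mul_star_self _
    have h2 := congrFun (congrFun h1 p) o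
    rw [Matrix.mul_apply, Matrix.one_apply] at h2
    rw [← h2]
    refine Finset.sum_congr rfl (fun i _ => ?_)
    rw [Matrix.star_apply]
    simp
  calc (M ^ k) o o = ∑ p, (M ^ k) o p * (if p = o then 1 else 0) := by simp
    _ = ∑ p, (M ^ k) o p * ∑ i, hM.eigenvectorBasis i p * hM.eigenvectorBasis i o := by
        refine Finset.sum_congr rfl (fun p _ => ?_)
        rw [hU]
    _ = ∑ i, (∑ p, (M ^ k) o p * hM.eigenvectorBasis i p) * hM.eigenvectorBasis i o := by
        simp_rw [Finset.mul_sum, Finset.sum_mul]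
        rw [Finset.sum_comm]
        refine Finset.sum_congr rfl (fun i _ => Finset.sum_congr rfl (fun p _ => by ring))
    _ = _ := by
        refine Finset.sum_congr rfl (fun i _ => ?_)
        have h3 := congrFun (pow_mulVec_eigen hM k i) o
        rw [Matrix.mulVec, dotProduct] at h3
        rw [h3]
        simp only [Pi.smul_apply, smul_eq_mul]
        ring

lemma eigenvalue_abs_le {M : Matrix n n ℝ} (hM : M.IsHermitian) {D : ℝ}
    (hD : ∀ p, ∑ q, |M p q| ≤ D) (i : n) : |hM.eigenvalues i| ≤ D := by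
  set v : n → ℝ := ⇑(hM.eigenvectorBasis i) with hv
  have hne : v ≠ 0 := by
    intro h0
    have h1 := hM.eigenvectorBasis.orthonormal.1 i
    have h2 : hM.eigenvectorBasis i = 0 := by
      ext j
      exact congrFun h0 j
    rw [h2] at h1
    simp at h1
  have hnon : Nonempty n := ⟨i⟩
  obtain ⟨p, -, hp⟩ := Finset.exists_max_image Finset.univ (fun q => |v q|) ⟨i, Finset.mem_univ _⟩
  have hpos : 0 < |v p| := by
    rw [abs_pos]
    intro h0
    apply hne
    funext q
    have := hp q (Finset.mem_univ _)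
    rw [h0, abs_zero] at this
    exact abs_eq_zero.1 (le_antisymm this (abs_nonneg _))
  have h1 := congrFun (hM.mulVec_eigenvectorBasis i) p
  rw [Matrix.mulVec, dotProduct] at h1
  simp only [Pi.smul_apply, smul_eq_mul] at h1
  have h2 : |hM.eigenvalues i| * |v p| ≤ D * |v p| := by
    rw [← abs_mul, ← h1]
    refine (Finset.abs_sum_le_sum_abs _ _).trans ?_
    refine le_trans ?_ (mul_le_mul_of_nonneg_right (hD p) (abs_nonneg _))
    rw [Finset.sum_mul]
    refine Finset.sum_le_sum (fun q hq => ?_)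
    rw [abs_mul]
    exact mul_le_mul_of_nonneg_left (hp q hq) (abs_nonneg _)
  exact le_of_mul_le_mul_right h2 hpos

/-- the spectral measure of a real symmetric matrix at a coordinate, on an interval -/
lemma exists_finite_measure {M : Matrix n n ℝ} (hM : M.IsHermitian) {D : ℝ}
    (hD : ∀ p, ∑ q, |M p q| ≤ D) (o : n) :
    ∃ μ : ProbabilityMeasure (Icc (-D) D), ∀ k : ℕ,
      ∫ x, (x : ℝ) ^ k ∂(μ : Measure (Icc (-D) D)) = (M ^ k) o o := by
  have hmem : ∀ i, hM.eigenvalues i ∈ Icc (-D) D := fun i =>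
    ⟨(abs_le.1 (eigenvalue_abs_le hM hD i)).1, (abs_le.1 (eigenvalue_abs_le hM hD i)).2⟩
  set m : Measure (Icc (-D) D) := ∑ i, ENNReal.ofReal ((hM.eigenvectorBasis i o) ^ 2) •
    Measure.dirac (⟨hM.eigenvalues i, hmem i⟩ : Icc (-D) D) with hm
  have hsum : ∑ i, (hM.eigenvectorBasis i o) ^ 2 = 1 := by
    have := pow_apply_eq hM 0 o
    simpa using this.symm
  have hprob : IsProbabilityMeasure m := by
    constructor
    rw [hm, Measure.finsetSum_apply]
    simp only [Measure.smul_apply, measure_univ, smul_eq_mul, mul_one]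
    rw [← ENNReal.ofReal_sum_of_nonneg (fun i _ => sq_nonneg _), hsum, ENNReal.ofReal_one]
  refine ⟨⟨m, hprob⟩, fun k => ?_⟩
  rw [pow_apply_eq hM k o]
  change ∫ x, (x : ℝ) ^ k ∂m = _
  rw [hm, integral_finsetSum_measure]
  · refine Finset.sum_congr rfl (fun i _ => ?_)
    rw [integral_smul_measure, integral_dirac, smul_eq_mul, ENNReal.toReal_ofReal (sq_nonneg _)]
    ring
  · intro i _
    apply Integrable.smul_measure _ ENNReal.ofReal_ne_top
    exact (continuous_subtype_val.pow k).integrable_of_hasCompactSupport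
      (HasCompactSupport.of_compactSpace _)

end Mat

end Pool.Agent.R3.PT
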