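import Pool.Agent.R3.PT1

set_option autoImplicit false

open MeasureTheory Filter Topology Set

namespace Pool.Agent.R3.PT

variable {P : Type*}

/-- The adjacency operator of a locally finite graph, acting on functions:
`(A f)(p) = ∑_{q ∼ p} f q`. -/
noncomputable def adjOp (T : SimpleGraph P) (f : P → ℝ) : P → ℝ :=
  fun p => ∑ᶠ q ∈ T.neighborSet p, f q

open Classical in
/-- The indicator function of a vertex. -/
noncomputable def chi (o : P) : P → ℝ := fun p => if p = o then 1 else 0

/-- `μ` is the spectral measure of the adjacency operator `A` at the vertex `o`: a probability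
measure with a bounded support and the moments `∫ x^n dμ = ⟨A^n χ_o, χ_o⟩ = (A^n χ_o)(o)`. -/
structure IsSpec (T : SimpleGraph P) (o : P) (μ : Measure ℝ) : Prop where
  prob : IsProbabilityMeasure μ
  supp : ∃ D : ℝ, μ (Set.Icc (-D) D)ᶜ = 0
  moments : ∀ n : ℕ, ∫ x, x ^ n ∂μ = ((adjOp T)^[n] (chi o)) o

/-- the finite balls -/
def ball (T : SimpleGraph P) (o : P) : ℕ → Set P
  | 0 => {o}
  | n + 1 => ball T o n ∪ ⋃ p ∈ ball T o n, T.neighborSet p

lemma ball_finite {T : SimpleGraph P} (hT : ∀ p, (T.neighborSet p).Finite) (o : P) (n : ℕ) :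
    (ball T o n).Finite := by
  induction n with
  | zero => exact Set.finite_singleton o
  | succ n ih => exact ih.union (ih.biUnion (fun p _ => hT p))

lemma ball_mono {T : SimpleGraph P} {o : P} {m n : ℕ} (h : m ≤ n) : ball T o m ⊆ ball T o n := by
  induction n, h using Nat.le_induction with
  | base => exact subset_rfl
  | succ n _ ih => exact ih.trans subset_union_left

lemma supp_ball {T : SimpleGraph P} {o : P} (k : ℕ) :
    ∀ p, p ∉ ball T o k → ((adjOp T)^[k] (chi o)) p = 0 := by
  induction k with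
  | zero =>
    intro p hp
    have : p ≠ o := hp
    simp [chi, this]
  | succ k ih =>
    intro p hp
    rw [Function.iterate_succ_apply', adjOp]
    apply finsum_mem_eq_zero_of_forall_eq_zero
    intro q hq
    apply ih
    intro hqb
    apply hp
    exact Or.inr (mem_biUnion hqb (T.adj_symm hq))

lemma exists_measure_aux {T : SimpleGraph P} (hT : ∀ p, (T.neighborSet p).Finite) {D : ℕ}
    (hD : ∀ p, (T.neighborSet p).ncard ≤ D) (o : P) (n : ℕ) :
    ∃ μ : ProbabilityMeasure (Icc (-(D : ℝ)) D), ∀ k ≤ n,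
      ∫ x, (x : ℝ) ^ k ∂(μ : Measure (Icc (-(D : ℝ)) D)) = ((adjOp T)^[k] (chi o)) o := by
  classical
  have hfin := ball_finite hT o n
  let _ : Fintype (ball T o n) := hfin.fintype
  have hon : o ∈ ball T o n := ball_mono (Nat.zero_le n) (mem_singleton o)
  set M : Matrix (ball T o n) (ball T o n) ℝ := Matrix.of fun p q => if T.Adj p.1 q.1 then 1 else 0
    with hMdef
  have hMh : M.IsHermitian := by
    ext p q
    simp [hMdef, T.adj_comm]
  have hrow : ∀ p, ∑ q, |M p q| ≤ (D : ℝ) := by
    intro p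
    have h1 : ∑ q, |M p q| = ((Finset.univ.filter (fun q : ball T o n => T.Adj p.1 q.1)).card : ℝ) := by
      rw [Finset.card_filter]
      push_cast
      refine Finset.sum_congr rfl (fun q _ => ?_)
      by_cases h : T.Adj p.1 q.1 <;> simp [hMdef, h]
    rw [h1]
    refine le_trans ?_ (Nat.cast_le.2 (hD p.1))
    rw [Nat.cast_le, ← Set.ncard_coe_finset]
    refine Set.ncard_le_ncard_of_injOn (fun q => q.1) ?_ ?_ (hT p.1)
    · intro q hq
      simpa using hq
    · intro a _ b _ hab
      exact Subtype.ext hab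
  obtain ⟨μ, hμ⟩ := exists_finite_measure hMh hrow ⟨o, hon⟩
  refine ⟨μ, fun k hk => ?_⟩
  rw [hμ k]
  -- the powers
  have key : ∀ k ≤ n, ∀ p : ball T o n, (M ^ k) p ⟨o, hon⟩ = ((adjOp T)^[k] (chi o)) p.1 := by
    intro k
    induction k with
    | zero =>
      intro _ p
      simp [Matrix.one_apply, chi, Subtype.ext_iff]
    | succ k ih =>
      intro hk p
      rw [pow_succ', Matrix.mul_apply, Function.iterate_succ_apply', adjOp]
      have h2 : ∑ q : ball T o n, M p q * (M ^ k) q ⟨o, hon⟩ =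
          ∑ q : ball T o n, if T.Adj p.1 q.1 then ((adjOp T)^[k] (chi o)) q.1 else 0 := by
        refine Finset.sum_congr rfl (fun q _ => ?_)
        rw [ih (by omega) q]
        by_cases h : T.Adj p.1 q.1 <;> simp [hMdef, h]
      rw [h2]
      have h3 : ∑ᶠ q ∈ T.neighborSet p.1, ((adjOp T)^[k] (chi o)) q =
          ∑ q ∈ hfin.toFinset, if T.Adj p.1 q then ((adjOp T)^[k] (chi o)) q else 0 := by
        rw [finsum_mem_eq_finite_toFinset_sum _ (hT p.1)]
        have hu : ∀ q, q ∉ hfin.toFinset → ((adjOp T)^[k] (chi o)) q = 0 := by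
          intro q hq
          apply supp_ball
          intro hqb
          exact hq (hfin.mem_toFinset.2 (ball_mono (by omega) hqb))
        rw [← Finset.sum_filter]
        refine (Finset.sum_subset ?_ ?_).symm
        · intro q hq
          rw [Finset.mem_filter] at hq
          exact (hT p.1).mem_toFinset.2 hq.2
        · intro q hq hq2
          apply hu
          intro h4
          exact hq2 (Finset.mem_filter.2 ⟨h4, (hT p.1).mem_toFinset.1 hq⟩)
      rw [h3]
      symm
      refine Finset.sum_bij (fun q hq => (⟨q, hfin.mem_toFinset.1 hq⟩ : ball T o n)) ?_ ?_ ?_ ?_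
      · intro q _; exact Finset.mem_univ _
      · intro a _ b _ hab; exact congrArg Subtype.val hab
      · intro q _
        exact ⟨q.1, hfin.mem_toFinset.2 q.2, rfl⟩
      · intro q _; rfl
  exact key k hk ⟨o, hon⟩

/-- existence of the spectral measure -/
theorem exists_spec {T : SimpleGraph P} (hT : ∀ p, (T.neighborSet p).Finite) {D : ℕ}
    (hD : ∀ p, (T.neighborSet p).ncard ≤ D) (o : P) :
    ∃ μ : Measure ℝ, IsSpec T o μ ∧ μ (Set.Icc (-(D : ℝ)) D)ᶜ = 0 := by
  choose μ hμ using exists_measure_aux hT hD o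
  set U : Ultrafilter ℕ := Filter.hyperfilter ℕ
  obtain ⟨ν, hν⟩ : ∃ ν, Tendsto μ U (𝓝 ν) := by
    obtain ⟨ν, -, hν⟩ := isCompact_univ.ultrafilter_le_nhds (U.map μ) (by simp)
    exact ⟨ν, hν⟩
  rw [ProbabilityMeasure.tendsto_iff_forall_integral_tendsto] at hν
  have hmom : ∀ k : ℕ, ∫ x, (x : ℝ) ^ k ∂(ν : Measure (Icc (-(D : ℝ)) D)) =
      ((adjOp T)^[k] (chi o)) o := by
    intro k
    have h1 := hν (BoundedContinuousFunction.mkOfCompact
      ⟨fun x : Icc (-(D : ℝ)) D => (x : ℝ) ^ k, continuous_subtype_val.pow k⟩)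
    have h2 : Tendsto (fun n => ∫ x, (x : ℝ) ^ k ∂(μ n : Measure (Icc (-(D : ℝ)) D))) U
        (𝓝 (((adjOp T)^[k] (chi o)) o)) := by
      apply tendsto_const_nhds.congr'
      have h3 : ∀ᶠ n in (U : Filter ℕ), k ≤ n := by
        apply Filter.hyperfilter_le_cofinite
        rw [Nat.cofinite_eq_atTop]
        exact eventually_ge_atTop k
      filter_upwards [h3] with n hn
      exact (hμ n k hn).symm
    exact tendsto_nhds_unique h1 h2
  have hempty : (Subtype.val : Icc (-(D : ℝ)) D → ℝ) ⁻¹' (Icc (-(D : ℝ)) D)ᶜ = ∅ := by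
    ext x
    simp only [mem_preimage, mem_compl_iff, mem_empty_iff_false, iff_false, not_not]
    exact x.2
  refine ⟨(ν : Measure (Icc (-(D : ℝ)) D)).map Subtype.val, ⟨?_, ⟨D, ?_⟩, ?_⟩, ?_⟩
  · exact Measure.isProbabilityMeasure_map measurable_subtype_coe.aemeasurable
  · rw [Measure.map_apply measurable_subtype_coe measurableSet_Icc.compl, hempty, measure_empty]
  · intro n
    rw [integral_map measurable_subtype_coe.aemeasurable
      (continuous_pow n).aestronglyMeasurable]
    exact hmom n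
  · rw [Measure.map_apply measurable_subtype_coe measurableSet_Icc.compl, hempty, measure_empty]

/-! ### uniqueness -/

lemma IsSpec.integrable_of {T : SimpleGraph P} {o : P} {μ : Measure ℝ} (h : IsSpec T o μ)
    {f : ℝ → ℝ} (hf : Continuous f) : Integrable f μ := by
  obtain ⟨D, hD⟩ := h.supp
  have := h.prob
  obtain ⟨C, hC⟩ := (isCompact_Icc (a := -D) (b := D)).exists_bound_of_continuousOn hf.continuousOn
  refine Integrable.of_bound hf.aestronglyMeasurable C ?_
  rw [ae_iff]
  refine measure_mono_null ?_ hD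
  intro x hx
  simp only [mem_ofPred_eq] at hx
  intro hxI
  exact hx (hC x hxI)

lemma IsSpec.unique {T : SimpleGraph P} {o : P} {μ ν : Measure ℝ} (h : IsSpec T o μ)
    (h' : IsSpec T o ν) : μ = ν := by
  have := h.prob
  have := h'.prob
  obtain ⟨D₁, hD₁⟩ := h.supp
  obtain ⟨D₂, hD₂⟩ := h'.supp
  set D := max D₁ D₂
  have hμ : μ (Icc (-D) D)ᶜ = 0 := measure_mono_null (compl_subset_compl.2
    (Icc_subset_Icc (neg_le_neg (le_max_left _ _)) (le_max_left _ _))) hD₁
  have hν : ν (Icc (-D) D)ᶜ = 0 := measure_mono_null (compl_subset_compl.2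
    (Icc_subset_Icc (neg_le_neg (le_max_right _ _)) (le_max_right _ _))) hD₂
  apply ext_of_forall_integral_eq_of_IsFiniteMeasure
  intro f
  apply eq_of_abs_sub_le_all
  intro ε hε
  obtain ⟨p, hp⟩ := exists_polynomial_near_of_continuousOn (-D) D f f.continuous.continuousOn
    (ε / 2) (by positivity)
  have hpoly : ∫ x, p.eval x ∂μ = ∫ x, p.eval x ∂ν := by
    have hx : ∀ (ρ : Measure ℝ), IsSpec T o ρ → ∫ x, p.eval x ∂ρ =
        ∑ i ∈ Finset.range (p.natDegree + 1), p.coeff i * ((adjOp T)^[i] (chi o)) o := by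
      intro ρ hρ
      simp_rw [Polynomial.eval_eq_sum_range]
      rw [integral_finsetSum]
      · refine Finset.sum_congr rfl (fun i _ => ?_)
        rw [integral_const_mul, hρ.moments]
      · intro i _
        exact hρ.integrable_of (by fun_prop)
    rw [hx μ h, hx ν h']
  have hb : ∀ (ρ : Measure ℝ), IsSpec T o ρ → ρ (Icc (-D) D)ᶜ = 0 →
      |∫ x, f x ∂ρ - ∫ x, p.eval x ∂ρ| ≤ ε / 2 := by
    intro ρ hρ hρ0
    have := hρ.prob
    rw [← integral_sub (hρ.integrable_of f.continuous) (hρ.integrable_of p.continuous)]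
    have h1 : ∀ᵐ x ∂ρ, ‖f x - p.eval x‖ ≤ ε / 2 := by
      rw [ae_iff]
      refine measure_mono_null ?_ hρ0
      intro x hx hxI
      apply hx
      rw [Real.norm_eq_abs, abs_sub_comm]
      exact (hp x hxI).le
    have h2 := norm_integral_le_of_norm_le_const h1
    simpa using h2
  have h1 := hb μ h hμ
  have h2 := hb ν h' hν
  rw [hpoly] at h1
  calc |∫ x, f x ∂μ - ∫ x, f x ∂ν| = |(∫ x, f x ∂μ - ∫ x, p.eval x ∂ν) -
      (∫ x, f x ∂ν - ∫ x, p.eval x ∂ν)| := by ring_nf
    _ ≤ ε / 2 + ε / 2 := (abs_sub _ _).trans (add_le_add h1 h2)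
    _ = ε := by ring

end Pool.Agent.R3.PT
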