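import Pool.Agent.R3.PT2

set_option autoImplicit false

open MeasureTheory Filter Topology Set

namespace Pool.Agent.R3.PT

variable {P : Type*}

/-- adjacency operator on finitely supported functions -/
noncomputable def A0 {T : SimpleGraph P} (hT : ∀ p, (T.neighborSet p).Finite) :
    (P →₀ ℝ) →ₗ[ℝ] (P →₀ ℝ) :=
  Finsupp.linearCombination ℝ (fun p => ∑ q ∈ (hT p).toFinset, Finsupp.single q (1 : ℝ))

/-- pairing -/
noncomputable def LL (h : P → ℝ) : (P →₀ ℝ) →ₗ[ℝ] ℝ := Finsupp.linearCombination ℝ h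

lemma LL_single (h : P → ℝ) (p : P) (c : ℝ) : LL h (Finsupp.single p c) = c * h p := by
  simp [LL]

lemma LL_A0 {T : SimpleGraph P} (hT : ∀ p, (T.neighborSet p).Finite) (h : P → ℝ) (g : P →₀ ℝ) :
    LL h (A0 hT g) = LL (adjOp T h) g := by
  have : (LL h) ∘ₗ (A0 hT) = LL (adjOp T h) := by
    apply Finsupp.lhom_ext
    intro p c
    rw [LinearMap.comp_apply, LL_single, A0, Finsupp.linearCombination_single, map_smul, map_sum,
      adjOp, finsum_mem_eq_finite_toFinset_sum _ (hT p), smul_eq_mul]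
    congr 1
    refine Finset.sum_congr rfl (fun q _ => ?_)
    rw [LL_single, one_mul]
  exact LinearMap.congr_fun this g

lemma LL_A0_pow {T : SimpleGraph P} (hT : ∀ p, (T.neighborSet p).Finite) (h : P → ℝ) (g : P →₀ ℝ)
    (k : ℕ) : LL h (((A0 hT) ^ k) g) = LL ((adjOp T)^[k] h) g := by
  induction k generalizing h with
  | zero => simp
  | succ k ih =>
    rw [pow_succ', Module.End.mul_apply, LL_A0, ih, Function.iterate_succ_apply]

lemma LL_comm (g g' : P →₀ ℝ) : LL (⇑g) g' = LL (⇑g') g := by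
  classical
  rw [LL, LL, Finsupp.linearCombination_apply, Finsupp.linearCombination_apply,
    Finsupp.sum_of_support_subset g' (s := g.support ∪ g'.support) Finset.subset_union_right _
      (by simp),
    Finsupp.sum_of_support_subset g (s := g.support ∪ g'.support) Finset.subset_union_left _
      (by simp)]
  refine Finset.sum_congr rfl (fun p _ => ?_)
  simp [mul_comm]

lemma adjOp_coe {T : SimpleGraph P} (hT : ∀ p, (T.neighborSet p).Finite) (g : P →₀ ℝ) (p : P) :
    adjOp T (⇑g) p = A0 hT g p := by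
  classical
  have h1 : A0 hT g p = LL (⇑(Finsupp.single p (1 : ℝ))) (A0 hT g) := by
    rw [LL_comm, LL_single, one_mul]
  rw [h1, LL_A0]
  have h2 : adjOp T (⇑(Finsupp.single p (1 : ℝ))) = ⇑(∑ q ∈ (hT p).toFinset,
      Finsupp.single q (1 : ℝ)) := by
    funext r
    rw [adjOp, finsum_mem_eq_finite_toFinset_sum _ (hT r), Finsupp.finsetSum_apply]
    simp only [Finsupp.single_apply]
    rw [Finset.sum_ite_eq, Finset.sum_ite_eq']
    simp only [Finite.mem_toFinset, SimpleGraph.mem_neighborSet]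
    simp only [T.adj_comm]
  rw [h2, LL_comm, map_sum, adjOp, finsum_mem_eq_finite_toFinset_sum _ (hT p)]
  refine Finset.sum_congr rfl (fun q _ => ?_)
  rw [LL_single, one_mul]

lemma LL_symm {T : SimpleGraph P} (hT : ∀ p, (T.neighborSet p).Finite) (g g' : P →₀ ℝ) :
    LL (⇑(A0 hT g)) g' = LL (⇑g) (A0 hT g') := by
  rw [LL_A0]
  congr 2
  funext p
  exact (adjOp_coe hT g p).symm

lemma LL_symm_pow {T : SimpleGraph P} (hT : ∀ p, (T.neighborSet p).Finite) (g g' : P →₀ ℝ)
    (k : ℕ) : LL (⇑(((A0 hT) ^ k) g)) g' = LL (⇑g) (((A0 hT) ^ k) g') := by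
  induction k generalizing g' with
  | zero => simp
  | succ k ih =>
    rw [pow_succ', Module.End.mul_apply, LL_symm, ih, ← Module.End.mul_apply, ← pow_succ, pow_succ']

lemma LL_symm_poly {T : SimpleGraph P} (hT : ∀ p, (T.neighborSet p).Finite) (g g' : P →₀ ℝ)
    (p : Polynomial ℝ) : LL (⇑(Polynomial.aeval (A0 hT) p g)) g' =
      LL (⇑g) (Polynomial.aeval (A0 hT) p g') := by
  rw [LL_comm, Polynomial.aeval_eq_sum_range]
  simp only [LinearMap.sum_apply, LinearMap.smul_apply, map_sum, map_smul, smul_eq_mul]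
  refine Finset.sum_congr rfl (fun i _ => ?_)
  rw [← LL_symm_pow, LL_comm]

lemma LL_poly {T : SimpleGraph P} (hT : ∀ p, (T.neighborSet p).Finite) (h : P → ℝ) (o : P)
    (p : Polynomial ℝ) : LL h (Polynomial.aeval (A0 hT) p (Finsupp.single o 1)) =
      ∑ i ∈ Finset.range (p.natDegree + 1), p.coeff i * ((adjOp T)^[i] h) o := by
  rw [Polynomial.aeval_eq_sum_range]
  simp only [LinearMap.sum_apply, LinearMap.smul_apply, map_sum, map_smul, smul_eq_mul]
  refine Finset.sum_congr rfl (fun i _ => ?_)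
  rw [LL_A0_pow, LL_single, one_mul]

lemma chi_eq (o : P) : chi o = ⇑(Finsupp.single o (1 : ℝ)) := by
  classical
  funext p
  rw [Finsupp.single_apply]
  simp only [chi, eq_comm]

lemma integral_poly {T : SimpleGraph P} (hT : ∀ p, (T.neighborSet p).Finite) {o : P} {μ : Measure ℝ}
    (h : IsSpec T o μ) (p : Polynomial ℝ) :
    ∫ x, p.eval x ∂μ = LL (chi o) (Polynomial.aeval (A0 hT) p (Finsupp.single o 1)) := by
  rw [LL_poly]
  simp_rw [Polynomial.eval_eq_sum_range]
  rw [integral_finsetSum]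
  · refine Finset.sum_congr rfl (fun i _ => ?_)
    rw [integral_const_mul, h.moments]
  · intro i _
    exact h.integrable_of (by fun_prop)

lemma adjOp_zero (T : SimpleGraph P) : adjOp T (0 : P → ℝ) = 0 := by
  funext p
  simp [adjOp]

lemma LL_cs (f : P → ℝ) (hf : Summable (fun p => f p ^ 2)) (g : P →₀ ℝ) :
    (LL f g) ^ 2 ≤ LL (⇑g) g * ∑' p, f p ^ 2 := by
  have h1 : LL f g = ∑ p ∈ g.support, g p * f p := by
    rw [LL, Finsupp.linearCombination_apply, Finsupp.sum]
    simp
  have h2 : LL (⇑g) g = ∑ p ∈ g.support, g p ^ 2 := by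
    rw [LL, Finsupp.linearCombination_apply, Finsupp.sum]
    simp [sq]
  rw [h1, h2]
  refine (Finset.sum_mul_sq_le_sq_mul_sq _ _ _).trans ?_
  exact mul_le_mul_of_nonneg_left (hf.sum_le_tsum _ (fun _ _ => sq_nonneg _))
    (Finset.sum_nonneg (fun _ _ => sq_nonneg _))

theorem poly_bound {T : SimpleGraph P} (hT : ∀ p, (T.neighborSet p).Finite) {o : P} {μ : Measure ℝ}
    (h : IsSpec T o μ) {f : P → ℝ} (hf : Summable (fun p => f p ^ 2))
    (hker : ∀ p, adjOp T f p = 0) (p : Polynomial ℝ) (hp : p.coeff 0 = 1) :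
    f o ^ 2 ≤ (∫ x, (p.eval x) ^ 2 ∂μ) * ∑' p, f p ^ 2 := by
  set g := Polynomial.aeval (A0 hT) p (Finsupp.single o (1 : ℝ)) with hg
  have h1 : LL f g = f o := by
    rw [hg, LL_poly, Finset.sum_range_succ', Finset.sum_eq_zero]
    · simp [hp]
    · intro i _
      have hz : adjOp T f = 0 := funext hker
      rw [Function.iterate_succ_apply, hz]
      have : ∀ j : ℕ, (adjOp T)^[j] (0 : P → ℝ) = 0 := by
        intro j
        induction j with
        | zero => rfl
        | succ j ih => rw [Function.iterate_succ_apply, adjOp_zero, ih]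
      rw [this]
      simp
  have h2 : LL (⇑g) g = ∫ x, (p.eval x) ^ 2 ∂μ := by
    have h3 : ∫ x, (p.eval x) ^ 2 ∂μ = ∫ x, (p ^ 2).eval x ∂μ := by
      refine integral_congr_ae (Eventually.of_forall (fun x => ?_))
      simp
    rw [h3, integral_poly hT h, chi_eq, hg, LL_symm_poly, sq, map_mul, Module.End.mul_apply]
  have h4 := LL_cs f hf g
  rwa [h1, h2] at h4

theorem atom_lower {T : SimpleGraph P} (hT : ∀ p, (T.neighborSet p).Finite) {o : P} {μ : Measure ℝ}
    (h : IsSpec T o μ) {f : P → ℝ} (hf : Summable (fun p => f p ^ 2))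
    (hker : ∀ p, adjOp T f p = 0) :
    f o ^ 2 ≤ (μ {0}).toReal * ∑' p, f p ^ 2 := by
  have := h.prob
  obtain ⟨D₀, hD₀⟩ := h.supp
  set D := max D₀ 1 with hDdef
  have hD1 : 1 ≤ D := le_max_right _ _
  have hD : μ (Icc (-D) D)ᶜ = 0 := measure_mono_null (compl_subset_compl.2
    (Icc_subset_Icc (neg_le_neg (le_max_left _ _)) (le_max_left _ _))) hD₀
  have hae : ∀ᵐ x ∂μ, x ∈ Icc (-D) D := by
    rw [ae_iff]
    exact hD
  set q : Polynomial ℝ := 1 - Polynomial.C (1 / D ^ 2) * Polynomial.X ^ 2 with hq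
  have hqe : ∀ x, q.eval x = 1 - x ^ 2 / D ^ 2 := by
    intro x
    simp only [hq, Polynomial.eval_sub, Polynomial.eval_one, Polynomial.eval_mul,
      Polynomial.eval_C, Polynomial.eval_pow, Polynomial.eval_X]
    ring
  have hx01 : ∀ x ∈ Icc (-D) D, 0 ≤ 1 - x ^ 2 / D ^ 2 ∧ 1 - x ^ 2 / D ^ 2 ≤ 1 := by
    intro x hx
    have h1 : x ^ 2 ≤ D ^ 2 := by
      have := abs_le.2 ⟨hx.1, hx.2⟩
      rw [← sq_abs x]
      exact pow_le_pow_left₀ (abs_nonneg _) this 2
    have h2 : x ^ 2 / D ^ 2 ≤ 1 := (div_le_one (by positivity)).2 h1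
    have h3 : 0 ≤ x ^ 2 / D ^ 2 := by positivity
    constructor <;> linarith
  have hlim : Tendsto (fun k : ℕ => ∫ x, ((q ^ k).eval x) ^ 2 ∂μ) atTop (𝓝 (μ {0}).toReal) := by
    have h0 : (μ {0}).toReal = ∫ x, ({0} : Set ℝ).indicator (fun _ => (1 : ℝ)) x ∂μ := by
      rw [integral_indicator_const _ (measurableSet_singleton 0)]
      simp [Measure.real]
    rw [h0]
    refine tendsto_integral_of_dominated_convergence (fun _ => (1 : ℝ)) ?_ (integrable_const _) ?_ ?_
    · intro k
      exact ((q ^ k).continuous.pow 2).aestronglyMeasurable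
    · intro k
      filter_upwards [hae] with x hx
      rw [Polynomial.eval_pow, hqe, Real.norm_eq_abs, abs_pow, abs_pow,
        abs_of_nonneg (hx01 x hx).1]
      exact pow_le_one₀ (pow_nonneg (hx01 x hx).1 _) (pow_le_one₀ (hx01 x hx).1 (hx01 x hx).2)
    · filter_upwards [hae] with x hx
      by_cases hx0 : x = 0
      · subst hx0
        simp [hqe]
      · have h1 : ({0} : Set ℝ).indicator (fun _ => (1 : ℝ)) x = 0 := by
          simp [hx0]
        rw [h1]
        have h2 : ∀ k : ℕ, ((q ^ k).eval x) ^ 2 = ((1 - x ^ 2 / D ^ 2) ^ 2) ^ k := by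
          intro k
          rw [Polynomial.eval_pow, hqe, ← pow_mul, ← pow_mul, mul_comm]
        simp_rw [h2]
        apply tendsto_pow_atTop_nhds_zero_of_lt_one (sq_nonneg _)
        have h3 : 0 < x ^ 2 / D ^ 2 := by positivity
        have h4 := (hx01 x hx).1
        nlinarith
  refine le_of_tendsto_of_tendsto' tendsto_const_nhds (hlim.mul_const _) (fun k => ?_)
  apply poly_bound hT h hf hker
  rw [Polynomial.coeff_zero_eq_eval_zero, Polynomial.eval_pow, hqe]
  simp

theorem atom_pos {T : SimpleGraph P} (hT : ∀ p, (T.neighborSet p).Finite) {o : P} {μ : Measure ℝ}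
    (h : IsSpec T o μ) {f : P → ℝ} (hf : Summable (fun p => f p ^ 2))
    (hker : ∀ p, adjOp T f p = 0) (ho : f o ≠ 0) : 0 < μ {0} := by
  have h1 := atom_lower hT h hf hker
  rcases eq_or_ne (μ {0}) 0 with h0 | h0
  · rw [h0] at h1
    simp only [ENNReal.toReal_zero, zero_mul] at h1
    have : 0 < f o ^ 2 := by positivity
    linarith
  · exact pos_iff_ne_zero.2 h0

end Pool.Agent.R3.PT
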