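import Pool.Agent.R3.PT3

set_option autoImplicit false

open MeasureTheory Filter Topology Set

namespace Pool.Agent.R3.PT

variable {V : Type*}

/-- The finite paths in `G` starting at `o`; the path `o = v₀, v₁, …, v_n` is coded by the list
`[v_n, …, v₁, v₀]`. -/
@[ext] structure FinPath (G : SimpleGraph V) (o : V) where
  /-- the list of the vertices, the last vertex of the path comes first -/
  verts : List V
  start : verts.getLast? = some o
  nodup : verts.Nodup
  chain : verts.IsChain G.Adj

lemma verts_inj {G : SimpleGraph V} {o : V} :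
    Function.Injective (FinPath.verts : FinPath G o → List V) := fun _ _ h => FinPath.ext h

/-- The path tree `T(G,o)`: two paths starting at `o` are adjacent when one of them is the other
one extended by one vertex. -/
def pathTree (G : SimpleGraph V) (o : V) : SimpleGraph (FinPath G o) where
  Adj p q := (∃ v, q.verts = v :: p.verts) ∨ (∃ v, p.verts = v :: q.verts)
  symm := ⟨fun _ _ h => h.symm⟩
  loopless := ⟨fun p h => by
    rcases h with ⟨v, hv⟩ | ⟨v, hv⟩
    · have := congrArg List.length hv
      simp at this
    · have := congrArg List.length hv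
      simp at this⟩

/-- the root of the path tree: the one-vertex path -/
def root (G : SimpleGraph V) (o : V) : FinPath G o :=
  ⟨[o], by simp, by simp, by simp⟩

/-- `μ` is the matching measure `ν_{G,o}` -/
def IsMatchingMeasure (G : SimpleGraph V) (o : V) (μ : Measure ℝ) : Prop :=
  IsSpec (pathTree G o) (root G o) μ

lemma pathTree_nbr_subset (G : SimpleGraph V) (o : V) (p : FinPath G o) (w : V) (l : List V)
    (hp : p.1 = w :: l) :
    FinPath.verts '' ((pathTree G o).neighborSet p) =
      (if l = [] then ∅ else {l}) ∪ (fun b => b :: w :: l) '' {b | G.Adj w b ∧ b ∉ w :: l} := by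
  ext q
  constructor
  · rintro ⟨q, hq, rfl⟩
    rcases hq with ⟨b, hb⟩ | ⟨b, hb⟩
    · right
      refine ⟨b, ?_, ?_⟩
      · have h1 := q.nodup
        have h2 := q.chain
        rw [hb, hp] at h1 h2
        rw [List.isChain_cons_cons] at h2
        exact ⟨h2.1.symm, (List.nodup_cons.1 h1).1⟩
      · rw [hb, hp]
    · left
      rw [hp] at hb
      have h1 : l = q.1 := (List.cons.inj hb).2
      have h2 : l ≠ [] := by
        intro h0
        have h3 := q.start
        rw [← h1, h0] at h3
        simp at h3
      rw [if_neg h2]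
      exact h1.symm
  · rintro (hq | hq)
    · by_cases h0 : l = []
      · rw [if_pos h0] at hq; exact hq.elim
      · rw [if_neg h0] at hq
        have hq' : q = l := hq
        have h1 := p.start
        have h2 := p.nodup
        have h3 := p.chain
        rw [hp] at h1 h2 h3
        refine ⟨⟨l, ?_, (List.nodup_cons.1 h2).2, h3.tail⟩, Or.inr ⟨w, hp⟩, hq'.symm⟩
        rw [List.getLast?_cons] at h1
        cases hl : l.getLast? with
        | none => exact absurd (List.getLast?_eq_none_iff.1 hl) h0
        | some x =>
          rw [hl] at h1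
          simpa using h1
    · obtain ⟨b, ⟨hb1, hb2⟩, rfl⟩ := hq
      have h1 := p.start
      have h2 := p.nodup
      have h3 := p.chain
      rw [hp] at h1 h2 h3
      refine ⟨⟨b :: w :: l, ?_, List.nodup_cons.2 ⟨hb2, h2⟩, ?_⟩, Or.inl ⟨b, ?_⟩, rfl⟩
      · rw [List.getLast?_cons, h1]
        rfl
      · rw [List.isChain_cons_cons]
        exact ⟨hb1.symm, h3⟩
      · rw [hp]

lemma nbr_set_finite {G : SimpleGraph V} (hG : ∀ v, (G.neighborSet v).Finite) (w : V) (l : List V) :
    {b | G.Adj w b ∧ b ∉ w :: l}.Finite := (hG w).subset (fun _ hb => hb.1)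

lemma exists_cons {G : SimpleGraph V} {o : V} (p : FinPath G o) : ∃ w l, p.1 = w :: l := by
  cases h : p.1 with
  | nil =>
    have := p.start
    rw [h] at this
    simp at this
  | cons w l => exact ⟨w, l, rfl⟩

lemma pathTree_finite {G : SimpleGraph V} (hG : ∀ v, (G.neighborSet v).Finite) (o : V)
    (p : FinPath G o) : ((pathTree G o).neighborSet p).Finite := by
  obtain ⟨w, l, hp⟩ := exists_cons p
  apply Set.Finite.of_finite_image (f := FinPath.verts) _ (verts_inj.injOn)
  rw [pathTree_nbr_subset G o p w l hp]
  refine Set.Finite.union ?_ ((nbr_set_finite hG w l).image _)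
  split_ifs
  · exact Set.finite_empty
  · exact Set.finite_singleton _

lemma pathTree_ncard {G : SimpleGraph V} (hG : ∀ v, (G.neighborSet v).Finite) {D : ℕ}
    (hD : ∀ v, (G.neighborSet v).ncard ≤ D) (o : V)
    (p : FinPath G o) : ((pathTree G o).neighborSet p).ncard ≤ D + 1 := by
  obtain ⟨w, l, hp⟩ := exists_cons p
  rw [← Set.ncard_image_of_injective _ verts_inj, pathTree_nbr_subset G o p w l hp]
  refine (Set.ncard_union_le _ _).trans ?_
  rw [add_comm]
  refine add_le_add ?_ ?_
  · refine (Set.ncard_image_le (nbr_set_finite hG w l)).trans ?_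
    exact (Set.ncard_le_ncard (fun _ hb => hb.1) (hG w)).trans (hD w)
  · split_ifs
    · simp
    · simp

lemma adjOp_pathTree {G : SimpleGraph V} (hG : ∀ v, (G.neighborSet v).Finite) (o : V)
    (F : List V → ℝ) (p : FinPath G o) (w : V) (l : List V) (hp : p.1 = w :: l) :
    adjOp (pathTree G o) (fun q => F q.1) p =
      (if l = [] then 0 else F l) + ∑ᶠ b ∈ {b | G.Adj w b ∧ b ∉ w :: l}, F (b :: w :: l) := by
  have h1 : adjOp (pathTree G o) (fun q => F q.1) p =
      ∑ᶠ q ∈ FinPath.verts '' ((pathTree G o).neighborSet p), F q := by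
    rw [adjOp, finsum_mem_image (verts_inj.injOn)]
  have hfin := nbr_set_finite hG w l
  rw [h1, pathTree_nbr_subset G o p w l hp, finsum_mem_union]
  · congr 1
    · split_ifs
      · simp
      · simp
    · rw [finsum_mem_image]
      intro a _ b _ hab
      exact (List.cons.inj hab).1
  · rw [Set.disjoint_left]
    intro q hq hq2
    split_ifs at hq
    · exact hq
    · obtain ⟨b, _, hb⟩ := hq2
      have h2 : q = l := hq
      rw [← hb] at h2
      have := congrArg List.length h2
      simp only [List.length_cons] at this
      omega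
  · split_ifs
    · exact Set.finite_empty
    · exact Set.finite_singleton _
  · exact hfin.image _

theorem exists_matchingMeasure {G : SimpleGraph V} (hG : ∀ v, (G.neighborSet v).Finite) {D : ℕ}
    (hD : ∀ v, (G.neighborSet v).ncard ≤ D) (o : V) : ∃! μ, IsMatchingMeasure G o μ := by
  obtain ⟨μ, hμ, -⟩ := exists_spec (pathTree_finite hG o) (pathTree_ncard hG hD o) (root G o)
  exact ⟨μ, hμ, fun ν hν => IsSpec.unique hν hμ⟩

end Pool.Agent.R3.PT
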