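import Pool.Agent.R3.PT4

set_option autoImplicit false

open MeasureTheory Filter Topology Set

namespace Pool.Agent.R3.PT

/-- The bi-infinite ladder `ℤ □ K₂`. -/
def ladder : SimpleGraph (ℤ × Bool) where
  Adj x y := (x.2 = y.2 ∧ (y.1 = x.1 + 1 ∨ x.1 = y.1 + 1)) ∨ (x.1 = y.1 ∧ x.2 ≠ y.2)
  symm := ⟨fun _ _ h => by
    rcases h with ⟨h1, h2⟩ | ⟨h1, h2⟩
    · exact Or.inl ⟨h1.symm, h2.symm⟩
    · exact Or.inr ⟨h1.symm, h2.symm⟩⟩
  loopless := ⟨fun x h => by
    rcases h with ⟨_, h2⟩ | ⟨_, h2⟩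
    · omega
    · exact h2 rfl⟩

/-- states of the walk -/
inductive St
  | start | A (d : ℤ) | B (d : ℤ) | Y (d : ℤ) | I | dead

open St

/-- transitions, with their weights -/
noncomputable def tr : St → ℤ → ℤ → St × ℝ
  | start, m, n => if m ≠ 0 ∧ n = 0 then (A m, 2 / 3) else if m ≠ 0 ∧ n = m then (B m, 1 / 3)
      else (dead, 0)
  | A d, m, n => if m = d ∧ n = 0 then (A d, 2 / 3) else if m = d ∧ n = d then (B d, 1 / 3)
      else (dead, 0)
  | B d, m, n => if m = 0 ∧ n = -d then (I, 1) else if m = d ∧ n = 0 then (Y d, 1) else (dead, 0)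
  | Y d, m, n => if m = -d ∧ n = -d then (I, 1) else if m = d ∧ n = 0 then (A d, 2 / 3)
      else if m = d ∧ n = d then (B d, 1 / 3) else (dead, 0)
  | I, _, _ => (dead, 0)
  | dead, _, _ => (dead, 0)

/-- the state and the value at a path -/
noncomputable def run : List (ℤ × Bool) → St × ℝ
  | [] => (dead, 0)
  | [_] => (start, 1)
  | [_, _] => (dead, 0)
  | b :: w :: v :: l =>
    ((tr (run (v :: l)).1 (w.1 - v.1) (b.1 - w.1)).1,
      -((run (v :: l)).2 * (tr (run (v :: l)).1 (w.1 - v.1) (b.1 - w.1)).2))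

/-- the energies -/
noncomputable def En : St → ℝ
  | start => 5
  | A _ => 3
  | B _ => 6
  | Y _ => 4
  | I => 1
  | dead => 0

/-- admissible states -/
def good : St → Prop
  | A d => d = 1 ∨ d = -1
  | B d => d = 1 ∨ d = -1
  | Y d => d = 1 ∨ d = -1
  | _ => True

/-- the moves -/
def Mv : Finset (ℤ × ℤ) := ({-1, 0, 1} : Finset ℤ) ×ˢ ({-1, 0, 1} : Finset ℤ)

lemma good_tr {s : St} (hs : good s) {m n : ℤ} (h : (m, n) ∈ Mv) : good (tr s m n).1 := by
  simp only [Mv, Finset.mem_product, Finset.mem_insert, Finset.mem_singleton] at h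
  cases s with
  | start =>
    simp only [tr]
    split_ifs with h1 h2
    · simp only [good]; omega
    · simp only [good]; omega
    · trivial
  | A d => simp only [tr]; split_ifs <;> first | exact hs | trivial
  | B d => simp only [tr]; split_ifs <;> first | exact hs | trivial
  | Y d => simp only [tr]; split_ifs <;> first | exact hs | trivial
  | I => trivial
  | dead => trivial

lemma energy_step {s : St} (hs : good s) (c : ℝ) (hc : s = dead → c = 0) :
    ∑ mn ∈ Mv, (c * (tr s mn.1 mn.2).2) ^ 2 * En (tr s mn.1 mn.2).1 + c ^ 2 ≤ c ^ 2 * En s := by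
  rw [Mv, Finset.sum_product]
  cases s with
  | start => simp [tr, En]; nlinarith [sq_nonneg c]
  | A d =>
    rcases hs with rfl | rfl
    · simp [tr, En]; nlinarith [sq_nonneg c]
    · simp [tr, En]; nlinarith [sq_nonneg c]
  | B d =>
    rcases hs with rfl | rfl
    · simp [tr, En]; nlinarith [sq_nonneg c]
    · simp [tr, En]; nlinarith [sq_nonneg c]
  | Y d =>
    rcases hs with rfl | rfl
    · simp [tr, En]; nlinarith [sq_nonneg c]
    · simp [tr, En]; nlinarith [sq_nonneg c]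
  | I => simp [tr, En]
  | dead => simp [tr, hc rfl]

/-- the value on lists of moves -/
noncomputable def rm : List (ℤ × ℤ) → St × ℝ
  | [] => (start, 1)
  | mn :: l => ((tr (rm l).1 mn.1 mn.2).1, -((rm l).2 * (tr (rm l).1 mn.1 mn.2).2))

/-- move lists of given length -/
def Ls : ℕ → Finset (List (ℤ × ℤ))
  | 0 => {[]}
  | n + 1 => (Mv ×ˢ Ls n).image (fun x => x.1 :: x.2)

lemma rm_prop (n : ℕ) : ∀ l ∈ Ls n, good (rm l).1 ∧ ((rm l).1 = dead → (rm l).2 = 0) := by
  induction n with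
  | zero =>
    intro l hl
    simp only [Ls, Finset.mem_singleton] at hl
    subst hl
    simp [rm, good]
  | succ n ih =>
    intro l hl
    rw [Ls, Finset.mem_image] at hl
    obtain ⟨⟨mn, l'⟩, h12, rfl⟩ := hl
    obtain ⟨h1, h2⟩ := Finset.mem_product.1 h12
    obtain ⟨h3, h4⟩ := ih l' h2
    refine ⟨good_tr h3 h1, ?_⟩
    simp only [rm]
    intro h5
    rcases hs : (rm l').1 with _ | d | d | d | _ | _
    all_goals rw [hs] at h5
    all_goals simp only [tr] at h5 ⊢
    all_goals first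
      | (split_ifs at h5 ⊢ <;> simp_all)
      | simp

lemma energy_level (n : ℕ) :
    ∑ l ∈ Ls (n + 1), (rm l).2 ^ 2 * En (rm l).1 + ∑ l ∈ Ls n, (rm l).2 ^ 2 ≤
      ∑ l ∈ Ls n, (rm l).2 ^ 2 * En (rm l).1 := by
  rw [Ls, Finset.sum_image, Finset.sum_product, Finset.sum_comm, ← Finset.sum_add_distrib]
  · refine Finset.sum_le_sum (fun l hl => ?_)
    obtain ⟨h1, h2⟩ := rm_prop n l hl
    have := energy_step h1 (rm l).2 h2
    refine le_trans (le_of_eq ?_) this
    congr 1
    refine Finset.sum_congr rfl (fun mn _ => ?_)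
    simp only [rm]
    ring
  · intro a _ b _ hab
    simp only [List.cons.injEq] at hab
    exact Prod.ext hab.1 hab.2

lemma En_nonneg (s : St) : 0 ≤ En s := by cases s <;> simp [En]

lemma energy_total (n : ℕ) : ∑ i ∈ Finset.range n, ∑ l ∈ Ls i, (rm l).2 ^ 2 ≤ 5 := by
  have key : ∀ n, ∑ i ∈ Finset.range n, ∑ l ∈ Ls i, (rm l).2 ^ 2 +
      ∑ l ∈ Ls n, (rm l).2 ^ 2 * En (rm l).1 ≤ 5 := by
    intro n
    induction n with
    | zero => simp [Ls, rm, En]
    | succ n ih =>
      rw [Finset.sum_range_succ]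
      have := energy_level n
      linarith
  have h1 := key n
  have h2 : 0 ≤ ∑ l ∈ Ls n, (rm l).2 ^ 2 * En (rm l).1 :=
    Finset.sum_nonneg (fun l _ => mul_nonneg (sq_nonneg _) (En_nonneg _))
  linarith

end Pool.Agent.R3.PT
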