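import Pool.Agent.R3.PT5

set_option autoImplicit false

open MeasureTheory Filter Topology Set

namespace Pool.Agent.R3.PT

open St

/-- the invariants of the states -/
def Inv : St → ℤ → Bool → Set (ℤ × Bool) → Prop
  | A d, k, r, S => (d = 1 ∨ d = -1) ∧ (∀ x t, d * k < d * x → (x, t) ∉ S) ∧ (k - d, r) ∈ S ∧
      (k, !r) ∈ S
  | B d, k, r, S => (d = 1 ∨ d = -1) ∧ (∀ x t, d * k < d * x → (x, t) ∉ S) ∧ (k, !r) ∉ S ∧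
      (k - d, !r) ∉ S ∧ (k - d, r) ∈ S ∧ (k - 2 * d, !r) ∈ S
  | Y d, k, r, S => (d = 1 ∨ d = -1) ∧ (∀ x t, d * k < d * x → (x, t) ∉ S) ∧ (k - d, r) ∉ S ∧
      (k - 2 * d, r) ∉ S ∧ (k, !r) ∈ S ∧ (k - d, !r) ∈ S ∧ (k - 2 * d, !r) ∈ S ∧
      (k - 3 * d, r) ∈ S
  | I, k, r, S => (k + 1, r) ∈ S ∧ (k - 1, r) ∈ S ∧ (k, !r) ∈ S
  | start, k, _, S => ∀ x t, (x, t) ∈ S ↔ x = k
  | dead, _, _, _ => True

lemma ladder_cases {k : ℤ} {r : Bool} {x : ℤ} {t : Bool} (h : ladder.Adj (k, r) (x, t)) :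
    (x = k + 1 ∧ t = r) ∨ (x = k - 1 ∧ t = r) ∨ (x = k ∧ t = !r) := by
  simp only [ladder] at h
  rcases h with ⟨h1, h2 | h2⟩ | ⟨h1, h2⟩
  · exact Or.inl ⟨h2, h1.symm⟩
  · exact Or.inr (Or.inl ⟨by omega, h1.symm⟩)
  · refine Or.inr (Or.inr ⟨h1.symm, ?_⟩)
    cases r <;> cases t <;> simp_all

lemma inv_step_start {k : ℤ} {r : Bool} {S : Set (ℤ × Bool)} (hs : Inv start k r S)
    {x : ℤ} {t : Bool} (hw : ladder.Adj (k, r) (x, t)) (hwS : (x, t) ∉ S)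
    {y : ℤ} {q : Bool} (hb : ladder.Adj (x, t) (y, q)) (hbS : (y, q) ∉ S) :
    Inv (tr start (x - k) (y - x)).1 y q (insert (y, q) (insert (x, t) S)) := by
  have hs' : ∀ x t, (x, t) ∈ S ↔ x = k := hs
  cases r <;>
  rcases ladder_cases hw with ⟨rfl, rfl⟩ | ⟨rfl, rfl⟩ | ⟨rfl, rfl⟩ <;>
  rcases ladder_cases hb with ⟨rfl, rfl⟩ | ⟨rfl, rfl⟩ | ⟨rfl, rfl⟩ <;>
  simp [tr, Inv, hs'] at * <;>
  grind

lemma inv_step_A {d : ℤ} {k : ℤ} {r : Bool} {S : Set (ℤ × Bool)} (hs : Inv (A d) k r S)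
    (hv : (k, r) ∈ S) {x : ℤ} {t : Bool} (hw : ladder.Adj (k, r) (x, t)) (hwS : (x, t) ∉ S)
    {y : ℤ} {q : Bool} (hb : ladder.Adj (x, t) (y, q)) (hbS : (y, q) ∉ S) :
    Inv (tr (A d) (x - k) (y - x)).1 y q (insert (y, q) (insert (x, t) S)) := by
  obtain ⟨hd, h1, h2, h3⟩ := hs
  cases r <;>
  rcases ladder_cases hw with ⟨rfl, rfl⟩ | ⟨rfl, rfl⟩ | ⟨rfl, rfl⟩ <;>
  rcases ladder_cases hb with ⟨rfl, rfl⟩ | ⟨rfl, rfl⟩ | ⟨rfl, rfl⟩ <;>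
  rcases hd with rfl | rfl <;>
  simp [tr, Inv] at * <;>
  grind

lemma inv_step_B {d : ℤ} {k : ℤ} {r : Bool} {S : Set (ℤ × Bool)} (hs : Inv (B d) k r S)
    (hv : (k, r) ∈ S) {x : ℤ} {t : Bool} (hw : ladder.Adj (k, r) (x, t)) (hwS : (x, t) ∉ S)
    {y : ℤ} {q : Bool} (hb : ladder.Adj (x, t) (y, q)) (hbS : (y, q) ∉ S) :
    Inv (tr (B d) (x - k) (y - x)).1 y q (insert (y, q) (insert (x, t) S)) := by
  obtain ⟨hd, h1, h2, h3, h4, h5⟩ := hs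
  cases r <;>
  rcases ladder_cases hw with ⟨rfl, rfl⟩ | ⟨rfl, rfl⟩ | ⟨rfl, rfl⟩ <;>
  rcases ladder_cases hb with ⟨rfl, rfl⟩ | ⟨rfl, rfl⟩ | ⟨rfl, rfl⟩ <;>
  rcases hd with rfl | rfl <;>
  simp [tr, Inv] at * <;>
  grind

lemma inv_step_Y {d : ℤ} {k : ℤ} {r : Bool} {S : Set (ℤ × Bool)} (hs : Inv (Y d) k r S)
    (hv : (k, r) ∈ S) {x : ℤ} {t : Bool} (hw : ladder.Adj (k, r) (x, t)) (hwS : (x, t) ∉ S)
    {y : ℤ} {q : Bool} (hb : ladder.Adj (x, t) (y, q)) (hbS : (y, q) ∉ S) :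
    Inv (tr (Y d) (x - k) (y - x)).1 y q (insert (y, q) (insert (x, t) S)) := by
  obtain ⟨hd, h1, h2, h3, h4, h5, h6, h7⟩ := hs
  cases r <;>
  rcases ladder_cases hw with ⟨rfl, rfl⟩ | ⟨rfl, rfl⟩ | ⟨rfl, rfl⟩ <;>
  rcases ladder_cases hb with ⟨rfl, rfl⟩ | ⟨rfl, rfl⟩ | ⟨rfl, rfl⟩ <;>
  rcases hd with rfl | rfl <;>
  simp [tr, Inv] at * <;>
  grind

lemma inv_step {s : St} {k : ℤ} {r : Bool} {S : Set (ℤ × Bool)} (hs : Inv s k r S)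
    (hv : (k, r) ∈ S) {x : ℤ} {t : Bool} (hw : ladder.Adj (k, r) (x, t)) (hwS : (x, t) ∉ S)
    {y : ℤ} {q : Bool} (hb : ladder.Adj (x, t) (y, q)) (hbS : (y, q) ∉ S) :
    Inv (tr s (x - k) (y - x)).1 y q (insert (y, q) (insert (x, t) S)) := by
  cases s with
  | start => exact inv_step_start hs hw hwS hb hbS
  | A d => exact inv_step_A hs hv hw hwS hb hbS
  | B d => exact inv_step_B hs hv hw hwS hb hbS
  | Y d => exact inv_step_Y hs hv hw hwS hb hbS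
  | I => trivial
  | dead => trivial

end Pool.Agent.R3.PT
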