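import Pool.Agent.R3.PT6

set_option autoImplicit false

open MeasureTheory Filter Topology Set

namespace Pool.Agent.R3.PT

open St

lemma ladder_adj_iff {k : ℤ} {r : Bool} {b : ℤ × Bool} : ladder.Adj (k, r) b ↔
    b = (k + 1, r) ∨ b = (k - 1, r) ∨ b = (k, !r) := by
  obtain ⟨x, t⟩ := b
  constructor
  · intro h
    rcases ladder_cases h with ⟨rfl, rfl⟩ | ⟨rfl, rfl⟩ | ⟨rfl, rfl⟩ <;> simp
  · rintro (h | h | h) <;> rw [h]
    · exact Or.inl ⟨rfl, Or.inl rfl⟩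
    · exact Or.inl ⟨rfl, Or.inr (by simp)⟩
    · exact Or.inr ⟨rfl, by simp⟩

open Classical in
lemma sum_nbr (x : ℤ) (t : Bool) (S : Set (ℤ × Bool)) (g : ℤ × Bool → ℝ) :
    ∑ᶠ b ∈ {b | ladder.Adj (x, t) b ∧ b ∉ S}, g b =
      (if (x + 1, t) ∈ S then 0 else g (x + 1, t)) +
      ((if (x - 1, t) ∈ S then 0 else g (x - 1, t)) + (if (x, !t) ∈ S then 0 else g (x, !t))) := by
  have h1 : {b | ladder.Adj (x, t) b ∧ b ∉ S} =
      (((({(x + 1, t), (x - 1, t), (x, !t)} : Finset (ℤ × Bool))).filter (fun b => b ∉ S) :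
        Finset (ℤ × Bool)) : Set (ℤ × Bool)) := by
    ext b
    simp only [mem_ofPred_eq, ladder_adj_iff, Finset.coe_filter, Finset.mem_insert,
      Finset.mem_singleton]
  rw [h1, finsum_mem_coe_finset, Finset.sum_filter, Finset.sum_insert, Finset.sum_insert,
    Finset.sum_singleton]
  · simp only [ite_not]
  · simp
  · simp
    omega

lemma sum_A {d : ℤ} {k : ℤ} {r : Bool} {S : Set (ℤ × Bool)} (hs : Inv (A d) k r S)
    (hv : (k, r) ∈ S) {x : ℤ} {t : Bool} (hw : ladder.Adj (k, r) (x, t)) (hwS : (x, t) ∉ S) :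
    ∑ᶠ b ∈ {b | ladder.Adj (x, t) b ∧ b ∉ insert (x, t) S},
      (tr (A d) (x - k) (b.1 - x)).2 = 1 := by
  classical
  rw [sum_nbr]
  obtain ⟨hd, h1, h2, h3⟩ := hs
  cases r <;>
  rcases ladder_cases hw with ⟨rfl, rfl⟩ | ⟨rfl, rfl⟩ | ⟨rfl, rfl⟩ <;>
  rcases hd with rfl | rfl <;>
  simp [tr] at * <;>
  grind

lemma sum_B {d : ℤ} {k : ℤ} {r : Bool} {S : Set (ℤ × Bool)} (hs : Inv (B d) k r S)
    (hv : (k, r) ∈ S) {x : ℤ} {t : Bool} (hw : ladder.Adj (k, r) (x, t)) (hwS : (x, t) ∉ S) :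
    ∑ᶠ b ∈ {b | ladder.Adj (x, t) b ∧ b ∉ insert (x, t) S},
      (tr (B d) (x - k) (b.1 - x)).2 = 1 := by
  classical
  rw [sum_nbr]
  obtain ⟨hd, h1, h2, h3, h4, h5⟩ := hs
  cases r <;>
  rcases ladder_cases hw with ⟨rfl, rfl⟩ | ⟨rfl, rfl⟩ | ⟨rfl, rfl⟩ <;>
  rcases hd with rfl | rfl <;>
  simp [tr] at * <;>
  grind

lemma sum_Y {d : ℤ} {k : ℤ} {r : Bool} {S : Set (ℤ × Bool)} (hs : Inv (Y d) k r S)
    (hv : (k, r) ∈ S) {x : ℤ} {t : Bool} (hw : ladder.Adj (k, r) (x, t)) (hwS : (x, t) ∉ S) :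
    ∑ᶠ b ∈ {b | ladder.Adj (x, t) b ∧ b ∉ insert (x, t) S},
      (tr (Y d) (x - k) (b.1 - x)).2 = 1 := by
  classical
  rw [sum_nbr]
  obtain ⟨hd, h1, h2, h3, h4, h5, h6, h7⟩ := hs
  cases r <;>
  rcases ladder_cases hw with ⟨rfl, rfl⟩ | ⟨rfl, rfl⟩ | ⟨rfl, rfl⟩ <;>
  rcases hd with rfl | rfl <;>
  simp [tr] at * <;>
  grind

lemma sum_start {k : ℤ} {r : Bool} {S : Set (ℤ × Bool)} (hs : Inv start k r S)
    {x : ℤ} {t : Bool} (hw : ladder.Adj (k, r) (x, t)) (hwS : (x, t) ∉ S) :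
    ∑ᶠ b ∈ {b | ladder.Adj (x, t) b ∧ b ∉ insert (x, t) S},
      (tr start (x - k) (b.1 - x)).2 = 1 := by
  classical
  rw [sum_nbr]
  have hs' : ∀ x t, (x, t) ∈ S ↔ x = k := hs
  cases r <;>
  rcases ladder_cases hw with ⟨rfl, rfl⟩ | ⟨rfl, rfl⟩ | ⟨rfl, rfl⟩ <;>
  simp [tr, hs'] at * <;>
  grind

lemma sum_step {s : St} {k : ℤ} {r : Bool} {S : Set (ℤ × Bool)} (hs : Inv s k r S)
    (hd : s ≠ dead)
    (hv : (k, r) ∈ S) {x : ℤ} {t : Bool} (hw : ladder.Adj (k, r) (x, t)) (hwS : (x, t) ∉ S) :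
    ∑ᶠ b ∈ {b | ladder.Adj (x, t) b ∧ b ∉ insert (x, t) S},
      (tr s (x - k) (b.1 - x)).2 = 1 := by
  cases s with
  | start => exact sum_start hs hw hwS
  | A d => exact sum_A hs hv hw hwS
  | B d => exact sum_B hs hv hw hwS
  | Y d => exact sum_Y hs hv hw hwS
  | I =>
    obtain ⟨h1, h2, h3⟩ := hs
    rcases ladder_cases hw with ⟨rfl, rfl⟩ | ⟨rfl, rfl⟩ | ⟨rfl, rfl⟩
    · exact absurd h1 hwS
    · exact absurd h2 hwS
    · exact absurd h3 hwS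
  | dead => exact absurd rfl hd

end Pool.Agent.R3.PT
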