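import Pool.Agent.R3.PT7

set_option autoImplicit false

open MeasureTheory Filter Topology Set

namespace Pool.Agent.R3.PT

open St

lemma run_even : ∀ l : List (ℤ × Bool), l.length % 2 = 0 → (run l).2 = 0
  | [], _ => by simp [run]
  | [_], h => by simp at h
  | [_, _], _ => by simp [run]
  | b :: w :: v :: l, h => by
    have h1 : (v :: l).length % 2 = 0 := by
      simp only [List.length_cons] at h ⊢
      omega
    have h2 := run_even (v :: l) h1
    simp only [run, h2]
    simp

lemma tr_dead (s : St) (m n : ℤ) (h : (tr s m n).1 = dead) : (tr s m n).2 = 0 := by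
  cases s with
  | start => simp only [tr] at h ⊢; split_ifs at h ⊢ <;> simp_all
  | A d => simp only [tr] at h ⊢; split_ifs at h ⊢ <;> simp_all
  | B d => simp only [tr] at h ⊢; split_ifs at h ⊢ <;> simp_all
  | Y d => simp only [tr] at h ⊢; split_ifs at h ⊢ <;> simp_all
  | I => rfl
  | dead => rfl

lemma run_dead : ∀ l : List (ℤ × Bool), (run l).1 = dead → (run l).2 = 0
  | [], _ => by simp [run]
  | [_], h => by simp [run] at h
  | [_, _], _ => by simp [run]
  | b :: w :: v :: l, h => by
    simp only [run] at h ⊢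
    rw [tr_dead _ _ _ h]
    simp

/-- `G - u` -/
abbrev del {V : Type*} (G : SimpleGraph V) (u : V) : SimpleGraph ({u}ᶜ : Set V) := G.induce {u}ᶜ

lemma ladder_nbr_finite (v : ℤ × Bool) : (ladder.neighborSet v).Finite := by
  obtain ⟨x, t⟩ := v
  refine (Set.toFinite ({(x + 1, t), (x - 1, t), (x, !t)} : Set (ℤ × Bool))).subset ?_
  intro b hb
  have := ladder_adj_iff.1 hb
  simpa using this

lemma ladder_nbr_ncard (v : ℤ × Bool) : (ladder.neighborSet v).ncard ≤ 3 := by
  obtain ⟨x, t⟩ := v
  have h1 : ladder.neighborSet (x, t) ⊆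
      (({(x + 1, t), (x - 1, t), (x, !t)} : Finset (ℤ × Bool)) : Set (ℤ × Bool)) := by
    intro b hb
    have := ladder_adj_iff.1 hb
    simpa using this
  refine (Set.ncard_le_ncard h1 (Finset.finite_toSet _)).trans ?_
  rw [Set.ncard_coe_finset]
  exact Finset.card_le_three

lemma del_nbr_image {V : Type*} (G : SimpleGraph V) (u : V) (v : ({u}ᶜ : Set V)) :
    Subtype.val '' ((del G u).neighborSet v) ⊆ G.neighborSet v.1 := by
  rintro _ ⟨b, hb, rfl⟩
  exact hb

lemma del_nbr_finite {V : Type*} {G : SimpleGraph V} (hG : ∀ v, (G.neighborSet v).Finite) (u : V)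
    (v : ({u}ᶜ : Set V)) : ((del G u).neighborSet v).Finite :=
  Set.Finite.of_finite_image ((hG v.1).subset (del_nbr_image G u v)) Subtype.val_injective.injOn

lemma del_nbr_ncard {V : Type*} {G : SimpleGraph V} (hG : ∀ v, (G.neighborSet v).Finite) {D : ℕ}
    (hD : ∀ v, (G.neighborSet v).ncard ≤ D) (u : V)
    (v : ({u}ᶜ : Set V)) : ((del G u).neighborSet v).ncard ≤ D := by
  rw [← Set.ncard_image_of_injective _ Subtype.val_injective]
  exact (Set.ncard_le_ncard (del_nbr_image G u v) (hG v.1)).trans (hD v.1)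

/-- the function on the lists -/
noncomputable def FF (u : ℤ × Bool) (l : List ({u}ᶜ : Set (ℤ × Bool))) : ℝ :=
  (run (l.map Subtype.val)).2

/-- the removed vertices -/
def SS (u : ℤ × Bool) (l : List (ℤ × Bool)) : Set (ℤ × Bool) := {x | x = u ∨ x ∈ l}

lemma SS_cons (u : ℤ × Bool) (w : ℤ × Bool) (l : List (ℤ × Bool)) :
    SS u (w :: l) = insert w (SS u l) := by
  ext x
  simp only [SS, List.mem_cons, mem_ofPred_eq, mem_insert_iff]
  tauto

/-- the invariant along the odd paths -/
lemma inv_run (u : ℤ × Bool) : ∀ l : List (ℤ × Bool), l.length % 2 = 1 →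
    l.getLast? = some (u.1, !u.2) → l.Nodup → l.IsChain ladder.Adj → u ∉ l →
    ∀ v l', l = v :: l' → Inv (run l).1 v.1 v.2 (SS u l)
  | [], h, _, _, _, _ => by simp at h
  | [x], _, h, _, _, _ => by
    intro v l' hl
    simp only [List.getLast?_singleton, Option.some.injEq] at h
    obtain ⟨rfl, -⟩ := List.cons.inj hl
    subst h
    simp only [run, Inv]
    intro y t
    simp only [SS, List.mem_singleton, mem_ofPred_eq]
    obtain ⟨a, b⟩ := u
    simp only [Prod.mk.injEq]
    constructor
    · rintro (⟨h1, _⟩ | ⟨h1, _⟩) <;> exact h1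
    · rintro rfl
      cases b <;> cases t <;> simp
  | [_, _], h, _, _, _, _ => by simp at h
  | b :: w :: v :: l, h1, h2, h3, h4, h5 => by
    intro v' l' hl
    obtain ⟨rfl, -⟩ := List.cons.inj hl
    have h1' : (v :: l).length % 2 = 1 := by
      simp only [List.length_cons] at h1 ⊢
      omega
    have h2' : (v :: l).getLast? = some (u.1, !u.2) := by
      rw [← h2]
      simp [List.getLast?_cons]
    have h3' : (v :: l).Nodup := (List.nodup_cons.1 (List.nodup_cons.1 h3).2).2
    have h4' : (v :: l).IsChain ladder.Adj := h4.tail.tail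
    have h5' : u ∉ v :: l := fun h => h5 (List.mem_cons_of_mem _ (List.mem_cons_of_mem _ h))
    have ih := inv_run u (v :: l) h1' h2' h3' h4' h5' v l rfl
    have hwn := (List.nodup_cons.1 (List.nodup_cons.1 h3).2).1
    have hbn := (List.nodup_cons.1 h3).1
    rw [List.isChain_cons_cons, List.isChain_cons_cons] at h4
    rw [SS_cons u b, SS_cons u w]
    simp only [run]
    obtain ⟨k, r⟩ := v
    obtain ⟨x, t⟩ := w
    obtain ⟨y, q⟩ := b
    refine inv_step ih ?_ h4.2.1.symm ?_ h4.1.symm ?_
    · simp [SS]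
    · rintro (h | h)
      · exact h5 (by rw [← h]; simp)
      · exact hwn h
    · rintro (h | h)
      · exact h5 (by rw [← h]; simp)
      · exact hbn (List.mem_cons_of_mem _ h)

lemma chain_val {V : Type*} {G : SimpleGraph V} {u : V} {l : List ({u}ᶜ : Set V)}
    (h : l.IsChain (del G u).Adj) : (l.map Subtype.val).IsChain G.Adj := by
  rw [List.isChain_map]
  exact h

lemma kernel_eq (u : ℤ × Bool) (o : ({u}ᶜ : Set (ℤ × Bool))) (ho : o.1 = (u.1, !u.2))
    (p : FinPath (del ladder u) o) :
    adjOp (pathTree (del ladder u) o) (fun q => FF u q.verts) p = 0 := by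
  obtain ⟨w, l, hp⟩ := exists_cons p
  rw [adjOp_pathTree (del_nbr_finite ladder_nbr_finite u) o (FF u) p w l hp]
  rcases Nat.mod_two_eq_zero_or_one l.length with hpar | hpar
  · -- `l` is even
    have h1 : (if l = [] then 0 else FF u l) = 0 := by
      split_ifs
      · rfl
      · exact run_even _ (by simpa using hpar)
    rw [h1, zero_add]
    apply finsum_mem_eq_zero_of_forall_eq_zero
    intro b _
    apply run_even
    simp only [List.length_map, List.length_cons]
    omega
  · -- `l` is odd
    obtain ⟨v, l', rfl⟩ : ∃ v l', l = v :: l' := by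
      cases l with
      | nil => simp at hpar
      | cons v l' => exact ⟨v, l', rfl⟩
    rw [if_neg (by simp)]
    have hst := p.start
    have hnd := p.nodup
    have hch := p.chain
    rw [hp] at hst hnd hch
    have hm : ((v :: l').map Subtype.val) = v.1 :: (l'.map Subtype.val) := rfl
    have hinv := inv_run u ((v :: l').map Subtype.val) (by simpa using hpar) (by
        rw [List.getLast?_map]
        have h6 : (v :: l').getLast? = some o := by
          rw [← hst]
          simp [List.getLast?_cons]
        rw [h6]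
        simp [ho]) ((List.nodup_cons.1 hnd).2.map Subtype.val_injective) (chain_val hch.tail)
        (by
          intro h7
          obtain ⟨x, _, hx⟩ := List.mem_map.1 h7
          exact x.2 hx) v.1 (l'.map Subtype.val) hm
    set s := (run ((v :: l').map Subtype.val)).1 with hsdef
    have hF : ∀ b : ({u}ᶜ : Set (ℤ × Bool)), FF u (b :: w :: v :: l') =
        -(FF u (v :: l') * (tr s (w.1.1 - v.1.1) (b.1.1 - w.1.1)).2) := by
      intro b
      rfl
    rw [List.isChain_cons_cons] at hch
    have hsum : ∑ᶠ b ∈ {b | (del ladder u).Adj w b ∧ b ∉ w :: v :: l'}, FF u (b :: w :: v :: l') =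
        -FF u (v :: l') * ∑ᶠ b ∈ {b : ℤ × Bool | ladder.Adj w.1 b ∧
          b ∉ insert w.1 (SS u ((v :: l').map Subtype.val))},
          (tr s (w.1.1 - v.1.1) (b.1 - w.1.1)).2 := by
      have h8 : {b : ℤ × Bool | ladder.Adj w.1 b ∧
          b ∉ insert w.1 (SS u ((v :: l').map Subtype.val))} =
          Subtype.val '' {b | (del ladder u).Adj w b ∧ b ∉ w :: v :: l'} := by
        ext b
        rw [← SS_cons]
        simp only [SS, mem_ofPred_eq, mem_image, not_or]
        constructor
        · rintro ⟨h9, h10, h11⟩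
          refine ⟨⟨b, h10⟩, ⟨h9, ?_⟩, rfl⟩
          intro h12
          apply h11
          rw [← List.map_cons (f := Subtype.val)]
          exact List.mem_map.2 ⟨_, h12, rfl⟩
        · rintro ⟨b', ⟨h9, h10⟩, rfl⟩
          refine ⟨h9, b'.2, ?_⟩
          intro h12
          apply h10
          rw [← List.map_cons (f := Subtype.val)] at h12
          obtain ⟨x, hx, hx2⟩ := List.mem_map.1 h12
          rw [← Subtype.ext hx2]
          exact hx
      rw [h8, finsum_mem_image (Subtype.val_injective.injOn), ← smul_eq_mul,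
        smul_finsum_mem (nbr_set_finite (del_nbr_finite ladder_nbr_finite u) w (v :: l'))]
      refine finsum_mem_congr rfl (fun b _ => ?_)
      rw [hF, smul_eq_mul]
      ring
    rw [hsum]
    by_cases hdead : s = dead
    · have hz : FF u (v :: l') = 0 := run_dead _ hdead
      rw [hz]
      ring
    · have h13 := sum_step (x := w.1.1) (t := w.1.2) hinv hdead (by simp [SS]) hch.1.symm (by
        rintro (h | h)
        · exact w.2 h
        · obtain ⟨x, hx, hx2⟩ := List.mem_map.1 h
          have := (List.nodup_cons.1 hnd).1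
          apply this
          rw [← Subtype.ext hx2]
          exact hx)
      rw [h13]
      ring

/-! ### summability -/

/-- the list of double moves -/
def mvs : List (ℤ × Bool) → List (ℤ × ℤ)
  | [] => []
  | [_] => []
  | [_, _] => []
  | b :: w :: v :: l => (w.1 - v.1, b.1 - w.1) :: mvs (v :: l)

lemma run_eq_rm : ∀ l : List (ℤ × Bool), l.length % 2 = 1 → run l = rm (mvs l)
  | [], h => by simp at h
  | [_], _ => rfl
  | [_, _], h => by simp at h
  | b :: w :: v :: l, h => by
    have h1 : (v :: l).length % 2 = 1 := by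
      simp only [List.length_cons] at h ⊢
      omega
    simp only [run, mvs, rm]
    rw [run_eq_rm (v :: l) h1]

lemma adj_move {x y : ℤ × Bool} (h : ladder.Adj x y) : y.1 - x.1 ∈ ({-1, 0, 1} : Finset ℤ) := by
  obtain ⟨k, r⟩ := x
  obtain ⟨a, b⟩ := y
  rcases ladder_cases h with ⟨rfl, rfl⟩ | ⟨rfl, rfl⟩ | ⟨rfl, rfl⟩ <;> simp

lemma adj_det {x y z : ℤ × Bool} (h : ladder.Adj x y) (h' : ladder.Adj x z)
    (h2 : y.1 - x.1 = z.1 - x.1) : y = z := by
  obtain ⟨k, r⟩ := x
  obtain ⟨a, b⟩ := y
  obtain ⟨c, d⟩ := z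
  rcases ladder_cases h with ⟨rfl, rfl⟩ | ⟨rfl, rfl⟩ | ⟨rfl, rfl⟩ <;>
  rcases ladder_cases h' with ⟨rfl, rfl⟩ | ⟨rfl, rfl⟩ | ⟨rfl, rfl⟩ <;>
  simp at h2 ⊢

lemma mvs_mem : ∀ l : List (ℤ × Bool), l.length % 2 = 1 → l.IsChain ladder.Adj →
    mvs l ∈ Ls (l.length / 2)
  | [], h, _ => by simp at h
  | [_], _, _ => by simp [mvs, Ls]
  | [_, _], h, _ => by simp at h
  | b :: w :: v :: l, h, hc => by
    have h1 : (v :: l).length % 2 = 1 := by
      simp only [List.length_cons] at h ⊢
      omega
    have ih := mvs_mem (v :: l) h1 hc.tail.tail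
    have h2 : (b :: w :: v :: l).length / 2 = (v :: l).length / 2 + 1 := by
      simp only [List.length_cons]
      omega
    rw [List.isChain_cons_cons, List.isChain_cons_cons] at hc
    rw [h2, mvs, Ls, Finset.mem_image]
    refine ⟨((w.1 - v.1, b.1 - w.1), mvs (v :: l)), Finset.mem_product.2 ⟨?_, ih⟩, rfl⟩
    exact Finset.mem_product.2 ⟨adj_move hc.2.1.symm, adj_move hc.1.symm⟩

lemma mvs_inj : ∀ l l' : List (ℤ × Bool), l.length % 2 = 1 → l'.length % 2 = 1 →
    l.IsChain ladder.Adj → l'.IsChain ladder.Adj → l.getLast? = l'.getLast? → mvs l = mvs l' →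
    l = l'
  | [], _, h, _, _, _, _, _ => by simp at h
  | _, [], _, h, _, _, _, _ => by simp at h
  | [_, _], _, h, _, _, _, _, _ => by simp at h
  | _, [_, _], _, h, _, _, _, _ => by simp at h
  | [x], [y], _, _, _, _, h, _ => by simpa using h
  | [x], b :: w :: v :: l, _, _, _, _, _, h => by simp [mvs] at h
  | b :: w :: v :: l, [x], _, _, _, _, _, h => by simp [mvs] at h
  | b :: w :: v :: l, b' :: w' :: v' :: l', h1, h1', h2, h2', h3, h4 => by
    have e1 : (v :: l).length % 2 = 1 := by
      simp only [List.length_cons] at h1 ⊢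
      omega
    have e1' : (v' :: l').length % 2 = 1 := by
      simp only [List.length_cons] at h1' ⊢
      omega
    simp only [mvs, List.cons.injEq, Prod.mk.injEq] at h4
    have ih := mvs_inj (v :: l) (v' :: l') e1 e1' h2.tail.tail h2'.tail.tail (by
      simpa [List.getLast?_cons] using h3) h4.2
    obtain ⟨rfl, rfl⟩ := List.cons.inj ih
    rw [List.isChain_cons_cons, List.isChain_cons_cons] at h2 h2'
    have hw := adj_det h2.2.1.symm h2'.2.1.symm h4.1.1
    subst hw
    have hb := adj_det h2.1.symm h2'.1.symm h4.1.2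
    subst hb
    rfl

lemma summable_FF (u : ℤ × Bool) (o : ({u}ᶜ : Set (ℤ × Bool))) :
    Summable (fun p : FinPath (del ladder u) o => FF u p.verts ^ 2) := by
  classical
  apply summable_of_sum_le (c := 5) (fun p => sq_nonneg _)
  intro s
  obtain ⟨N, hN⟩ : ∃ N, ∀ p ∈ s, p.verts.length ≤ N := by
    refine ⟨s.sup (fun p => p.verts.length), fun p hp => ?_⟩
    exact Finset.le_sup (f := fun p : FinPath (del ladder u) o => p.verts.length) hp
  have h1 : ∑ p ∈ s, FF u p.verts ^ 2 =
      ∑ p ∈ s.filter (fun p => p.verts.length % 2 = 1), FF u p.verts ^ 2 := by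
    rw [Finset.sum_filter]
    refine Finset.sum_congr rfl (fun p _ => ?_)
    split_ifs with h
    · rfl
    · have : FF u p.verts = 0 := run_even _ (by rw [List.length_map]; omega)
      rw [this]
      norm_num
  rw [h1]
  have h2 : ∑ p ∈ s.filter (fun p => p.verts.length % 2 = 1), FF u p.verts ^ 2 =
      ∑ m ∈ (s.filter (fun p => p.verts.length % 2 = 1)).image
        (fun p => mvs (p.verts.map Subtype.val)), (rm m).2 ^ 2 := by
    rw [Finset.sum_image]
    · refine Finset.sum_congr rfl (fun p hp => ?_)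
      rw [Finset.mem_filter] at hp
      rw [← run_eq_rm _ (by rw [List.length_map]; exact hp.2)]
      rfl
    · intro p hp q hq hpq
      rw [Finset.mem_coe, Finset.mem_filter] at hp hq
      apply verts_inj
      apply List.map_injective_iff.2 (Subtype.val_injective (p := fun x => x ∈ ({u}ᶜ : Set (ℤ × Bool))))
      refine mvs_inj _ _ (by rw [List.length_map]; exact hp.2) (by rw [List.length_map]; exact hq.2)
        (chain_val p.chain) (chain_val q.chain) ?_ hpq
      rw [List.getLast?_map, List.getLast?_map, p.start, q.start]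
  rw [h2]
  have hdisj : ∀ i j : ℕ, i ≠ j → Disjoint (Ls i) (Ls j) := by
    have hlen : ∀ (n : ℕ) (l : List (ℤ × ℤ)), l ∈ Ls n → l.length = n := by
      intro n
      induction n with
      | zero => intro l hl; simp only [Ls, Finset.mem_singleton] at hl; simp [hl]
      | succ n ih =>
        intro l hl
        rw [Ls, Finset.mem_image] at hl
        obtain ⟨⟨mn, l'⟩, h12, rfl⟩ := hl
        simp [ih l' (Finset.mem_product.1 h12).2]
    intro i j hij
    rw [Finset.disjoint_left]
    intro l h3 h4
    exact hij ((hlen i l h3).symm.trans (hlen j l h4))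
  refine le_trans ?_ (energy_total (N + 1))
  rw [← Finset.sum_biUnion (fun i _ j _ hij => hdisj i j hij)]
  apply Finset.sum_le_sum_of_subset_of_nonneg
  · intro m hm
    rw [Finset.mem_image] at hm
    obtain ⟨p, hp, rfl⟩ := hm
    rw [Finset.mem_filter] at hp
    have h5 := mvs_mem (p.verts.map Subtype.val) (by rw [List.length_map]; exact hp.2)
      (chain_val p.chain)
    rw [Finset.mem_biUnion]
    refine ⟨_, ?_, h5⟩
    rw [Finset.mem_range, List.length_map]
    have := hN p hp.1
    omega
  · intro _ _ _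
    exact sq_nonneg _

theorem ladder_atom (u : ℤ × Bool) (o : ({u}ᶜ : Set (ℤ × Bool))) (ho : o.1 = (u.1, !u.2))
    (μ : Measure ℝ) (hμ : IsMatchingMeasure (del ladder u) o μ) : 0 < μ {0} := by
  refine atom_pos (pathTree_finite (del_nbr_finite ladder_nbr_finite u) o) hμ
    (summable_FF u o) (kernel_eq u o ho) ?_
  simp [FF, root, run]

end Pool.Agent.R3.PT
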