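import Mathlib

set_option autoImplicit false

namespace Pool.Agent.R3.Relax

open Finset

/-- One step of the Picone identity behind the discrete Wirtinger inequality. -/
lemma picone (a b s t : ℝ) (hs : 0 < s) (ht : 0 < t) :
    a ^ 2 * (1 - t / s) + b ^ 2 * (1 - s / t) ≤ (b - a) ^ 2 := by
  have h : (b - a) ^ 2 - (a ^ 2 * (1 - t / s) + b ^ 2 * (1 - s / t))
      = s * t * (a / s - b / t) ^ 2 := by
    field_simp
    ring
  have h2 : 0 ≤ s * t * (a / s - b / t) ^ 2 := by positivity
  linarith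

/-- The Fan, Taussky and Todd inequality with Dirichlet boundary conditions. -/
lemma fan (m : ℕ) (hm : 1 ≤ m) (G : ℕ → ℝ) (h0 : G 0 = 0) (hG : G m = 0) :
    2 * (1 - Real.cos (Real.pi / m)) * ∑ i ∈ range m, G i ^ 2 ≤
      ∑ i ∈ range m, (G (i + 1) - G i) ^ 2 := by
  rcases Nat.lt_or_ge m 2 with h1 | h2
  · have : m = 1 := by omega
    subst this
    simp only [range_one, sum_singleton, h0]
    nlinarith [sq_nonneg (G (0 + 1) - 0)]
  obtain ⟨n, rfl⟩ : ∃ n, m = n + 2 := ⟨m - 2, by omega⟩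
  set θ : ℝ := Real.pi / ((n + 2 : ℕ) : ℝ) with hθ
  set s : ℕ → ℝ := fun i => Real.sin (i * θ) with hs
  have hmpos : (0 : ℝ) < ((n + 2 : ℕ) : ℝ) := by positivity
  have hθpos : 0 < θ := by positivity
  have hspos : ∀ i : ℕ, 1 ≤ i → i ≤ n + 1 → 0 < s i := by
    intro i hi1 hi2
    apply Real.sin_pos_of_pos_of_lt_pi
    · have : (0 : ℝ) < i := by exact_mod_cast hi1
      positivity
    · have h3 : (i : ℝ) < ((n + 2 : ℕ) : ℝ) := by exact_mod_cast (by omega : i < n + 2)
      rw [hθ, mul_div_assoc', div_lt_iff₀ hmpos]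
      nlinarith [Real.pi_pos]
  have hrec : ∀ i : ℕ, s (i + 2) + s i = 2 * Real.cos θ * s (i + 1) := by
    intro i
    simp only [hs]
    push_cast
    have e1 : ((i : ℝ) + 2) * θ = ((i : ℝ) + 1) * θ + θ := by ring
    have e2 : (i : ℝ) * θ = ((i : ℝ) + 1) * θ - θ := by ring
    rw [e1, e2, Real.sin_add, Real.sin_sub]
    ring
  have hslast : s (n + 2) = 0 := by
    simp only [hs, hθ]
    rw [mul_div_cancel₀ _ hmpos.ne']
    exact Real.sin_pi
  have hs0 : s 0 = 0 := by simp [hs]
  -- the induction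
  have key : ∀ j : ℕ, j ≤ n →
      2 * (1 - Real.cos θ) * ∑ i ∈ range (j + 1), G i ^ 2
        + G (j + 1) ^ 2 * (1 - s j / s (j + 1)) ≤
      ∑ i ∈ range (j + 1), (G (i + 1) - G i) ^ 2 := by
    intro j
    induction j with
    | zero =>
      intro _
      simp [h0, hs0]
    | succ j ih =>
      intro hj
      have ih' := ih (by omega)
      have hp1 := hspos (j + 1) (by omega) (by omega)
      have hp2 := hspos (j + 2) (by omega) (by omega)
      have hpic := picone (G (j + 1)) (G (j + 2)) (s (j + 1)) (s (j + 2)) hp1 hp2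
      rw [sum_range_succ (fun i => G i ^ 2), sum_range_succ (fun i => (G (i + 1) - G i) ^ 2)]
      have hr := hrec j
      have hq : s (j + 2) / s (j + 1) + s j / s (j + 1) = 2 * Real.cos θ := by
        rw [← add_div, hr]
        field_simp
      have hq' : s (j + 2) / s (j + 1) = 2 * Real.cos θ - s j / s (j + 1) := by linarith
      rw [hq'] at hpic
      have e : j + 1 + 1 = j + 2 := rfl
      rw [e]
      nlinarith
  have hfin := key n le_rfl
  rw [sum_range_succ (fun i => G i ^ 2), sum_range_succ (fun i => (G (i + 1) - G i) ^ 2)]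
  have e : n + 1 + 1 = n + 2 := rfl
  rw [e, hG]
  have hp1 := hspos (n + 1) (by omega) (by omega)
  have hr := hrec n
  rw [hslast, zero_add] at hr
  have hq : s n / s (n + 1) = 2 * Real.cos θ := by
    rw [hr]; field_simp
  rw [hq] at hfin
  nlinarith

/-- The sharp discrete Wirtinger inequality for the edge midpoints of a path with `m` edges. -/
lemma wirtinger (m : ℕ) (hm : 1 ≤ m) (x : ℕ → ℝ) :
    ∃ c : ℝ, ∑ i ∈ range m, ((x i + x (i + 1)) / 2 - c) ^ 2 ≤
      ((m : ℝ) ^ 2 / Real.pi ^ 2) * ∑ i ∈ range m, (x (i + 1) - x i) ^ 2 := by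
  have hm0 : (0 : ℝ) < m := by exact_mod_cast hm
  set c : ℝ := (∑ i ∈ range m, (x i + x (i + 1)) / 2) / m with hc
  refine ⟨c, ?_⟩
  set u : ℕ → ℝ := fun i => (x i + x (i + 1)) / 2 - c with hu
  set G : ℕ → ℝ := fun j => ∑ i ∈ range j, u i with hGdef
  have hG0 : G 0 = 0 := by simp [hGdef]
  have hGm : G m = 0 := by
    simp only [hGdef, hu, sum_sub_distrib, sum_const, card_range, nsmul_eq_mul]
    rw [hc]
    field_simp
    ring
  have hGs : ∀ i, G (i + 1) - G i = u i := by
    intro i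
    simp only [hGdef, sum_range_succ]
    ring
  set U : ℝ := ∑ i ∈ range m, u i ^ 2 with hU
  set L : ℝ := ∑ i ∈ range m, (x (i + 1) - x i) ^ 2 with hL
  set θ : ℝ := Real.pi / (m : ℝ) with hθ
  have hθpos : 0 < θ := by positivity
  -- telescoping
  have htel : ∀ j : ℕ, ∑ i ∈ range j, (u i * (G (i + 1) - G i)
      + (x (i + 1) - x i) * ((G i + G (i + 1)) / 2)) = (x j - c) * G j := by
    intro j
    induction j with
    | zero => simp [hG0]
    | succ j ih =>
      rw [sum_range_succ, ih]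
      simp only [hu]
      ring
  have h1 : U = - ∑ i ∈ range m, (x (i + 1) - x i) * ((G i + G (i + 1)) / 2) := by
    have h := htel m
    rw [hGm, mul_zero, sum_add_distrib] at h
    have h' : ∑ i ∈ range m, u i * (G (i + 1) - G i) = U := by
      rw [hU]
      refine sum_congr rfl fun i _ => ?_
      rw [hGs]; ring
    rw [h'] at h
    linarith
  have hCS : U ^ 2 ≤ L * ∑ i ∈ range m, ((G i + G (i + 1)) / 2) ^ 2 := by
    rw [h1, neg_sq]
    exact sum_mul_sq_le_sq_mul_sq _ _ _
  have hpar : ∑ i ∈ range m, ((G i + G (i + 1)) / 2) ^ 2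
      = ∑ i ∈ range m, G i ^ 2 - U / 4 := by
    have hshift : ∑ i ∈ range m, G (i + 1) ^ 2 = ∑ i ∈ range m, G i ^ 2 := by
      have := sum_range_succ' (fun i => G i ^ 2) m
      have h2 := sum_range_succ (fun i => G i ^ 2) m
      rw [this] at h2
      rw [hG0, hGm] at h2
      simpa using h2
    have h3 : ∀ i, ((G i + G (i + 1)) / 2) ^ 2 = G i ^ 2 / 2 + G (i + 1) ^ 2 / 2 - u i ^ 2 / 4 := by
      intro i
      rw [← hGs i]
      ring
    simp_rw [h3]
    rw [sum_sub_distrib, sum_add_distrib, ← sum_div, ← sum_div, ← sum_div, hshift]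
    ring
  have hfan := fan m hm G hG0 hGm
  have hfan' : 2 * (1 - Real.cos θ) * ∑ i ∈ range m, G i ^ 2 ≤ U := by
    refine hfan.trans (le_of_eq ?_)
    rw [hU]
    exact sum_congr rfl fun i _ => by rw [hGs]
  -- trigonometric inequality
  have htrig : θ ^ 2 * (1 + Real.cos θ) ≤ 4 * (1 - Real.cos θ) := by
    have hhalf : θ / 2 * Real.cos (θ / 2) ≤ Real.sin (θ / 2) := by
      have hle : θ / 2 ≤ Real.pi / 2 := by
        have : θ ≤ Real.pi := by
          rw [hθ, div_le_iff₀ hm0]
          have : (1 : ℝ) ≤ m := by exact_mod_cast hm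
          nlinarith [Real.pi_pos]
        linarith
      rcases hle.lt_or_eq with hlt | heq
      · have h := Real.le_tan (by positivity : 0 ≤ θ / 2) hlt
        have hcos : 0 < Real.cos (θ / 2) :=
          Real.cos_pos_of_mem_Ioo ⟨by linarith [Real.pi_pos], hlt⟩
        rw [Real.tan_eq_sin_div_cos, le_div_iff₀ hcos] at h
        exact h
      · rw [heq]; simp
    have hcosnn : 0 ≤ θ / 2 * Real.cos (θ / 2) := by
      have : 0 ≤ Real.cos (θ / 2) := by
        apply Real.cos_nonneg_of_mem_Icc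
        constructor
        · linarith [Real.pi_pos]
        · have : θ ≤ Real.pi := by
            rw [hθ, div_le_iff₀ hm0]
            have : (1 : ℝ) ≤ m := by exact_mod_cast hm
            nlinarith [Real.pi_pos]
          linarith
      positivity
    have hsq : (θ / 2 * Real.cos (θ / 2)) ^ 2 ≤ Real.sin (θ / 2) ^ 2 :=
      pow_le_pow_left₀ hcosnn hhalf 2
    have e1 : Real.cos θ = 2 * Real.cos (θ / 2) ^ 2 - 1 := by
      have := Real.cos_two_mul (θ / 2)
      rwa [show 2 * (θ / 2) = θ by ring] at this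
    have e2 : Real.sin (θ / 2) ^ 2 = 1 - Real.cos (θ / 2) ^ 2 := by
      have := Real.sin_sq_add_cos_sq (θ / 2)
      linarith
    rw [e2] at hsq
    rw [e1]
    nlinarith
  have hcos1 : Real.cos θ < 1 := by
    have hne : Real.cos θ ≠ 1 := by
      intro h
      rw [h] at htrig
      nlinarith [sq_pos_of_pos hθpos]
    exact lt_of_le_of_ne (Real.cos_le_one θ) hne
  have hUnn : 0 ≤ U := sum_nonneg fun i _ => sq_nonneg _
  have hLnn : 0 ≤ L := sum_nonneg fun i _ => sq_nonneg _
  have hθ2 : (m : ℝ) ^ 2 / Real.pi ^ 2 * θ ^ 2 = 1 := by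
    rw [hθ]
    field_simp
  set K : ℝ := (m : ℝ) ^ 2 / Real.pi ^ 2 with hK
  have hKpos : 0 < K := by positivity
  -- sum of squares of averages is at most K * U
  have hS : ∑ i ∈ range m, ((G i + G (i + 1)) / 2) ^ 2 ≤ K * U := by
    rw [hpar]
    have hGG : ∑ i ∈ range m, G i ^ 2 ≤ U / (2 * (1 - Real.cos θ)) := by
      rw [le_div_iff₀ (by linarith)]
      linarith
    have h4 : 1 / (2 * (1 - Real.cos θ)) ≤ K + 1 / 4 := by
      rw [div_le_iff₀ (by linarith)]
      have h5 : K * (θ ^ 2 * (1 + Real.cos θ)) ≤ K * (4 * (1 - Real.cos θ)) :=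
        mul_le_mul_of_nonneg_left htrig hKpos.le
      have h6 : K * (θ ^ 2 * (1 + Real.cos θ)) = 1 + Real.cos θ := by
        rw [← mul_assoc, hθ2, one_mul]
      nlinarith
    have h7 : U / (2 * (1 - Real.cos θ)) ≤ (K + 1 / 4) * U := by
      rw [div_eq_mul_one_div, mul_comm]
      exact mul_le_mul_of_nonneg_right h4 hUnn
    linarith
  have hfin : U ^ 2 ≤ K * L * U := by
    calc U ^ 2 ≤ L * ∑ i ∈ range m, ((G i + G (i + 1)) / 2) ^ 2 := hCS
      _ ≤ L * (K * U) := mul_le_mul_of_nonneg_left hS hLnn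
      _ = K * L * U := by ring
  rcases hUnn.lt_or_eq with hpos | hz
  · have : U * U ≤ K * L * U := by rw [← sq]; exact hfin
    exact le_of_mul_le_mul_right this hpos
  · rw [← hz]; positivity

end Pool.Agent.R3.Relax
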