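import Pool.Agent.R3.Relax

set_option autoImplicit false

namespace Pool.Agent.R3.Relax

open Finset

/-- the multiset `s` has variance sum at most `R` -/
def Bd (R : ℝ) (s : Multiset ℝ) : Prop := ∃ c : ℝ, (s.map fun x => (x - c) ^ 2).sum ≤ R

lemma sum_expand (s : Multiset ℝ) (c : ℝ) :
    (s.map fun x => (x - c) ^ 2).sum
      = (s.map fun x => x ^ 2).sum - 2 * c * s.sum + c ^ 2 * (Multiset.card s : ℝ) := by
  induction s using Multiset.induction with
  | empty => simp
  | cons a s ih =>
    simp only [Multiset.map_cons, Multiset.sum_cons, Multiset.card_cons, ih]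
    push_cast
    ring

lemma Bd_iff (R : ℝ) (s : Multiset ℝ) (hs : 0 < Multiset.card s) :
    Bd R s ↔ (s.map fun x => x ^ 2).sum - s.sum ^ 2 / (Multiset.card s : ℝ) ≤ R := by
  have hpos : (0 : ℝ) < (Multiset.card s : ℝ) := by exact_mod_cast hs
  constructor
  · rintro ⟨c, hc⟩
    rw [sum_expand] at hc
    have h : (s.map fun x => x ^ 2).sum - s.sum ^ 2 / (Multiset.card s : ℝ) ≤
        (s.map fun x => x ^ 2).sum - 2 * c * s.sum + c ^ 2 * (Multiset.card s : ℝ) := by
      have h2 : (s.map fun x => x ^ 2).sum - 2 * c * s.sum + c ^ 2 * (Multiset.card s : ℝ)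
          - ((s.map fun x => x ^ 2).sum - s.sum ^ 2 / (Multiset.card s : ℝ))
          = (s.sum - c * (Multiset.card s : ℝ)) ^ 2 / (Multiset.card s : ℝ) := by
        field_simp
        ring
      have h3 : 0 ≤ (s.sum - c * (Multiset.card s : ℝ)) ^ 2 / (Multiset.card s : ℝ) := by
        positivity
      linarith
    linarith
  · intro h
    refine ⟨s.sum / (Multiset.card s : ℝ), ?_⟩
    rw [sum_expand]
    refine le_of_eq_of_le ?_ h
    field_simp
    ring

/-- Moving one point of a multiset to one of the two ends of an interval containing it does not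
decrease the variance sum. -/
lemma Bd_cons (R A B x : ℝ) (s : Multiset ℝ) (hA : A ≤ x) (hB : x ≤ B)
    (h1 : Bd R (A ::ₘ s)) (h2 : Bd R (B ::ₘ s)) : Bd R (x ::ₘ s) := by
  rw [Bd_iff _ _ (by simp)] at h1 h2 ⊢
  simp only [Multiset.map_cons, Multiset.sum_cons, Multiset.card_cons] at h1 h2 ⊢
  push_cast at h1 h2 ⊢
  set n : ℝ := (Multiset.card s : ℝ) with hn
  have hn0 : 0 ≤ n := Nat.cast_nonneg _
  set S1 := s.sum
  set S2 := (s.map fun x => x ^ 2).sum
  rcases (hA.trans hB).lt_or_eq with hlt | heq
  · obtain ⟨t, ht0, ht1, hx⟩ : ∃ t : ℝ, 0 ≤ t ∧ t ≤ 1 ∧ x = (1 - t) * A + t * B := by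
      refine ⟨(x - A) / (B - A), div_nonneg (by linarith) (by linarith), ?_, ?_⟩
      · rw [div_le_one (by linarith)]; linarith
      · have : B - A ≠ 0 := by linarith
        field_simp
        ring
    have hid : (1 - t) * (A ^ 2 + S2 - (A + S1) ^ 2 / (n + 1))
        + t * (B ^ 2 + S2 - (B + S1) ^ 2 / (n + 1))
        - (x ^ 2 + S2 - (x + S1) ^ 2 / (n + 1)) = n / (n + 1) * (t * (1 - t) * (B - A) ^ 2) := by
      rw [hx]
      field_simp
      ring
    have hnn : 0 ≤ n / (n + 1) * (t * (1 - t) * (B - A) ^ 2) := by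
      have : 0 ≤ 1 - t := by linarith
      positivity
    nlinarith
  · have : x = A := le_antisymm (by linarith) hA
    rw [this]; exact h1

lemma Bd_add (R A B : ℝ) (t : Multiset ℝ) : ∀ (s : Multiset ℝ) (N : ℕ),
    (∀ x ∈ t, A ≤ x ∧ x ≤ B) → Multiset.card t = N →
    (∀ a b : ℕ, a + b = N → Bd R (Multiset.replicate a A + Multiset.replicate b B + s)) →
    Bd R (t + s) := by
  induction t using Multiset.induction with
  | empty =>
    intro s N _ hN h
    have := h 0 0 (by simpa using hN)
    simpa using this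
  | cons x t ih =>
    intro s N hx hN h
    rw [Multiset.card_cons] at hN
    rw [Multiset.cons_add]
    refine Bd_cons R A B x (t + s) (hx x (Multiset.mem_cons_self _ _)).1
      (hx x (Multiset.mem_cons_self _ _)).2 ?_ ?_
    · rw [← Multiset.add_cons]
      refine ih (A ::ₘ s) (Multiset.card t) (fun y hy => hx y (Multiset.mem_cons_of_mem hy)) rfl ?_
      intro a b hab
      have := h (a + 1) b (by omega)
      convert this using 1
      rw [Multiset.replicate_succ]
      simp only [Multiset.add_cons, Multiset.cons_add]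
    · rw [← Multiset.add_cons]
      refine ih (B ::ₘ s) (Multiset.card t) (fun y hy => hx y (Multiset.mem_cons_of_mem hy)) rfl ?_
      intro a b hab
      have := h a (b + 1) (by omega)
      convert this using 1
      rw [Multiset.replicate_succ]
      simp only [Multiset.add_cons, Multiset.cons_add]

section graph

variable {V : Type*} (G : SimpleGraph V)

/-- midpoint value of an edge -/
noncomputable def mid (f : V → ℝ) (e : Sym2 V) : ℝ :=
  Sym2.lift ⟨fun u v => (f u + f v) / 2, fun u v => by ring⟩ e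

/-- squared difference along an edge -/
noncomputable def len2 (f : V → ℝ) (e : Sym2 V) : ℝ :=
  Sym2.lift ⟨fun u v => (f u - f v) ^ 2, fun u v => by ring⟩ e

@[simp] lemma mid_mk (f : V → ℝ) (u v : V) : mid f s(u, v) = (f u + f v) / 2 := rfl
@[simp] lemma len2_mk (f : V → ℝ) (u v : V) : len2 f s(u, v) = (f u - f v) ^ 2 := rfl

lemma len2_nonneg (f : V → ℝ) (e : Sym2 V) : 0 ≤ len2 f e := by
  induction e with
  | _ u v => rw [len2_mk]; positivity

lemma sum_edges_walk (F : Sym2 V → ℝ) {u v : V} (p : G.Walk u v) :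
    (p.edges.map F).sum = ∑ i ∈ range p.length, F s(p.getVert i, p.getVert (i + 1)) := by
  induction p with
  | nil => simp
  | cons h p ih =>
    rw [SimpleGraph.Walk.edges_cons, List.map_cons, List.sum_cons, ih,
      SimpleGraph.Walk.length_cons, sum_range_succ']
    simp only [SimpleGraph.Walk.getVert_cons_succ, SimpleGraph.Walk.getVert_zero]
    ring

/-- a function along a walk, with `a` repetitions of the first value -/
lemma extend_sum (f : V → ℝ) {u v : V} (p : G.Walk u v) (a b : ℕ) (H : ℝ → ℝ → ℝ) :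
    ∑ i ∈ range (a + (p.length + b)), H (f (p.getVert (i - a))) (f (p.getVert (i + 1 - a)))
      = a * H (f u) (f u)
        + (∑ i ∈ range p.length, H (f (p.getVert i)) (f (p.getVert (i + 1))) + b * H (f v) (f v))
      := by
  rw [sum_range_add, sum_range_add]
  congr 1
  · rw [← nsmul_eq_mul, ← card_range a, ← sum_const, card_range]
    refine sum_congr rfl fun i hi => ?_
    rw [mem_range] at hi
    rw [show i - a = 0 by omega, show i + 1 - a = 0 by omega, SimpleGraph.Walk.getVert_zero]
  · congr 1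
    · refine sum_congr rfl fun i hi => ?_
      rw [show a + i - a = i by omega, show a + i + 1 - a = i + 1 by omega]
    · rw [← nsmul_eq_mul, ← card_range b, ← sum_const, card_range]
      refine sum_congr rfl fun i hi => ?_
      rw [p.getVert_of_length_le (by omega), p.getVert_of_length_le (by omega)]

theorem edge_bound [Fintype V] [DecidableEq V] [DecidableRel G.Adj] (hG : G.Connected)
    (f : V → ℝ) (hm : 1 ≤ G.edgeFinset.card) :
    ∃ c : ℝ, ∑ e ∈ G.edgeFinset, (mid f e - c) ^ 2 ≤
      ((G.edgeFinset.card : ℝ) ^ 2 / Real.pi ^ 2) * ∑ e ∈ G.edgeFinset, len2 f e := by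
  have := hG.nonempty
  obtain ⟨u, hu⟩ := Finite.exists_min f
  obtain ⟨w, hw⟩ := Finite.exists_max f
  obtain ⟨p, hp⟩ := (hG.preconnected u w).exists_isPath
  set m := G.edgeFinset.card with hmdef
  set K : ℝ := (m : ℝ) ^ 2 / Real.pi ^ 2 with hK
  set R : ℝ := K * ∑ e ∈ G.edgeFinset, len2 f e with hR
  set P : Finset (Sym2 V) := p.edges.toFinset with hP
  have hPsub : P ⊆ G.edgeFinset := by
    intro e he
    rw [hP, List.mem_toFinset] at he
    rw [SimpleGraph.mem_edgeFinset]
    exact p.edges_subset_edgeSet he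
  have hnodup : p.edges.Nodup := hp.isTrail.edges_nodup
  have hPval : P.val = (p.edges : Multiset (Sym2 V)) := by
    rw [hP, List.toFinset_val, hnodup.dedup]
  have hPcard : P.card = p.length := by
    rw [hP, List.toFinset_card_of_nodup hnodup, SimpleGraph.Walk.length_edges]
  have hcard : (G.edgeFinset \ P).card + p.length = m := by
    rw [← hPcard]
    exact card_sdiff_add_card_eq_card hPsub
  have hsplit : G.edgeFinset.val = (G.edgeFinset \ P).val + P.val := by
    have h := sdiff_union_of_subset hPsub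
    have h2 : (G.edgeFinset \ P).disjUnion P sdiff_disjoint = G.edgeFinset := by
      rw [disjUnion_eq_union]; exact h
    have h3 := congrArg Finset.val h2
    rw [← h3]
    rfl
  have hsumP : ∀ F : Sym2 V → ℝ, ∑ e ∈ P, F e
      = ∑ i ∈ range p.length, F s(p.getVert i, p.getVert (i + 1)) := by
    intro F
    rw [← sum_edges_walk G F p, hP, List.sum_toFinset _ hnodup]
  have hmain : Bd R (((G.edgeFinset \ P).val.map (mid f)) + P.val.map (mid f)) := by
    refine Bd_add R (f u) (f w) _ _ (G.edgeFinset \ P).card ?_ ?_ ?_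
    · intro x hx
      rw [Multiset.mem_map] at hx
      obtain ⟨e, -, rfl⟩ := hx
      induction e with
      | _ a b =>
        rw [mid_mk]
        have := hu a; have := hu b; have := hw a; have := hw b
        constructor <;> linarith
    · rw [Multiset.card_map]; rfl
    · intro a b hab
      obtain ⟨c, hc⟩ := wirtinger m hm (fun i => f (p.getVert (i - a)))
      have hmab : m = a + (p.length + b) := by omega
      refine ⟨c, ?_⟩
      rw [hmab] at hc
      have e1 := extend_sum G f p a b (fun x y => ((x + y) / 2 - c) ^ 2)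
      have e2 := extend_sum G f p a b (fun x y => (y - x) ^ 2)
      rw [e1, e2, ← hmab] at hc
      simp only [Multiset.map_add, Multiset.sum_add, Multiset.map_replicate,
        Multiset.sum_replicate, Multiset.map_map, Function.comp_def, nsmul_eq_mul]
      have e3 : (P.val.map fun e => (mid f e - c) ^ 2).sum
          = ∑ i ∈ range p.length,
            ((f (p.getVert i) + f (p.getVert (i + 1))) / 2 - c) ^ 2 := by
        have := hsumP (fun e => (mid f e - c) ^ 2)
        simp only [mid_mk] at this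
        rw [← this]
        rfl
      rw [e3]
      have e4 : ∑ i ∈ range p.length, (f (p.getVert (i + 1)) - f (p.getVert i)) ^ 2
          ≤ ∑ e ∈ G.edgeFinset, len2 f e := by
        have h5 := hsumP (fun e => len2 f e)
        simp only [len2_mk] at h5
        calc ∑ i ∈ range p.length, (f (p.getVert (i + 1)) - f (p.getVert i)) ^ 2
            = ∑ e ∈ P, len2 f e := by
              rw [h5]
              exact sum_congr rfl fun i _ => by ring
          _ ≤ _ := sum_le_sum_of_subset_of_nonneg hPsub fun e _ _ => len2_nonneg f e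
      have hK0 : 0 ≤ K := by positivity
      have e5 := mul_le_mul_of_nonneg_left e4 hK0
      have e6 : (f u + f u) / 2 = f u := by ring
      have e7 : (f w + f w) / 2 = f w := by ring
      rw [e6, e7, sub_self, sub_self] at hc
      simp only [ne_eq, OfNat.ofNat_ne_zero, not_false_eq_true, zero_pow, mul_zero, zero_add,
        add_zero] at hc
      rw [hR]
      linarith
  obtain ⟨c, hc⟩ := hmain
  refine ⟨c, ?_⟩
  rw [← Multiset.map_add, ← hsplit, Multiset.map_map] at hc
  exact hc

variable [Fintype V] [DecidableEq V] [DecidableRel G.Adj]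

lemma sum_darts_edge (F : Sym2 V → ℝ) :
    ∑ d : G.Dart, F d.edge = 2 * ∑ e ∈ G.edgeFinset, F e := by
  have hmaps : ∀ d ∈ (univ : Finset G.Dart), d.edge ∈ G.edgeFinset := by
    intro d _
    rw [SimpleGraph.mem_edgeFinset]
    exact d.edge_mem
  rw [← sum_fiberwise_of_maps_to hmaps, mul_sum]
  refine sum_congr rfl fun e he => ?_
  rw [SimpleGraph.mem_edgeFinset] at he
  have h1 : ∑ d ∈ univ.filter (fun d : G.Dart => d.edge = e), F d.edge
      = ∑ d ∈ univ.filter (fun d : G.Dart => d.edge = e), F e :=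
    sum_congr rfl fun d hd => by rw [(mem_filter.1 hd).2]
  rw [h1, sum_const, G.dart_edge_fiber_card e he]
  simp

lemma sum_darts_pair (H : V → V → ℝ) :
    ∑ d : G.Dart, H d.fst d.snd = ∑ u, ∑ v, (if G.Adj u v then H u v else 0) := by
  rw [← sum_product' univ univ (fun u v => if G.Adj u v then H u v else 0), ← sum_filter]
  refine sum_bij' (fun d _ => (d.fst, d.snd))
    (fun xy h => ⟨xy, (mem_filter.1 h).2⟩) ?_ ?_ ?_ ?_ ?_ <;> simp

lemma sum_degree_eq (f : V → ℝ) (c : ℝ) :
    ∑ v, (G.degree v : ℝ) * (f v - c) ^ 2 = ∑ e ∈ G.edgeFinset,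
      (2 * (mid f e - c) ^ 2 + len2 f e / 2) := by
  have h1 : ∑ d : G.Dart, ((f d.fst - c) ^ 2 + (f d.snd - c) ^ 2)
      = 2 * ∑ e ∈ G.edgeFinset, (2 * (mid f e - c) ^ 2 + len2 f e / 2) := by
    rw [← sum_darts_edge]
    refine sum_congr rfl fun d _ => ?_
    obtain ⟨⟨a, b⟩, hab⟩ := d
    simp only [SimpleGraph.Dart.edge_mk, mid_mk, len2_mk]
    ring
  have h2 : ∑ d : G.Dart, (f d.fst - c) ^ 2 = ∑ v, (G.degree v : ℝ) * (f v - c) ^ 2 := by
    rw [sum_darts_pair G (fun u _ => (f u - c) ^ 2)]
    refine sum_congr rfl fun u _ => ?_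
    rw [← sum_filter, sum_const, nsmul_eq_mul, ← SimpleGraph.neighborFinset_eq_filter,
      SimpleGraph.card_neighborFinset_eq_degree]
  have h3 : ∑ d : G.Dart, (f d.snd - c) ^ 2 = ∑ d : G.Dart, (f d.fst - c) ^ 2 := by
    refine sum_bij' (fun d _ => d.symm) (fun d _ => d.symm) ?_ ?_ ?_ ?_ ?_ <;> simp
  rw [sum_add_distrib, h3, h2] at h1
  linarith

/-- **The relaxation time of a connected graph with `m` edges is at most `1/2 + 2 m² / π²`.** -/
theorem relax_bound (hG : G.Connected) (f : V → ℝ) (hm : 1 ≤ G.edgeFinset.card) :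
    ∃ c : ℝ, ∑ v, (G.degree v : ℝ) * (f v - c) ^ 2 ≤
      (2 * (G.edgeFinset.card : ℝ) ^ 2 / Real.pi ^ 2 + 1 / 2) *
        ((1 / 2 : ℝ) * ∑ u, ∑ v, (if G.Adj u v then (f u - f v) ^ 2 else 0)) := by
  obtain ⟨c, hc⟩ := edge_bound G hG f hm
  refine ⟨c, ?_⟩
  rw [sum_degree_eq]
  have h1 : (1 / 2 : ℝ) * ∑ u, ∑ v, (if G.Adj u v then (f u - f v) ^ 2 else 0)
      = ∑ e ∈ G.edgeFinset, len2 f e := by
    rw [← sum_darts_pair G (fun u v => (f u - f v) ^ 2)]
    have := sum_darts_edge G (len2 f)
    have h2 : ∑ d : G.Dart, (f d.fst - f d.snd) ^ 2 = ∑ d : G.Dart, len2 f d.edge := by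
      refine sum_congr rfl fun d _ => ?_
      obtain ⟨⟨a, b⟩, hab⟩ := d
      simp only [SimpleGraph.Dart.edge_mk, len2_mk]
    rw [h2, this]
    ring
  rw [h1, sum_add_distrib, ← mul_sum, ← sum_div]
  have : 2 * (G.edgeFinset.card : ℝ) ^ 2 / Real.pi ^ 2
      = 2 * ((G.edgeFinset.card : ℝ) ^ 2 / Real.pi ^ 2) := by ring
  rw [this, add_mul]
  linarith

end graph

end Pool.Agent.R3.Relax
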